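import Pool.Agent.Helper120.Ea.Defs3


open Finset

namespace Pool.Agent.Helper120.Ea

section blk
open Classical

variable {M r : ℕ}

/-- small part of the weight of the edge `e` of a block -/
def sm (Bw μw : ℕ) (e : BE M r) : ℕ :=
  if e.2.val = r + 1 then (2 * e.1.val + 1) * Bw
  else if e.2.val = 0 then 2 * e.1.val * Bw else 2 * e.1.val * Bw + μw

lemma code_phi {R : Finset (ℕ × ℕ)} {κ : ℕ → ℕ} (hV : Valid M R) (hκ : ∀ j, κ j ≤ r) :
    ∃ φ : Fin M → BE M r, Function.Injective φ ∧ enc M r R κ = univ.image φ ∧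
      (∀ p ∈ R, ∀ j : Fin M, j.val = p.1 → (φ j).1.val = p.2 ∧ (φ j).2.val = r + 1) ∧
      (∀ j : Fin M, (∀ p ∈ R, p.1 ≠ j.val) → (φ j).1 = j ∧ (φ j).2.val = κ j) := by
  let φ : Fin M → BE M r := fun j =>
    if h : ∃ p ∈ R, p.1 = j.val then
      (⟨h.choose.2, hV.lt _ h.choose_spec.1⟩, ⟨r + 1, by omega⟩)
    else (j, ⟨κ j, by have := hκ j; omega⟩)
  have hφ1 : ∀ p (hp : p ∈ R), ∀ j : Fin M, j.val = p.1 →
      φ j = (⟨p.2, hV.lt _ hp⟩, ⟨r + 1, by omega⟩) := by
    intro p hp j hj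
    have h : ∃ p ∈ R, p.1 = j.val := ⟨p, hp, hj.symm⟩
    have h2 : h.choose = p := hV.eq_of_fst h.choose_spec.1 hp (h.choose_spec.2.trans hj)
    simp only [φ, dif_pos h]
    congr!
  have hφ2 : ∀ j : Fin M, (∀ p ∈ R, p.1 ≠ j.val) → φ j = (j, ⟨κ j, by have := hκ j; omega⟩) := by
    intro j hj
    have h : ¬ ∃ p ∈ R, p.1 = j.val := by push Not; exact hj
    simp only [φ, dif_neg h]
  have hdich : ∀ j : Fin M, (∃ p ∈ R, j.val = p.1) ∨ (∀ p ∈ R, p.1 ≠ j.val) := by
    intro j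
    by_cases h : ∃ p ∈ R, j.val = p.1
    · exact Or.inl h
    · right
      push Not at h
      exact fun p hp => (h p hp).symm
  have himg : enc M r R κ = univ.image φ := by
    ext e
    rw [mem_enc, mem_image]
    constructor
    · rintro (⟨h1, p, hp, h2⟩ | ⟨h1, h2, h3⟩)
      · have := hV.le p hp
        have := hV.lt p hp
        refine ⟨⟨p.1, by omega⟩, mem_univ _, ?_⟩
        rw [hφ1 p hp _ rfl, be_eq_iff]
        exact ⟨h2, h1.symm⟩
      · refine ⟨e.1, mem_univ _, ?_⟩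
        rw [hφ2 _ h3, be_eq_iff]
        exact ⟨rfl, h1.symm⟩
    · rintro ⟨j, _, rfl⟩
      rcases hdich j with ⟨p, hp, h⟩ | h
      · rw [hφ1 p hp j h]
        left
        exact ⟨rfl, p, hp, rfl⟩
      · rw [hφ2 j h]
        right
        exact ⟨rfl, hκ _, h⟩
  have hinj : Function.Injective φ := by
    intro i j hij
    rcases hdich i with ⟨p, hp, h⟩ | h <;> rcases hdich j with ⟨q, hq, h'⟩ | h'
    · rw [hφ1 p hp i h, hφ1 q hq j h', be_eq_iff] at hij
      have := hV.eq_of_snd hp hq hij.1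
      subst this
      exact Fin.ext (h.trans h'.symm)
    · rw [hφ1 p hp i h, hφ2 j h', be_eq_iff] at hij
      have := hκ j
      have := hij.2
      simp only at this
      omega
    · rw [hφ2 i h, hφ1 q hq j h', be_eq_iff] at hij
      have := hκ i
      have := hij.2
      simp only at this
      omega
    · rw [hφ2 i h, hφ2 j h', be_eq_iff] at hij
      exact Fin.ext hij.1
  refine ⟨φ, hinj, himg, ?_, ?_⟩
  · intro p hp j hj
    rw [hφ1 p hp j hj]
    exact ⟨rfl, rfl⟩
  · intro j hj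
    rw [hφ2 j hj]
    exact ⟨rfl, rfl⟩

theorem card_code {T : Finset (BE M r)} (hT : IsCode M r T) : T.card = M := by
  obtain ⟨R, κ, hV, hκ, rfl⟩ := hT
  obtain ⟨φ, hinj, himg, _, _⟩ := code_phi hV hκ
  rw [himg, card_image_of_injective _ hinj, card_univ, Fintype.card_fin]

theorem sum_sm (Bw μw : ℕ) {T : Finset (BE M r)} (hT : IsCode M r T) :
    ∑ e ∈ T, sm Bw μw e = Bw * (∑ j ∈ range M, 2 * j) + Bw * JJ T + μw * nn T := by
  obtain ⟨R, κ, hV, hκ, rfl⟩ := hT
  obtain ⟨φ, hinj, himg, h1, h2⟩ := code_phi hV hκ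
  have hJ : JJ (enc M r R κ) = ∑ p ∈ R, (2 * (p.2 - p.1) + 1) := by
    unfold JJ; rw [runs_enc hV hκ]
  have hn : nn (enc M r R κ) =
      ∑ j : Fin M, if (φ j).2.val ≠ 0 ∧ (φ j).2.val ≤ r then 1 else 0 := by
    unfold nn tin
    rw [himg, filter_image, card_image_of_injective _ hinj, card_filter]
  rw [hJ, hn, himg, sum_image hinj.injOn, sum_range, mul_sum, mul_sum, mul_sum]
  have hsw : ∑ p ∈ R, Bw * (2 * (p.2 - p.1) + 1) =
      ∑ j : Fin M, ∑ p ∈ R, if j.val = p.1 then Bw * (2 * (p.2 - p.1) + 1) else 0 := by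
    rw [sum_comm]
    refine sum_congr rfl fun p hp => ?_
    have hlt : p.1 < M := lt_of_le_of_lt (hV.le p hp) (hV.lt p hp)
    rw [sum_eq_single (⟨p.1, hlt⟩ : Fin M)]
    · simp
    · intro b _ hb
      rw [if_neg]
      intro h
      exact hb (Fin.ext h)
    · intro h
      exact absurd (mem_univ _) h
  rw [hsw, ← sum_add_distrib, ← sum_add_distrib]
  refine sum_congr rfl fun j _ => ?_
  by_cases hj : ∃ p ∈ R, j.val = p.1
  · obtain ⟨p, hp, hjp⟩ := hj
    obtain ⟨e1, e2⟩ := h1 p hp j hjp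
    rw [sum_eq_single p]
    · unfold sm
      rw [if_pos e2, e1, if_pos hjp, if_neg (by omega)]
      have := hV.le p hp
      obtain ⟨q, hq⟩ := Nat.exists_eq_add_of_le this
      rw [hq, hjp]
      have : p.1 + q - p.1 = q := by omega
      rw [this]
      ring
    · intro q hq hne
      rw [if_neg]
      intro h
      exact hne (hV.eq_of_fst hq hp (by omega))
    · intro h
      exact absurd hp h
  · push Not at hj
    obtain ⟨e1, e2⟩ := h2 j (fun p hp => (hj p hp).symm)
    rw [sum_eq_zero (fun p hp => if_neg (hj p hp))]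
    unfold sm
    have := hκ j
    rw [if_neg (by omega), e2, e1]
    by_cases h0 : κ j = 0
    · rw [if_pos h0, if_neg (by omega)]; ring
    · rw [if_neg h0, if_pos (by omega)]; ring

lemma valid_empty : Valid M ∅ := ⟨by simp, by simp, by simp⟩

/-- the optimal tree of a block -/
theorem isCode_opt : IsCode M r (enc M r ∅ (fun _ => 0)) ∧
    JJ (enc M r ∅ (fun _ => 0)) = 0 ∧ nn (enc M r ∅ (fun _ => 0)) = 0 := by
  have hκ : ∀ j : ℕ, (fun _ : ℕ => 0) j ≤ r := fun _ => Nat.zero_le _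
  refine ⟨⟨∅, _, valid_empty, hκ, rfl⟩, ?_, ?_⟩
  · unfold JJ; rw [runs_enc valid_empty hκ]; simp
  · unfold nn tin
    rw [card_eq_zero, filter_eq_empty_iff]
    intro e he
    rw [mem_enc] at he
    rcases he with he | he
    · omega
    · omega

/-- the start tree of the first block: all copies equal to one -/
theorem isCode_start (hr : 1 ≤ r) : IsCode M r (enc M r ∅ (fun _ => 1)) ∧
    JJ (enc M r ∅ (fun _ => 1)) = 0 ∧ nn (enc M r ∅ (fun _ => 1)) = M := by
  have hκ : ∀ j : ℕ, (fun _ : ℕ => 1) j ≤ r := fun _ => hr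
  have hc : IsCode M r (enc M r ∅ (fun _ => 1)) := ⟨∅, _, valid_empty, hκ, rfl⟩
  refine ⟨hc, ?_, ?_⟩
  · unfold JJ; rw [runs_enc valid_empty hκ]; simp
  · unfold nn tin
    rw [filter_true_of_mem]
    · exact card_code hc
    · intro e he
      rw [mem_enc] at he
      rcases he with he | he
      · simp at he
      · omega

theorem JJ_le {T : Finset (BE M r)} (hT : IsCode M r T) : JJ T ≤ 2 * M - 1 :=
  card_cov_le hT.valid

end blk

end Pool.Agent.Helper120.Ea
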