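import Pool.Agent.Helper120.Ea.Heal


open Finset

namespace Pool.Agent.Helper120.Ea

section blk
open Classical

variable {M r : ℕ}


lemma psi_nonneg' (l0 : ℕ) {d : ℝ} (hd : 0 ≤ d) (hd2 : d ≤ 1 / 4) (l : ℕ) : 0 ≤ psi l0 d l := by
  unfold psi
  have := le_max_left (0:ℝ) (((l : ℝ) / l0) ^ (1 / 10 : ℝ) - 1)
  have := mul_nonneg hd this
  linarith

lemma XX_nonneg' {l0 : ℕ} {d : ℝ} (hd : 0 ≤ d) (hd2 : d ≤ 1 / 4) (T : Finset (BE M r)) :
    0 ≤ XX l0 d T := by
  unfold XX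
  have : 0 ≤ ∑ p ∈ runs T, psi l0 d (p.2 - p.1 + 1) :=
    sum_nonneg fun p _ => psi_nonneg' l0 hd hd2 _
  positivity

lemma log_bounds' (hM : 1 ≤ M) {T : Finset (BE M r)} (hT : IsCode M r T) :
    0 ≤ Real.log (1 + JJ T) / Real.log (2 * M) ∧ Real.log (1 + JJ T) / Real.log (2 * M) ≤ 1 := by
  have h1 : (1:ℝ) ≤ M := by exact_mod_cast hM
  have h2 : 0 < Real.log (2 * M) := Real.log_pos (by linarith)
  have h3 : (0:ℝ) ≤ JJ T := by positivity
  constructor
  · exact div_nonneg (Real.log_nonneg (by linarith)) h2.le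
  · rw [div_le_one h2]
    apply Real.log_le_log (by linarith)
    have h4 : JJ T ≤ 2 * M - 1 := card_cov_le hT.valid
    have h5 : 1 + JJ T ≤ 2 * M := by omega
    exact_mod_cast h5

theorem Phi_bounds {l0 : ℕ} {d H : ℝ} (hd : 0 ≤ d) (hd2 : d ≤ 1 / 4) (hH : 0 ≤ H) (hM : 1 ≤ M)
    {T : Finset (BE M r)} (hT : IsCode M r T) :
    0 ≤ Phi l0 d H T ∧ Phi l0 d H T ≤ DD H 0 + 1 := by
  have hX := XX_nonneg' (l0 := l0) hd hd2 T
  have h1 := DD_nonneg hH hX
  have h2 := DD_anti hH (le_refl (0:ℝ)) hX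
  obtain ⟨h3, h4⟩ := log_bounds' hM hT
  unfold Phi
  constructor <;> linarith

/-- probability of at least three flips -/
theorem three_flips {m : ℝ} (hm : 1 ≤ m) (T : Finset (BE M r)) :
    ∑ T' ∈ (Finset.univ : Finset (Finset (BE M r))).filter (fun T' => 3 ≤ (symmDiff T T').card),
      qq m T T' ≤ ((r + 2) * M / m) ^ 3 := by
  have h := wub_g hm T (powersetCard 3 (univ : Finset (BE M r))) id (fun _ => 1)
    (fun _ _ => zero_le_one) (fun _ => 1)
    ((Finset.univ : Finset (Finset (BE M r))).filter (fun T' => 3 ≤ (symmDiff T T').card)) ?_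
  · simp only [mul_one, id_eq, one_mul] at h
    refine h.trans ?_
    have h2 : ∑ i ∈ powersetCard 3 (univ : Finset (BE M r)), (1 / m) ^ i.card =
        ((powersetCard 3 (univ : Finset (BE M r))).card : ℝ) * (1 / m) ^ 3 := by
      rw [← nsmul_eq_mul]
      apply sum_eq_card_nsmul
      intro x hx
      rw [(mem_powersetCard.mp hx).2]
    rw [h2, card_powersetCard, div_pow, card_univ, Fintype.card_prod, Fintype.card_fin,
      Fintype.card_fin, div_pow, one_pow, mul_one_div]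
    apply div_le_div_of_nonneg_right _ (by positivity)
    have h3 : (M * (r + 2)).choose 3 ≤ (M * (r + 2)) ^ 3 := Nat.choose_le_pow _ _
    have h4 : (((M * (r + 2)).choose 3 : ℕ) : ℝ) ≤ (((M * (r + 2)) ^ 3 : ℕ) : ℝ) := by
      exact_mod_cast h3
    push_cast at h4
    calc (((M * (r + 2)).choose 3 : ℕ) : ℝ) ≤ ((M:ℝ) * (r + 2)) ^ 3 := h4
      _ = _ := by ring
  · intro T' hT'
    rw [mem_filter] at hT'
    obtain ⟨S, hS, hS3⟩ := exists_subset_card_eq hT'.2
    have h1 := single_le_sum (s := powersetCard 3 (univ : Finset (BE M r)))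
      (f := fun i => if id i ⊆ symmDiff T T' then (1:ℝ) else 0) (fun i _ => by
        split_ifs <;> norm_num) (mem_powersetCard.mpr ⟨subset_univ S, hS3⟩)
    have h0 : (if id S ⊆ symmDiff T T' then (1:ℝ) else 0) = 1 := if_pos hS
    simp only [h0] at h1
    exact h1

lemma IsCode.pres_iff {T : Finset (BE M r)} (hT : IsCode M r T) {j : ℕ} (hj : j < M) :
    pres T j ↔ ∀ p ∈ runs T, p.1 ≠ j := by
  obtain ⟨R, κ, hV, hκ, rfl⟩ := hT
  rw [runs_enc hV hκ]
  exact pres_enc hκ hj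

lemma IsCode.spk_iff {T : Finset (BE M r)} (hT : IsCode M r T) {j : ℕ} :
    spk T j ↔ ∃ p ∈ runs T, p.2 = j := by
  obtain ⟨R, κ, hV, hκ, rfl⟩ := hT
  rw [runs_enc hV hκ]
  exact spk_enc hV

lemma IsCode.end_back {T : Finset (BE M r)} (hT : IsCode M r T) {e : ℕ} (he : spk T e) :
    ∃ s, s ≤ e ∧ e < M ∧ ¬ pres T s ∧ ∀ t, s ≤ t → t < e → ¬ spk T t := by
  obtain ⟨p, hp, rfl⟩ := hT.spk_iff.mp he
  rw [mem_runs] at hp
  exact ⟨p.1, hp.1, hp.2.1, hp.2.2.1, hp.2.2.2.2.1⟩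

lemma IsCode.start_fwd {T : Finset (BE M r)} (hT : IsCode M r T) {a : ℕ} (ha : a < M)
    (h : ¬ pres T a) : ∃ e, a ≤ e ∧ e < M ∧ spk T e ∧ (∀ t, a ≤ t → t < e → ¬ spk T t) ∧
      ∀ i, a < i → i ≤ e → pres T i := by
  rw [hT.pres_iff ha] at h
  push Not at h
  obtain ⟨p, hp, rfl⟩ := h
  rw [mem_runs] at hp
  exact ⟨p.2, hp.1, hp.2.1, hp.2.2.2.2.2, hp.2.2.2.2.1, hp.2.2.2.1⟩

lemma IsCode.between {T : Finset (BE M r)} (hT : IsCode M r T) {a b : ℕ} (ha : ¬ pres T a)
    (hb : ¬ pres T b) (hab : a < b) (hbM : b < M) : ∃ x, a ≤ x ∧ x < b ∧ spk T x := by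
  obtain ⟨e, h1, h2, h3, h4, h5⟩ := hT.start_fwd (hab.trans hbM) ha
  refine ⟨e, h1, ?_, h3⟩
  by_contra hcon
  exact hb (h5 b hab (by omega))

lemma pres_swap {T : Finset (BE M r)} (hT : IsCode M r T) {f g : BE M r} (hf : f ∈ T)
    (hg : g.2.val ≤ r) {j : ℕ} : pres (insert g (T.erase f)) j ↔
      j = g.1.val ∨ (pres T j ∧ ¬ (f.2.val ≤ r ∧ j = f.1.val)) := by
  unfold pres
  constructor
  · rintro ⟨e, he, h1, h2⟩
    rw [mem_insert, mem_erase] at he
    rcases he with rfl | ⟨he1, he2⟩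
    · exact Or.inl h1.symm
    · right
      refine ⟨⟨e, he2, h1, h2⟩, ?_⟩
      rintro ⟨h3, h4⟩
      exact he1 (hT.copy_unique he2 hf (Fin.ext (h1.trans h4)) h2 h3)
  · rintro (rfl | ⟨⟨e, he, h1, h2⟩, h3⟩)
    · exact ⟨g, mem_insert_self _ _, rfl, hg⟩
    · refine ⟨e, ?_, h1, h2⟩
      rw [mem_insert, mem_erase]
      right
      refine ⟨?_, he⟩
      rintro rfl
      exact h3 ⟨h2, h1.symm⟩

lemma spk_swap {T : Finset (BE M r)} {f g : BE M r}
    (hg : g.2.val ≤ r) {j : ℕ} : spk (insert g (T.erase f)) j ↔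
      spk T j ∧ ¬ (f.2.val = r + 1 ∧ j = f.1.val) := by
  unfold spk
  constructor
  · rintro ⟨e, he, h1, h2⟩
    rw [mem_insert, mem_erase] at he
    rcases he with rfl | ⟨he1, he2⟩
    · omega
    · refine ⟨⟨e, he2, h1, h2⟩, ?_⟩
      rintro ⟨h3, h4⟩
      exact he1 (be_eq_iff.mpr ⟨h1.trans h4, h2.trans h3.symm⟩)
  · rintro ⟨⟨e, he, h1, h2⟩, h3⟩
    refine ⟨e, ?_, h1, h2⟩
    rw [mem_insert, mem_erase]
    right
    refine ⟨?_, he⟩
    rintro rfl
    exact h3 ⟨h2, h1.symm⟩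

/-- removing a copy, filling the start `g.1` -/
lemma near_copy {T : Finset (BE M r)} (hT : IsCode M r T) {f g : BE M r} (hf : f ∈ T)
    (hg : g.2.val ≤ r) (hfr : f.2.val ≤ r) (hT' : IsCode M r (insert g (T.erase f)))
    (ha : ¬ pres T g.1.val) {e : ℕ} (h1 : g.1.val ≤ e) (he : spk T e)
    (h5 : ∀ i, g.1.val < i → i ≤ e → pres T i) :
    f.1.val ≤ e ∧ ∀ t, f.1.val ≤ t → t < e → ¬ spk T t := by
  have he' : spk (insert g (T.erase f)) e := by
    rw [spk_swap hg]; exact ⟨he, fun h => by omega⟩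
  obtain ⟨s, hs1, hs2, hs3, hs4⟩ := hT'.end_back he'
  rw [pres_swap hT hf hg] at hs3
  push Not at hs3
  obtain ⟨hs5, hs6⟩ := hs3
  have key : s = f.1.val := by
    by_contra hne
    have hsT : ¬ pres T s := fun h => hne (hs6 h).2
    rcases lt_trichotomy s g.1.val with h | h | h
    · obtain ⟨x, hx1, hx2, hx3⟩ := hT.between hsT ha h g.1.isLt
      refine hs4 x hx1 (by omega) ?_
      rw [spk_swap hg]; exact ⟨hx3, fun h => by omega⟩
    · exact hs5 h
    · exact hsT (h5 s h hs1)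
  subst key
  refine ⟨hs1, fun t ht1 ht2 ht3 => hs4 t ht1 ht2 ?_⟩
  rw [spk_swap hg]; exact ⟨ht3, fun h => by omega⟩

/-- removing a spoke, filling the start `g.1` -/
lemma near_spoke {T : Finset (BE M r)} (hT : IsCode M r T) {f g : BE M r} (hf : f ∈ T)
    (hg : g.2.val ≤ r) (hfr : f.2.val = r + 1) (hT' : IsCode M r (insert g (T.erase f)))
    (ha : ¬ pres T g.1.val) {e : ℕ} (h1 : g.1.val ≤ e) (he : spk T e)
    (h5 : ∀ i, g.1.val < i → i ≤ e → pres T i) :
    f.1.val = e ∨ (f.1.val < g.1.val ∧ ∀ t, f.1.val < t → t < e → ¬ spk T t) := by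
  by_cases hfe : f.1.val = e
  · exact Or.inl hfe
  right
  have he' : spk (insert g (T.erase f)) e := by
    rw [spk_swap hg]; exact ⟨he, fun h => hfe h.2.symm⟩
  obtain ⟨s, hs1, hs2, hs3, hs4⟩ := hT'.end_back he'
  rw [pres_swap hT hf hg] at hs3
  push Not at hs3
  obtain ⟨hs5, hs6⟩ := hs3
  have hsT : ¬ pres T s := fun h => by have := (hs6 h).1; omega
  have hsa : s < g.1.val := by
    rcases lt_trichotomy s g.1.val with h | h | h
    · exact h
    · exact absurd h hs5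
    · exact absurd (h5 s h hs1) hsT
  obtain ⟨x, hx1, hx2, hx3⟩ := hT.between hsT ha hsa g.1.isLt
  have hx4 : x = f.1.val := by
    by_contra hne
    refine hs4 x hx1 (by omega) ?_
    rw [spk_swap hg]; exact ⟨hx3, fun h => hne h.2⟩
  subst hx4
  refine ⟨hx2, fun t ht1 ht2 ht3 => hs4 t (by omega) ht2 ?_⟩
  rw [spk_swap hg]; exact ⟨ht3, fun h => by omega⟩

lemma IsCode.card_eq {T : Finset (BE M r)} (hT : IsCode M r T) : T.card = M := by
  obtain ⟨R, κ, hV, hκ, rfl⟩ := hT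
  let φ : Fin M → BE M r := fun j =>
    if h : ∃ p ∈ R, p.1 = j.val then
      (⟨h.choose.2, hV.lt _ h.choose_spec.1⟩, ⟨r + 1, by omega⟩)
    else (j, ⟨κ j, by have := hκ j; omega⟩)
  have hφ1 : ∀ p (hp : p ∈ R), ∀ j : Fin M, j.val = p.1 →
      φ j = (⟨p.2, hV.lt _ hp⟩, ⟨r + 1, by omega⟩) := by
    intro p hp j hj
    have h : ∃ p ∈ R, p.1 = j.val := ⟨p, hp, hj.symm⟩
    have h2 : h.choose = p := hV.eq_of_fst h.choose_spec.1 hp (h.choose_spec.2.trans hj)
    simp only [φ, dif_pos h]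
    congr!
  have hφ2 : ∀ j : Fin M, (∀ p ∈ R, p.1 ≠ j.val) → φ j = (j, ⟨κ j, by have := hκ j; omega⟩) := by
    intro j hj
    have h : ¬ ∃ p ∈ R, p.1 = j.val := by push Not; exact hj
    simp only [φ, dif_neg h]
  have hdich : ∀ j : Fin M, (∃ p ∈ R, j.val = p.1) ∨ (∀ p ∈ R, p.1 ≠ j.val) := by
    intro j
    by_cases h : ∃ p ∈ R, j.val = p.1
    · exact Or.inl h
    · right
      push Not at h
      exact fun p hp => (h p hp).symm
  have himg : enc M r R κ = univ.image φ := by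
    ext e
    rw [mem_enc, mem_image]
    constructor
    · rintro (⟨h1, p, hp, h2⟩ | ⟨h1, h2, h3⟩)
      · have := hV.le p hp
        have := hV.lt p hp
        refine ⟨⟨p.1, by omega⟩, mem_univ _, ?_⟩
        rw [hφ1 p hp _ rfl, be_eq_iff]
        exact ⟨h2, h1.symm⟩
      · refine ⟨e.1, mem_univ _, ?_⟩
        rw [hφ2 _ h3, be_eq_iff]
        exact ⟨rfl, h1.symm⟩
    · rintro ⟨j, _, rfl⟩
      rcases hdich j with ⟨p, hp, h⟩ | h
      · rw [hφ1 p hp j h]
        left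
        exact ⟨rfl, p, hp, rfl⟩
      · rw [hφ2 j h]
        right
        exact ⟨rfl, hκ _, h⟩
  have hinj : Function.Injective φ := by
    intro i j hij
    rcases hdich i with ⟨p, hp, h⟩ | h <;> rcases hdich j with ⟨q, hq, h'⟩ | h'
    · rw [hφ1 p hp i h, hφ1 q hq j h', be_eq_iff] at hij
      have := hV.eq_of_snd hp hq hij.1
      subst this
      exact Fin.ext (h.trans h'.symm)
    · rw [hφ1 p hp i h, hφ2 j h', be_eq_iff] at hij
      have := hκ j
      have := hij.2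
      simp only at this
      omega
    · rw [hφ2 i h, hφ1 q hq j h', be_eq_iff] at hij
      have := hκ i
      have := hij.2
      simp only at this
      omega
    · rw [hφ2 i h, hφ2 j h', be_eq_iff] at hij
      exact Fin.ext hij.1
  rw [himg, card_image_of_injective _ hinj, card_univ, Fintype.card_fin]

lemma near_form {T T' : Finset (BE M r)} (hT : IsCode M r T) (hT' : IsCode M r T') (hne : T' ≠ T)
    (hc : (symmDiff T T').card ≤ 2) : ∃ f g, f ∈ T ∧ f ∉ T' ∧ g ∉ T ∧ g ∈ T' ∧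
      T' = insert g (T.erase f) := by
  have h1 : ∃ f, f ∈ T ∧ f ∉ T' := by
    by_contra hcon
    push Not at hcon
    exact hne (eq_of_subset_of_card_le hcon (by rw [hT.card_eq, hT'.card_eq])).symm
  have h2 : ∃ g, g ∈ T' ∧ g ∉ T := by
    by_contra hcon
    push Not at hcon
    exact hne (eq_of_subset_of_card_le hcon (by rw [hT.card_eq, hT'.card_eq]))
  obtain ⟨f, hf, hf'⟩ := h1
  obtain ⟨g, hg', hg⟩ := h2
  refine ⟨f, g, hf, hf', hg, hg', ?_⟩
  exact eq_swap_of_card_g hf hf' hg hg' hc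


lemma card_PA {T : Finset (BE M r)} (hT : IsCode M r T) :
    (univ.filter fun T' : Finset (BE M r) => ∃ f g : BE M r, f ∈ T ∧ g.2.val = r + 1 ∧
      T' = insert g (T.erase f)).card ≤ M * M := by
  have hsub : (univ.filter fun T' : Finset (BE M r) => ∃ f g : BE M r, f ∈ T ∧ g.2.val = r + 1 ∧
      T' = insert g (T.erase f)) ⊆ (T ×ˢ (univ : Finset (Fin M))).image
        (fun x => insert ((x.2, ⟨r + 1, by omega⟩) : BE M r) (T.erase x.1)) := by
    intro T' hT'
    rw [mem_filter] at hT'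
    obtain ⟨_, f, g, hf, hg, rfl⟩ := hT'
    rw [mem_image]
    refine ⟨(f, g.1), mem_product.mpr ⟨hf, mem_univ _⟩, ?_⟩
    have : g = (g.1, ⟨r + 1, by omega⟩) := be_eq_iff.mpr ⟨rfl, hg⟩
    simp only
    rw [← this]
  refine (card_le_card hsub).trans (card_image_le.trans ?_)
  rw [card_product, hT.card_eq, card_univ, Fintype.card_fin]

lemma card_PB {T : Finset (BE M r)} :
    (univ.filter fun T' : Finset (BE M r) => ∃ g : BE M r,
      T' = insert g (T.filter fun e => ¬ (e.1 = g.1 ∧ e.2.val ≤ r)) ∧ g.2.val ≤ r).card ≤ M * (r + 1) := by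
  have hsub : (univ.filter fun T' : Finset (BE M r) => ∃ g : BE M r,
      T' = insert g (T.filter fun e => ¬ (e.1 = g.1 ∧ e.2.val ≤ r)) ∧ g.2.val ≤ r) ⊆
      (univ : Finset (Fin M × Fin (r + 1))).image (fun x =>
        insert ((x.1, x.2.castSucc) : BE M r) (T.filter fun e => ¬ (e.1 = x.1 ∧ e.2.val ≤ r))) := by
    intro T' hT'
    rw [mem_filter] at hT'
    obtain ⟨_, g, rfl, hg⟩ := hT'
    rw [mem_image]
    refine ⟨(g.1, ⟨g.2.val, by omega⟩), mem_univ _, ?_⟩
    have : g = (g.1, (⟨g.2.val, by omega⟩ : Fin (r + 1)).castSucc) := be_eq_iff.mpr ⟨rfl, rfl⟩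
    simp only
    rw [← this]
  refine (card_le_card hsub).trans (card_image_le.trans ?_)
  rw [card_univ, Fintype.card_prod, Fintype.card_fin, Fintype.card_fin]

lemma card_PC {T : Finset (BE M r)} (hT : IsCode M r T) :
    (univ.filter fun T' : Finset (BE M r) => ∃ f g : BE M r, f ∈ T ∧ g.2.val ≤ r ∧ f.2.val ≤ r ∧
      ¬ pres T g.1.val ∧ T' = insert g (T.erase f) ∧ IsCode M r T').card ≤ M * (r + 2) := by
  have h := card_le_card_of_forall_subsingleton
    (s := univ.filter fun T' : Finset (BE M r) => ∃ f g : BE M r, f ∈ T ∧ g.2.val ≤ r ∧ f.2.val ≤ r ∧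
      ¬ pres T g.1.val ∧ T' = insert g (T.erase f) ∧ IsCode M r T')
    (t := (univ : Finset (BE M r)))
    (fun (T' : Finset (BE M r)) (x : BE M r) => ∃ f g : BE M r, f ∈ T ∧ g.2.val ≤ r ∧ f.2.val ≤ r ∧
      ¬ pres T g.1.val ∧ T' = insert g (T.erase f) ∧ IsCode M r T' ∧ x = (f.1, g.2)) ?_ ?_
  · rwa [card_univ, Fintype.card_prod, Fintype.card_fin, Fintype.card_fin] at h
  · intro T' hT'
    rw [mem_filter] at hT'
    obtain ⟨_, f, g, h1, h2, h3, h4, h5, h6⟩ := hT'
    exact ⟨(f.1, g.2), mem_univ _, f, g, h1, h2, h3, h4, h5, h6, rfl⟩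
  · intro x _
    rintro T1 ⟨_, f1, g1, h11, h12, h13, h14, h15, h16, h17⟩ T2
      ⟨_, f2, g2, h21, h22, h23, h24, h25, h26, h27⟩
    rw [h17] at h27
    have hff : f1 = f2 := hT.copy_unique h11 h21 (Prod.mk.inj h27).1 h13 h23
    subst hff
    obtain ⟨e1, a1, b1, c1, d1, k1⟩ := hT.start_fwd g1.1.isLt h14
    obtain ⟨e2, a2, b2, c2, d2, k2⟩ := hT.start_fwd g2.1.isLt h24
    have n1 := near_copy hT h11 h12 h13 (h15 ▸ h16) h14 a1 c1 k1
    have n2 := near_copy hT h11 h22 h13 (h25 ▸ h26) h24 a2 c2 k2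
    have he : e1 = e2 := by
      rcases lt_trichotomy e1 e2 with h | h | h
      · exact absurd c1 (n2.2 e1 n1.1 h)
      · exact h
      · exact absurd c2 (n1.2 e2 n2.1 h)
    subst he
    have hg : g1.1.val = g2.1.val := by
      rcases lt_trichotomy g1.1.val g2.1.val with h | h | h
      · exact absurd (k1 _ h a2) h24
      · exact h
      · exact absurd (k2 _ h a1) h14
    have : g1 = g2 := Prod.ext (Fin.ext hg) (Prod.mk.inj h27).2
    rw [h15, h25, this]

lemma card_PD {T : Finset (BE M r)} (hT : IsCode M r T) :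
    (univ.filter fun T' : Finset (BE M r) => ∃ f g : BE M r, f ∈ T ∧ g.2.val ≤ r ∧ f.2.val = r + 1 ∧
      ¬ pres T g.1.val ∧ T' = insert g (T.erase f) ∧ IsCode M r T').card ≤ M * (r + 2) * 2 := by
  have h := card_le_card_of_forall_subsingleton
    (s := univ.filter fun T' : Finset (BE M r) => ∃ f g : BE M r, f ∈ T ∧ g.2.val ≤ r ∧
      f.2.val = r + 1 ∧ ¬ pres T g.1.val ∧ T' = insert g (T.erase f) ∧ IsCode M r T')
    (t := (univ : Finset (BE M r × Bool)))
    (fun (T' : Finset (BE M r)) (x : BE M r × Bool) => ∃ f g : BE M r, f ∈ T ∧ g.2.val ≤ r ∧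
      f.2.val = r + 1 ∧ ¬ pres T g.1.val ∧ T' = insert g (T.erase f) ∧ IsCode M r T' ∧
      x = (g, decide (g.1.val ≤ f.1.val))) ?_ ?_
  · rwa [card_univ, Fintype.card_prod, Fintype.card_prod, Fintype.card_fin, Fintype.card_fin,
      Fintype.card_bool] at h
  · intro T' hT'
    rw [mem_filter] at hT'
    obtain ⟨_, f, g, h1, h2, h3, h4, h5, h6⟩ := hT'
    exact ⟨(g, decide (g.1.val ≤ f.1.val)), mem_univ _, f, g, h1, h2, h3, h4, h5, h6, rfl⟩
  · intro x _
    rintro T1 ⟨_, f1, g1, h11, h12, h13, h14, h15, h16, h17⟩ T2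
      ⟨_, f2, g2, h21, h22, h23, h24, h25, h26, h27⟩
    rw [h17] at h27
    have hgg : g1 = g2 := congrArg Prod.fst h27
    subst hgg
    have hd : decide (g1.1.val ≤ f1.1.val) = decide (g1.1.val ≤ f2.1.val) := congrArg Prod.snd h27
    rw [decide_eq_decide] at hd
    obtain ⟨e1, a1, b1, c1, d1, k1⟩ := hT.start_fwd g1.1.isLt h14
    have n1 := near_spoke hT h11 h12 h13 (h15 ▸ h16) h14 a1 c1 k1
    have n2 := near_spoke hT h21 h22 h23 (h25 ▸ h26) h14 a1 c1 k1
    have s1 : spk T f1.1.val := ⟨f1, h11, rfl, h13⟩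
    have s2 : spk T f2.1.val := ⟨f2, h21, rfl, h23⟩
    have hf : f1.1.val = f2.1.val := by
      rcases n1 with n1 | n1 <;> rcases n2 with n2 | n2
      · omega
      · omega
      · omega
      · rcases lt_trichotomy f1.1.val f2.1.val with h | h | h
        · exact absurd s2 (n1.2 _ h (by omega))
        · exact h
        · exact absurd s1 (n2.2 _ h (by omega))
    have : f1 = f2 := be_eq_iff.mpr ⟨hf, h13.trans h23.symm⟩
    rw [h15, h25, this]

/-- number of codes at distance at most two -/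
theorem card_near (hM : 2 * (r + 2) ≤ M) {T : Finset (BE M r)} (hT : IsCode M r T) :
    (((Om M r).erase T).filter (fun T' => (symmDiff T T').card ≤ 2)).card ≤ 4 * M ^ 2 := by
  have hcover : ((Om M r).erase T).filter (fun T' => (symmDiff T T').card ≤ 2) ⊆
      (univ.filter fun T' : Finset (BE M r) => ∃ f g : BE M r, f ∈ T ∧ g.2.val = r + 1 ∧
        T' = insert g (T.erase f)) ∪
      (univ.filter fun T' : Finset (BE M r) => ∃ g : BE M r,
        T' = insert g (T.filter fun e => ¬ (e.1 = g.1 ∧ e.2.val ≤ r)) ∧ g.2.val ≤ r) ∪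
      (univ.filter fun T' : Finset (BE M r) => ∃ f g : BE M r, f ∈ T ∧ g.2.val ≤ r ∧ f.2.val ≤ r ∧
        ¬ pres T g.1.val ∧ T' = insert g (T.erase f) ∧ IsCode M r T') ∪
      (univ.filter fun T' : Finset (BE M r) => ∃ f g : BE M r, f ∈ T ∧ g.2.val ≤ r ∧
        f.2.val = r + 1 ∧ ¬ pres T g.1.val ∧ T' = insert g (T.erase f) ∧ IsCode M r T') := by
    intro T' hT'
    rw [mem_filter, mem_erase, Om, mem_filter] at hT'
    obtain ⟨⟨hne, _, hcode⟩, hc⟩ := hT'
    obtain ⟨f, g, hf, hf', hg, hg', heq⟩ := near_form hT hcode hne hc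
    simp only [mem_union, mem_filter, mem_univ, true_and]
    have hg2 := g.2.isLt
    have hf2 := f.2.isLt
    by_cases hgr : g.2.val = r + 1
    · exact Or.inl (Or.inl (Or.inl ⟨f, g, hf, hgr, heq⟩))
    by_cases hp : pres T g.1.val
    · left; left; right
      refine ⟨g, ?_, by omega⟩
      obtain ⟨e, he1, he2, he3⟩ := hp
      have hef : e = f := by
        by_contra hne'
        have he' : e ∈ T' := by
          rw [heq, mem_insert, mem_erase]; exact Or.inr ⟨hne', he1⟩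
        have := hcode.copy_unique he' hg' (Fin.ext he2) he3 (by omega)
        exact hg (this ▸ he1)
      subst hef
      rw [heq]
      congr 1
      ext x
      rw [mem_erase, mem_filter]
      constructor
      · rintro ⟨h1, h2⟩
        refine ⟨h2, ?_⟩
        rintro ⟨h3, h4⟩
        exact h1 (hT.copy_unique h2 he1 (h3.trans (Fin.ext he2.symm)) h4 he3)
      · rintro ⟨h1, h2⟩
        refine ⟨?_, h1⟩
        rintro rfl
        exact h2 ⟨Fin.ext he2, he3⟩
    by_cases hfr : f.2.val = r + 1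
    · right
      exact ⟨f, g, hf, by omega, hfr, hp, heq, hcode⟩
    · left; right
      exact ⟨f, g, hf, by omega, by omega, hp, heq, hcode⟩
  refine (card_le_card hcover).trans ?_
  have hA := card_PA hT
  have hB := card_PB (T := T)
  have hC := card_PC hT
  have hD := card_PD hT
  refine (card_union_le _ _).trans ?_
  refine (Nat.add_le_add_right ((card_union_le _ _).trans
    (Nat.add_le_add_right (card_union_le _ _) _)) _).trans ?_
  nlinarith



lemma qq_le_sq {m : ℝ} (hm : 1 ≤ m) {T T' : Finset (BE M r)} (h : 2 ≤ (symmDiff T T').card) :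
    qq m T T' ≤ (1 / m) ^ 2 := by
  rw [qq_eq_g]
  unfold mu
  have h1 : (0:ℝ) ≤ 1 / m := by positivity
  have h2 : 1 / m ≤ 1 := by rw [div_le_one (by linarith)]; exact hm
  have h3 : (0:ℝ) ≤ 1 - 1 / m := by linarith
  have h4 : (1 - 1 / m) ≤ 1 := by linarith
  have h5 : ∀ k : ℕ, (1 - 1 / m) ^ k ≤ 1 := fun k => pow_le_one₀ h3 h4
  have h6 : ∀ k : ℕ, 2 ≤ k → (1 / m) ^ k ≤ (1 / m) ^ 2 := fun k hk =>
    pow_le_pow_of_le_one h1 h2 hk
  exact (mul_le_of_le_one_right (by positivity) (h5 _)).trans (h6 _ h)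

lemma near_two {T T' : Finset (BE M r)} (hT : IsCode M r T) (hT' : IsCode M r T') (hne : T' ≠ T) :
    2 ≤ (symmDiff T T').card := by
  by_contra hcon
  push Not at hcon
  obtain ⟨f, g, hf, hf', hg, hg', _⟩ := near_form hT hT' hne (by omega)
  have hfg : f ≠ g := fun h => hg (h ▸ hf)
  have : ({f, g} : Finset (BE M r)) ⊆ symmDiff T T' := by
    intro x hx
    simp only [mem_insert, mem_singleton] at hx
    rw [mem_symmDiff]
    rcases hx with rfl | rfl
    · exact Or.inl ⟨hf, hf'⟩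
    · exact Or.inr ⟨hg', hg⟩
  have := card_le_card this
  rw [card_pair hfg] at this
  omega

lemma sum_far {m : ℝ} (hm : 1 ≤ m) (T : Finset (BE M r)) (A : Finset (Finset (BE M r)))
    (hA : ∀ T' ∈ A, 3 ≤ (symmDiff T T').card) : ∑ T' ∈ A, qq m T T' ≤ ((r + 2) * M / m) ^ 3 := by
  refine le_trans ?_ (three_flips hm T)
  apply sum_le_sum_of_subset_of_nonneg
  · intro T' hT'
    rw [mem_filter]; exact ⟨mem_univ _, hA T' hT'⟩
  · intro T' _ _
    exact qq_nonneg hm _ _

/-- all transitions together -/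
theorem leave_prob {m : ℝ} (hm : 1 ≤ m) (hM : 2 * (r + 2) ≤ M)
    (hm3 : ((r + 2) * M / m) ^ 3 ≤ (M : ℝ) ^ 2 / m ^ 2) {T : Finset (BE M r)} (hT : IsCode M r T) :
    ∑ T' ∈ (Om M r).erase T, qq m T T' ≤ 5 * ((M : ℝ) ^ 2 / m ^ 2) := by
  rw [← sum_filter_add_sum_filter_not ((Om M r).erase T) (fun T' => (symmDiff T T').card ≤ 2)]
  have h1 : ∑ T' ∈ ((Om M r).erase T).filter (fun T' => (symmDiff T T').card ≤ 2), qq m T T' ≤
      4 * ((M : ℝ) ^ 2 / m ^ 2) := by
    have h2 : ∀ T' ∈ ((Om M r).erase T).filter (fun T' => (symmDiff T T').card ≤ 2),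
        qq m T T' ≤ (1 / m) ^ 2 := by
      intro T' hT'
      rw [mem_filter, mem_erase, Om, mem_filter] at hT'
      exact qq_le_sq hm (near_two hT hT'.1.2.2 hT'.1.1)
    refine (sum_le_card_nsmul _ _ _ h2).trans ?_
    rw [nsmul_eq_mul]
    have h3 : ((((Om M r).erase T).filter (fun T' => (symmDiff T T').card ≤ 2)).card : ℝ) ≤
        4 * (M:ℝ) ^ 2 := by exact_mod_cast card_near hM hT
    calc _ ≤ 4 * (M:ℝ) ^ 2 * (1 / m) ^ 2 := mul_le_mul_of_nonneg_right h3 (by positivity)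
      _ = _ := by rw [div_pow, one_pow]; ring
  have h4 := sum_far hm T (((Om M r).erase T).filter (fun T' => ¬ (symmDiff T T').card ≤ 2)) (by
    intro T' hT'
    rw [mem_filter] at hT'
    omega)
  linarith

lemma comp_erase {l0 : ℕ} {d H m : ℝ} (T : Finset (BE M r)) :
    Comp l0 d H m T = ∑ T' ∈ (Om M r).erase T, qq m T T' * (Phi l0 d H T' - Phi l0 d H T) := by
  unfold Comp
  rw [sum_erase]
  simp

theorem comp_dirty {l0 : ℕ} {d H m : ℝ} (hd : 0 ≤ d) (hd2 : d ≤ 1 / 4) (hH : 0 ≤ H)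
    (hm : 1 ≤ m) (hM : 2 * (r + 2) ≤ M)
    (hm3 : ((r + 2) * M / m) ^ 3 ≤ (M : ℝ) ^ 2 / m ^ 2) {T : Finset (BE M r)} (hT : IsCode M r T) :
    Comp l0 d H m T ≤ 5 * ((M : ℝ) ^ 2 / m ^ 2) * (DD H 0 + 1) := by
  rw [comp_erase]
  have hM1 : 1 ≤ M := by omega
  have h1 : ∀ T' ∈ (Om M r).erase T, qq m T T' * (Phi l0 d H T' - Phi l0 d H T) ≤
      qq m T T' * (DD H 0 + 1) := by
    intro T' hT'
    rw [mem_erase, Om, mem_filter] at hT'
    have h2 := (Phi_bounds (l0 := l0) hd hd2 hH hM1 hT'.2.2).2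
    have h3 := (Phi_bounds (l0 := l0) hd hd2 hH hM1 hT).1
    exact mul_le_mul_of_nonneg_left (by linarith) (qq_nonneg hm _ _)
  refine (sum_le_sum h1).trans ?_
  rw [← sum_mul]
  have h4 := DD_nonneg hH (le_refl (0:ℝ))
  exact mul_le_mul_of_nonneg_right (leave_prob hm hM hm3 hT) (by linarith)


lemma runs_eq_empty {T : Finset (BE M r)} (hJ : JJ T = 0) : runs T = ∅ := by
  unfold JJ at hJ
  rw [sum_eq_zero_iff] at hJ
  rw [eq_empty_iff_forall_notMem]
  intro p hp
  have := hJ p hp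
  omega

lemma Phi_clean {l0 : ℕ} {d H : ℝ} {T : Finset (BE M r)} (hR : runs T = ∅) :
    Phi l0 d H T = DD H (nn T) := by
  unfold Phi XX JJ
  rw [hR]
  simp

lemma nn_swapC {T : Finset (BE M r)} (f g : BE M r) : nn T ≤ nn (insert g (T.erase f)) + 1 := by
  unfold nn
  have h1 : tin T ⊆ insert f (tin (insert g (T.erase f))) := by
    intro e he
    unfold tin at he ⊢
    rw [mem_filter] at he
    rw [mem_insert, mem_filter, mem_insert, mem_erase]
    by_cases h : e = f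
    · exact Or.inl h
    · exact Or.inr ⟨Or.inr ⟨h, he.1⟩, he.2⟩
  refine (card_le_card h1).trans (card_insert_le _ _)

lemma DD_near {l0 : ℕ} {d H : ℝ} (hd : 0 ≤ d) (hd2 : d ≤ 1 / 4) (hH : 0 ≤ H)
    {T T' : Finset (BE M r)} (h : nn T ≤ nn T' + 1) : DD H (XX l0 d T') ≤ DD H (nn T) + 1 := by
  have hX : (nn T' : ℝ) ≤ XX l0 d T' := by
    unfold XX
    have : 0 ≤ ∑ p ∈ runs T', psi l0 d (p.2 - p.1 + 1) :=
      sum_nonneg fun p _ => psi_nonneg' l0 hd hd2 _
    linarith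
  have hn' : (0:ℝ) ≤ nn T' := by positivity
  have hh : (nn T : ℝ) ≤ nn T' + 1 := by exact_mod_cast h
  rcases Nat.eq_zero_or_pos (nn T) with h0 | h0
  · rw [h0]
    have := DD_anti hH (le_refl (0:ℝ)) (hn'.trans hX)
    push_cast
    linarith
  · have h1 : (1:ℝ) ≤ nn T := by exact_mod_cast h0
    have h2 := DD_pred hH h1
    have h3 := DD_anti hH (show (0:ℝ) ≤ nn T - 1 by linarith)
      (show (nn T : ℝ) - 1 ≤ XX l0 d T' by linarith)
    have h4 : 1 / (nn T : ℝ) ≤ 1 := by rw [div_le_one (by linarith)]; exact h1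
    linarith

/-- the tree with one interval -/
noncomputable def one (M r : ℕ) (κ : ℕ → ℕ) (p : ℕ × ℕ) : Finset (BE M r) := enc M r {p} κ

lemma valid_one {p : ℕ × ℕ} (h1 : p.1 ≤ p.2) (h2 : p.2 < M) : Valid M {p} := by
  refine ⟨?_, ?_, ?_⟩
  · intro q hq; rw [mem_singleton] at hq; subst hq; exact h1
  · intro q hq; rw [mem_singleton] at hq; subst hq; exact h2
  · intro q hq q' hq' hne
    rw [mem_singleton] at hq hq'
    exact absurd (hq.trans hq'.symm) hne

lemma one_eq {κ : ℕ → ℕ} (hκ : ∀ j, κ j ≤ r) {p : ℕ × ℕ} (h1 : p.1 ≤ p.2) (h2 : p.2 < M) :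
    ∃ f g : BE M r, f ∈ enc M r ∅ κ ∧ g ∉ enc M r ∅ κ ∧
      one M r κ p = insert g ((enc M r ∅ κ).erase f) := by
  refine ⟨(⟨p.1, by omega⟩, ⟨κ p.1, by have := hκ p.1; omega⟩), (⟨p.2, h2⟩, ⟨r + 1, by omega⟩),
    ?_, ?_, ?_⟩
  · rw [mem_enc]
    right
    exact ⟨rfl, hκ _, by simp⟩
  · rw [mem_enc]
    rintro (h | h)
    · simp at h
    · have := h.2.1
      simp only at this
      omega
  · ext e
    unfold one
    rw [mem_insert, mem_erase, mem_enc, mem_enc, Ne, be_eq_iff, be_eq_iff]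
    simp only [mem_singleton, exists_eq_left, forall_eq, notMem_empty, false_and, exists_false,
      and_false, false_or, IsEmpty.forall_iff, implies_true, and_true]
    have := hκ e.1.val
    constructor
    · rintro (h | h)
      · left; exact ⟨h.2.symm, h.1⟩
      · right
        exact ⟨fun h' => h.2.2 h'.1.symm, h.1, h.2.1⟩
    · rintro (h | h)
      · left; exact ⟨h.2, h.1.symm⟩
      · right
        refine ⟨h.2.1, h.2.2, fun h' => h.1 ⟨h'.symm, ?_⟩⟩
        rw [h.2.1, h']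

lemma qq_one {m : ℝ} {κ : ℕ → ℕ} (hκ : ∀ j, κ j ≤ r) {p : ℕ × ℕ} (h1 : p.1 ≤ p.2) (h2 : p.2 < M) :
    qq m (enc M r ∅ κ) (one M r κ p) =
      (1 / m) ^ 2 * (1 - 1 / m) ^ (Fintype.card (BE M r) - 2) := by
  obtain ⟨f, g, hf, hg, h⟩ := one_eq (M := M) hκ h1 h2
  rw [h]
  exact qq_swap_g (m := m) hf hg

/-- pairs of a long interval -/
def PP (M : ℕ) : Finset (ℕ × ℕ) :=
  (range M ×ˢ range M).filter fun p => p.1 ≤ p.2 ∧ M ≤ 2 * (p.2 - p.1 + 1)

lemma tri (n : ℕ) : ∑ a ∈ range n, (n - a) * 2 = n * (n + 1) := by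
  induction n with
  | zero => simp
  | succ n ih =>
    rw [sum_range_succ]
    have : ∀ a ∈ range n, (n + 1 - a) * 2 = (n - a) * 2 + 2 := by
      intro a ha
      rw [mem_range] at ha
      omega
    rw [sum_congr rfl this, sum_add_distrib, ih]
    simp
    ring

lemma card_PP (hM : 1 ≤ M) : M ^ 2 ≤ 8 * (PP M).card := by
  set h := M / 2 with hh
  have h1 : ((range (h + 1)).sigma (fun a => range (h + 1 - a))).card ≤ (PP M).card := by
    apply card_le_card_of_injOn (fun x : (_ : ℕ) × ℕ => (x.1, M - 1 - x.2))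
    · intro x hx
      simp only [coe_sigma, Set.mem_sigma_iff, mem_coe, mem_range] at hx
      simp only [PP, coe_filter, mem_product, mem_range, Set.mem_setOf_eq]
      omega
    · intro x hx y hy hxy
      simp only [coe_sigma, Set.mem_sigma_iff, mem_coe, mem_range] at hx hy
      simp only [Prod.mk.injEq] at hxy
      obtain ⟨a, b⟩ := x
      obtain ⟨a', b'⟩ := y
      simp only at hx hy hxy
      have e1 : a = a' := hxy.1
      have e2 : b = b' := by omega
      rw [e1, e2]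
  rw [card_sigma] at h1
  simp only [card_range] at h1
  have h2 := tri (h + 1)
  rw [← sum_mul] at h2
  have h3 : M + 1 ≤ 2 * (h + 1) := by omega
  have h4 : M ^ 2 ≤ 4 * ((h + 1) * (h + 1 + 1)) := by nlinarith
  omega

lemma card_PP_le : (PP M).card ≤ M ^ 2 := by
  unfold PP
  refine (card_filter_le _ _).trans ?_
  rw [card_product, card_range, sq]


/-- near trees of a clean tree -/
lemma near_clean {T T' : Finset (BE M r)} (hT : IsCode M r T) (hT' : IsCode M r T') (hne : T' ≠ T)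
    (hR : runs T = ∅) (hc : (symmDiff T T').card ≤ 2) :
    nn T ≤ nn T' + 1 ∧ ((∃ f g : BE M r, f ∈ T ∧ g.2.val = r + 1 ∧
      T' = insert g (T.erase f)) ∨ (runs T' = ∅ ∧ ∃ g : BE M r,
      T' = insert g (T.filter fun e => ¬ (e.1 = g.1 ∧ e.2.val ≤ r)) ∧ g.2.val ≤ r)) := by
  obtain ⟨f, g, hf, hf', hg, hg', heq⟩ := near_form hT hT' hne hc
  refine ⟨?_, ?_⟩
  · rw [heq]; exact nn_swapC f g
  have hpres : ∀ j, j < M → pres T j := by
    intro j hj
    rw [hT.pres_iff hj, hR]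
    simp
  have hspk : ∀ j, ¬ spk T j := by
    intro j
    rw [hT.spk_iff, hR]
    simp
  have hg2 := g.2.isLt
  have hf2 := f.2.isLt
  by_cases hgr : g.2.val = r + 1
  · exact Or.inl ⟨f, g, hf, hgr, heq⟩
  right
  have hp : pres T g.1.val := hpres _ g.1.isLt
  constructor
  · rw [eq_empty_iff_forall_notMem]
    intro p hp
    have h1 : spk T' p.2 := hT'.spk_iff.mpr ⟨p, hp, rfl⟩
    rw [heq, spk_swap (by omega)] at h1
    exact hspk _ h1.1
  · refine ⟨g, ?_, by omega⟩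
    obtain ⟨e, he1, he2, he3⟩ := hp
    have hef : e = f := by
      by_contra hne'
      have he' : e ∈ T' := by
        rw [heq, mem_insert, mem_erase]; exact Or.inr ⟨hne', he1⟩
      have := hT'.copy_unique he' hg' (Fin.ext he2) he3 (by omega)
      exact hg (this ▸ he1)
    subst hef
    rw [heq]
    congr 1
    ext x
    rw [mem_erase, mem_filter]
    constructor
    · rintro ⟨h1, h2⟩
      refine ⟨h2, ?_⟩
      rintro ⟨h3, h4⟩
      exact h1 (hT.copy_unique h2 he1 (h3.trans (Fin.ext he2.symm)) h4 he3)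
    · rintro ⟨h1, h2⟩
      refine ⟨?_, h1⟩
      rintro rfl
      exact h2 ⟨Fin.ext he2, he3⟩

lemma DD_self {H X : ℝ} (hH : 0 ≤ H) (hX : H ≤ X) : DD H X ≤ 1 := by
  refine (DD_anti hH hH hX).trans ?_
  unfold DD
  have h1 := Real.log_le_sub_one_of_pos (show 0 < 1 + H / (1 + H) by positivity)
  have h2 : H / (1 + H) ≤ 1 := by rw [div_le_one (by positivity)]; linarith
  linarith

lemma rest_bound {l0 : ℕ} {d H m : ℝ} (hd : 0 ≤ d) (hd2 : d ≤ 1 / 4) (hH : 0 ≤ H)
    (hm : 1 ≤ m) (hM : 2 * (r + 2) ≤ M)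
    (hm3 : ((r + 2) * M / m) ^ 3 * (DD H 0 + 1) ≤ (M : ℝ) ^ 2 / m ^ 2)
    {T : Finset (BE M r)} (hT : IsCode M r T) (hR : runs T = ∅) (S : Finset (Finset (BE M r)))
    (hS : S ⊆ (Om M r).erase T) :
    ∑ T' ∈ S, qq m T T' * (Phi l0 d H T' - Phi l0 d H T) ≤ 7 / 2 * ((M : ℝ) ^ 2 / m ^ 2) := by
  have hM1 : 1 ≤ M := by omega
  have hD0 : 0 ≤ DD H 0 := DD_nonneg hH (le_refl (0:ℝ))
  let PA : Finset (BE M r) → Prop := fun T' => ∃ f g : BE M r, f ∈ T ∧ g.2.val = r + 1 ∧
      T' = insert g (T.erase f)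
  let PB : Finset (BE M r) → Prop := fun T' => ∃ g : BE M r,
      T' = insert g (T.filter fun e => ¬ (e.1 = g.1 ∧ e.2.val ≤ r)) ∧ g.2.val ≤ r
  have hterm : ∀ T' ∈ S, qq m T T' * (Phi l0 d H T' - Phi l0 d H T) ≤
      (if 3 ≤ (symmDiff T T').card then qq m T T' * (DD H 0 + 1) else 0) +
      (if PA T' then 2 * (1 / m) ^ 2 else 0) + (if PB T' then (1 / m) ^ 2 else 0) := by
    intro T' hT'
    have h0 := hS hT'
    rw [mem_erase, Om, mem_filter] at h0
    obtain ⟨hne, _, hcode⟩ := h0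
    have hq := qq_nonneg hm T T'
    have i2 : 0 ≤ (if PA T' then 2 * (1 / m) ^ 2 else 0) := by split_ifs <;> positivity
    have i3 : 0 ≤ (if PB T' then (1 / m) ^ 2 else 0) := by split_ifs <;> positivity
    by_cases h3 : 3 ≤ (symmDiff T T').card
    · rw [if_pos h3]
      have h2 := (Phi_bounds (l0 := l0) hd hd2 hH hM1 hcode).2
      have h4 := (Phi_bounds (l0 := l0) hd hd2 hH hM1 hT).1
      have := mul_le_mul_of_nonneg_left (show Phi l0 d H T' - Phi l0 d H T ≤ DD H 0 + 1 by linarith) hq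
      linarith
    · rw [if_neg h3]
      have hq2 := qq_le_sq hm (near_two hT hcode hne)
      obtain ⟨hn, hAB⟩ := near_clean hT hcode hne hR (by omega)
      have hDD := DD_near (l0 := l0) hd hd2 hH hn
      rw [Phi_clean hR]
      rcases hAB with hA | ⟨hR', hB⟩
      · rw [if_pos hA]
        have h5 := (log_bounds' hM1 hcode).2
        have h6 : Phi l0 d H T' - DD H (nn T) ≤ 2 := by
          unfold Phi; linarith
        have h7 := mul_le_mul_of_nonneg_left h6 hq
        have h8 : qq m T T' * 2 ≤ (1 / m) ^ 2 * 2 := mul_le_mul_of_nonneg_right hq2 (by norm_num)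
        linarith
      · rw [if_pos (show PB T' from hB)]
        have h6 : Phi l0 d H T' - DD H (nn T) ≤ 1 := by
          have : JJ T' = 0 := by unfold JJ; rw [hR']; simp
          unfold Phi
          rw [this]
          simp only [Nat.cast_zero, add_zero, Real.log_one, zero_div]
          linarith
        have h7 := mul_le_mul_of_nonneg_left h6 hq
        linarith
  refine (sum_le_sum hterm).trans ?_
  rw [sum_add_distrib, sum_add_distrib]
  have e1 : ∑ T' ∈ S, (if 3 ≤ (symmDiff T T').card then qq m T T' * (DD H 0 + 1) else 0) ≤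
      (M : ℝ) ^ 2 / m ^ 2 := by
    rw [← sum_filter, ← sum_mul]
    refine le_trans (mul_le_mul_of_nonneg_right (sum_far hm T _ ?_) (by linarith)) hm3
    intro T' hT'
    rw [mem_filter] at hT'
    exact hT'.2
  have e2 : ∑ T' ∈ S, (if PA T' then 2 * (1 / m) ^ 2 else 0) ≤ 2 * ((M : ℝ) ^ 2 / m ^ 2) := by
    calc ∑ T' ∈ S, (if PA T' then 2 * (1 / m) ^ 2 else 0)
        ≤ ∑ T' ∈ (univ : Finset (Finset (BE M r))), (if PA T' then 2 * (1 / m) ^ 2 else 0) := by
          apply sum_le_sum_of_subset_of_nonneg (subset_univ _)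
          intro T' _ _
          split_ifs <;> positivity
      _ = ((univ.filter PA).card : ℝ) * (2 * (1 / m) ^ 2) := by
          rw [← sum_filter, sum_const, nsmul_eq_mul]
      _ ≤ ((M:ℝ) * M) * (2 * (1 / m) ^ 2) := by
          apply mul_le_mul_of_nonneg_right _ (by positivity)
          exact_mod_cast card_PA hT
      _ = _ := by rw [div_pow, one_pow]; ring
  have e3 : ∑ T' ∈ S, (if PB T' then (1 / m) ^ 2 else 0) ≤ 1 / 2 * ((M : ℝ) ^ 2 / m ^ 2) := by
    calc ∑ T' ∈ S, (if PB T' then (1 / m) ^ 2 else 0)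
        ≤ ∑ T' ∈ (univ : Finset (Finset (BE M r))), (if PB T' then (1 / m) ^ 2 else 0) := by
          apply sum_le_sum_of_subset_of_nonneg (subset_univ _)
          intro T' _ _
          split_ifs <;> positivity
      _ = ((univ.filter PB).card : ℝ) * ((1 / m) ^ 2) := by
          rw [← sum_filter, sum_const, nsmul_eq_mul]
      _ ≤ ((M:ℝ) * (r + 1)) * ((1 / m) ^ 2) := by
          apply mul_le_mul_of_nonneg_right _ (by positivity)
          exact_mod_cast card_PB (T := T)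
      _ ≤ ((M:ℝ) * (M / 2)) * ((1 / m) ^ 2) := by
          apply mul_le_mul_of_nonneg_right _ (by positivity)
          apply mul_le_mul_of_nonneg_left _ (by positivity)
          have : (2:ℝ) * (r + 2) ≤ M := by exact_mod_cast hM
          linarith
      _ = _ := by rw [div_pow, one_pow]; ring
  linarith

/-- drift under arbitrary transitions of a block without defect intervals: the many long bad swaps
lower the potential -/
theorem comp_clean {l0 : ℕ} {d H m : ℝ} (hd : 0 ≤ d) (hd2 : d ≤ 1 / 4) (hH : 0 ≤ H)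
    (hm : 2 ≤ m) (hM : 2 * (r + 2) ≤ M) (hbig : (2 : ℝ) * ((r + 2) * M) ≤ m)
    (hm3 : ((r + 2) * M / m) ^ 3 * (DD H 0 + 1) ≤ (M : ℝ) ^ 2 / m ^ 2)
    (hHpsi : ∀ l : ℕ, M ≤ 2 * l → H ≤ psi l0 d l)
    {T : Finset (BE M r)} (hT : IsCode M r T) (hJ : JJ T = 0) :
    Comp l0 d H m T ≤ - (1 / 16) * ((M : ℝ) ^ 2 / m ^ 2) * Phi l0 d H T
      + 6 * ((M : ℝ) ^ 2 / m ^ 2) := by
  rw [comp_erase]
  have hR := runs_eq_empty hJ
  obtain ⟨κ, hκ, hTe⟩ := hT.exists_kappa
  rw [hR] at hTe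
  have hM1 : 1 ≤ M := by omega
  have hm1 : 1 ≤ m := by linarith
  have hm0 : 0 < m := by linarith
  have hPP : ∀ p ∈ PP M, p.1 ≤ p.2 ∧ p.2 < M ∧ M ≤ 2 * (p.2 - p.1 + 1) := by
    intro p hp
    simp only [PP, mem_filter, mem_product, mem_range] at hp
    exact ⟨hp.2.1, hp.1.2, hp.2.2⟩
  have hcodeone : ∀ p ∈ PP M, IsCode M r (one M r κ p) := fun p hp =>
    ⟨{p}, κ, valid_one (hPP p hp).1 (hPP p hp).2.1, hκ, rfl⟩
  have hrunone : ∀ p ∈ PP M, runs (one M r κ p) = {p} := fun p hp =>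
    runs_enc (valid_one (hPP p hp).1 (hPP p hp).2.1) hκ
  have hsub : (PP M).image (one M r κ) ⊆ (Om M r).erase T := by
    intro T' hT'
    rw [mem_image] at hT'
    obtain ⟨p, hp, rfl⟩ := hT'
    rw [mem_erase, Om, mem_filter]
    refine ⟨?_, mem_univ _, hcodeone p hp⟩
    intro h
    have h1 := hrunone p hp
    rw [h, hR] at h1
    exact absurd h1.symm (singleton_ne_empty p)
  rw [← sum_sdiff hsub]
  have hrest := rest_bound (l0 := l0) hd hd2 hH hm1 hM hm3 hT hR _
    (sdiff_subset (s := (Om M r).erase T) (t := (PP M).image (one M r κ)))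
  set a : ℝ := (1 / m) ^ 2 * (1 - 1 / m) ^ (Fintype.card (BE M r) - 2) with ha
  have hinvm : 1 / m ≤ 1 / 2 := one_div_le_one_div_of_le (by norm_num) hm
  have hinv0 : 0 < 1 / m := by positivity
  have ha0 : 0 ≤ a := by
    have : (0:ℝ) ≤ 1 - 1 / m := by linarith
    positivity
  have ha1 : a ≤ (1 / m) ^ 2 :=
    mul_le_of_le_one_right (by positivity) (pow_le_one₀ (by linarith) (by linarith))
  have ha2 : (1 / m) ^ 2 * (1 / 2) ≤ a := by
    apply mul_le_mul_of_nonneg_left _ (by positivity)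
    have h1 := one_add_mul_le_pow (show (-2:ℝ) ≤ -(1 / m) by linarith)
      (Fintype.card (BE M r) - 2)
    have h2 : ((Fintype.card (BE M r) - 2 : ℕ) : ℝ) ≤ (r + 2) * M := by
      have h3 : Fintype.card (BE M r) - 2 ≤ (r + 2) * M := by
        rw [Fintype.card_prod, Fintype.card_fin, Fintype.card_fin]
        have : M * (r + 2) = (r + 2) * M := mul_comm _ _
        omega
      exact_mod_cast h3
    have h4 : ((Fintype.card (BE M r) - 2 : ℕ) : ℝ) * (1 / m) ≤ 1 / 2 := by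
      rw [mul_one_div, div_le_iff₀ hm0]
      linarith
    have h5 : (1:ℝ) + -(1 / m) = 1 - 1 / m := by ring
    rw [h5] at h1
    linarith
  have hhit : ∑ T' ∈ (PP M).image (one M r κ), qq m T T' * (Phi l0 d H T' - Phi l0 d H T) ≤
      (PP M).card * (a * (2 - Phi l0 d H T)) := by
    rw [sum_image]
    · rw [← nsmul_eq_mul]
      apply sum_le_card_nsmul
      intro p hp
      obtain ⟨h1, h2, h3⟩ := hPP p hp
      have hq : qq m T (one M r κ p) = a := by
        rw [hTe]; exact qq_one hκ h1 h2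
      rw [hq]
      apply mul_le_mul_of_nonneg_left _ ha0
      have h4 : H ≤ XX l0 d (one M r κ p) := by
        unfold XX
        rw [hrunone p hp, sum_singleton]
        have := hHpsi _ h3
        have h5 : (0:ℝ) ≤ nn (one M r κ p) := by positivity
        linarith
      have h5 := DD_self hH h4
      have h6 := (log_bounds' hM1 (hcodeone p hp)).2
      have : Phi l0 d H (one M r κ p) ≤ 2 := by unfold Phi; linarith
      linarith
    · intro p hp q hq hpq
      have h1 := hrunone p hp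
      have h2 := hrunone q hq
      rw [hpq, h2] at h1
      exact (singleton_injective h1).symm
  have hPhi0 := (Phi_bounds (l0 := l0) hd hd2 hH hM1 hT).1
  have hK1 : ((M:ℝ)) ^ 2 ≤ 8 * (PP M).card := by exact_mod_cast card_PP hM1
  have hK2 : ((PP M).card : ℝ) ≤ (M:ℝ) ^ 2 := by exact_mod_cast card_PP_le (M := M)
  have hMm : (M : ℝ) ^ 2 / m ^ 2 = (M:ℝ) ^ 2 * (1 / m) ^ 2 := by rw [div_pow, one_pow]; ring
  have hfin : (PP M).card * (a * (2 - Phi l0 d H T)) ≤
      - (1 / 16) * ((M : ℝ) ^ 2 / m ^ 2) * Phi l0 d H T + 2 * ((M : ℝ) ^ 2 / m ^ 2) := by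
    have hKa1 : ((PP M).card : ℝ) * a ≤ (M : ℝ) ^ 2 / m ^ 2 := by
      rw [hMm]; exact mul_le_mul hK2 ha1 ha0 (by positivity)
    have hKa2 : 1 / 16 * ((M : ℝ) ^ 2 / m ^ 2) ≤ ((PP M).card : ℝ) * a := by
      rw [hMm]
      calc 1 / 16 * ((M:ℝ) ^ 2 * (1 / m) ^ 2) = ((M:ℝ) ^ 2 / 8) * ((1 / m) ^ 2 * (1 / 2)) := by ring
        _ ≤ _ := mul_le_mul (by linarith) ha2 (by positivity) (by positivity)
    have hx : 0 ≤ (M : ℝ) ^ 2 / m ^ 2 := by positivity
    rw [← mul_assoc]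
    rcases le_total 2 (Phi l0 d H T) with h | h
    · nlinarith
    · nlinarith
  have hx : 0 ≤ (M : ℝ) ^ 2 / m ^ 2 := by positivity
  linarith

end blk

end Pool.Agent.Helper120.Ea
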