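import Mathlib

open Finset

namespace Pool.Agent.Helper120.Ea

/-- value of a digit string in base `D`, first digit most significant -/
def baseVal {L : ℕ} (D : ℕ) (a : Fin L → ℕ) : ℕ := ∑ b : Fin L, D ^ (L - 1 - b.val) * a b

lemma baseVal_tail {L D : ℕ} (a : Fin L → ℕ) (ha : ∀ b, a b < D) (n : ℕ) : ∀ s : ℕ, s + n = L →
    ∑ b ∈ univ.filter (fun b : Fin L => s ≤ b.val), D ^ (L - 1 - b.val) * a b < D ^ n := by
  induction n with
  | zero =>
    intro s hs
    have : univ.filter (fun b : Fin L => s ≤ b.val) = ∅ := by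
      rw [filter_eq_empty_iff]
      intro b _
      have := b.2
      omega
    rw [this]; simp
  | succ n ih =>
    intro s hs
    have hsL : s < L := by omega
    have h1 : univ.filter (fun b : Fin L => s ≤ b.val) =
        insert ⟨s, hsL⟩ (univ.filter (fun b : Fin L => s + 1 ≤ b.val)) := by
      ext b
      simp only [mem_filter, mem_univ, true_and, mem_insert, Fin.ext_iff]
      omega
    rw [h1, sum_insert (by simp)]
    have h2 := ih (s + 1) (by omega)
    have h3 : L - 1 - s = n := by omega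
    simp only [h3]
    have h4 := ha ⟨s, hsL⟩
    calc D ^ n * a ⟨s, hsL⟩ + ∑ b ∈ univ.filter (fun b : Fin L => s + 1 ≤ b.val), D ^ (L - 1 - b.val) * a b
        < D ^ n * a ⟨s, hsL⟩ + D ^ n := by omega
      _ = D ^ n * (a ⟨s, hsL⟩ + 1) := by ring
      _ ≤ D ^ n * D := Nat.mul_le_mul_left _ h4
      _ = D ^ (n + 1) := by ring

lemma baseVal_lex {L D : ℕ} (a a' : Fin L → ℕ) (ha' : ∀ b, a' b < D) (i : Fin L)
    (hi : ∀ b < i, a b = a' b) (hlt : a' i < a i) : baseVal D a' < baseVal D a := by
  have split : ∀ f : Fin L → ℕ, ∑ b, f b = ∑ b ∈ univ.filter (fun b => b < i), f b +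
      (f i + ∑ b ∈ univ.filter (fun b : Fin L => i.val + 1 ≤ b.val), f b) := by
    intro f
    rw [← sum_filter_add_sum_filter_not univ (fun b => b < i)]
    congr 1
    have : univ.filter (fun b => ¬ b < i) = insert i (univ.filter (fun b : Fin L => i.val + 1 ≤ b.val)) := by
      ext b
      simp only [mem_filter, mem_univ, true_and, mem_insert, Fin.ext_iff, Fin.lt_def]
      omega
    rw [this, sum_insert (by simp)]
  unfold baseVal
  rw [split, split (fun b => D ^ (L - 1 - b.val) * a b)]
  have h1 : ∑ b ∈ univ.filter (fun b => b < i), D ^ (L - 1 - b.val) * a' b =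
      ∑ b ∈ univ.filter (fun b => b < i), D ^ (L - 1 - b.val) * a b := by
    refine sum_congr rfl fun b hb => ?_
    rw [mem_filter] at hb
    rw [hi b hb.2]
  rw [h1]
  have h2 := baseVal_tail a' ha' (L - 1 - i.val) (i.val + 1) (by have := i.2; omega)
  have h3 : D ^ (L - 1 - i.val) * (a' i + 1) ≤ D ^ (L - 1 - i.val) * a i := Nat.mul_le_mul_left _ hlt
  rw [mul_add, mul_one] at h3
  omega

theorem baseVal_first {L D : ℕ} (a a' : Fin L → ℕ) (ha : ∀ b, a b < D)
    (h : baseVal D a' ≤ baseVal D a) (i : Fin L) (hi : ∀ b < i, a b = 0) :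
    (∀ b < i, a' b = 0) ∧ a' i ≤ a i := by
  have h1 : ∀ b : Fin L, b < i → a' b = 0 := by
    intro b
    induction b using WellFoundedLT.induction with
    | ind b ih =>
      intro hb
      by_contra hne
      have := baseVal_lex (D := D) a' a ha b (fun c hc => by
        rw [ih c hc (hc.trans hb), hi c (hc.trans hb)]) (by rw [hi b hb]; omega)
      omega
  refine ⟨h1, ?_⟩
  by_contra hne
  have := baseVal_lex (D := D) a' a ha i (fun c hc => by rw [h1 c hc, hi c hc]) (by omega)
  omega

theorem baseVal_second {L D : ℕ} (a a' : Fin L → ℕ) (ha : ∀ b, a b < D)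
    (h : baseVal D a' ≤ baseVal D a) (i j : Fin L) (hj : j.val = i.val + 1)
    (hi : ∀ b < i, a b = 0) (he : a' i = a i) : a' j ≤ a j := by
  have h1 := (baseVal_first a a' ha h i hi).1
  by_contra hne
  have := baseVal_lex (D := D) a' a ha j (fun c hc => by
    rcases lt_or_ge c i with h2 | h2
    · rw [h1 c h2, hi c h2]
    · have : c = i := by
        rw [Fin.ext_iff]
        rw [Fin.lt_def] at hc
        rw [Fin.le_def] at h2
        omega
      rw [this, he]) (by omega)
  omega

theorem baseVal_lt {L D : ℕ} (a a' : Fin L → ℕ) (ha' : ∀ b, a' b < D) (i : Fin L)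
    (hi : ∀ b < i, a b = a' b) (hlt : a' i < a i) : baseVal D a' ≤ baseVal D a :=
  (baseVal_lex a a' ha' i hi hlt).le

/-- two-level digits -/
theorem digit_cmp {Q J J' n n' : ℕ} (hn : n < Q) (hn' : n' < Q) :
    (Q * J' + n' ≤ Q * J + n ↔ (J' < J ∨ (J' = J ∧ n' < n)) ∨ (J' = J ∧ n' = n)) ∧
    (Q * J' + n' < Q * J + n ↔ (J' < J ∨ (J' = J ∧ n' < n))) ∧
    (Q * J' + n' = Q * J + n ↔ (J' = J ∧ n' = n)) := by
  have key : ∀ a b x y : ℕ, a < b → x < Q → Q * a + x < Q * b + y := by
    intro a b x y hab hx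
    have h1 : Q * (a + 1) ≤ Q * b := Nat.mul_le_mul_left _ hab
    rw [mul_add, mul_one] at h1
    omega
  rcases lt_trichotomy J' J with h | h | h
  · have := key J' J n' n h hn'
    generalize Q * J' = X at *
    generalize Q * J = Y at *
    refine ⟨?_, ?_, ?_⟩ <;> omega
  · subst h
    generalize Q * J' = X at *
    refine ⟨?_, ?_, ?_⟩ <;> omega
  · have := key J J' n n' h hn
    generalize Q * J' = X at *
    generalize Q * J = Y at *
    refine ⟨?_, ?_, ?_⟩ <;> omega

end Pool.Agent.Helper120.Ea
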