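import Mathlib

open MeasureTheory ProbabilityTheory Finset
open scoped ENNReal

namespace Pool.Agent.Helper120.EaJ4

variable {E : Type} [Fintype E] [DecidableEq E]

/-- probability that exactly the bits in `F` are flipped -/
noncomputable def flipProb (F : Finset E) : ℝ :=
  (1 / (Fintype.card E : ℝ)) ^ F.card * (1 - 1 / (Fintype.card E : ℝ)) ^ (Fintype.card E - F.card)

/-- the set of bits flipped in round `t` -/
def flips {Ω : Type} (Z : ℕ × E → Ω → Bool) (t : ℕ) (ω : Ω) : Finset E :=
  Finset.univ.filter fun e => Z (t, e) ω = true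

/-- the trajectory of the search: in round `t` mutate the current string and apply the selection
`nxt current mutant` -/
def traj {Ω : Type} (nxt : Finset E → Finset E → Finset E) (Z : ℕ × E → Ω → Bool)
    (x0 : Finset E) : ℕ → Ω → Finset E
  | 0, _ => x0
  | t + 1, ω => nxt (traj nxt Z x0 t ω) (symmDiff (traj nxt Z x0 t ω) (flips Z t ω))

/-- first time at which the process satisfies `opt` (infinite if it never does) -/
noncomputable def hitTime {Ω : Type} (opt : Finset E → Prop) (X : ℕ → Ω → Finset E) (ω : Ω) : ℝ≥0∞ :=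
  ⨅ (t : ℕ) (_ : opt (X t ω)), (t : ℝ≥0∞)


theorem traj_eval {Ω : Type} (nxt : Finset E → Finset E → Finset E) (Z : ℕ × E → Ω → Bool)
    (x0 : Finset E) (t : ℕ) (ω : Ω) :
    traj nxt Z x0 t ω = traj nxt (fun i (z : ℕ × E → Bool) => z i) x0 t (fun i => Z i ω) := by
  induction t with
  | zero => rfl
  | succ t ih =>
    simp only [traj, ih]
    rfl

theorem traj_congr (nxt : Finset E → Finset E → Finset E)
    (x0 : Finset E) (t : ℕ) (z z' : ℕ × E → Bool) (h : ∀ s < t, ∀ e, z (s, e) = z' (s, e)) :
    traj nxt (fun i (z : ℕ × E → Bool) => z i) x0 t z =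
      traj nxt (fun i (z : ℕ × E → Bool) => z i) x0 t z' := by
  induction t with
  | zero => rfl
  | succ t ih =>
    have h1 := ih (fun s hs e => h s (by omega) e)
    have h2 : flips (fun i (z : ℕ × E → Bool) => z i) t z =
        flips (fun i (z : ℕ × E → Bool) => z i) t z' := by
      unfold flips
      apply Finset.filter_congr
      intro e _
      show z (t, e) = true ↔ z' (t, e) = true
      rw [h t (by omega) e]
    simp only [traj, h1, h2]

theorem meas_traj {Ω : Type} [MeasurableSpace Ω]
    (Z : ℕ × E → Ω → Bool) (hZ : ∀ i, Measurable (Z i))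
    (nxt : Finset E → Finset E → Finset E) (x0 : Finset E) (t : ℕ) :
    ∃ s : Finset E → Set (((range t ×ˢ (Finset.univ : Finset E) : Finset (ℕ × E))) → Bool),
      (∀ x, MeasurableSet (s x)) ∧
      ∀ x, {ω | traj nxt Z x0 t ω = x} = (fun a (i : ((range t ×ˢ (Finset.univ : Finset E) : Finset (ℕ × E)))) => Z i a) ⁻¹' (s x) := by
  classical
  refine ⟨fun x => {v | traj nxt (fun i (z : ℕ × E → Bool) => z i) x0 t
    (fun i => if h : i ∈ (range t ×ˢ (Finset.univ : Finset E)) then v ⟨i, h⟩ else false) = x},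
    fun x => (Set.toFinite _).measurableSet, fun x => ?_⟩
  ext ω
  simp only [Set.mem_ofPred_eq, Set.mem_preimage]
  rw [traj_eval]
  rw [traj_congr nxt x0 t (fun i => Z i ω) (fun i => if h : i ∈ (range t ×ˢ (Finset.univ : Finset E)) then Z i ω else false)]
  intro s hs e
  have : (s, e) ∈ (range t ×ˢ (Finset.univ : Finset E)) := by
    simp [hs]
  simp [hs]

theorem meas_flips {Ω : Type} [MeasurableSpace Ω]
    (Z : ℕ × E → Ω → Bool) (t : ℕ) :
    ∃ s : Finset E → Set (((({t} : Finset ℕ) ×ˢ (Finset.univ : Finset E) : Finset (ℕ × E))) → Bool),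
      (∀ x, MeasurableSet (s x)) ∧
      ∀ x, {ω | flips Z t ω = x} = (fun a (i : ((({t} : Finset ℕ) ×ˢ (Finset.univ : Finset E) : Finset (ℕ × E)))) => Z i a) ⁻¹' (s x) := by
  classical
  refine ⟨fun x => {v | (Finset.univ.filter fun e => v ⟨(t, e), by simp⟩ = true) = x},
    fun x => (Set.toFinite _).measurableSet, fun x => ?_⟩
  ext ω
  simp only [Set.mem_ofPred_eq, Set.mem_preimage]
  rfl

theorem prob_flips {Ω : Type} [MeasurableSpace Ω] (P : Measure Ω) [IsProbabilityMeasure P]
    (Z : ℕ × E → Ω → Bool) (hZ : ∀ i, Measurable (Z i)) (hind : iIndepFun Z P)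
    (hcard : 2 ≤ Fintype.card E)
    (hp : ∀ i, P {ω | Z i ω = true} = ENNReal.ofReal (1 / (Fintype.card E : ℝ))) (t : ℕ) (F : Finset E) :
    P.real {ω | flips Z t ω = F} = flipProb F := by
  classical
  have hq0 : (0 : ℝ) ≤ 1 / (Fintype.card E : ℝ) := by positivity
  have hq1 : (1 : ℝ) / (Fintype.card E : ℝ) ≤ 1 := by
    rw [div_le_one (by positivity)]
    have : (2 : ℝ) ≤ Fintype.card E := by exact_mod_cast hcard
    linarith
  have hpt : ∀ i, P.real (Z i ⁻¹' {true}) = 1 / (Fintype.card E : ℝ) := by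
    intro i
    have : Z i ⁻¹' {true} = {ω | Z i ω = true} := by ext ω; simp
    rw [measureReal_def, this, hp i, ENNReal.toReal_ofReal hq0]
  have hpf : ∀ i, P.real (Z i ⁻¹' {false}) = 1 - 1 / (Fintype.card E : ℝ) := by
    intro i
    have h1 : Z i ⁻¹' {false} = (Z i ⁻¹' {true})ᶜ := by
      ext ω; simp
    rw [h1, probReal_compl_eq_one_sub ((hZ i) (measurableSet_singleton true)), hpt i]
  have hset : {ω | flips Z t ω = F} = ⋂ i ∈ (({t} : Finset ℕ) ×ˢ (Finset.univ : Finset E)),
      Z i ⁻¹' {decide (i.2 ∈ F)} := by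
    ext ω
    simp only [Set.mem_ofPred_eq, Set.mem_iInter, Finset.mem_product, Finset.mem_singleton,
      Finset.mem_univ, and_true, Set.mem_preimage, Set.mem_singleton_iff, flips]
    constructor
    · rintro h ⟨s, e⟩ hs
      simp only at hs
      subst hs
      rw [← h]
      simp
    · intro h
      ext e
      have := h (t, e) rfl
      simp only [Finset.mem_filter, Finset.mem_univ, true_and]
      rw [this]
      simp
  have hprod := hind.measure_inter_preimage_eq_mul (({t} : Finset ℕ) ×ˢ (Finset.univ : Finset E))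
    (sets := fun i => {decide (i.2 ∈ F)}) (fun i _ => measurableSet_singleton _)
  rw [measureReal_def, hset, hprod, ENNReal.toReal_prod, Finset.prod_product]
  simp only [Finset.prod_singleton]
  have h3 : ∀ e : E, (P (Z (t, e) ⁻¹' {decide (e ∈ F)})).toReal =
      if e ∈ F then 1 / (Fintype.card E : ℝ) else 1 - 1 / (Fintype.card E : ℝ) := by
    intro e
    by_cases he : e ∈ F
    · simp only [he, decide_true, if_true]
      exact hpt (t, e)
    · simp only [he, decide_false, if_false]
      exact hpf (t, e)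
  rw [Finset.prod_congr rfl (fun e _ => h3 e), Finset.prod_ite, Finset.prod_const, Finset.prod_const]
  unfold flipProb
  have h4 : (Finset.univ.filter fun e => e ∈ F) = F := by ext e; simp
  have h5 : (Finset.univ.filter fun e => e ∉ F).card = Fintype.card E - F.card := by
    have : (Finset.univ.filter fun e => e ∉ F) = Fᶜ := by ext e; simp
    rw [this, Finset.card_compl]
  rw [h4, h5]

theorem prob_joint {Ω : Type} [MeasurableSpace Ω] (P : Measure Ω) [IsProbabilityMeasure P]
    (Z : ℕ × E → Ω → Bool) (hZ : ∀ i, Measurable (Z i)) (hind : iIndepFun Z P)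
    (hcard : 2 ≤ Fintype.card E)
    (hp : ∀ i, P {ω | Z i ω = true} = ENNReal.ofReal (1 / (Fintype.card E : ℝ)))
    (nxt : Finset E → Finset E → Finset E) (x0 : Finset E) (t : ℕ) (x F : Finset E) :
    P.real ({ω | traj nxt Z x0 t ω = x} ∩ {ω | flips Z t ω = F}) =
      P.real {ω | traj nxt Z x0 t ω = x} * flipProb F := by
  classical
  obtain ⟨s, hs1, hs2⟩ := meas_traj Z hZ nxt x0 t
  obtain ⟨r, hr1, hr2⟩ := meas_flips Z t
  have hdisj : Disjoint (range t ×ˢ (Finset.univ : Finset E)) (({t} : Finset ℕ) ×ˢ (Finset.univ : Finset E)) := by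
    rw [Finset.disjoint_left]
    rintro ⟨a, b⟩ h1 h2
    simp only [Finset.mem_product, Finset.mem_range, Finset.mem_univ, and_true, Finset.mem_singleton] at h1 h2
    omega
  have h := hind.indepFun_finset _ _ hdisj hZ
  have h' := h.measure_inter_preimage_eq_mul _ _ (hs1 x) (hr1 F)
  rw [← prob_flips P Z hZ hind hcard hp t F]
  rw [measureReal_def, measureReal_def, measureReal_def, ← ENNReal.toReal_mul, hs2 x, hr2 F, h']

theorem measSet_traj {Ω : Type} [MeasurableSpace Ω]
    (Z : ℕ × E → Ω → Bool) (hZ : ∀ i, Measurable (Z i))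
    (nxt : Finset E → Finset E → Finset E) (x0 : Finset E) (t : ℕ) (x : Finset E) :
    MeasurableSet {ω | traj nxt Z x0 t ω = x} := by
  obtain ⟨s, hs1, hs2⟩ := meas_traj Z hZ nxt x0 t
  rw [hs2 x]
  exact measurable_pi_lambda (fun a (i : _) => Z i.1 a) (fun i => hZ i.1) (hs1 x)

theorem measSet_flips {Ω : Type} [MeasurableSpace Ω]
    (Z : ℕ × E → Ω → Bool) (hZ : ∀ i, Measurable (Z i)) (t : ℕ) (x : Finset E) :
    MeasurableSet {ω | flips Z t ω = x} := by
  obtain ⟨s, hs1, hs2⟩ := meas_flips Z t
  rw [hs2 x]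
  exact measurable_pi_lambda (fun a (i : _) => Z i.1 a) (fun i => hZ i.1) (hs1 x)

theorem step_sum {Ω : Type} [MeasurableSpace Ω] (P : Measure Ω) [IsProbabilityMeasure P]
    (Z : ℕ × E → Ω → Bool) (hZ : ∀ i, Measurable (Z i)) (hind : iIndepFun Z P)
    (hcard : 2 ≤ Fintype.card E)
    (hp : ∀ i, P {ω | Z i ω = true} = ENNReal.ofReal (1 / (Fintype.card E : ℝ)))
    (nxt : Finset E → Finset E → Finset E) (x0 : Finset E) (t : ℕ) (g : Finset E → ℝ) :
    ∑ y, P.real {ω | traj nxt Z x0 (t + 1) ω = y} * g y =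
      ∑ x, P.real {ω | traj nxt Z x0 t ω = x} * ∑ F, flipProb F * g (nxt x (symmDiff x F)) := by
  classical
  have h1 : ∀ y, P.real {ω | traj nxt Z x0 (t + 1) ω = y} =
      ∑ p ∈ (Finset.univ : Finset (Finset E × Finset E)).filter (fun p => nxt p.1 (symmDiff p.1 p.2) = y),
        P.real {ω | traj nxt Z x0 t ω = p.1} * flipProb p.2 := by
    intro y
    have hU : {ω | traj nxt Z x0 (t + 1) ω = y} =
        ⋃ p ∈ (Finset.univ : Finset (Finset E × Finset E)).filter (fun p => nxt p.1 (symmDiff p.1 p.2) = y),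
          ({ω | traj nxt Z x0 t ω = p.1} ∩ {ω | flips Z t ω = p.2}) := by
      ext ω
      simp only [Set.mem_ofPred_eq, Set.mem_iUnion, Finset.mem_filter, Finset.mem_univ, true_and,
        Set.mem_inter_iff, exists_prop, Prod.exists, traj]
      constructor
      · intro h
        exact ⟨_, _, h, rfl, rfl⟩
      · rintro ⟨a, b, h, rfl, rfl⟩
        exact h
    rw [hU, measureReal_biUnion_finset]
    · exact Finset.sum_congr rfl (fun p _ => prob_joint P Z hZ hind hcard hp nxt x0 t p.1 p.2)
    · intro p _ p' _ hne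
      rw [Function.onFun, Set.disjoint_left]
      rintro ω ⟨h1, h2⟩ ⟨h3, h4⟩
      simp only [Set.mem_ofPred_eq] at h1 h2 h3 h4
      exact hne (Prod.ext (h1.symm.trans h3) (h2.symm.trans h4))
    · intro p _
      exact (measSet_traj Z hZ nxt x0 t p.1).inter (measSet_flips Z hZ t p.2)
  have h2 : ∀ y, P.real {ω | traj nxt Z x0 (t + 1) ω = y} * g y =
      ∑ p ∈ (Finset.univ : Finset (Finset E × Finset E)).filter (fun p => nxt p.1 (symmDiff p.1 p.2) = y),
        P.real {ω | traj nxt Z x0 t ω = p.1} * (flipProb p.2 * g (nxt p.1 (symmDiff p.1 p.2))) := by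
    intro y
    rw [h1 y, Finset.sum_mul]
    refine Finset.sum_congr rfl (fun p hp => ?_)
    rw [Finset.mem_filter] at hp
    rw [hp.2]; ring
  simp only [h2]
  rw [Finset.sum_fiberwise]
  rw [Fintype.sum_prod_type]
  refine Finset.sum_congr rfl (fun x _ => ?_)
  rw [Finset.mul_sum]

theorem flipProb_nonneg (hcard : 2 ≤ Fintype.card E) (F : Finset E) : 0 ≤ flipProb F := by
  have hq0 : (0 : ℝ) ≤ 1 / (Fintype.card E : ℝ) := by positivity
  have hq1 : (1 : ℝ) / (Fintype.card E : ℝ) ≤ 1 := by
    rw [div_le_one (by positivity)]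
    have : (2 : ℝ) ≤ Fintype.card E := by exact_mod_cast hcard
    linarith
  unfold flipProb
  exact mul_nonneg (pow_nonneg hq0 _) (pow_nonneg (by linarith) _)

/-- Additive drift lower bound. -/
theorem drift_lower {Ω : Type} [MeasurableSpace Ω] (P : Measure Ω) [IsProbabilityMeasure P]
    (Z : ℕ × E → Ω → Bool) (hZ : ∀ i, Measurable (Z i)) (hind : iIndepFun Z P)
    (hcard : 2 ≤ Fintype.card E)
    (hp : ∀ i, P {ω | Z i ω = true} = ENNReal.ofReal (1 / (Fintype.card E : ℝ)))
    (nxt : Finset E → Finset E → Finset E) (opt S : Finset E → Prop) (V : Finset E → ℝ) (B : ℝ)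
    (x0 : Finset E) (hS0 : S x0) (hSn : ∀ x y, S x → S (nxt x y))
    (habs : ∀ x y, opt x → opt (nxt x y))
    (hV0 : ∀ x, 0 ≤ V x) (hVB : ∀ x, V x ≤ B) (hVopt : ∀ x, opt x → V x = 0)
    (hdrift : ∀ x, S x → ¬ opt x →
      V x - 1 ≤ ∑ F : Finset E, flipProb F * V (nxt x (symmDiff x F))) :
    ENNReal.ofReal (V x0) ≤ ∫⁻ ω, hitTime opt (traj nxt Z x0) ω ∂P := by
  classical
  set p : ℕ → Finset E → ℝ := fun t x => P.real {ω | traj nxt Z x0 t ω = x} with hpdef
  have hp0 : ∀ t x, 0 ≤ p t x := fun t x => measureReal_nonneg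
  set a : ℕ → ℝ := fun t => ∑ x, p t x * V x with ha
  set s : ℕ → ℝ := fun t => ∑ x, p t x * (if opt x then 0 else 1) with hs
  have hSt : ∀ t ω, S (traj nxt Z x0 t ω) := by
    intro t ω
    induction t with
    | zero => exact hS0
    | succ t ih => exact hSn _ _ ih
  have hpS : ∀ t x, ¬ S x → p t x = 0 := by
    intro t x hx
    have : {ω | traj nxt Z x0 t ω = x} = ∅ := by
      ext ω
      simp only [Set.mem_ofPred_eq, Set.mem_empty_iff_false, iff_false]
      intro h
      exact hx (h ▸ hSt t ω)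
    simp only [hpdef, this, measureReal_empty]
  have hfp := flipProb_nonneg (E := E) hcard
  have hstep : ∀ t, a t - s t ≤ a (t + 1) := by
    intro t
    have h1 : a (t + 1) = ∑ x, p t x * ∑ F, flipProb F * V (nxt x (symmDiff x F)) :=
      step_sum P Z hZ hind hcard hp nxt x0 t V
    rw [h1]
    simp only [ha, hs, ← Finset.sum_sub_distrib]
    refine Finset.sum_le_sum (fun x _ => ?_)
    rw [← mul_sub]
    by_cases hSx : S x
    · refine mul_le_mul_of_nonneg_left ?_ (hp0 t x)
      by_cases hox : opt x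
      · simp only [hox, if_true, sub_zero, hVopt x hox]
        exact Finset.sum_nonneg (fun F _ => mul_nonneg (hfp F) (hV0 _))
      · simp only [hox, if_false]
        exact hdrift x hSx hox
    · rw [hpS t x hSx]; simp
  have hsum : ∀ N, a 0 ≤ ∑ t ∈ range N, s t + a N := by
    intro N
    induction N with
    | zero => simp
    | succ N ih =>
      rw [Finset.sum_range_succ]
      have := hstep N
      linarith
  have haN : ∀ N, a N ≤ B * s N := by
    intro N
    simp only [ha, hs, Finset.mul_sum]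
    refine Finset.sum_le_sum (fun x _ => ?_)
    by_cases hox : opt x
    · simp [hox, hVopt x hox]
    · simp only [hox, if_false, mul_one]
      have := mul_le_mul_of_nonneg_left (hVB x) (hp0 N x)
      linarith
  have ha0 : a 0 = V x0 := by
    have h0 : ∀ x, p 0 x = if x = x0 then 1 else 0 := by
      intro x
      by_cases hx : x = x0
      · subst hx
        simp [hpdef, traj]
      · have : {ω : Ω | traj nxt Z x0 0 ω = x} = ∅ := by
          ext ω
          simp only [Set.mem_ofPred_eq, Set.mem_empty_iff_false, iff_false, traj]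
          exact fun h => hx h.symm
        simp only [hpdef, this, measureReal_empty, hx, if_false]
    simp only [ha, h0, ite_mul, one_mul, zero_mul, Finset.sum_ite_eq', Finset.mem_univ, if_true]
  have hs0 : ∀ t, 0 ≤ s t := fun t => Finset.sum_nonneg (fun x _ => mul_nonneg (hp0 t x) (by split_ifs <;> norm_num))
  -- the event not opt
  have hmeasN : ∀ t, MeasurableSet {ω | ¬ opt (traj nxt Z x0 t ω)} := by
    intro t
    have : {ω | ¬ opt (traj nxt Z x0 t ω)} = ⋃ x ∈ (Finset.univ : Finset (Finset E)).filter (fun x => ¬ opt x), {ω | traj nxt Z x0 t ω = x} := by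
      ext ω
      simp
    rw [this]
    exact Finset.measurableSet_biUnion _ (fun x _ => measSet_traj Z hZ nxt x0 t x)
  have hsP : ∀ t, P {ω | ¬ opt (traj nxt Z x0 t ω)} = ENNReal.ofReal (s t) := by
    intro t
    have : {ω | ¬ opt (traj nxt Z x0 t ω)} = ⋃ x ∈ (Finset.univ : Finset (Finset E)).filter (fun x => ¬ opt x), {ω | traj nxt Z x0 t ω = x} := by
      ext ω
      simp
    have h1 : P.real {ω | ¬ opt (traj nxt Z x0 t ω)} = s t := by
      rw [this, measureReal_biUnion_finset]
      · simp only [hs, mul_ite, mul_zero, mul_one]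
        rw [Finset.sum_filter]
        refine Finset.sum_congr rfl (fun x _ => ?_)
        by_cases hox : opt x <;> simp [hox, hpdef]
      · intro x _ y _ hne
        rw [Function.onFun, Set.disjoint_left]
        rintro ω h1 h2
        exact hne ((show _ = _ from h1).symm.trans h2)
      · intro x _
        exact measSet_traj Z hZ nxt x0 t x
    rw [← h1, ofReal_measureReal]
  have habs' : ∀ ω t k, opt (traj nxt Z x0 t ω) → opt (traj nxt Z x0 (t + k) ω) := by
    intro ω t k h
    induction k with
    | zero => exact h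
    | succ k ih => exact habs _ _ ih
  have hpt : ∀ N ω, ∑ t ∈ range N, ({ω | ¬ opt (traj nxt Z x0 t ω)} : Set Ω).indicator (fun _ => (1 : ℝ≥0∞)) ω
      ≤ hitTime opt (traj nxt Z x0) ω := by
    intro N ω
    unfold hitTime
    refine le_iInf₂ (fun t ht => ?_)
    calc ∑ t ∈ range N, ({ω | ¬ opt (traj nxt Z x0 t ω)} : Set Ω).indicator (fun _ => (1 : ℝ≥0∞)) ω
        ≤ ∑ t' ∈ range N, (if t' < t then (1 : ℝ≥0∞) else 0) := by
          refine Finset.sum_le_sum (fun t' _ => ?_)
          by_cases h : t' < t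
          · simp only [h, if_true]
            exact Set.indicator_le_self' (fun _ _ => zero_le) ω
          · simp only [h, if_false]
            have : ω ∉ {ω | ¬ opt (traj nxt Z x0 t' ω)} := by
              simp only [Set.mem_ofPred_eq, not_not]
              have := habs' ω t (t' - t) ht
              rwa [Nat.add_sub_cancel' (by omega)] at this
            rw [Set.indicator_of_notMem this]
      _ = (((range N).filter (fun t' => t' < t)).card : ℝ≥0∞) := by
          rw [Finset.sum_ite, Finset.sum_const_zero, add_zero, Finset.sum_const, nsmul_eq_mul, mul_one]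
      _ ≤ (t : ℝ≥0∞) := by
          have : ((range N).filter (fun t' => t' < t)).card ≤ t := by
            calc _ ≤ (range t).card := Finset.card_le_card (fun x hx => by
                  simp only [Finset.mem_filter, Finset.mem_range] at hx ⊢; exact hx.2)
              _ = t := Finset.card_range t
          exact_mod_cast this
  have hlint : ∀ N, ENNReal.ofReal (∑ t ∈ range N, s t) ≤ ∫⁻ ω, hitTime opt (traj nxt Z x0) ω ∂P := by
    intro N
    calc ENNReal.ofReal (∑ t ∈ range N, s t) = ∑ t ∈ range N, P {ω | ¬ opt (traj nxt Z x0 t ω)} := by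
          rw [ENNReal.ofReal_sum_of_nonneg (fun t _ => hs0 t)]
          exact Finset.sum_congr rfl (fun t _ => (hsP t).symm)
      _ = ∑ t ∈ range N, ∫⁻ ω, ({ω | ¬ opt (traj nxt Z x0 t ω)} : Set Ω).indicator (fun _ => (1 : ℝ≥0∞)) ω ∂P := by
          refine Finset.sum_congr rfl (fun t _ => ?_)
          rw [lintegral_indicator (hmeasN t), lintegral_const, one_mul, Measure.restrict_apply_univ]
      _ = ∫⁻ ω, ∑ t ∈ range N, ({ω | ¬ opt (traj nxt Z x0 t ω)} : Set Ω).indicator (fun _ => (1 : ℝ≥0∞)) ω ∂P := by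
          rw [lintegral_finsetSum]
          intro t _
          exact measurable_const.indicator (hmeasN t)
      _ ≤ _ := lintegral_mono (hpt N)
  by_cases hfin : ∫⁻ ω, hitTime opt (traj nxt Z x0) ω ∂P = ∞
  · rw [hfin]; exact le_top
  set T := (∫⁻ ω, hitTime opt (traj nxt Z x0) ω ∂P).toReal with hT
  have hTs : ∀ N, ∑ t ∈ range N, s t ≤ T := by
    intro N
    have h1 := ENNReal.toReal_mono hfin (hlint N)
    rwa [ENNReal.toReal_ofReal (Finset.sum_nonneg (fun t _ => hs0 t))] at h1
  have hsm : Summable s := summable_of_sum_range_le hs0 hTs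
  have hlim := hsm.tendsto_atTop_zero
  have hlim2 : Filter.Tendsto (fun N => T + B * s N) Filter.atTop (nhds (T + B * 0)) :=
    tendsto_const_nhds.add (hlim.const_mul B)
  have hle : V x0 ≤ T + B * 0 := by
    refine ge_of_tendsto' hlim2 (fun N => ?_)
    have h1 := hsum N
    have h2 := haN N
    have h3 := hTs N
    rw [ha0] at h1
    linarith
  rw [mul_zero, add_zero] at hle
  calc ENNReal.ofReal (V x0) ≤ ENNReal.ofReal T := ENNReal.ofReal_le_ofReal hle
    _ = _ := ENNReal.ofReal_toReal hfin

end Pool.Agent.Helper120.EaJ4
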