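import Pool.Agent.Helper120.Ea.Base

open Finset

namespace Pool.Agent.Helper120.Ea

/-- vertices that are not cluster heads and not the root: leaves, hubs, cluster members -/
abbrev Dep (P L M r : ℕ) := Fin P ⊕ Fin L ⊕ (Fin L × Fin M × Fin r)

/-- vertices -/
abbrev Vx (P L M r : ℕ) := Unit ⊕ Dep P L M r ⊕ (Fin L × Fin M)

/-- edges: frozen edges (one for each element of `Dep`) and active edges -/
abbrev Ex (P L M r : ℕ) := Dep P L M r ⊕ (Fin L × BE M r)

variable {P L M r : ℕ}

def root : Vx P L M r := Sum.inl ()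
def dep (d : Dep P L M r) : Vx P L M r := Sum.inr (Sum.inl d)
def head (b : Fin L) (j : Fin M) : Vx P L M r := Sum.inr (Sum.inr (b, j))

/-- the other endpoint of the frozen edge at `d` -/
def par : Dep P L M r → Vx P L M r
  | Sum.inl _ => root
  | Sum.inr (Sum.inl _) => root
  | Sum.inr (Sum.inr (b, j, _)) => head b j

/-- previous head (the hub of the block for `j = 0`) -/
def prevHead (b : Fin L) (j : Fin M) : Vx P L M r :=
  if h : j.val = 0 then dep (Sum.inr (Sum.inl b)) else head b ⟨j.val - 1, by omega⟩

/-- member `k` of the cluster `(b,j)`; member `0` is the head -/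
def member (b : Fin L) (j : Fin M) (k : ℕ) : Vx P L M r :=
  if h : 0 < k ∧ k ≤ r then dep (Sum.inr (Sum.inr (b, j, ⟨k - 1, by omega⟩))) else head b j

/-- endpoints of the edges -/
def ends : Ex P L M r → Sym2 (Vx P L M r)
  | Sum.inl d => s(dep d, par d)
  | Sum.inr (b, j, k) => if k.val = r + 1 then s(root, head b j) else s(prevHead b j, member b j k.val)

/-- graph with edge set `x` -/
def gr (x : Finset (Ex P L M r)) : SimpleGraph (Vx P L M r) :=
  SimpleGraph.fromEdgeSet (ends '' (x : Set (Ex P L M r)))

/-- active part of `x` in block `b` -/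
noncomputable def blk (x : Finset (Ex P L M r)) (b : Fin L) : Finset (BE M r) := by
  classical exact Finset.univ.filter fun e => (Sum.inr (b, e) : Ex P L M r) ∈ x

/-- lower endpoint -/
def loV : Ex P L M r → Vx P L M r
  | Sum.inl d => par d
  | Sum.inr (b, j, k) => if k.val = r + 1 then root else prevHead b j

/-- upper endpoint -/
def hiV : Ex P L M r → Vx P L M r
  | Sum.inl d => dep d
  | Sum.inr (b, j, k) => if k.val = r + 1 then head b j else member b j k.val

/-- rank -/
def rk : Vx P L M r → ℕ
  | Sum.inl _ => 0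
  | Sum.inr (Sum.inl (Sum.inl _)) => 1
  | Sum.inr (Sum.inl (Sum.inr (Sum.inl _))) => 1
  | Sum.inr (Sum.inl (Sum.inr (Sum.inr (_, j, _)))) => 2 * j.val + 3
  | Sum.inr (Sum.inr (_, j)) => 2 * j.val + 2

theorem ends_eq (e : Ex P L M r) : ends e = s(loV e, hiV e) := by
  rcases e with d | ⟨b, j, k⟩
  · exact Sym2.eq_swap
  · simp only [ends, loV, hiV]
    split_ifs <;> rfl

theorem rk_prevHead (b : Fin L) (j : Fin M) :
    rk (prevHead b j : Vx P L M r) < 2 * j.val + 2 := by
  unfold prevHead
  split_ifs with h
  · simp [rk, dep]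
  · simp only [rk, head]
    omega

theorem rk_member (b : Fin L) (j : Fin M) (k : ℕ) :
    2 * j.val + 2 ≤ rk (member b j k : Vx P L M r) := by
  unfold member
  split_ifs with h
  · simp [rk, dep]
  · simp [rk, head]

theorem rk_lt (e : Ex P L M r) : rk (loV e) < rk (hiV e) := by
  rcases e with (p | b | ⟨b, j, k⟩) | ⟨b, j, k⟩
  · simp [loV, hiV, par, rk, root, dep]
  · simp [loV, hiV, par, rk, root, dep]
  · simp [loV, hiV, par, rk, head, dep]
  · simp only [loV, hiV]
    split_ifs with h
    · simp [rk, root, head]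
    · exact (rk_prevHead b j).trans_le (rk_member b j k.val)

theorem head_inj {b b' : Fin L} {j j' : Fin M} (h : (head b j : Vx P L M r) = head b' j') :
    b = b' ∧ j = j' := by
  simpa [head] using h

theorem prevHead_ne_root (b : Fin L) (j : Fin M) : (root : Vx P L M r) ≠ prevHead b j := by
  unfold prevHead
  split_ifs with h
  · simp [root, dep]
  · simp [root, head]

theorem prevHead_ne_head (b b' : Fin L) (j : Fin M) :
    (head b' j : Vx P L M r) ≠ prevHead b j := by
  intro h
  have h1 := rk_prevHead (P := P) (r := r) b j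
  rw [← h] at h1
  simp [rk, head] at h1

theorem lohi_inj (e e' : Ex P L M r) (h1 : loV e = loV e') (h2 : hiV e = hiV e') : e = e' := by
  rcases e with d | ⟨b, j, k⟩ <;> rcases e' with d' | ⟨b', j', k'⟩
  · simp only [hiV, dep, Sum.inr.injEq, Sum.inl.injEq] at h2
    rw [h2]
  · exfalso
    simp only [hiV] at h2
    simp only [loV] at h1
    split_ifs at h1 h2 with h
    · simp [dep, head] at h2
    · unfold member at h2
      split_ifs at h2 with h3
      · simp only [dep, Sum.inr.injEq, Sum.inl.injEq] at h2
        subst h2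
        exact prevHead_ne_head b' b' j' h1
      · simp [dep, head] at h2
  · exfalso
    simp only [hiV] at h2
    simp only [loV] at h1
    split_ifs at h1 h2 with h
    · simp [dep, head] at h2
    · unfold member at h2
      split_ifs at h2 with h3
      · simp only [dep, Sum.inr.injEq, Sum.inl.injEq] at h2
        subst h2
        exact prevHead_ne_head b b j h1.symm
      · simp [dep, head] at h2
  · simp only [hiV] at h2
    simp only [loV] at h1
    have hk := k.isLt
    have hk' := k'.isLt
    by_cases hkr : k.val = r + 1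
    · by_cases hkr' : k'.val = r + 1
      · rw [if_pos hkr, if_pos hkr'] at h2
        obtain ⟨rfl, rfl⟩ := head_inj h2
        have : k = k' := Fin.ext (by omega)
        rw [this]
      · rw [if_pos hkr, if_neg hkr'] at h1
        exact absurd h1 (prevHead_ne_root b' j')
    · by_cases hkr' : k'.val = r + 1
      · rw [if_neg hkr, if_pos hkr'] at h1
        exact absurd h1.symm (prevHead_ne_root b j)
      · rw [if_neg hkr, if_neg hkr'] at h2
        unfold member at h2
        split_ifs at h2 with h3 h4 h4
        · simp only [dep, Sum.inr.injEq, Sum.inl.injEq, Prod.mk.injEq, Fin.mk.injEq] at h2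
          obtain ⟨rfl, rfl, h5⟩ := h2
          have : k = k' := Fin.ext (by omega)
          rw [this]
        · simp [dep, head] at h2
        · simp [dep, head] at h2
        · obtain ⟨rfl, rfl⟩ := head_inj h2
          have : k = k' := Fin.ext (by omega)
          rw [this]

theorem ends_inj : Function.Injective (ends : Ex P L M r → Sym2 (Vx P L M r)) := by
  intro e e' h
  rw [ends_eq, ends_eq, Sym2.eq_iff] at h
  rcases h with ⟨h1, h2⟩ | ⟨h1, h2⟩
  · exact lohi_inj e e' h1 h2
  · exfalso
    have h3 := rk_lt e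
    have h4 := rk_lt e'
    rw [h1, h2] at h3
    omega

theorem ends_not_diag (e : Ex P L M r) : ¬ (ends e).IsDiag := by
  rw [ends_eq, Sym2.mk_isDiag_iff]
  intro h
  have h3 := rk_lt e
  rw [h] at h3
  omega

theorem gr_adj {x : Finset (Ex P L M r)} {e : Ex P L M r} (he : e ∈ x) :
    (gr x).Adj (loV e) (hiV e) := by
  rw [gr, SimpleGraph.fromEdgeSet_adj]
  refine ⟨⟨e, he, ends_eq e⟩, ?_⟩
  intro h
  have h3 := rk_lt e
  rw [h] at h3
  omega

theorem gr_edgeSet (x : Finset (Ex P L M r)) :
    (gr x).edgeSet = ends '' (x : Set (Ex P L M r)) := by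
  rw [gr, SimpleGraph.edgeSet_fromEdgeSet]
  ext s
  constructor
  · intro h
    exact h.1
  · intro h
    refine ⟨h, ?_⟩
    obtain ⟨e, _, rfl⟩ := h
    exact ends_not_diag e

theorem card_edges (x : Finset (Ex P L M r)) : Nat.card (gr x).edgeSet = x.card := by
  rw [gr_edgeSet, Nat.card_coe_set_eq, Set.ncard_image_of_injective _ ends_inj,
    Set.ncard_coe_finset]

theorem card_Vx : Nat.card (Vx P L M r) = 1 + (P + (L + L * (M * r)) + L * M) := by
  rw [Nat.card_eq_fintype_card]
  simp

/-- the edge at position `j` (not a start) links the heads `j-1`, `j` -/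
theorem reach_step {x : Finset (Ex P L M r)} (hF : ∀ d, Sum.inl d ∈ x) (b : Fin L) (j : Fin M)
    (k : Fin (r + 2)) (hk : k.val ≤ r) (hx : Sum.inr (b, j, k) ∈ x) :
    (gr x).Reachable (prevHead b j) (head b j) := by
  have h1 := gr_adj hx
  simp only [loV, hiV] at h1
  rw [if_neg (by omega), if_neg (by omega)] at h1
  refine h1.reachable.trans ?_
  unfold member
  split_ifs with h
  · have h2 := gr_adj (hF (Sum.inr (Sum.inr (b, j, ⟨k.val - 1, by omega⟩))))
    simp only [loV, hiV, par] at h2
    exact h2.symm.reachable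
  · exact SimpleGraph.Reachable.refl _

theorem conn_of_enc (x : Finset (Ex P L M r)) (hF : ∀ d, Sum.inl d ∈ x)
    (hb : ∀ b, ∃ (R : Finset (ℕ × ℕ)) (κ : ℕ → ℕ), Valid M R ∧ (∀ j, κ j ≤ r) ∧
      enc M r R κ ⊆ blk x b) : (gr x).Connected := by
  classical
  have hblk : ∀ b e, e ∈ blk x b → Sum.inr (b, e) ∈ x := by
    intro b e he
    simpa [blk] using he
  have hhub : ∀ b : Fin L, (gr x).Reachable root (dep (Sum.inr (Sum.inl b))) := fun b => by
    have h := gr_adj (hF (Sum.inr (Sum.inl b)))
    simp only [loV, hiV, par] at h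
    exact h.reachable
  have hhead : ∀ (b : Fin L) (j : ℕ) (hj : j < M), (gr x).Reachable root (head b ⟨j, hj⟩) := by
    intro b
    obtain ⟨R, κ, hR, hκ, hsub⟩ := hb b
    have hcopy : ∀ (j : ℕ) (hj : j < M), (∀ p ∈ R, p.1 ≠ j) →
        (gr x).Reachable (prevHead b ⟨j, hj⟩) (head b ⟨j, hj⟩) := by
      intro j hj hs
      have hκj := hκ j
      refine reach_step hF b ⟨j, hj⟩ ⟨κ j, by omega⟩ hκj (hblk b _ (hsub ?_))
      simp only [enc, Finset.mem_filter, Finset.mem_univ, true_and]
      right
      exact ⟨hκj, hs⟩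
    intro j
    induction j using Nat.strong_induction_on with
    | _ j ih =>
      intro hj
      by_cases hin : ∃ p ∈ R, p.1 ≤ j ∧ j ≤ p.2
      · obtain ⟨p, hp, hp1, hp2⟩ := hin
        have hpM := hR.lt p hp
        have hdown : ∀ (t i : ℕ) (hi : i < M), p.1 ≤ i → i + t = p.2 →
            (gr x).Reachable root (head b ⟨i, hi⟩) := by
          intro t
          induction t with
          | zero =>
            intro i hi _ hit
            have hmem : Sum.inr (b, (⟨i, hi⟩ : Fin M), (⟨r + 1, by omega⟩ : Fin (r + 2))) ∈ x := by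
              apply hblk
              apply hsub
              simp only [enc, Finset.mem_filter, Finset.mem_univ, true_and]
              left
              exact ⟨p, hp, by omega⟩
            have h := gr_adj hmem
            simp only [loV, hiV, if_true] at h
            exact h.reachable
          | succ t iht =>
            intro i hi hpi hit
            have hi1 : i + 1 < M := by omega
            have h1 := iht (i + 1) hi1 (by omega) (by omega)
            have h2 := hcopy (i + 1) hi1 (by
              intro q hq hq1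
              by_cases hpq : p = q
              · subst hpq
                omega
              · have h3 := hR.le q hq
                rcases hR.disj p hp q hq hpq with h4 | h4 <;> omega)
            have h3 : (prevHead b ⟨i + 1, hi1⟩ : Vx P L M r) = head b ⟨i, hi⟩ := by
              unfold prevHead
              rw [dif_neg (by simp)]
              rfl
            rw [h3] at h2
            exact h1.trans h2.symm
        exact hdown (p.2 - j) j hj hp1 (by omega)
      · push Not at hin
        have h2 := hcopy j hj (by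
          intro q hq hq1
          have h3 := hR.le q hq
          have h4 := hin q hq (by omega)
          omega)
        refine SimpleGraph.Reachable.trans ?_ h2
        unfold prevHead
        split_ifs with h0
        · exact hhub b
        · exact ih (j - 1) (by simp only at h0; omega) (by omega)
  have hall : ∀ v : Vx P L M r, (gr x).Reachable root v := by
    rintro (u | (p | b | ⟨b, j, k⟩) | ⟨b, j⟩)
    · exact SimpleGraph.Reachable.refl _
    · have h := gr_adj (hF (Sum.inl p))
      simp only [loV, hiV, par] at h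
      exact h.reachable
    · exact hhub b
    · have h := gr_adj (hF (Sum.inr (Sum.inr (b, j, k))))
      simp only [loV, hiV, par] at h
      exact (hhead b j.val j.isLt).trans h.reachable
    · exact hhead b j.val j.isLt
  have : Nonempty (Vx P L M r) := ⟨root⟩
  exact ⟨fun u v => (hall u).symm.trans (hall v)⟩

theorem gr_univ_connected (hM : 0 < M) :
    (gr (Finset.univ : Finset (Ex P L M r))).Connected := by
  refine conn_of_enc _ (fun d => Finset.mem_univ _) fun b => ⟨∅, fun _ => 0, ?_, ?_, ?_⟩
  · exact ⟨by simp, by simp, by simp⟩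
  · intro j
    exact Nat.zero_le _
  · intro e _
    simp [blk]

theorem card_enc (R : Finset (ℕ × ℕ)) (κ : ℕ → ℕ) (hR : Valid M R) (hκ : ∀ j, κ j ≤ r) :
    (enc M r R κ).card = M := by
  classical
  have h1 : Set.InjOn Prod.fst (R : Set (ℕ × ℕ)) := by
    intro p hp q hq h
    by_contra hne
    have h2 := hR.le p hp
    have h3 := hR.le q hq
    rcases hR.disj p hp q hq hne with h4 | h4 <;> omega
  have h2 : Set.InjOn Prod.snd (R : Set (ℕ × ℕ)) := by
    intro p hp q hq h
    by_contra hne
    have h2 := hR.le p hp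
    have h3 := hR.le q hq
    rcases hR.disj p hp q hq hne with h4 | h4 <;> omega
  have hS1 : (R.image Prod.fst).card = R.card := Finset.card_image_of_injOn h1
  have hS2 : (R.image Prod.snd).card = R.card := Finset.card_image_of_injOn h2
  have hS1sub : R.image Prod.fst ⊆ Finset.range M := by
    intro a ha
    obtain ⟨p, hp, rfl⟩ := Finset.mem_image.1 ha
    have := hR.le p hp
    have := hR.lt p hp
    rw [Finset.mem_range]
    omega
  have henc : enc M r R κ =
      (Finset.univ.filter fun e : BE M r => e.2.val = r + 1 ∧ ∃ p ∈ R, p.2 = e.1.val) ∪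
      (Finset.univ.filter fun e : BE M r =>
        e.2.val = κ e.1.val ∧ e.2.val ≤ r ∧ ∀ p ∈ R, p.1 ≠ e.1.val) := by
    rw [← Finset.filter_or]
    unfold enc
    congr
  have hA : (Finset.univ.filter fun e : BE M r =>
      e.2.val = r + 1 ∧ ∃ p ∈ R, p.2 = e.1.val).card = (R.image Prod.snd).card := by
    apply Finset.card_bij (fun e _ => e.1.val)
    · intro e he
      simp only [Finset.mem_filter, Finset.mem_univ, true_and] at he
      obtain ⟨_, p, hp, hpe⟩ := he
      exact Finset.mem_image.2 ⟨p, hp, hpe⟩
    · intro e he e' he' h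
      simp only [Finset.mem_filter, Finset.mem_univ, true_and] at he he'
      exact Prod.ext (Fin.ext h) (Fin.ext (by rw [he.1, he'.1]))
    · intro j hj
      obtain ⟨p, hp, rfl⟩ := Finset.mem_image.1 hj
      refine ⟨(⟨p.2, hR.lt p hp⟩, ⟨r + 1, by omega⟩), ?_, rfl⟩
      simp only [Finset.mem_filter, Finset.mem_univ, true_and]
      exact ⟨p, hp, rfl⟩
  have hB : (Finset.univ.filter fun e : BE M r =>
      e.2.val = κ e.1.val ∧ e.2.val ≤ r ∧ ∀ p ∈ R, p.1 ≠ e.1.val).card =
      (Finset.range M \ R.image Prod.fst).card := by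
    apply Finset.card_bij (fun e _ => e.1.val)
    · intro e he
      simp only [Finset.mem_filter, Finset.mem_univ, true_and] at he
      rw [Finset.mem_sdiff, Finset.mem_range]
      refine ⟨e.1.isLt, ?_⟩
      intro hmem
      obtain ⟨p, hp, hpe⟩ := Finset.mem_image.1 hmem
      exact he.2.2 p hp hpe
    · intro e he e' he' h
      simp only [Finset.mem_filter, Finset.mem_univ, true_and] at he he'
      refine Prod.ext (Fin.ext h) (Fin.ext ?_)
      rw [he.1, he'.1]
      exact congrArg κ h
    · intro j hj
      rw [Finset.mem_sdiff, Finset.mem_range] at hj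
      have hκj := hκ j
      refine ⟨(⟨j, hj.1⟩, ⟨κ j, by omega⟩), ?_, rfl⟩
      simp only [Finset.mem_filter, Finset.mem_univ, true_and]
      refine ⟨hκj, ?_⟩
      intro p hp hpe
      exact hj.2 (Finset.mem_image.2 ⟨p, hp, hpe⟩)
  rw [henc, Finset.card_union_of_disjoint, hA, hB, Finset.card_sdiff_of_subset hS1sub, hS1, hS2,
    Finset.card_range]
  · have := Finset.card_le_card hS1sub
    rw [hS1, Finset.card_range] at this
    omega
  · rw [Finset.disjoint_left]
    intro e he he'
    simp only [Finset.mem_filter, Finset.mem_univ, true_and] at he he'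
    omega

theorem card_x (x : Finset (Ex P L M r)) (hF : ∀ d, Sum.inl d ∈ x) :
    x.card = (P + (L + L * (M * r))) + ∑ b, (blk x b).card := by
  classical
  rw [← Finset.card_toLeft_add_card_toRight]
  congr 1
  · have : x.toLeft = Finset.univ := by
      ext d
      simp [hF d]
    rw [this]
    simp
  · rw [Finset.card_eq_sum_card_fiberwise (f := Prod.fst) (t := Finset.univ)
      (fun _ _ => Finset.mem_coe.2 (Finset.mem_univ _))]
    refine Finset.sum_congr rfl fun b _ => ?_
    symm
    apply Finset.card_bij (fun (e : BE M r) _ => (b, e))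
    · intro e he
      simp only [blk, Finset.mem_filter, Finset.mem_univ, true_and] at he
      simp [he]
    · intro e _ e' _ h
      simpa using h
    · rintro ⟨b', e⟩ he
      simp only [Finset.mem_filter, Finset.mem_toRight] at he
      obtain ⟨h1, rfl⟩ := he
      exact ⟨e, by simpa [blk] using h1, rfl⟩

/-- number of edges of a tree -/
theorem card_of_isTree' (x : Finset (Ex P L M r)) (hx : (gr x).IsTree) :
    x.card = P + L + L * M * r + L * M := by
  have h := (SimpleGraph.isTree_iff_connected_and_card.1 hx).2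
  rw [card_edges, card_Vx] at h
  have e : L * (M * r) = L * M * r := by ring
  rw [e] at h
  omega

theorem forest_bound (x : Finset (Ex P L M r)) (hx : (gr x).IsAcyclic)
    (W : Finset (Vx P L M r)) (hW : W.Nonempty) (E : Finset (Ex P L M r)) (hE : E ⊆ x)
    (hEW : ∀ e ∈ E, loV e ∈ W ∧ hiV e ∈ W) : E.card + 1 ≤ W.card := by
  classical
  have hG : ((gr x).induce (W : Set (Vx P L M r))).IsAcyclic := hx.induce _
  have : Nonempty (W : Set (Vx P L M r)) := hW.to_subtype
  have htop : (⊤ : SimpleGraph (W : Set (Vx P L M r))).Connected := SimpleGraph.connected_top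
  obtain ⟨T, hT1, _, hT3⟩ := htop.exists_isTree_le_of_le_of_isAcyclic le_top hG
  have hcard := (SimpleGraph.isTree_iff_connected_and_card.1 hT3).2
  have hWc : Nat.card (W : Set (Vx P L M r)) = W.card := by simp
  rw [hWc] at hcard
  have hle : E.card ≤ Nat.card T.edgeSet := by
    have hEc : E.card = Nat.card E := by simp
    rw [hEc]
    refine Nat.card_le_card_of_injective
      (fun e : E => (⟨s(⟨loV e.1, (hEW e.1 e.2).1⟩, ⟨hiV e.1, (hEW e.1 e.2).2⟩), ?_⟩ :
        T.edgeSet)) ?_
    · rw [SimpleGraph.mem_edgeSet]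
      apply hT1
      exact gr_adj (hE e.2)
    · intro e e' h
      have h1 := congrArg (fun t : T.edgeSet => Sym2.map Subtype.val t.1) h
      simp only [Sym2.map_mk] at h1
      apply Subtype.ext
      apply ends_inj
      rw [ends_eq, ends_eq]
      exact h1
  omega

/-- forest bound, frozen edges removed -/
theorem forest_bound' (x : Finset (Ex P L M r)) (hF : ∀ d, Sum.inl d ∈ x)
    (hx : (gr x).IsAcyclic) (b : Fin L) (U : Finset Unit) (D : Finset (Dep P L M r))
    (H : Finset (Fin L × Fin M)) (hH : H.Nonempty)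
    (hD : ∀ d ∈ D, par d ∈ U.disjSum (D.disjSum H))
    (T : Finset (BE M r)) (hT : T ⊆ blk x b)
    (hT1 : ∀ e ∈ T, loV (Sum.inr (b, e)) ∈ U.disjSum (D.disjSum H) ∧
      hiV (Sum.inr (b, e)) ∈ U.disjSum (D.disjSum H)) :
    T.card + 1 ≤ U.card + H.card := by
  classical
  have h := forest_bound x hx (U.disjSum (D.disjSum H)) (by
      obtain ⟨a, ha⟩ := hH
      exact ⟨Sum.inr (Sum.inr a), by simp [ha]⟩)
    (D.disjSum (T.map ⟨fun e => (b, e), fun e e' h => by simpa using h⟩)) (by
      rintro (d | ⟨b', e⟩) he
      · exact hF d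
      · simp only [Finset.inr_mem_disjSum, Finset.mem_map, Function.Embedding.coeFn_mk,
          Prod.mk.injEq] at he
        obtain ⟨e', he', rfl, rfl⟩ := he
        have := hT he'
        simpa [blk] using this) (by
      rintro (d | ⟨b', e⟩) he
      · rw [Finset.inl_mem_disjSum] at he
        refine ⟨hD d he, ?_⟩
        simp [hiV, dep, he]
      · simp only [Finset.inr_mem_disjSum, Finset.mem_map, Function.Embedding.coeFn_mk,
          Prod.mk.injEq] at he
        obtain ⟨e', he', rfl, rfl⟩ := he
        exact hT1 e' he')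
  rw [Finset.card_disjSum, Finset.card_disjSum, Finset.card_disjSum, Finset.card_map] at h
  omega

/-- number of copies at `j` -/
def cT (T : Finset (BE M r)) (j : ℕ) : ℕ :=
  (T.filter fun e => e.1.val = j ∧ e.2.val ≤ r).card

/-- number of spokes at `j` -/
def sT (T : Finset (BE M r)) (j : ℕ) : ℕ :=
  (T.filter fun e => e.1.val = j ∧ e.2.val = r + 1).card

/-- number of edges below `j` -/
def cn (T : Finset (BE M r)) (j : ℕ) : ℕ :=
  (T.filter fun e => e.1.val < j).card

theorem cn_zero (T : Finset (BE M r)) : cn T 0 = 0 := by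
  simp [cn]

theorem cn_top (T : Finset (BE M r)) : cn T M = T.card := by
  unfold cn
  congr 1
  rw [Finset.filter_eq_self]
  intro e _
  exact e.1.isLt

theorem cn_succ (T : Finset (BE M r)) (j : ℕ) : cn T (j + 1) = cn T j + (cT T j + sT T j) := by
  unfold cn cT sT
  rw [← Finset.card_union_of_disjoint, ← Finset.card_union_of_disjoint]
  · congr 1
    ext e
    simp only [Finset.mem_filter, Finset.mem_union]
    have := e.2.isLt
    constructor
    · rintro ⟨h1, h2⟩
      by_cases h3 : e.1.val < j
      · exact Or.inl ⟨h1, h3⟩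
      · by_cases h4 : e.2.val ≤ r
        · exact Or.inr (Or.inl ⟨h1, by omega, h4⟩)
        · exact Or.inr (Or.inr ⟨h1, by omega, by omega⟩)
    · rintro (⟨h1, h2⟩ | ⟨h1, h2, _⟩ | ⟨h1, h2, _⟩)
      · exact ⟨h1, by omega⟩
      · exact ⟨h1, by omega⟩
      · exact ⟨h1, by omega⟩
  · rw [Finset.disjoint_left]
    intro e he he'
    simp only [Finset.mem_filter, Finset.mem_union] at he he'
    rcases he' with h | h <;> omega
  · rw [Finset.disjoint_left]
    intro e he he'
    simp only [Finset.mem_filter] at he he'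
    omega

theorem tail_card (T : Finset (BE M r)) (j : ℕ) :
    T.card = (T.filter fun e => j < e.1.val ∨ (e.1.val = j ∧ e.2.val = r + 1)).card +
      (cn T j + cT T j) := by
  unfold cn cT
  rw [← Finset.card_union_of_disjoint (s := T.filter fun e => e.1.val < j),
    ← Finset.card_union_of_disjoint]
  · congr 1
    ext e
    simp only [Finset.mem_filter, Finset.mem_union]
    have := e.2.isLt
    constructor
    · intro h1
      by_cases h3 : e.1.val < j
      · exact Or.inr (Or.inl ⟨h1, h3⟩)
      · by_cases h4 : j < e.1.val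
        · exact Or.inl ⟨h1, Or.inl h4⟩
        · by_cases h5 : e.2.val ≤ r
          · exact Or.inr (Or.inr ⟨h1, by omega, h5⟩)
          · exact Or.inl ⟨h1, Or.inr ⟨by omega, by omega⟩⟩
    · rintro (⟨h1, _⟩ | ⟨h1, _⟩ | ⟨h1, _⟩) <;> exact h1
  · rw [Finset.disjoint_left]
    intro e he he'
    simp only [Finset.mem_filter, Finset.mem_union] at he he'
    rcases he' with h | h <;> omega
  · rw [Finset.disjoint_left]
    intro e he he'
    simp only [Finset.mem_filter] at he he'
    omega

theorem sT_le (T : Finset (BE M r)) (j : ℕ) : sT T j ≤ 1 := by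
  unfold sT
  rw [Finset.card_le_one]
  intro e he e' he'
  simp only [Finset.mem_filter] at he he'
  exact Prod.ext (Fin.ext (by omega)) (Fin.ext (by omega))

section comb

variable {T : Finset (BE M r)} (hc : ∀ j < M, cT T j ≤ 1) (hA : ∀ j ≤ M, cn T j ≤ j)
  (hB : ∀ j < M, j ≤ cn T j + cT T j) (hM : cn T M = M)

include hc hA hB in
theorem comb_ne {i : ℕ} (hi : i < M) (h : cn T i ≠ i) : cn T i + 1 = i ∧ cT T i = 1 := by
  have h1 := hc i hi
  have h2 := hA i hi.le
  have h3 := hB i hi
  omega

include hc hA hB in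
theorem comb_interval {a b' : ℕ} (hb : b' < M) (hab : a ≤ b') (ha : cn T a = a)
    (hca : cT T a = 0) (hi : ∀ i, a < i → i ≤ b' → cn T i ≠ i) :
    (∀ i, a < i → i ≤ b' → cT T i ≠ 0) ∧ (∀ i, a ≤ i → i < b' → sT T i = 0) := by
  constructor
  · intro i h1 h2
    have := comb_ne hc hA hB (by omega : i < M) (hi i h1 h2)
    omega
  · intro i h1 h2
    have h3 := comb_ne hc hA hB (by omega : i + 1 < M) (hi (i + 1) (by omega) (by omega))
    have h4 := cn_succ T i
    by_cases h5 : i = a
    · subst h5
      omega
    · have h6 := comb_ne hc hA hB (by omega : i < M) (hi i (by omega) (by omega))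
      omega

include hc hA hB hM in
theorem comb_start {a : ℕ} (ha : a < M) (hca : cT T a = 0) : ∃ b', a ≤ b' ∧ b' < M ∧
    sT T b' ≠ 0 ∧ (∀ i, a < i → i ≤ b' → cT T i ≠ 0) ∧ (∀ i, a ≤ i → i < b' → sT T i = 0) := by
  classical
  have hna : cn T a = a := by
    by_contra h
    have := comb_ne hc hA hB ha h
    omega
  have hex : ∃ i, a < i ∧ cn T i = i := ⟨M, ha, hM⟩
  obtain ⟨hi1, hi2⟩ := Nat.find_spec hex
  have hmin : ∀ m, m < Nat.find hex → ¬(a < m ∧ cn T m = m) := fun m hm => Nat.find_min hex hm
  have hiM : Nat.find hex ≤ M := Nat.find_min' hex ⟨ha, hM⟩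
  set i := Nat.find hex with hidef
  obtain ⟨b', hb'⟩ : ∃ b', i = b' + 1 := ⟨i - 1, by omega⟩
  have hne : ∀ k, a < k → k ≤ b' → cn T k ≠ k := fun k h1 h2 h3 => hmin k (by omega) ⟨h1, h3⟩
  obtain ⟨h1, h2⟩ := comb_interval hc hA hB (by omega : b' < M) (by omega) hna hca hne
  refine ⟨b', by omega, by omega, ?_, h1, h2⟩
  have h4 := cn_succ T b'
  rw [hb'] at hi2
  by_cases h5 : b' = a
  · subst h5
    omega
  · have h6 := comb_ne hc hA hB (by omega : b' < M) (hne b' (by omega) le_rfl)
    omega

include hc hA hB in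
theorem comb_end {b' : ℕ} (hb : b' < M) (hsb : sT T b' ≠ 0) : ∃ a, a ≤ b' ∧
    cT T a = 0 ∧ (∀ i, a < i → i ≤ b' → cT T i ≠ 0) ∧ (∀ i, a ≤ i → i < b' → sT T i = 0) := by
  classical
  let S : Finset ℕ := (Finset.range (b' + 1)).filter (fun a => cn T a = a)
  have hS : S.Nonempty := ⟨0, by
    rw [Finset.mem_filter, Finset.mem_range]
    exact ⟨by omega, cn_zero T⟩⟩
  have hmem := S.max'_mem hS
  have hmax : ∀ m ∈ S, m ≤ S.max' hS := fun m hm => S.le_max' m hm
  set a := S.max' hS
  rw [Finset.mem_filter, Finset.mem_range] at hmem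
  have hne : ∀ k, a < k → k ≤ b' → cn T k ≠ k := by
    intro k h1 h2 h3
    have := hmax k (Finset.mem_filter.2 ⟨Finset.mem_range.2 (by omega), h3⟩)
    omega
  have hca : cT T a = 0 := by
    by_contra h
    have h1 := hc a (by omega)
    have h2 := cn_succ T a
    have h3 := hA (a + 1) (by omega)
    by_cases h5 : a = b'
    · rw [h5] at h1 h2 h3 h hmem
      omega
    · have := hne (a + 1) (by omega) (by omega)
      omega
  obtain ⟨h1, h2⟩ := comb_interval hc hA hB hb (by omega) hmem.2 hca hne
  exact ⟨a, by omega, hca, h1, h2⟩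

include hc hA hB hM in
theorem code_of_counts : IsCode M r T := by
  classical
  let R : Finset (ℕ × ℕ) := ((Finset.range M) ×ˢ (Finset.range M)).filter (fun p => p.1 ≤ p.2 ∧
    cT T p.1 = 0 ∧ sT T p.2 ≠ 0 ∧ (∀ i, p.1 < i → i ≤ p.2 → cT T i ≠ 0) ∧
    (∀ i, p.1 ≤ i → i < p.2 → sT T i = 0))
  have hRm : ∀ p, p ∈ R ↔ (p.1 < M ∧ p.2 < M) ∧ p.1 ≤ p.2 ∧
    cT T p.1 = 0 ∧ sT T p.2 ≠ 0 ∧ (∀ i, p.1 < i → i ≤ p.2 → cT T i ≠ 0) ∧
    (∀ i, p.1 ≤ i → i < p.2 → sT T i = 0) := by
    intro p
    simp only [R, Finset.mem_filter, Finset.mem_product, Finset.mem_range]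
  let κ : ℕ → ℕ := fun j => if h : ∃ e ∈ T, e.1.val = j ∧ e.2.val ≤ r then h.choose.2.val else 0
  refine ⟨R, κ, ⟨?_, ?_, ?_⟩, ?_, ?_⟩
  · intro p hp
    exact ((hRm p).1 hp).2.1
  · intro p hp
    exact ((hRm p).1 hp).1.2
  · intro p hp q hq hne
    obtain ⟨⟨_, _⟩, p1, p2, p3, p4, p5⟩ := (hRm p).1 hp
    obtain ⟨⟨_, _⟩, q1, q2, q3, q4, q5⟩ := (hRm q).1 hq
    by_contra hcon
    push Not at hcon
    apply hne
    have h1 : p.1 = q.1 := by
      rcases lt_trichotomy p.1 q.1 with h | h | h
      · exact absurd q2 (p4 q.1 h hcon.1)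
      · exact h
      · exact absurd p2 (q4 p.1 h hcon.2)
    have h2 : p.2 = q.2 := by
      rcases lt_trichotomy p.2 q.2 with h | h | h
      · exact absurd (q5 p.2 (by omega) h) p3
      · exact h
      · exact absurd (p5 q.2 (by omega) h) q3
    exact Prod.ext h1 h2
  · intro j
    simp only [κ]
    split_ifs with h
    · exact h.choose_spec.2.2
    · exact Nat.zero_le _
  · ext e
    simp only [enc, Finset.mem_filter, Finset.mem_univ, true_and]
    have he2 := e.2.isLt
    constructor
    · intro he
      by_cases hr : e.2.val = r + 1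
      · left
        refine ⟨hr, ?_⟩
        have hs : sT T e.1.val ≠ 0 := by
          unfold sT
          rw [Finset.card_ne_zero]
          exact ⟨e, Finset.mem_filter.2 ⟨he, rfl, hr⟩⟩
        obtain ⟨a, h1, h2, h3, h4⟩ := comb_end hc hA hB e.1.isLt hs
        have := e.1.isLt
        exact ⟨(a, e.1.val), (hRm _).2 ⟨⟨by simp only; omega, by simp only; omega⟩, h1, h2, hs, h3, h4⟩, rfl⟩
      · right
        have hle : e.2.val ≤ r := by omega
        have hex : ∃ e' ∈ T, e'.1.val = e.1.val ∧ e'.2.val ≤ r := ⟨e, he, rfl, hle⟩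
        have hcne : cT T e.1.val ≠ 0 := by
          unfold cT
          rw [Finset.card_ne_zero]
          exact ⟨e, Finset.mem_filter.2 ⟨he, rfl, hle⟩⟩
        refine ⟨?_, hle, ?_⟩
        · simp only [κ]
          rw [dif_pos hex]
          have h1 := hc e.1.val e.1.isLt
          unfold cT at h1
          rw [Finset.card_le_one] at h1
          have h2 := h1 e (Finset.mem_filter.2 ⟨he, rfl, hle⟩) hex.choose
            (Finset.mem_filter.2 ⟨hex.choose_spec.1, hex.choose_spec.2⟩)
          exact congrArg (fun t : BE M r => t.2.val) h2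
        · intro p hp hpe
          have := ((hRm p).1 hp).2.2.1
          rw [hpe] at this
          exact hcne this
    · rintro (⟨hr, p, hp, hpe⟩ | ⟨hk, hle, hns⟩)
      · have hs := ((hRm p).1 hp).2.2.2.1
        rw [hpe] at hs
        unfold sT at hs
        rw [Finset.card_ne_zero] at hs
        obtain ⟨e', he'⟩ := hs
        rw [Finset.mem_filter] at he'
        have : e' = e := Prod.ext (Fin.ext he'.2.1) (Fin.ext (by rw [he'.2.2, hr]))
        rw [← this]
        exact he'.1
      · have hcne : cT T e.1.val ≠ 0 := by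
          intro h0
          obtain ⟨b', h1, h2, h3, h4, h5⟩ := comb_start hc hA hB hM e.1.isLt h0
          exact hns (e.1.val, b') ((hRm _).2 ⟨⟨e.1.isLt, h2⟩, h1, h0, h3, h4, h5⟩) rfl
        have hex : ∃ e' ∈ T, e'.1.val = e.1.val ∧ e'.2.val ≤ r := by
          unfold cT at hcne
          rw [Finset.card_ne_zero] at hcne
          obtain ⟨e', he'⟩ := hcne
          rw [Finset.mem_filter] at he'
          exact ⟨e', he'.1, he'.2⟩
        simp only [κ] at hk
        rw [dif_pos hex] at hk
        have : hex.choose = e :=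
          Prod.ext (Fin.ext hex.choose_spec.2.1) (Fin.ext hk.symm)
        have h := hex.choose_spec.1
        rwa [this] at h

end comb

theorem prevHead_mem {b : Fin L} {j : Fin M} {U : Finset Unit} {D : Finset (Dep P L M r)}
    {H : Finset (Fin L × Fin M)} (h0 : j.val = 0 → Sum.inr (Sum.inl b) ∈ D)
    (h1 : ∀ i : Fin M, i.val + 1 = j.val → (b, i) ∈ H) :
    prevHead b j ∈ U.disjSum (D.disjSum H) := by
  unfold prevHead
  split_ifs with h
  · simpa [dep] using h0 h
  · simpa [head] using h1 ⟨j.val - 1, by omega⟩ (by simp only; omega)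

theorem member_mem {b : Fin L} {j : Fin M} {k : ℕ} {U : Finset Unit} {D : Finset (Dep P L M r)}
    {H : Finset (Fin L × Fin M)} (h0 : ∀ k, Sum.inr (Sum.inr (b, j, k)) ∈ D)
    (h1 : (b, j) ∈ H) :
    member b j k ∈ U.disjSum (D.disjSum H) := by
  unfold member
  split_ifs with h
  · simpa [dep] using h0 _
  · simpa [head] using h1

section bounds

variable (x : Finset (Ex P L M r)) (hF : ∀ d, Sum.inl d ∈ x) (hx : (gr x).IsAcyclic) (b : Fin L)

include hF hx in
theorem boundA (j : ℕ) (hj : j ≤ M) : cn (blk x b) j ≤ j := by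
  classical
  rcases Nat.eq_zero_or_pos j with rfl | hj0
  · rw [cn_zero]
  let D : Finset (Dep P L M r) := Finset.univ.filter (fun d => d = Sum.inr (Sum.inl b) ∨
    ∃ (i : Fin M) (k : Fin r), i.val < j ∧ d = Sum.inr (Sum.inr (b, i, k)))
  let H : Finset (Fin L × Fin M) := (Finset.univ.filter (fun i : Fin M => i.val < j)).map
    ⟨fun i => (b, i), fun i i' h => by simpa using h⟩
  have hHm : ∀ i : Fin M, i.val < j → (b, i) ∈ H := by
    intro i hi
    simp [H, hi]
  have hDm : ∀ (i : Fin M) (k : Fin r), i.val < j → Sum.inr (Sum.inr (b, i, k)) ∈ D := by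
    intro i k hi
    simp [D, hi]
  have hH : H.card ≤ j := by
    rw [Finset.card_map]
    have : (Finset.univ.filter (fun i : Fin M => i.val < j)).card ≤ (Finset.range j).card := by
      apply Finset.card_le_card_of_injOn (fun i => i.val)
      · intro i hi
        simp only [Finset.coe_filter, Finset.mem_univ, true_and, Set.mem_setOf_eq] at hi
        simpa using hi
      · intro i _ i' _ h
        exact Fin.ext h
    rwa [Finset.card_range] at this
  have h := forest_bound' x hF hx b {()} D H ⟨(b, ⟨0, by omega⟩), hHm _ hj0⟩ (by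
      intro d hd
      simp only [D, Finset.mem_filter, Finset.mem_univ, true_and] at hd
      rcases hd with rfl | ⟨i, k, hi, rfl⟩
      · simp [par, root]
      · simpa [par, head] using hHm i hi)
    ((blk x b).filter fun e => e.1.val < j) (Finset.filter_subset _ _) (by
      rintro ⟨i, k⟩ he
      rw [Finset.mem_filter] at he
      have hi : i.val < j := he.2
      simp only [loV, hiV]
      split_ifs with h
      · exact ⟨by simp [root], by simpa [head] using hHm i hi⟩
      · exact ⟨prevHead_mem (fun _ => by simp [D]) (fun i' hi' => hHm i' (by omega)),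
          member_mem (fun k => hDm i k hi) (hHm i hi)⟩)
  rw [Finset.card_singleton] at h
  unfold cn
  omega

include hF hx in
theorem boundB (j : ℕ) (hj : j < M) :
    (blk x b).card ≤ (M - j) + (cn (blk x b) j + cT (blk x b) j) := by
  classical
  let D : Finset (Dep P L M r) := Finset.univ.filter (fun d =>
    ∃ (i : Fin M) (k : Fin r), j ≤ i.val ∧ d = Sum.inr (Sum.inr (b, i, k)))
  let H : Finset (Fin L × Fin M) := (Finset.univ.filter (fun i : Fin M => j ≤ i.val)).map
    ⟨fun i => (b, i), fun i i' h => by simpa using h⟩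
  have hHm : ∀ i : Fin M, j ≤ i.val → (b, i) ∈ H := by
    intro i hi
    simp [H, hi]
  have hDm : ∀ (i : Fin M) (k : Fin r), j ≤ i.val → Sum.inr (Sum.inr (b, i, k)) ∈ D := by
    intro i k hi
    simp [D, hi]
  have hH : H.card ≤ M - j := by
    rw [Finset.card_map]
    have : (Finset.univ.filter (fun i : Fin M => j ≤ i.val)).card ≤ (Finset.Ico j M).card := by
      apply Finset.card_le_card_of_injOn (fun i => i.val)
      · intro i hi
        simp only [Finset.coe_filter, Finset.mem_univ, true_and, Set.mem_setOf_eq] at hi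
        simp [hi]
      · intro i _ i' _ h
        exact Fin.ext h
    rwa [Nat.card_Ico] at this
  have h := forest_bound' x hF hx b {()} D H ⟨(b, ⟨j, hj⟩), hHm _ le_rfl⟩ (by
      intro d hd
      simp only [D, Finset.mem_filter, Finset.mem_univ, true_and] at hd
      obtain ⟨i, k, hi, rfl⟩ := hd
      simpa [par, head] using hHm i hi)
    ((blk x b).filter fun e => j < e.1.val ∨ (e.1.val = j ∧ e.2.val = r + 1))
    (Finset.filter_subset _ _) (by
      rintro ⟨i, k⟩ he
      rw [Finset.mem_filter] at he
      have hi : j < i.val ∨ (i.val = j ∧ k.val = r + 1) := he.2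
      simp only [loV, hiV]
      split_ifs with h
      · exact ⟨by simp [root], by simpa [head] using hHm i (by omega)⟩
      · exact ⟨prevHead_mem (fun _ => by omega) (fun i' hi' => hHm i' (by omega)),
          member_mem (fun k => hDm i k (by omega)) (hHm i (by omega))⟩)
  rw [Finset.card_singleton] at h
  have h2 := tail_card (blk x b) j
  omega

include hF hx in
theorem boundC (j : ℕ) (hj : j < M) : cT (blk x b) j ≤ 1 := by
  classical
  rcases Nat.eq_zero_or_pos j with rfl | hj0
  · have h1 := boundA x hF hx b 1 (by omega)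
    have h2 := cn_succ (blk x b) 0
    rw [cn_zero] at h2
    simp only [zero_add] at h2
    omega
  let D : Finset (Dep P L M r) := Finset.univ.filter (fun d =>
    ∃ (k : Fin r), d = Sum.inr (Sum.inr (b, ⟨j, hj⟩, k)))
  let H : Finset (Fin L × Fin M) := {(b, ⟨j, hj⟩), (b, ⟨j - 1, by omega⟩)}
  have hDm : ∀ (k : Fin r), Sum.inr (Sum.inr (b, ⟨j, hj⟩, k)) ∈ D := by
    intro k
    simp [D]
  have hH : H.card ≤ 2 := Finset.card_le_two
  have h := forest_bound' x hF hx b ∅ D H ⟨(b, ⟨j, hj⟩), by simp [H]⟩ (by
      intro d hd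
      simp only [D, Finset.mem_filter, Finset.mem_univ, true_and] at hd
      obtain ⟨k, rfl⟩ := hd
      simp [par, head, H])
    ((blk x b).filter fun e => e.1.val = j ∧ e.2.val ≤ r)
    (Finset.filter_subset _ _) (by
      rintro ⟨i, k⟩ he
      rw [Finset.mem_filter] at he
      have hi : i.val = j ∧ k.val ≤ r := he.2
      have hij : i = ⟨j, hj⟩ := Fin.ext hi.1
      subst hij
      simp only [loV, hiV]
      rw [if_neg (by omega), if_neg (by omega)]
      refine ⟨prevHead_mem (fun h0 => by simp only at h0; omega) (fun i' hi' => ?_),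
        member_mem (fun k => hDm k) (by simp [H])⟩
      have : i' = ⟨j - 1, by omega⟩ := Fin.ext (by simp only at hi' ⊢; omega)
      rw [this]
      simp [H])
  rw [Finset.card_empty] at h
  unfold cT
  omega

end bounds

theorem isTree_of_code (x : Finset (Ex P L M r)) (hF : ∀ d, Sum.inl d ∈ x)
    (hb : ∀ b, IsCode M r (blk x b)) : (gr x).IsTree := by
  rw [SimpleGraph.isTree_iff_connected_and_card]
  constructor
  · apply conn_of_enc x hF
    intro b
    obtain ⟨R, κ, h1, h2, h3⟩ := hb b
    exact ⟨R, κ, h1, h2, h3.ge⟩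
  · rw [card_edges, card_Vx, card_x x hF]
    have : ∀ b ∈ (Finset.univ : Finset (Fin L)), (blk x b).card = M := by
      intro b _
      obtain ⟨R, κ, h1, h2, h3⟩ := hb b
      rw [h3, card_enc R κ h1 h2]
    rw [Finset.sum_congr rfl this, Finset.sum_const, Finset.card_univ, Fintype.card_fin,
      smul_eq_mul]
    ring

theorem code_of_isTree (x : Finset (Ex P L M r)) (hF : ∀ d, Sum.inl d ∈ x)
    (hx : (gr x).IsTree) (b : Fin L) : IsCode M r (blk x b) := by
  have hac := hx.isAcyclic
  have hsum : ∑ b, (blk x b).card = ∑ _b : Fin L, M := by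
    have h1 := card_of_isTree' x hx
    have h2 := card_x x hF
    rw [Finset.sum_const, Finset.card_univ, Fintype.card_fin, smul_eq_mul]
    have e : L * (M * r) = L * M * r := by ring
    rw [e] at h2
    omega
  have hle : ∀ b ∈ (Finset.univ : Finset (Fin L)), (blk x b).card ≤ M := by
    intro b _
    have := boundA x hF hac b M le_rfl
    rwa [cn_top] at this
  have heq := (Finset.sum_eq_sum_iff_of_le hle).1 hsum b (Finset.mem_univ b)
  refine code_of_counts (T := blk x b) (boundC x hF hac b) (boundA x hF hac b) ?_ ?_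
  · intro j hj
    have := boundB x hF hac b j hj
    omega
  · rw [cn_top]
    exact heq

/-- number of edges of a tree -/
theorem card_of_isTree (x : Finset (Ex P L M r)) (hx : (gr x).IsTree) :
    x.card = P + L + L * M * r + L * M :=
  card_of_isTree' x hx

end Pool.Agent.Helper120.Ea
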