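import Pool.Agent.Helper120.Ea.Mu
import Pool.Agent.Helper120.Ea.Graph

open Finset

namespace Pool.Agent.Helper120.Ea

variable {P L M r : ℕ}

section target
open Classical

theorem mem_blk_aux (x : Finset (Ex P L M r)) (b : Fin L) (e : BE M r) :
    e ∈ blk x b ↔ (Sum.inr (b, e) : Ex P L M r) ∈ x := by
  unfold blk
  simp

/-- the inverse of `blk` on strings containing all frozen edges -/
noncomputable def unblk (T' : Fin L → Finset (BE M r)) : Finset (Ex P L M r) :=
  Finset.univ.filter fun e => Sum.elim (fun _ => True) (fun be => be.2 ∈ T' be.1) e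

theorem inl_mem_unblk (T' : Fin L → Finset (BE M r)) (d : Dep P L M r) :
    (Sum.inl d : Ex P L M r) ∈ unblk T' := by
  unfold unblk
  rw [Finset.mem_filter]
  exact ⟨Finset.mem_univ _, trivial⟩

theorem inr_mem_unblk (T' : Fin L → Finset (BE M r)) (b : Fin L) (e : BE M r) :
    (Sum.inr (b, e) : Ex P L M r) ∈ unblk T' ↔ e ∈ T' b := by
  unfold unblk
  rw [Finset.mem_filter]
  exact ⟨fun h => h.2, fun h => ⟨Finset.mem_univ _, h⟩⟩

theorem blk_unblk (T' : Fin L → Finset (BE M r)) :
    blk (unblk T' : Finset (Ex P L M r)) = T' := by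
  funext b
  ext e
  rw [mem_blk_aux, inr_mem_unblk]

theorem unblk_blk (y : Finset (Ex P L M r)) (hy : ∀ d, Sum.inl d ∈ y) :
    unblk (blk y) = y := by
  ext e
  rcases e with d | ⟨b, e⟩
  · exact ⟨fun _ => hy d, fun _ => inl_mem_unblk _ d⟩
  · rw [inr_mem_unblk, mem_blk_aux]

theorem card_symm_aux (x y : Finset (Ex P L M r)) (hx : ∀ d, Sum.inl d ∈ x)
    (hy : ∀ d, Sum.inl d ∈ y) :
    (symmDiff x y).card = ∑ b, (symmDiff (blk x b) (blk y b)).card := by
  have hinj : Function.Injective
      (fun p : (Σ _ : Fin L, BE M r) => (Sum.inr (p.1, p.2) : Ex P L M r)) := by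
    rintro ⟨b, e⟩ ⟨b', e'⟩ h
    simp only [Sum.inr.injEq, Prod.mk.injEq] at h
    obtain ⟨rfl, rfl⟩ := h
    rfl
  have hE : symmDiff x y =
      (Finset.univ.sigma (fun b : Fin L => symmDiff (blk x b) (blk y b))).image
        (fun p : (Σ _ : Fin L, BE M r) => (Sum.inr (p.1, p.2) : Ex P L M r)) := by
    ext e
    rcases e with d | ⟨b, e⟩
    · simp only [Finset.mem_symmDiff, Finset.mem_image]
      constructor
      · rintro (⟨_, h⟩ | ⟨_, h⟩)
        · exact absurd (hy d) h
        · exact absurd (hx d) h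
      · rintro ⟨p, _, hp⟩
        exact absurd hp (by simp)
    · rw [Finset.mem_image, Finset.mem_symmDiff]
      constructor
      · intro h
        refine ⟨⟨b, e⟩, ?_, rfl⟩
        rw [Finset.mem_sigma]
        refine ⟨Finset.mem_univ _, ?_⟩
        rw [Finset.mem_symmDiff]
        simp only [mem_blk_aux]
        exact h
      · rintro ⟨⟨b', e'⟩, hp, he⟩
        have h2 := he
        simp only [Sum.inr.injEq, Prod.mk.injEq] at h2
        obtain ⟨h3, h4⟩ := h2
        subst h3
        rw [Finset.mem_sigma] at hp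
        have h5 := hp.2
        rw [Finset.mem_symmDiff] at h5
        simp only [mem_blk_aux] at h5
        have h6 : e' = e := h4
        rw [← h6]
        exact h5
  rw [hE, Finset.card_image_of_injective _ hinj, Finset.card_sigma]

theorem mu_symm_aux {m : ℝ} (x y : Finset (Ex P L M r)) (hx : ∀ d, Sum.inl d ∈ x)
    (hy : ∀ d, Sum.inl d ∈ y) :
    mu m (symmDiff x y) =
      (1 - 1 / m) ^ (Fintype.card (Dep P L M r)) * ∏ b, qq m (blk x b) (blk y b) := by
  have hcard := card_symm_aux x y hx hy
  have hle : ∀ b, (symmDiff (blk x b) (blk y b)).card ≤ Fintype.card (BE M r) :=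
    fun b => Finset.card_le_univ _
  have hEx : Fintype.card (Ex P L M r) =
      Fintype.card (Dep P L M r) + L * Fintype.card (BE M r) := by
    rw [Fintype.card_sum, Fintype.card_prod (Fin L) (BE M r), Fintype.card_fin]
  have hsub : Fintype.card (Ex P L M r) - ∑ b, (symmDiff (blk x b) (blk y b)).card =
      Fintype.card (Dep P L M r) +
        ∑ b, (Fintype.card (BE M r) - (symmDiff (blk x b) (blk y b)).card) := by
    have h1 : ∑ b : Fin L, (Fintype.card (BE M r) - (symmDiff (blk x b) (blk y b)).card) +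
        ∑ b, (symmDiff (blk x b) (blk y b)).card = L * Fintype.card (BE M r) := by
      rw [← Finset.sum_add_distrib, Finset.sum_congr rfl
        (fun b _ => Nat.sub_add_cancel (hle b))]
      simp only [Finset.sum_const, Finset.card_univ, Fintype.card_fin, smul_eq_mul]
    rw [hEx]
    omega
  have hq : ∀ b, qq m (blk x b) (blk y b) =
      (1 / m) ^ (symmDiff (blk x b) (blk y b)).card *
        (1 - 1 / m) ^ (Fintype.card (BE M r) - (symmDiff (blk x b) (blk y b)).card) := by
    intro b
    rw [qq_eq_g]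
    rfl
  rw [Finset.prod_congr rfl (fun b _ => hq b), Finset.prod_mul_distrib,
    Finset.prod_pow_eq_pow_sum, Finset.prod_pow_eq_pow_sum]
  unfold mu
  rw [hcard, hsub, pow_add]
  ring

/-- the sum over all strings containing the frozen edges factorises over the blocks -/
theorem ea_sum {m : ℝ} (x : Finset (Ex P L M r)) (hx : ∀ d, Sum.inl d ∈ x)
    (A : Finset (Fin L → Finset (BE M r))) (g : (Fin L → Finset (BE M r)) → ℝ) :
    ∑ y ∈ (Finset.univ : Finset (Finset (Ex P L M r))).filter
      (fun y => (∀ d, Sum.inl d ∈ y) ∧ blk y ∈ A), mu m (symmDiff x y) * g (blk y) =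
    (1 - 1 / m) ^ (Fintype.card (Dep P L M r)) *
      ∑ T' ∈ A, (∏ b, qq m (blk x b) (T' b)) * g T' := by
  rw [Finset.mul_sum]
  refine Finset.sum_bij' (fun y _ => blk y) (fun T' _ => unblk T') ?_ ?_ ?_ ?_ ?_
  · intro y hy
    rw [Finset.mem_filter] at hy
    exact hy.2.2
  · intro T' hT'
    rw [Finset.mem_filter]
    refine ⟨Finset.mem_univ _, fun d => inl_mem_unblk _ d, ?_⟩
    rw [blk_unblk]
    exact hT'
  · intro y hy
    rw [Finset.mem_filter] at hy
    exact unblk_blk y hy.2.1
  · intro T' hT'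
    exact blk_unblk T'
  · intro y hy
    rw [Finset.mem_filter] at hy
    rw [mu_symm_aux x y hx hy.2.1]
    ring

end target

end Pool.Agent.Helper120.Ea
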