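import Pool.Agent.Helper120.Ea.SumPi

open Finset

namespace Pool.Agent.Helper120.Ea



section prodpart
open Classical

variable {Ω : Type}

/-- lexicographically smaller pair of digits -/
def PLess (J n : Ω → ℕ) (T' T : Ω) : Prop := J T' < J T ∨ (J T' = J T ∧ n T' < n T)

/-- equal digits -/
def PSame (J n : Ω → ℕ) (T' T : Ω) : Prop := J T' = J T ∧ n T' = n T

/-- not optimal -/
def PBad (J n : Ω → ℕ) (T : Ω) : Prop := J T ≠ 0 ∨ n T ≠ 0

/-- properties of one block -/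
structure BlkHyp (O : Finset Ω) (M : ℕ) (m : ℝ) (J n : Ω → ℕ) (Φ : Ω → ℝ) (q : Ω → Ω → ℝ)
    (Dn : ℕ → ℝ) (Pm R K cp C0p : ℝ) : Prop where
  q_nonneg : ∀ T ∈ O, ∀ T' ∈ O, 0 ≤ q T T'
  mass_le : ∀ T ∈ O, ∑ T' ∈ O, q T T' ≤ 1
  mass_ge : ∀ T ∈ O, 1 / 2 ≤ ∑ T' ∈ O.filter (fun T' => PSame J n T' T), q T T'
  n_le : ∀ T ∈ O, n T ≤ M
  Φ0 : ∀ T ∈ O, 0 ≤ Φ T
  Φ1 : ∀ T ∈ O, Φ T ≤ Pm
  clean : ∀ T ∈ O, J T = 0 → Φ T = Dn (n T)
  own_dirty : ∀ T ∈ O, 0 < J T →
    ∑ T' ∈ O.filter (fun T' => PLess J n T' T), q T T' * (Φ T' - Φ T) +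
    ∑ T' ∈ O.filter (fun T' => PSame J n T' T), q T T' * max 0 (Φ T' - Φ T) ≤ - R
  own_clean : ∀ T ∈ O, J T = 0 →
    ∑ T' ∈ O.filter (fun T' => PLess J n T' T), q T T' * (Φ T' - Φ T) +
    ∑ T' ∈ O.filter (fun T' => PSame J n T' T), q T T' * max 0 (Φ T' - Φ T) ≤ 2 / m ^ 2
  comp_dirty : ∀ T ∈ O, ∑ T' ∈ O, q T T' * (Φ T' - Φ T) ≤ K
  comp_clean : ∀ T ∈ O, J T = 0 → ∑ T' ∈ O, q T T' * (Φ T' - Φ T) ≤ - cp * Φ T + C0p
  heal_ge : ∀ T ∈ O, J T = 0 →
    (n T : ℝ) / (2 * m ^ 2) ≤ ∑ T' ∈ O.filter (fun T' => J T' = 0 ∧ n T' + 1 = n T), q T T'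
  heal_le : ∀ T ∈ O, J T = 0 →
    ∑ T' ∈ O.filter (fun T' => J T' = 0 ∧ n T' < n T), q T T' ≤ (n T : ℝ) / m ^ 2
  heal_two : ∀ T ∈ O, J T = 0 →
    ∑ T' ∈ O.filter (fun T' => J T' = 0 ∧ n T' + 2 ≤ n T), q T T' ≤ (n T : ℝ) ^ 2 / m ^ 4

/-- properties of the functions used in the potential -/
structure FnHyp (M L : ℕ) (m : ℝ) (Dn : ℕ → ℝ) (Pm R K cp C0p : ℝ) (α β g : ℕ → ℝ) (G0 : ℝ) :
    Prop where
  m_pos : 1 ≤ m
  R0 : 0 ≤ R
  K0 : 0 ≤ K
  cp0 : 0 ≤ cp
  Pm0 : 0 ≤ Pm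
  G00 : 0 ≤ G0
  α0 : α 0 = 1
  β0 : β 0 = 0
  g0 : g 0 = 0
  α_nonneg : ∀ k, 0 ≤ α k
  α_anti : Antitone α
  β_mono : Monotone β
  g_mono : Monotone g
  g_step : ∀ k, 1 ≤ k → k ≤ M → (k : ℝ) * (g k - g (k - 1)) ≤ 1
  g_sq : ∀ k, k ≤ M → (k : ℝ) ^ 2 * g k ≤ m ^ 2
  α_step : ∀ k, 1 ≤ k → α (k - 1) - α k ≤ cp * α (k - 1)
  hclean : ∀ k, 1 ≤ k → k ≤ M →
    α (k - 1) * C0p + 4 * α k / k + 2 * k * Pm / m ^ 2 ≤ (β k - β (k - 1)) / 2
  hdirty : ∀ k, 1 ≤ k → k ≤ M →
    (k : ℝ) * (α (k - 1) * K + (α (k - 1) - α k) * Pm) + (k : ℝ) ^ 2 * Pm / m ^ 2 ≤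
      m ^ 2 * α k * R / 2 + k * (β k - β (k - 1)) / 4
  hTI : ∀ k, 1 ≤ k → k ≤ M → ∀ x, 0 ≤ x → x ≤ Pm → ∀ rem : ℕ, rem ≤ L →
    ((rem : ℝ) + 1) * max 0 (G0 - Dn k) ≤ g k + rem * max 0 (G0 - (α k * x + β k))
  hTI0 : G0 ≤ Dn 0

/-- the block after `i` (or `i` itself if it is the last one) -/
def nxtB {L : ℕ} (i : Fin L) : Fin L := if h : i.val + 1 < L then ⟨i.val + 1, h⟩ else i

/-- `i` is the first block that is not optimal -/
def IsFirst {L : ℕ} (J n : Ω → ℕ) (T : Fin L → Ω) (i : Fin L) : Prop :=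
  PBad J n (T i) ∧ ∀ b < i, ¬ PBad J n (T b)

/-- potential when `i` is the first non-optimal block -/
noncomputable def wI {L : ℕ} (J n : Ω → ℕ) (Φ : Ω → ℝ) (α β g : ℕ → ℝ) (G0 : ℝ) (T : Fin L → Ω)
    (i : Fin L) : ℝ :=
  if J (T i) ≠ 0 then ((L : ℝ) - i.val) * max 0 (G0 - Φ (T i))
  else g (n (T i)) + ((L : ℝ) - 1 - i.val) *
    max 0 (G0 - (α (n (T i)) * Φ (T (nxtB i)) + β (n (T i))))

/-- potential of a product state -/
noncomputable def WW {L : ℕ} (J n : Ω → ℕ) (Φ : Ω → ℝ) (α β g : ℕ → ℝ) (G0 : ℝ) (T : Fin L → Ω) : ℝ :=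
  ∑ i : Fin L, if IsFirst J n T i then wI J n Φ α β g G0 T i else 0

theorem pd_first {L : ℕ} (J n : Ω → ℕ) (Φ : Ω → ℝ) (α β g : ℕ → ℝ) (G0 : ℝ) (T : Fin L → Ω)
    (i : Fin L) (hi : IsFirst J n T i) : WW J n Φ α β g G0 T = wI J n Φ α β g G0 T i := by
  unfold WW
  rw [Finset.sum_eq_single i]
  · rw [if_pos hi]
  · intro b _ hb
    rw [if_neg]
    intro hb2
    rcases lt_or_gt_of_ne hb with h | h
    · exact hi.2 b h hb2.1
    · exact hb2.2 i h hi.1
  · intro h
    exact absurd (mem_univ i) h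

theorem pd_wI_nonneg {L : ℕ} (J n : Ω → ℕ) (Φ : Ω → ℝ) (α β g : ℕ → ℝ) (G0 : ℝ)
    (hg : Monotone g) (hg0 : g 0 = 0) (T : Fin L → Ω) (i : Fin L) :
    0 ≤ wI J n Φ α β g G0 T i := by
  unfold wI
  have h1 : (i.val : ℝ) + 1 ≤ L := by exact_mod_cast i.2
  split_ifs
  · exact mul_nonneg (by linarith) (le_max_left _ _)
  · have := hg (Nat.zero_le (n (T i)))
    rw [hg0] at this
    exact add_nonneg this (mul_nonneg (by linarith) (le_max_left _ _))

theorem pd_WW_nonneg {L : ℕ} (J n : Ω → ℕ) (Φ : Ω → ℝ) (α β g : ℕ → ℝ) (G0 : ℝ)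
    (hg : Monotone g) (hg0 : g 0 = 0) (T : Fin L → Ω) :
    0 ≤ WW J n Φ α β g G0 T := by
  unfold WW
  refine Finset.sum_nonneg fun i _ => ?_
  split_ifs
  · exact pd_wI_nonneg J n Φ α β g G0 hg hg0 T i
  · exact le_rfl

theorem pd_ge (O : Finset Ω) (M L : ℕ) (m : ℝ) (J n : Ω → ℕ) (Φ : Ω → ℝ) (q : Ω → Ω → ℝ)
    (Dn : ℕ → ℝ) (Pm R K cp C0p : ℝ) (α β g : ℕ → ℝ) (G0 : ℝ)
    (hB : BlkHyp O M m J n Φ q Dn Pm R K cp C0p)
    (hF : FnHyp M L m Dn Pm R K cp C0p α β g G0)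
    (T' : Fin L → Ω) (hT' : ∀ b, T' b ∈ O) (i : Fin L) (hnb : ∀ b < i, ¬ PBad J n (T' b)) :
    ((L : ℝ) - i.val) * max 0 (G0 - Φ (T' i)) ≤ WW J n Φ α β g G0 T' := by
  by_cases hbad : PBad J n (T' i)
  · have hfirst : IsFirst J n T' i := ⟨hbad, hnb⟩
    rw [pd_first J n Φ α β g G0 T' i hfirst]
    unfold wI
    split_ifs with hJ
    · exact le_rfl
    · push Not at hJ
      have hn : 1 ≤ n (T' i) := by
        rcases hbad with h | h
        · exact absurd hJ h
        · omega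
      have hi2 := i.2
      have h1 := hF.hTI (n (T' i)) hn (hB.n_le _ (hT' i)) (Φ (T' (nxtB i))) (hB.Φ0 _ (hT' _))
        (hB.Φ1 _ (hT' _)) (L - 1 - i.val) (by omega)
      rw [hB.clean _ (hT' i) hJ]
      have hcast : ((L - 1 - i.val : ℕ) : ℝ) = (L : ℝ) - 1 - i.val := by
        have h2 : (L - 1 - i.val) + (i.val + 1) = L := by omega
        have h3 := congrArg (Nat.cast : ℕ → ℝ) h2
        push_cast at h3
        linarith
      rw [hcast] at h1
      calc ((L : ℝ) - i.val) * max 0 (G0 - Dn (n (T' i)))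
          = ((L : ℝ) - 1 - i.val + 1) * max 0 (G0 - Dn (n (T' i))) := by ring
        _ ≤ _ := h1
  · have hJ : J (T' i) = 0 := by
      by_contra h
      exact hbad (Or.inl h)
    have hn : n (T' i) = 0 := by
      by_contra h
      exact hbad (Or.inr h)
    rw [hB.clean _ (hT' i) hJ, hn, max_eq_left (by linarith [hF.hTI0]), mul_zero]
    exact pd_WW_nonneg J n Φ α β g G0 hF.g_mono hF.g0 T'

theorem pd_conv (G0 z z' : ℝ) :
    -((if z < G0 then 1 else 0) * (z' - z)) ≤ max 0 (G0 - z') - max 0 (G0 - z) := by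
  split_ifs with h
  · rw [max_eq_right (by linarith : (0:ℝ) ≤ G0 - z)]
    have := le_max_right 0 (G0 - z')
    linarith
  · rw [max_eq_left (by linarith : G0 - z ≤ (0:ℝ))]
    have := le_max_left 0 (G0 - z')
    linarith

/-- restricted kernel -/
noncomputable def pdf {L : ℕ} (J n : Ω → ℕ) (q : Ω → Ω → ℝ) (T : Fin L → Ω) (i : Fin L)
    (b : Fin L) (t : Ω) : ℝ :=
  q (T b) t * (if b < i then (if PBad J n t then 0 else 1) else 1)

theorem pdf_prod {L : ℕ} (J n : Ω → ℕ) (q : Ω → Ω → ℝ) (T : Fin L → Ω) (i : Fin L)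
    (T' : Fin L → Ω) :
    ∏ b, pdf J n q T i b (T' b) =
      (∏ b, q (T b) (T' b)) * (if ∀ b < i, ¬ PBad J n (T' b) then 1 else 0) := by
  unfold pdf
  rw [Finset.prod_mul_distrib]
  congr 1
  split_ifs with h
  · refine Finset.prod_eq_one fun b _ => ?_
    split_ifs with h1 h2
    · exact absurd h2 (h b h1)
    · rfl
    · rfl
  · push Not at h
    obtain ⟨b, hb, hb2⟩ := h
    refine Finset.prod_eq_zero (Finset.mem_univ b) ?_
    rw [if_pos hb, if_pos hb2]

theorem pdf_nonneg {L : ℕ} (J n : Ω → ℕ) (q : Ω → Ω → ℝ) (T : Fin L → Ω) (i : Fin L)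
    (b : Fin L) (t : Ω) (h : 0 ≤ q (T b) t) : 0 ≤ pdf J n q T i b t := by
  unfold pdf
  split_ifs <;> simp [h]

theorem pdf_le {L : ℕ} (J n : Ω → ℕ) (q : Ω → Ω → ℝ) (T : Fin L → Ω) (i : Fin L)
    (b : Fin L) (t : Ω) (h : 0 ≤ q (T b) t) : pdf J n q T i b t ≤ q (T b) t := by
  unfold pdf
  split_ifs <;> simp [h]

theorem pdf_eq {L : ℕ} (J n : Ω → ℕ) (q : Ω → Ω → ℝ) (T : Fin L → Ω) (i : Fin L)
    (b : Fin L) (t : Ω) (h : ¬ b < i) : pdf J n q T i b t = q (T b) t := by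
  unfold pdf
  rw [if_neg h, mul_one]

theorem pd_prod_nonneg {L : ℕ} (O : Finset Ω) (J n : Ω → ℕ) (q : Ω → Ω → ℝ) (T : Fin L → Ω)
    (i : Fin L) (hq : ∀ b, ∀ t ∈ O, 0 ≤ q (T b) t) (A : Finset (Fin L)) :
    0 ≤ ∏ b ∈ A, ∑ t ∈ O, pdf J n q T i b t :=
  Finset.prod_nonneg fun b _ => Finset.sum_nonneg fun t ht => pdf_nonneg J n q T i b t (hq b t ht)

theorem pd_prod_le {L : ℕ} (O : Finset Ω) (J n : Ω → ℕ) (q : Ω → Ω → ℝ) (T : Fin L → Ω)
    (i : Fin L) (hq : ∀ b, ∀ t ∈ O, 0 ≤ q (T b) t) (hm : ∀ b, ∑ t ∈ O, q (T b) t ≤ 1)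
    (A : Finset (Fin L)) :
    ∏ b ∈ A, ∑ t ∈ O, pdf J n q T i b t ≤ 1 :=
  Finset.prod_le_one (fun b _ => Finset.sum_nonneg fun t ht => pdf_nonneg J n q T i b t (hq b t ht))
    (fun b _ => (Finset.sum_le_sum fun t ht => pdf_le J n q T i b t (hq b t ht)).trans (hm b))

/-- the dirty case -/
theorem pd_dirty (O : Finset Ω) (M L : ℕ) (m : ℝ) (J n : Ω → ℕ) (Φ : Ω → ℝ) (q : Ω → Ω → ℝ)
    (Dn : ℕ → ℝ) (Pm R K cp C0p : ℝ) (α β g : ℕ → ℝ) (G0 : ℝ)
    (hB : BlkHyp O M m J n Φ q Dn Pm R K cp C0p)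
    (hF : FnHyp M L m Dn Pm R K cp C0p α β g G0)
    (T : Fin L → Ω) (hT : ∀ b, T b ∈ O) (i : Fin L) (hi : IsFirst J n T i)
    (hJ : J (T i) ≠ 0)
    (Acc : (Fin L → Ω) → Prop)
    (acc1 : ∀ T' : Fin L → Ω, (∀ b, T' b ∈ O) → Acc T' → (∀ b < i, ¬ PBad J n (T' b)) ∧
      (PLess J n (T' i) (T i) ∨ PSame J n (T' i) (T i)))
    (acc2 : ∀ T' : Fin L → Ω, (∀ b, T' b ∈ O) → (∀ b < i, ¬ PBad J n (T' b)) →
      PLess J n (T' i) (T i) → Acc T') :
    0 ≤ ∑ T' ∈ (Fintype.piFinset (fun _ : Fin L => O)).filter Acc,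
      (∏ b, q (T b) (T' b)) * (WW J n Φ α β g G0 T' - WW J n Φ α β g G0 T) := by
  have hq : ∀ b, ∀ t ∈ O, 0 ≤ q (T b) t := fun b t ht => hB.q_nonneg _ (hT b) _ ht
  have hWT : WW J n Φ α β g G0 T = ((L : ℝ) - i.val) * max 0 (G0 - Φ (T i)) := by
    rw [pd_first J n Φ α β g G0 T i hi]
    unfold wI
    rw [if_pos hJ]
  have hLi : (0 : ℝ) ≤ (L : ℝ) - i.val := by
    have : (i.val : ℝ) + 1 ≤ L := by exact_mod_cast i.2
    linarith
  set lam : ℝ := if Φ (T i) < G0 then 1 else 0 with hlam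
  have hlam0 : 0 ≤ lam := by rw [hlam]; split_ifs <;> norm_num
  -- the bound of the sum of differences
  have hS : ∑ T' ∈ (Fintype.piFinset (fun _ : Fin L => O)).filter Acc,
      (∏ b, q (T b) (T' b)) * (Φ (T' i) - Φ (T i)) ≤ 0 := by
    rw [Finset.sum_filter]
    have h1 : ∀ T' ∈ Fintype.piFinset (fun _ : Fin L => O),
        (if Acc T' then (∏ b, q (T b) (T' b)) * (Φ (T' i) - Φ (T i)) else 0) ≤
        (∏ b, pdf J n q T i b (T' b)) * ((if PLess J n (T' i) (T i) then Φ (T' i) - Φ (T i) else 0) +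
          (if PSame J n (T' i) (T i) then max 0 (Φ (T' i) - Φ (T i)) else 0)) := by
      intro T' hT'
      have hT'O : ∀ b, T' b ∈ O := by simpa [Fintype.mem_piFinset] using hT'
      have hP : 0 ≤ ∏ b, q (T b) (T' b) := Finset.prod_nonneg fun b _ => hq b _ (hT'O b)
      rw [pdf_prod]
      by_cases hnb : ∀ b < i, ¬ PBad J n (T' b)
      · rw [if_pos hnb, mul_one]
        by_cases hl : PLess J n (T' i) (T i)
        · have hs : ¬ PSame J n (T' i) (T i) := by
            rintro ⟨h1, h2⟩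
            rcases hl with h | ⟨_, h⟩ <;> omega
          rw [if_pos (acc2 T' hT'O hnb hl), if_pos hl, if_neg hs, add_zero]
        · rw [if_neg hl, zero_add]
          by_cases hs : PSame J n (T' i) (T i)
          · rw [if_pos hs]
            split_ifs
            · exact mul_le_mul_of_nonneg_left (le_max_right _ _) hP
            · exact mul_nonneg hP (le_max_left _ _)
          · rw [if_neg hs, mul_zero, if_neg]
            intro hA
            rcases (acc1 T' hT'O hA).2 with h | h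
            · exact hl h
            · exact hs h
      · rw [if_neg hnb, mul_zero, zero_mul, if_neg]
        intro hA
        exact hnb (acc1 T' hT'O hA).1
    refine (Finset.sum_le_sum h1).trans ?_
    rw [sum_pi_one i O (pdf J n q T i) (fun s => (if PLess J n s (T i) then Φ s - Φ (T i) else 0) +
          (if PSame J n s (T i) then max 0 (Φ s - Φ (T i)) else 0))]
    refine mul_nonpos_of_nonneg_of_nonpos (pd_prod_nonneg O J n q T i hq _) ?_
    have h2 := hB.own_dirty (T i) (hT i) (Nat.pos_of_ne_zero hJ)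
    have h3 : ∑ s ∈ O, pdf J n q T i i s * ((if PLess J n s (T i) then Φ s - Φ (T i) else 0) +
          (if PSame J n s (T i) then max 0 (Φ s - Φ (T i)) else 0)) =
        ∑ T' ∈ O.filter (fun T' => PLess J n T' (T i)), q (T i) T' * (Φ T' - Φ (T i)) +
        ∑ T' ∈ O.filter (fun T' => PSame J n T' (T i)), q (T i) T' * max 0 (Φ T' - Φ (T i)) := by
      rw [Finset.sum_filter, Finset.sum_filter, ← Finset.sum_add_distrib]
      refine Finset.sum_congr rfl fun s _ => ?_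
      rw [pdf_eq J n q T i i s (lt_irrefl _), mul_add, mul_ite, mul_ite, mul_zero]
    rw [h3]
    linarith [hF.R0]
  -- conclusion
  have h4 : ∀ T' ∈ (Fintype.piFinset (fun _ : Fin L => O)).filter Acc,
      -(lam * ((L : ℝ) - i.val)) * ((∏ b, q (T b) (T' b)) * (Φ (T' i) - Φ (T i))) ≤
      (∏ b, q (T b) (T' b)) * (WW J n Φ α β g G0 T' - WW J n Φ α β g G0 T) := by
    intro T' hT'
    rw [Finset.mem_filter] at hT'
    have hT'O : ∀ b, T' b ∈ O := by simpa [Fintype.mem_piFinset] using hT'.1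
    have hP : 0 ≤ ∏ b, q (T b) (T' b) := Finset.prod_nonneg fun b _ => hq b _ (hT'O b)
    have h5 := pd_ge O M L m J n Φ q Dn Pm R K cp C0p α β g G0 hB hF T' hT'O i (acc1 T' hT'O hT'.2).1
    have h6 := pd_conv G0 (Φ (T i)) (Φ (T' i))
    rw [← hlam] at h6
    have h7 := mul_le_mul_of_nonneg_left h6 hLi
    rw [hWT]
    have h8 : -(lam * ((L : ℝ) - i.val)) * (Φ (T' i) - Φ (T i)) ≤
        WW J n Φ α β g G0 T' - ((L : ℝ) - i.val) * max 0 (G0 - Φ (T i)) := by
      nlinarith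
    calc -(lam * ((L : ℝ) - i.val)) * ((∏ b, q (T b) (T' b)) * (Φ (T' i) - Φ (T i)))
        = (∏ b, q (T b) (T' b)) * (-(lam * ((L : ℝ) - i.val)) * (Φ (T' i) - Φ (T i))) := by ring
      _ ≤ _ := mul_le_mul_of_nonneg_left h8 hP
  refine le_trans ?_ (Finset.sum_le_sum h4)
  rw [← Finset.mul_sum]
  have h9 : 0 ≤ lam * ((L : ℝ) - i.val) := mul_nonneg hlam0 hLi
  nlinarith

theorem pd_ge2 (O : Finset Ω) (M L : ℕ) (m : ℝ) (J n : Ω → ℕ) (Φ : Ω → ℝ) (q : Ω → Ω → ℝ)
    (Dn : ℕ → ℝ) (Pm R K cp C0p : ℝ) (α β g : ℕ → ℝ) (G0 : ℝ)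
    (hB : BlkHyp O M m J n Φ q Dn Pm R K cp C0p)
    (hF : FnHyp M L m Dn Pm R K cp C0p α β g G0)
    (T' : Fin L → Ω) (hT' : ∀ b, T' b ∈ O) (i : Fin L) (hnb : ∀ b < i, ¬ PBad J n (T' b))
    (hJ : J (T' i) = 0) :
    g (n (T' i)) + ((L : ℝ) - 1 - i.val) *
      max 0 (G0 - (α (n (T' i)) * Φ (T' (nxtB i)) + β (n (T' i)))) ≤ WW J n Φ α β g G0 T' := by
  by_cases hn : n (T' i) = 0
  · rw [hn, hF.g0, hF.α0, hF.β0, one_mul, add_zero, zero_add]
    by_cases hL : i.val + 1 < L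
    · have hj : nxtB i = ⟨i.val + 1, hL⟩ := by unfold nxtB; rw [dif_pos hL]
      have h1 := pd_ge O M L m J n Φ q Dn Pm R K cp C0p α β g G0 hB hF T' hT' (nxtB i) (by
        intro b hb
        rw [hj] at hb
        have hb2 : b.val < i.val + 1 := hb
        rcases lt_or_eq_of_le (Nat.lt_succ_iff.mp hb2) with h | h
        · exact hnb b h
        · have : b = i := Fin.ext h
          rw [this]
          rintro (h2 | h2)
          · exact h2 hJ
          · exact h2 hn)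
      have h2 : (((nxtB i).val : ℕ) : ℝ) = (i.val : ℝ) + 1 := by
        rw [hj]
        push_cast
        ring
      rw [h2] at h1
      calc _ = ((L : ℝ) - ((i.val : ℝ) + 1)) * max 0 (G0 - Φ (T' (nxtB i))) := by ring
        _ ≤ _ := h1
    · have h2 : (L : ℝ) - 1 - i.val = 0 := by
        have h3 : i.val + 1 = L := by have := i.2; omega
        have h4 := congrArg (Nat.cast : ℕ → ℝ) h3
        push_cast at h4
        linarith
      rw [h2, zero_mul]
      exact pd_WW_nonneg J n Φ α β g G0 hF.g_mono hF.g0 T'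
  · have hfirst : IsFirst J n T' i := ⟨Or.inr hn, hnb⟩
    rw [pd_first J n Φ α β g G0 T' i hfirst]
    unfold wI
    rw [if_neg (by simpa using hJ)]

theorem pd_gpart (O : Finset Ω) (M L : ℕ) (m : ℝ) (J n : Ω → ℕ) (Φ : Ω → ℝ) (q : Ω → Ω → ℝ)
    (Dn : ℕ → ℝ) (Pm R K cp C0p : ℝ) (α β g : ℕ → ℝ) (G0 : ℝ)
    (hB : BlkHyp O M m J n Φ q Dn Pm R K cp C0p)
    (hF : FnHyp M L m Dn Pm R K cp C0p α β g G0)
    (T : Fin L → Ω) (hT : ∀ b, T b ∈ O) (i : Fin L)
    (hJ : J (T i) = 0) (hn : 1 ≤ n (T i))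
    (Acc : (Fin L → Ω) → Prop)
    (acc1 : ∀ T' : Fin L → Ω, (∀ b, T' b ∈ O) → Acc T' → (∀ b < i, ¬ PBad J n (T' b)) ∧
      (PLess J n (T' i) (T i) ∨ PSame J n (T' i) (T i))) :
    - (2 / m ^ 2) ≤ ∑ T' ∈ (Fintype.piFinset (fun _ : Fin L => O)).filter Acc,
      (∏ b, q (T b) (T' b)) * (g (n (T' i)) - g (n (T i))) := by
  have hq : ∀ b, ∀ t ∈ O, 0 ≤ q (T b) t := fun b t ht => hB.q_nonneg _ (hT b) _ ht
  have hm := hF.m_pos
  have hm2 : 0 < m ^ 2 := by positivity
  rw [Finset.sum_filter]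
  have h1 : ∀ T' ∈ Fintype.piFinset (fun _ : Fin L => O),
      (∏ b, pdf J n q T i b (T' b)) *
        (if J (T' i) = 0 ∧ n (T' i) < n (T i) then g (n (T' i)) - g (n (T i)) else 0) ≤
      (if Acc T' then (∏ b, q (T b) (T' b)) * (g (n (T' i)) - g (n (T i))) else 0) := by
    intro T' hT'
    have hT'O : ∀ b, T' b ∈ O := by simpa [Fintype.mem_piFinset] using hT'
    have hP : 0 ≤ ∏ b, q (T b) (T' b) := Finset.prod_nonneg fun b _ => hq b _ (hT'O b)
    have hh : (if J (T' i) = 0 ∧ n (T' i) < n (T i) then g (n (T' i)) - g (n (T i)) else 0) ≤ 0 := by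
      split_ifs with h
      · have := hF.g_mono h.2.le
        linarith
      · exact le_rfl
    by_cases hA : Acc T'
    · rw [if_pos hA, pdf_prod, if_pos (acc1 T' hT'O hA).1, mul_one]
      refine mul_le_mul_of_nonneg_left ?_ hP
      rcases (acc1 T' hT'O hA).2 with h | h
      · have h2 : J (T' i) = 0 ∧ n (T' i) < n (T i) := by
          rcases h with h | h
          · omega
          · exact ⟨by omega, h.2⟩
        rw [if_pos h2]
      · rw [h.2]
        split_ifs <;> simp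
    · rw [if_neg hA]
      refine mul_nonpos_of_nonneg_of_nonpos ?_ hh
      exact Finset.prod_nonneg fun b _ => pdf_nonneg J n q T i b _ (hq b _ (hT'O b))
  refine le_trans ?_ (Finset.sum_le_sum h1)
  rw [sum_pi_one i O (pdf J n q T i)
    (fun s => if J s = 0 ∧ n s < n (T i) then g (n s) - g (n (T i)) else 0)]
  set Y := ∑ s ∈ O, pdf J n q T i i s *
    (if J s = 0 ∧ n s < n (T i) then g (n s) - g (n (T i)) else 0) with hY
  have hY0 : Y ≤ 0 := by
    refine Finset.sum_nonpos fun s hs => mul_nonpos_of_nonneg_of_nonpos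
      (pdf_nonneg J n q T i i s (hq i s hs)) ?_
    split_ifs with h
    · have := hF.g_mono h.2.le
      linarith
    · exact le_rfl
  have hZ0 := pd_prod_nonneg O J n q T i hq (univ.erase i)
  have hZ1 := pd_prod_le O J n q T i hq (fun b => hB.mass_le _ (hT b)) (univ.erase i)
  have hYl : - (2 / m ^ 2) ≤ Y := by
    set k := n (T i) with hk
    have h2 : ∀ s ∈ O, -((g k - g (k - 1)) * (if J s = 0 ∧ n s + 1 = k then q (T i) s else 0)) -
        g k * (if J s = 0 ∧ n s + 2 ≤ k then q (T i) s else 0) ≤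
        pdf J n q T i i s * (if J s = 0 ∧ n s < k then g (n s) - g k else 0) := by
      intro s hs
      rw [pdf_eq J n q T i i s (lt_irrefl _)]
      have hqs := hq i s hs
      by_cases hJs : J s = 0
      · simp only [hJs, true_and]
        have hgs : 0 ≤ g (n s) := by
          have := hF.g_mono (Nat.zero_le (n s))
          rwa [hF.g0] at this
        rcases Nat.lt_or_ge (n s) k with h3 | h3
        · rw [if_pos h3]
          rcases Nat.lt_or_ge (n s + 1) k with h4 | h4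
          · rw [if_neg (by omega), if_pos (by omega)]
            nlinarith [mul_nonneg hqs hgs]
          · have h5 : n s + 1 = k := by omega
            rw [if_pos h5, if_neg (by omega)]
            have h6 : k - 1 = n s := by omega
            rw [h6]
            nlinarith
        · rw [if_neg (by omega), if_neg (by omega), if_neg (by omega)]
          simp
      · simp [hJs]
    have h3 := Finset.sum_le_sum h2
    rw [← hY, Finset.sum_sub_distrib, Finset.sum_neg_distrib, ← Finset.mul_sum, ← Finset.mul_sum,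
      ← Finset.sum_filter, ← Finset.sum_filter] at h3
    have h4 : ∑ s ∈ O.filter (fun s => J s = 0 ∧ n s + 1 = k), q (T i) s ≤ (k : ℝ) / m ^ 2 := by
      refine le_trans ?_ (hB.heal_le (T i) (hT i) hJ)
      refine Finset.sum_le_sum_of_subset_of_nonneg ?_ ?_
      · intro s hs
        rw [Finset.mem_filter] at hs ⊢
        exact ⟨hs.1, hs.2.1, by omega⟩
      · intro s hs _
        exact hq i s (Finset.mem_filter.mp hs).1
    have h5 : ∑ s ∈ O.filter (fun s => J s = 0 ∧ n s + 2 ≤ k), q (T i) s ≤ (k : ℝ) ^ 2 / m ^ 4 :=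
      hB.heal_two (T i) (hT i) hJ
    have h6 := hF.g_step k hn (hB.n_le _ (hT i))
    have h7 := hF.g_sq k (hB.n_le _ (hT i))
    have h8 : 0 ≤ g k - g (k - 1) := by
      have := hF.g_mono (Nat.sub_le k 1)
      linarith
    have h9 : 0 ≤ g k := by
      have := hF.g_mono (Nat.zero_le k)
      rwa [hF.g0] at this
    have h10 : (g k - g (k - 1)) * ∑ s ∈ O.filter (fun s => J s = 0 ∧ n s + 1 = k), q (T i) s ≤
        1 / m ^ 2 := by
      calc _ ≤ (g k - g (k - 1)) * ((k : ℝ) / m ^ 2) := mul_le_mul_of_nonneg_left h4 h8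
        _ = ((k : ℝ) * (g k - g (k - 1))) / m ^ 2 := by ring
        _ ≤ 1 / m ^ 2 := div_le_div_of_nonneg_right h6 hm2.le
    have h11 : g k * ∑ s ∈ O.filter (fun s => J s = 0 ∧ n s + 2 ≤ k), q (T i) s ≤ 1 / m ^ 2 := by
      calc _ ≤ g k * ((k : ℝ) ^ 2 / m ^ 4) := mul_le_mul_of_nonneg_left h5 h9
        _ = ((k : ℝ) ^ 2 * g k) / m ^ 4 := by ring
        _ ≤ m ^ 2 / m ^ 4 := div_le_div_of_nonneg_right h7 (by positivity)
        _ = 1 / m ^ 2 := by field_simp
    have h12 : (2 : ℝ) / m ^ 2 = 1 / m ^ 2 + 1 / m ^ 2 := by ring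
    rw [h12]
    linarith
  have : Y ≤ (∏ b ∈ univ.erase i, ∑ t ∈ O, pdf J n q T i b t) * Y := by nlinarith
  linarith

theorem pd_arith_clean (k m Q1 Q2 Q E1 own αk Pm : ℝ) (hk : 1 ≤ k) (hm : 1 ≤ m)
    (hQ1 : k / (2 * m ^ 2) ≤ Q1) (hQ2 : Q2 ≤ k ^ 2 / m ^ 4) (hQ0 : 0 ≤ Q) (hQ : Q ≤ 1)
    (hE : E1 ≤ -(4 * αk / k + 2 * k * Pm / m ^ 2)) (hown : own ≤ 2 / m ^ 2) (hα : 0 ≤ αk)
    (hP : 0 ≤ Pm) : Q1 * E1 + Q2 * Pm + Q * (αk * own) ≤ 0 := by
  have hm2 : 0 < m ^ 2 := by positivity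
  have hX : 0 ≤ 4 * αk / k + 2 * k * Pm / m ^ 2 := by positivity
  have hQ10 : 0 ≤ Q1 := le_trans (by positivity) hQ1
  have h1 : Q1 * E1 ≤ -(k / (2 * m ^ 2) * (4 * αk / k + 2 * k * Pm / m ^ 2)) := by
    have h2 : Q1 * E1 ≤ Q1 * (-(4 * αk / k + 2 * k * Pm / m ^ 2)) := mul_le_mul_of_nonneg_left hE hQ10
    have h3 := mul_le_mul_of_nonneg_right hQ1 hX
    linarith
  have h4 : k / (2 * m ^ 2) * (4 * αk / k + 2 * k * Pm / m ^ 2) = 2 * αk / m ^ 2 + k ^ 2 / m ^ 4 * Pm := by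
    field_simp
    ring
  have h5 : Q2 * Pm ≤ k ^ 2 / m ^ 4 * Pm := mul_le_mul_of_nonneg_right hQ2 hP
  have h6 : Q * (αk * own) ≤ 2 * αk / m ^ 2 := by
    have h7 : αk * own ≤ αk * (2 / m ^ 2) := mul_le_mul_of_nonneg_left hown hα
    have h8 : Q * (αk * own) ≤ Q * (αk * (2 / m ^ 2)) := mul_le_mul_of_nonneg_left h7 hQ0
    have h9 : Q * (αk * (2 / m ^ 2)) ≤ 1 * (αk * (2 / m ^ 2)) :=
      mul_le_mul_of_nonneg_right hQ (by positivity)
    have h10 : 1 * (αk * (2 / m ^ 2)) = 2 * αk / m ^ 2 := by ring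
    linarith
  rw [h4] at h1
  linarith

theorem pd_arith_dirty (k m Q1 Q2 Q E1 own αk Pm a Db R : ℝ) (hk : 1 ≤ k) (hm : 1 ≤ m)
    (hQ1 : k / (2 * m ^ 2) ≤ Q1) (hQ1' : Q1 ≤ k / m ^ 2) (hQ2 : Q2 ≤ k ^ 2 / m ^ 4)
    (hQ : 1 / 2 ≤ Q)
    (hE : E1 ≤ a - Db / 2) (ha : 0 ≤ a) (hDb : 0 ≤ Db) (hown : own ≤ -R) (hR : 0 ≤ R)
    (hα : 0 ≤ αk) (hP : 0 ≤ Pm)
    (hd : k * a + k ^ 2 * Pm / m ^ 2 ≤ m ^ 2 * αk * R / 2 + k * Db / 4) :
    Q1 * E1 + Q2 * Pm + Q * (αk * own) ≤ 0 := by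
  have hm2 : 0 < m ^ 2 := by positivity
  have hQ10 : 0 ≤ Q1 := le_trans (by positivity) hQ1
  have h1 : Q1 * E1 ≤ k / m ^ 2 * a - k / (2 * m ^ 2) * (Db / 2) := by
    have h2 : Q1 * E1 ≤ Q1 * (a - Db / 2) := mul_le_mul_of_nonneg_left hE hQ10
    have h3 := mul_le_mul_of_nonneg_right hQ1' ha
    have h4 := mul_le_mul_of_nonneg_right hQ1 (show 0 ≤ Db / 2 by positivity)
    linarith
  have h5 : Q2 * Pm ≤ k ^ 2 / m ^ 4 * Pm := mul_le_mul_of_nonneg_right hQ2 hP
  have h6 : Q * (αk * own) ≤ -(αk * R / 2) := by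
    have h7 : αk * own ≤ αk * (-R) := mul_le_mul_of_nonneg_left hown hα
    have h8 : Q * (αk * own) ≤ Q * (αk * (-R)) := mul_le_mul_of_nonneg_left h7 (by linarith)
    have h9 : (1 / 2) * (αk * R) ≤ Q * (αk * R) := mul_le_mul_of_nonneg_right hQ (mul_nonneg hα hR)
    linarith
  have h10 := mul_le_mul_of_nonneg_left hd (show 0 ≤ (1 : ℝ) / m ^ 2 by positivity)
  have h11 : 1 / m ^ 2 * (k * a + k ^ 2 * Pm / m ^ 2) = k / m ^ 2 * a + k ^ 2 / m ^ 4 * Pm := by
    field_simp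
  have h12 : 1 / m ^ 2 * (m ^ 2 * αk * R / 2 + k * Db / 4) =
      αk * R / 2 + k / (2 * m ^ 2) * (Db / 2) := by
    field_simp
    ring
  rw [h11, h12] at h10
  linarith

theorem pd_fpart (O : Finset Ω) (M L : ℕ) (m : ℝ) (J n : Ω → ℕ) (Φ : Ω → ℝ) (q : Ω → Ω → ℝ)
    (Dn : ℕ → ℝ) (Pm R K cp C0p : ℝ) (α β g : ℕ → ℝ) (G0 : ℝ)
    (hB : BlkHyp O M m J n Φ q Dn Pm R K cp C0p)
    (hF : FnHyp M L m Dn Pm R K cp C0p α β g G0)
    (T : Fin L → Ω) (hT : ∀ b, T b ∈ O) (i : Fin L)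
    (hJ : J (T i) = 0) (hn : 1 ≤ n (T i)) (hij : nxtB i ≠ i) (hji : ¬ nxtB i < i)
    (Acc : (Fin L → Ω) → Prop)
    (acc1 : ∀ T' : Fin L → Ω, (∀ b, T' b ∈ O) → Acc T' → (∀ b < i, ¬ PBad J n (T' b)) ∧
      (PLess J n (T' i) (T i) ∨ (PSame J n (T' i) (T i) ∧
        (PLess J n (T' (nxtB i)) (T (nxtB i)) ∨ PSame J n (T' (nxtB i)) (T (nxtB i))))))
    (acc2 : ∀ T' : Fin L → Ω, (∀ b, T' b ∈ O) → (∀ b < i, ¬ PBad J n (T' b)) →
      PLess J n (T' i) (T i) → Acc T')
    (acc3 : ∀ T' : Fin L → Ω, (∀ b, T' b ∈ O) → (∀ b < i, ¬ PBad J n (T' b)) →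
      PSame J n (T' i) (T i) → PLess J n (T' (nxtB i)) (T (nxtB i)) → Acc T') :
    ∑ T' ∈ (Fintype.piFinset (fun _ : Fin L => O)).filter Acc,
      (∏ b, q (T b) (T' b)) * ((α (n (T' i)) * Φ (T' (nxtB i)) + β (n (T' i))) -
        (α (n (T i)) * Φ (T (nxtB i)) + β (n (T i)))) ≤ 0 := by
  have hq : ∀ b, ∀ t ∈ O, 0 ≤ q (T b) t := fun b t ht => hB.q_nonneg _ (hT b) _ ht
  have hm := hF.m_pos
  have hm2 : 0 < m ^ 2 := by positivity
  set j := nxtB i with hj
  set k := n (T i) with hk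
  set F := α k * Φ (T j) + β k with hFdef
  set H2 : Ω → ℝ := fun t => (if PLess J n t (T j) then Φ t - Φ (T j) else 0) +
    (if PSame J n t (T j) then max 0 (Φ t - Φ (T j)) else 0) with hH2
  set H : Ω → Ω → ℝ := fun s t => (if J s = 0 ∧ n s < k then α (n s) * Φ t + β (n s) - F else 0) +
    (if J s = 0 ∧ n s = k then α k * H2 t else 0) with hH
  rw [Finset.sum_filter]
  have h1 : ∀ T' ∈ Fintype.piFinset (fun _ : Fin L => O),
      (if Acc T' then (∏ b, q (T b) (T' b)) * ((α (n (T' i)) * Φ (T' j) + β (n (T' i))) - F) else 0) ≤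
      (∏ b, pdf J n q T i b (T' b)) * H (T' i) (T' j) := by
    intro T' hT'
    have hT'O : ∀ b, T' b ∈ O := by simpa [Fintype.mem_piFinset] using hT'
    have hP : 0 ≤ ∏ b, q (T b) (T' b) := Finset.prod_nonneg fun b _ => hq b _ (hT'O b)
    rw [pdf_prod]
    by_cases hnb : ∀ b < i, ¬ PBad J n (T' b)
    · rw [if_pos hnb, mul_one]
      by_cases hl : PLess J n (T' i) (T i)
      · have h2 : J (T' i) = 0 ∧ n (T' i) < k := by
          rcases hl with h | h
          · omega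
          · exact ⟨by omega, h.2⟩
        have h3 : H (T' i) (T' j) = (α (n (T' i)) * Φ (T' j) + β (n (T' i))) - F := by
          simp only [hH]
          rw [if_pos h2, if_neg (by omega), add_zero]
        rw [if_pos (acc2 T' hT'O hnb hl), h3]
      · by_cases hs : PSame J n (T' i) (T i)
        · have h2 : J (T' i) = 0 ∧ n (T' i) = k := ⟨by rw [hs.1]; exact hJ, hs.2⟩
          have h3 : H (T' i) (T' j) = α k * H2 (T' j) := by
            simp only [hH]
            rw [if_pos h2, if_neg (by omega), zero_add]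
          have h4 : (α (n (T' i)) * Φ (T' j) + β (n (T' i))) - F = α k * (Φ (T' j) - Φ (T j)) := by
            rw [h2.2, hFdef]
            ring
          rw [h3, h4]
          by_cases hl2 : PLess J n (T' j) (T j)
          · have h5 : H2 (T' j) = Φ (T' j) - Φ (T j) := by
              simp only [hH2]
              have hs2 : ¬ PSame J n (T' j) (T j) := by
                rintro ⟨h1, h2⟩
                rcases hl2 with h | ⟨_, h⟩ <;> omega
              rw [if_pos hl2, if_neg hs2, add_zero]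
            rw [if_pos (acc3 T' hT'O hnb hs hl2), h5]
          · by_cases hs2 : PSame J n (T' j) (T j)
            · have h5 : H2 (T' j) = max 0 (Φ (T' j) - Φ (T j)) := by
                simp only [hH2]
                rw [if_neg hl2, if_pos hs2, zero_add]
              rw [h5]
              split_ifs
              · exact mul_le_mul_of_nonneg_left
                  (mul_le_mul_of_nonneg_left (le_max_right _ _) (hF.α_nonneg k)) hP
              · exact mul_nonneg hP (mul_nonneg (hF.α_nonneg k) (le_max_left _ _))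
            · have h5 : H2 (T' j) = 0 := by
                simp only [hH2]
                rw [if_neg hl2, if_neg hs2, zero_add]
              rw [h5, mul_zero, mul_zero, if_neg]
              intro hA
              rcases (acc1 T' hT'O hA).2 with h | h
              · exact hl h
              · rcases h.2 with h | h
                · exact hl2 h
                · exact hs2 h
        · have hnA : ¬ Acc T' := by
            intro hA
            rcases (acc1 T' hT'O hA).2 with h | h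
            · exact hl h
            · exact hs h.1
          have h3 : H (T' i) (T' j) = 0 := by
            simp only [hH]
            rw [if_neg, if_neg, add_zero]
            · rintro ⟨h5, h6⟩
              exact hs ⟨by rw [h5, hJ], h6⟩
            · rintro ⟨h5, h6⟩
              exact hl (Or.inr ⟨by rw [h5, hJ], h6⟩)
          rw [if_neg hnA, h3, mul_zero]
    · rw [if_neg hnb, mul_zero, zero_mul, if_neg]
      intro hA
      exact hnb (acc1 T' hT'O hA).1
  refine (Finset.sum_le_sum h1).trans ?_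
  rw [sum_pi_two i j (Ne.symm hij) O (pdf J n q T i) H]
  refine mul_nonpos_of_nonneg_of_nonpos (pd_prod_nonneg O J n q T i hq _) ?_
  -- the inner double sum
  set U : Ω → ℝ := fun s => ∑ t ∈ O, q (T j) t * H s t with hU
  have h2 : ∑ s ∈ O, ∑ t ∈ O, pdf J n q T i i s * pdf J n q T i j t * H s t =
      ∑ s ∈ O, q (T i) s * U s := by
    refine Finset.sum_congr rfl fun s _ => ?_
    rw [hU, Finset.mul_sum]
    refine Finset.sum_congr rfl fun t _ => ?_
    rw [pdf_eq J n q T i i s (lt_irrefl _), pdf_eq J n q T i j t hji, mul_assoc]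
  rw [h2]
  set Aj := ∑ t ∈ O, q (T j) t with hAj
  set comp := ∑ t ∈ O, q (T j) t * (Φ t - Φ (T j)) with hcomp
  set own := ∑ T' ∈ O.filter (fun T' => PLess J n T' (T j)), q (T j) T' * (Φ T' - Φ (T j)) +
    ∑ T' ∈ O.filter (fun T' => PSame J n T' (T j)), q (T j) T' * max 0 (Φ T' - Φ (T j)) with hown
  have hAj1 : Aj ≤ 1 := hB.mass_le _ (hT j)
  have hAj2 : 1 / 2 ≤ Aj := by
    refine (hB.mass_ge _ (hT j)).trans ?_
    refine Finset.sum_le_sum_of_subset_of_nonneg (Finset.filter_subset _ _) ?_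
    intro t ht _
    exact hq j t ht
  have hΦj0 := hB.Φ0 _ (hT j)
  have hΦj1 := hB.Φ1 _ (hT j)
  have hαd : 0 ≤ α (k - 1) - α k := by
    have := hF.α_anti (Nat.sub_le k 1)
    linarith
  have hβd : 0 ≤ β k - β (k - 1) := by
    have := hF.β_mono (Nat.sub_le k 1)
    linarith
  set E1 := α (k - 1) * comp + (α (k - 1) - α k) * Φ (T j) - (β k - β (k - 1)) / 2 with hE1
  have hU1 : ∀ s ∈ O, q (T i) s * U s ≤ (if J s = 0 ∧ n s + 1 = k then q (T i) s else 0) * E1 +
      (if J s = 0 ∧ n s + 2 ≤ k then q (T i) s else 0) * Pm +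
      (if PSame J n s (T i) then q (T i) s else 0) * (α k * own) := by
    intro s hs
    have hqs := hq i s hs
    by_cases hJs : J s = 0
    · have hps : PSame J n s (T i) ↔ n s = k := by
        unfold PSame
        rw [hJs, hJ]
        simp [hk]
      rcases lt_trichotomy (n s) k with h3 | h3 | h3
      · rw [if_neg (show ¬ PSame J n s (T i) by rw [hps]; omega), zero_mul, add_zero]
        have h4 : ∀ t, H s t = α (n s) * Φ t + β (n s) - F := by
          intro t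
          simp only [hH]
          rw [if_pos ⟨hJs, h3⟩, if_neg (by omega), add_zero]
        rcases Nat.lt_or_ge (n s + 1) k with h5 | h5
        · rw [if_neg (by omega), if_pos ⟨hJs, by omega⟩, zero_mul, zero_add]
          refine mul_le_mul_of_nonneg_left ?_ hqs
          have h6 : U s ≤ ∑ t ∈ O, q (T j) t * Pm := by
            refine Finset.sum_le_sum fun t ht => mul_le_mul_of_nonneg_left ?_ (hq j t ht)
            rw [h4 t]
            have ha1 : α (n s) ≤ 1 := by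
              have := hF.α_anti (Nat.zero_le (n s))
              rwa [hF.α0] at this
            have ha0 := hF.α_nonneg (n s)
            have hak := hF.α_nonneg k
            have hb := hF.β_mono h3.le
            have hΦt0 := hB.Φ0 _ ht
            have hΦt1 := hB.Φ1 _ ht
            have h7 : α (n s) * Φ t ≤ 1 * Φ t := mul_le_mul_of_nonneg_right ha1 hΦt0
            have h8 : 0 ≤ α k * Φ (T j) := mul_nonneg hak hΦj0
            rw [hFdef]
            linarith
          refine h6.trans ?_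
          rw [← Finset.sum_mul]
          have := mul_le_mul_of_nonneg_right hAj1 hF.Pm0
          linarith
        · have h6 : n s = k - 1 := by omega
          rw [if_pos ⟨hJs, by omega⟩, if_neg (by omega), zero_mul, add_zero]
          refine mul_le_mul_of_nonneg_left ?_ hqs
          have h7 : U s = α (k - 1) * comp +
              Aj * ((α (k - 1) - α k) * Φ (T j) - (β k - β (k - 1))) := by
            rw [hU, hcomp, hAj, Finset.mul_sum, Finset.sum_mul, ← Finset.sum_add_distrib]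
            refine Finset.sum_congr rfl fun t _ => ?_
            rw [h4 t, h6, hFdef]
            ring
          rw [h7, hE1]
          have h8 : Aj * ((α (k - 1) - α k) * Φ (T j)) ≤ 1 * ((α (k - 1) - α k) * Φ (T j)) :=
            mul_le_mul_of_nonneg_right hAj1 (mul_nonneg hαd hΦj0)
          have h9 : 1 / 2 * (β k - β (k - 1)) ≤ Aj * (β k - β (k - 1)) :=
            mul_le_mul_of_nonneg_right hAj2 hβd
          linarith
      · rw [if_neg (by omega), if_neg (by omega), if_pos (hps.mpr h3), zero_mul, zero_mul, zero_add,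
          zero_add]
        refine mul_le_mul_of_nonneg_left (le_of_eq ?_) hqs
        have h4 : ∀ t, H s t = α k * H2 t := by
          intro t
          simp only [hH]
          rw [if_neg (by omega), if_pos ⟨hJs, h3⟩, zero_add]
        rw [hU, hown, Finset.sum_filter, Finset.sum_filter, ← Finset.sum_add_distrib, Finset.mul_sum]
        refine Finset.sum_congr rfl fun t _ => ?_
        rw [h4 t]
        simp only [hH2]
        split_ifs <;> ring
      · rw [if_neg (by omega), if_neg (by omega),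
          if_neg (show ¬ PSame J n s (T i) by rw [hps]; omega)]
        have h4 : ∀ t, H s t = 0 := by
          intro t
          simp only [hH]
          rw [if_neg (by omega), if_neg (by omega), zero_add]
        have h5 : U s = 0 := by
          rw [hU]
          exact Finset.sum_eq_zero fun t _ => by rw [h4 t, mul_zero]
        rw [h5]
        simp
    · have h4 : ∀ t, H s t = 0 := by
        intro t
        simp only [hH]
        rw [if_neg (fun h => hJs h.1), if_neg (fun h => hJs h.1), zero_add]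
      have h5 : U s = 0 := by
        rw [hU]
        exact Finset.sum_eq_zero fun t _ => by rw [h4 t, mul_zero]
      rw [h5, if_neg (fun h => hJs h.1), if_neg (fun h => hJs h.1),
        if_neg (show ¬ PSame J n s (T i) from fun h => hJs (by rw [h.1, hJ]))]
      simp
  refine (Finset.sum_le_sum hU1).trans ?_
  rw [Finset.sum_add_distrib, Finset.sum_add_distrib, ← Finset.sum_mul, ← Finset.sum_mul,
    ← Finset.sum_mul, ← Finset.sum_filter, ← Finset.sum_filter, ← Finset.sum_filter]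
  have hQ1 := hB.heal_ge (T i) (hT i) hJ
  have hQ1' : ∑ s ∈ O.filter (fun s => J s = 0 ∧ n s + 1 = k), q (T i) s ≤ (k : ℝ) / m ^ 2 := by
    refine le_trans ?_ (hB.heal_le (T i) (hT i) hJ)
    refine Finset.sum_le_sum_of_subset_of_nonneg ?_ ?_
    · intro s hs
      rw [Finset.mem_filter] at hs ⊢
      exact ⟨hs.1, hs.2.1, by omega⟩
    · intro s hs _
      exact hq i s (Finset.mem_filter.mp hs).1
  have hQ2 := hB.heal_two (T i) (hT i) hJ
  have hQge := hB.mass_ge (T i) (hT i)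
  have hQle : ∑ s ∈ O.filter (fun s => PSame J n s (T i)), q (T i) s ≤ 1 := by
    refine le_trans ?_ (hB.mass_le (T i) (hT i))
    refine Finset.sum_le_sum_of_subset_of_nonneg (Finset.filter_subset _ _) ?_
    intro t ht _
    exact hq i t ht
  have hk1 : (1 : ℝ) ≤ (k : ℝ) := by exact_mod_cast hn
  have hkM := hB.n_le _ (hT i)
  by_cases hJj : J (T j) = 0
  · have hcc := hB.comp_clean (T j) (hT j) hJj
    have hoc := hB.own_clean (T j) (hT j) hJj
    have hαs := hF.α_step k hn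
    have hcl := hF.hclean k hn hkM
    refine pd_arith_clean (k : ℝ) m _ _ _ E1 own (α k) Pm hk1 hm hQ1 hQ2 (by linarith) hQle ?_ hoc
      (hF.α_nonneg k) hF.Pm0
    have h3 : α (k - 1) * comp ≤ α (k - 1) * (-cp * Φ (T j) + C0p) :=
      mul_le_mul_of_nonneg_left hcc (hF.α_nonneg _)
    have h4 : (α (k - 1) - α k) * Φ (T j) ≤ (cp * α (k - 1)) * Φ (T j) :=
      mul_le_mul_of_nonneg_right hαs hΦj0
    rw [hE1]
    nlinarith
  · have hcc := hB.comp_dirty (T j) (hT j)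
    have hoc := hB.own_dirty (T j) (hT j) (Nat.pos_of_ne_zero hJj)
    have hd := hF.hdirty k hn hkM
    refine pd_arith_dirty (k : ℝ) m _ _ _ E1 own (α k) Pm
      (α (k - 1) * K + (α (k - 1) - α k) * Pm) (β k - β (k - 1)) R hk1 hm hQ1 hQ1' hQ2 hQge ?_ ?_
      hβd hoc hF.R0 (hF.α_nonneg k) hF.Pm0 hd
    · have h3 : α (k - 1) * comp ≤ α (k - 1) * K := mul_le_mul_of_nonneg_left hcc (hF.α_nonneg _)
      have h4 : (α (k - 1) - α k) * Φ (T j) ≤ (α (k - 1) - α k) * Pm :=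
        mul_le_mul_of_nonneg_left hΦj1 hαd
      rw [hE1]
      linarith
    · exact add_nonneg (mul_nonneg (hF.α_nonneg _) hF.K0) (mul_nonneg hαd hF.Pm0)

theorem prod_drift (O : Finset Ω) (M L : ℕ) (m : ℝ) (J n : Ω → ℕ) (Φ : Ω → ℝ) (q : Ω → Ω → ℝ)
    (Dn : ℕ → ℝ) (Pm R K cp C0p : ℝ) (α β g : ℕ → ℝ) (G0 : ℝ)
    (hB : BlkHyp O M m J n Φ q Dn Pm R K cp C0p)
    (hF : FnHyp M L m Dn Pm R K cp C0p α β g G0)
    (T : Fin L → Ω) (hT : ∀ b, T b ∈ O) (i : Fin L) (hi : IsFirst J n T i)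
    (Acc : (Fin L → Ω) → Prop)
    (acc1 : ∀ T' : Fin L → Ω, (∀ b, T' b ∈ O) → Acc T' → (∀ b < i, ¬ PBad J n (T' b)) ∧
      (PLess J n (T' i) (T i) ∨ (PSame J n (T' i) (T i) ∧
        (nxtB i ≠ i → PLess J n (T' (nxtB i)) (T (nxtB i)) ∨ PSame J n (T' (nxtB i)) (T (nxtB i))))))
    (acc2 : ∀ T' : Fin L → Ω, (∀ b, T' b ∈ O) → (∀ b < i, ¬ PBad J n (T' b)) →
      PLess J n (T' i) (T i) → Acc T')
    (acc3 : ∀ T' : Fin L → Ω, (∀ b, T' b ∈ O) → (∀ b < i, ¬ PBad J n (T' b)) →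
      PSame J n (T' i) (T i) → nxtB i ≠ i → PLess J n (T' (nxtB i)) (T (nxtB i)) → Acc T') :
    - (2 / m ^ 2) ≤ ∑ T' ∈ (Fintype.piFinset (fun _ : Fin L => O)).filter Acc,
      (∏ b, q (T b) (T' b)) * (WW J n Φ α β g G0 T' - WW J n Φ α β g G0 T) := by
  by_cases hJ : J (T i) = 0
  · have hn : 1 ≤ n (T i) := by
      rcases hi.1 with h | h
      · exact absurd hJ h
      · omega
    have hq : ∀ b, ∀ t ∈ O, 0 ≤ q (T b) t := fun b t ht => hB.q_nonneg _ (hT b) _ ht
    have hWT : WW J n Φ α β g G0 T = g (n (T i)) + ((L : ℝ) - 1 - i.val) *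
        max 0 (G0 - (α (n (T i)) * Φ (T (nxtB i)) + β (n (T i)))) := by
      rw [pd_first J n Φ α β g G0 T i hi]
      unfold wI
      rw [if_neg (by simpa using hJ)]
    have hLi : (0 : ℝ) ≤ (L : ℝ) - 1 - i.val := by
      have : (i.val : ℝ) + 1 ≤ L := by exact_mod_cast i.2
      linarith
    set F := α (n (T i)) * Φ (T (nxtB i)) + β (n (T i)) with hFdef
    set lam : ℝ := if F < G0 then 1 else 0 with hlam
    have hlam0 : 0 ≤ lam := by rw [hlam]; split_ifs <;> norm_num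
    have acc1' : ∀ T' : Fin L → Ω, (∀ b, T' b ∈ O) → Acc T' → (∀ b < i, ¬ PBad J n (T' b)) ∧
        (PLess J n (T' i) (T i) ∨ PSame J n (T' i) (T i)) := by
      intro T' h1 h2
      refine ⟨(acc1 T' h1 h2).1, ?_⟩
      rcases (acc1 T' h1 h2).2 with h | h
      · exact Or.inl h
      · exact Or.inr h.1
    have hg := pd_gpart O M L m J n Φ q Dn Pm R K cp C0p α β g G0 hB hF T hT i hJ hn Acc acc1'
    have hf : 0 ≤ -(lam * ((L : ℝ) - 1 - i.val)) *
        ∑ T' ∈ (Fintype.piFinset (fun _ : Fin L => O)).filter Acc,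
        (∏ b, q (T b) (T' b)) * ((α (n (T' i)) * Φ (T' (nxtB i)) + β (n (T' i))) - F) := by
      by_cases hL : i.val + 1 < L
      · have hj : nxtB i = ⟨i.val + 1, hL⟩ := by unfold nxtB; rw [dif_pos hL]
        have hij : nxtB i ≠ i := by
          rw [hj]
          intro h
          have := congrArg Fin.val h
          simp at this
        have hji : ¬ nxtB i < i := by
          rw [hj]
          intro h
          have : i.val + 1 < i.val := h
          omega
        have hS := pd_fpart O M L m J n Φ q Dn Pm R K cp C0p α β g G0 hB hF T hT i hJ hn hij hji Acc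
          (by
            intro T' h1 h2
            refine ⟨(acc1 T' h1 h2).1, ?_⟩
            rcases (acc1 T' h1 h2).2 with h | h
            · exact Or.inl h
            · exact Or.inr ⟨h.1, h.2 hij⟩) acc2
          (by
            intro T' h1 h2 h3 h4
            exact acc3 T' h1 h2 h3 hij h4)
        have h9 : 0 ≤ lam * ((L : ℝ) - 1 - i.val) := mul_nonneg hlam0 hLi
        rw [← hFdef] at hS
        nlinarith
      · have h2 : (L : ℝ) - 1 - i.val = 0 := by
          have h3 : i.val + 1 = L := by have := i.2; omega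
          have h4 := congrArg (Nat.cast : ℕ → ℝ) h3
          push_cast at h4
          linarith
        rw [h2]
        simp
    have h4 : ∀ T' ∈ (Fintype.piFinset (fun _ : Fin L => O)).filter Acc,
        (∏ b, q (T b) (T' b)) * (g (n (T' i)) - g (n (T i))) +
        -(lam * ((L : ℝ) - 1 - i.val)) * ((∏ b, q (T b) (T' b)) *
          ((α (n (T' i)) * Φ (T' (nxtB i)) + β (n (T' i))) - F)) ≤
        (∏ b, q (T b) (T' b)) * (WW J n Φ α β g G0 T' - WW J n Φ α β g G0 T) := by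
      intro T' hT'
      rw [Finset.mem_filter] at hT'
      have hT'O : ∀ b, T' b ∈ O := by simpa [Fintype.mem_piFinset] using hT'.1
      have hP : 0 ≤ ∏ b, q (T b) (T' b) := Finset.prod_nonneg fun b _ => hq b _ (hT'O b)
      have hJ' : J (T' i) = 0 := by
        rcases (acc1' T' hT'O hT'.2).2 with h | h
        · rcases h with h | h
          · omega
          · omega
        · rw [h.1, hJ]
      have h5 := pd_ge2 O M L m J n Φ q Dn Pm R K cp C0p α β g G0 hB hF T' hT'O i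
        (acc1' T' hT'O hT'.2).1 hJ'
      set F' := α (n (T' i)) * Φ (T' (nxtB i)) + β (n (T' i)) with hF'
      have h6 := pd_conv G0 F F'
      rw [← hlam] at h6
      have h7 := mul_le_mul_of_nonneg_left h6 hLi
      rw [hWT]
      have h8 : (g (n (T' i)) - g (n (T i))) + -(lam * ((L : ℝ) - 1 - i.val)) * (F' - F) ≤
          WW J n Φ α β g G0 T' - (g (n (T i)) + ((L : ℝ) - 1 - i.val) * max 0 (G0 - F)) := by
        nlinarith
      calc _ = (∏ b, q (T b) (T' b)) * ((g (n (T' i)) - g (n (T i))) +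
            -(lam * ((L : ℝ) - 1 - i.val)) * (F' - F)) := by ring
        _ ≤ _ := mul_le_mul_of_nonneg_left h8 hP
    refine le_trans ?_ (Finset.sum_le_sum h4)
    rw [Finset.sum_add_distrib, ← Finset.mul_sum]
    linarith
  · have h1 := pd_dirty O M L m J n Φ q Dn Pm R K cp C0p α β g G0 hB hF T hT i hi hJ Acc
      (by
        intro T' h1 h2
        refine ⟨(acc1 T' h1 h2).1, ?_⟩
        rcases (acc1 T' h1 h2).2 with h | h
        · exact Or.inl h
        · exact Or.inr h.1) acc2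
    have hm := hF.m_pos
    have h2 : 0 ≤ 2 / m ^ 2 := by positivity
    linarith


end prodpart

end Pool.Agent.Helper120.Ea

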