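import Pool.Agent.Helper120.Ea.OwnDirty
import Pool.Agent.Helper120.Ea.CompC
import Pool.Agent.Helper120.Ea.ProdDrift
import Pool.Agent.Helper120.Ea.Codes
import Pool.Agent.Helper120.Ea.Digits
import Pool.Agent.Helper120.Ea.EaSum
import Pool.Agent.Helper120.Ea.Drift
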