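import Pool.Agent.Helper120.Ea.Anal
import Pool.Agent.Helper120.Ea.ProdDrift

open Finset

namespace Pool.Agent.Helper120.Ea

/-- the weight `α` -/
noncomputable def wA (c : ℝ) (n3 k : ℕ) : ℝ := c ^ (min k n3)

/-- increments of `β` -/
noncomputable def wB (p m Pm K c : ℝ) (n3 j : ℕ) : ℝ :=
  12 * p * wA c n3 (j - 1) + 8 * wA c n3 j / j + 4 * j * Pm / m ^ 2 +
    (if n3 < j then 4 * wA c n3 (j - 1) * K else 0)

/-- the weight `β` -/
noncomputable def wBe (p m Pm K c : ℝ) (n3 k : ℕ) : ℝ :=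
  ∑ j ∈ range k, wB p m Pm K c n3 (j + 1)

theorem wA_nonneg {c : ℝ} (hc : 0 ≤ c) (n3 k : ℕ) : 0 ≤ wA c n3 k := pow_nonneg hc _

theorem wA_anti {c : ℝ} (hc : 0 ≤ c) (hc1 : c ≤ 1) (n3 : ℕ) : Antitone (wA c n3) := by
  intro a b hab
  exact pow_le_pow_of_le_one hc hc1 (min_le_min_right _ hab)

theorem wA_le_one {c : ℝ} (hc : 0 ≤ c) (hc1 : c ≤ 1) (n3 k : ℕ) : wA c n3 k ≤ 1 :=
  pow_le_one₀ hc hc1

theorem wA_big {c : ℝ} {n3 k : ℕ} (h : n3 ≤ k) : wA c n3 k = c ^ n3 := by
  unfold wA; rw [min_eq_right h]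

theorem wA_succ {c : ℝ} {n3 k : ℕ} (h : k + 1 ≤ n3) : wA c n3 (k + 1) = c * wA c n3 k := by
  unfold wA; rw [min_eq_left h, min_eq_left (by omega), pow_succ, mul_comm]

theorem wB_nonneg {p m Pm K c : ℝ} (hp : 0 ≤ p) (hPm : 0 ≤ Pm) (hK : 0 ≤ K) (hc : 0 ≤ c)
    (n3 j : ℕ) : 0 ≤ wB p m Pm K c n3 j := by
  unfold wB
  have h1 := wA_nonneg hc n3 (j - 1)
  have h2 := wA_nonneg hc n3 j
  have h3 : 0 ≤ (if n3 < j then 4 * wA c n3 (j - 1) * K else 0) := by
    split_ifs
    · positivity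
    · exact le_rfl
  positivity

theorem geom_le {c : ℝ} (hc : 0 ≤ c) (hc1 : c < 1) (n : ℕ) :
    ∑ j ∈ range n, c ^ j ≤ 1 / (1 - c) := by
  have h1 : (∑ j ∈ range n, c ^ j) * (1 - c) = 1 - c ^ n := by
    have := geom_sum_mul c n
    linarith
  rw [le_div_iff₀ (by linarith), h1]
  have := pow_nonneg hc n
  linarith

theorem harm_le (n : ℕ) : ∑ j ∈ range n, 1 / ((j : ℝ) + 1) ≤ 1 + Real.log n := by
  have h := harmonic_le_one_add_log n
  have h2 : ((harmonic n : ℚ) : ℝ) = ∑ j ∈ range n, 1 / ((j : ℝ) + 1) := by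
    unfold harmonic
    push_cast
    refine Finset.sum_congr rfl fun j _ => ?_
    rw [one_div]
  rw [← h2]
  exact h

theorem sum_if_le {n M : ℕ} (f : ℕ → ℝ) (hf : ∀ j, 0 ≤ f j) :
    ∑ j ∈ range M, (if j < n then f j else 0) ≤ ∑ j ∈ range n, f j := by
  rw [← Finset.sum_filter]
  refine Finset.sum_le_sum_of_subset_of_nonneg ?_ fun j _ _ => hf j
  intro j hj
  rw [Finset.mem_filter] at hj
  exact Finset.mem_range.2 hj.2

theorem wBe_le {M n3 : ℕ} {m p Pm K c : ℝ} (hm : 1 ≤ m) (hp : 0 < p)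
    (hPm : 0 ≤ Pm) (hK : 0 ≤ K) (hc : 0 ≤ c) (hcp : 1 - c = p / 16) (hc1 : c < 1)
    (h2 : 4 * M * c ^ n3 * K ≤ 1)
    (h3 : 12 * p * M * c ^ n3 ≤ 1)
    (h4 : c ^ n3 * (1 + Real.log M) ≤ 1)
    (h6 : 4 * (M : ℝ) ^ 2 * Pm / m ^ 2 ≤ 1) :
    wBe p m Pm K c n3 M ≤ 211 + 8 * Real.log n3 := by
  have hcn : 0 ≤ c ^ n3 := pow_nonneg hc _
  have e0 : wBe p m Pm K c n3 M =
      (∑ j ∈ range M, 12 * p * wA c n3 j) + (∑ j ∈ range M, 8 * wA c n3 (j + 1) / ((j : ℝ) + 1)) +
      (∑ j ∈ range M, 4 * ((j : ℝ) + 1) * Pm / m ^ 2) +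
      ∑ j ∈ range M, (if n3 < j + 1 then 4 * wA c n3 j * K else 0) := by
    unfold wBe wB
    rw [← Finset.sum_add_distrib, ← Finset.sum_add_distrib, ← Finset.sum_add_distrib]
    refine Finset.sum_congr rfl fun j _ => ?_
    rw [Nat.add_sub_cancel]
    push_cast
    rfl
  have S1 : ∑ j ∈ range M, 12 * p * wA c n3 j ≤ 193 := by
    have a1 : ∀ j ∈ range M, 12 * p * wA c n3 j ≤
        12 * p * ((if j < n3 then c ^ j else 0) + c ^ n3) := by
      intro j _
      refine mul_le_mul_of_nonneg_left ?_ (by positivity)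
      by_cases hj : j < n3
      · rw [if_pos hj]
        unfold wA
        rw [min_eq_left hj.le]
        linarith
      · rw [if_neg hj, wA_big (not_lt.1 hj), zero_add]
    refine (Finset.sum_le_sum a1).trans ?_
    rw [← Finset.mul_sum, Finset.sum_add_distrib, Finset.sum_const, Finset.card_range, nsmul_eq_mul,
      mul_add]
    have a2 : ∑ j ∈ range M, (if j < n3 then c ^ j else 0) ≤ 1 / (1 - c) :=
      (sum_if_le _ fun j => pow_nonneg hc j).trans (geom_le hc hc1 n3)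
    have a3 : 12 * p * ∑ j ∈ range M, (if j < n3 then c ^ j else 0) ≤ 12 * p * (1 / (1 - c)) :=
      mul_le_mul_of_nonneg_left a2 (by positivity)
    have a4 : 12 * p * (1 / (1 - c)) = 192 := by
      rw [hcp]; field_simp; norm_num
    have a5 : 12 * p * ((M : ℝ) * c ^ n3) = 12 * p * M * c ^ n3 := by ring
    rw [a5]
    linarith
  have S2 : ∑ j ∈ range M, 8 * wA c n3 (j + 1) / ((j : ℝ) + 1) ≤ 16 + 8 * Real.log n3 := by
    have a1 : ∀ j ∈ range M, 8 * wA c n3 (j + 1) / ((j : ℝ) + 1) ≤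
        8 * (if j < n3 then 1 / ((j : ℝ) + 1) else 0) + 8 * (c ^ n3 * (1 / ((j : ℝ) + 1))) := by
      intro j _
      have hj1 : (0 : ℝ) < (j : ℝ) + 1 := by positivity
      by_cases hj : j < n3
      · rw [if_pos hj]
        have a2 : 8 * wA c n3 (j + 1) / ((j : ℝ) + 1) ≤ 8 * (1 / ((j : ℝ) + 1)) := by
          rw [mul_div_assoc]
          refine mul_le_mul_of_nonneg_left ?_ (by norm_num)
          exact div_le_div_of_nonneg_right (wA_le_one hc hc1.le _ _) hj1.le
        have a3 : 0 ≤ 8 * (c ^ n3 * (1 / ((j : ℝ) + 1))) := by positivity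
        linarith
      · rw [if_neg hj, wA_big (by omega), mul_zero, zero_add]
        apply le_of_eq
        ring
    refine (Finset.sum_le_sum a1).trans ?_
    rw [Finset.sum_add_distrib, ← Finset.mul_sum, ← Finset.mul_sum, ← Finset.mul_sum]
    have a2 : ∑ j ∈ range M, (if j < n3 then 1 / ((j : ℝ) + 1) else 0) ≤ 1 + Real.log n3 :=
      (sum_if_le _ fun j => by positivity).trans (harm_le n3)
    have a3 : c ^ n3 * ∑ j ∈ range M, 1 / ((j : ℝ) + 1) ≤ c ^ n3 * (1 + Real.log M) :=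
      mul_le_mul_of_nonneg_left (harm_le M) hcn
    linarith
  have S3 : ∑ j ∈ range M, 4 * ((j : ℝ) + 1) * Pm / m ^ 2 ≤ 1 := by
    have a1 : ∀ j ∈ range M, 4 * ((j : ℝ) + 1) * Pm / m ^ 2 ≤ 4 * (M : ℝ) * Pm / m ^ 2 := by
      intro j hj
      have hj2 : (j : ℝ) + 1 ≤ M := by exact_mod_cast Finset.mem_range.1 hj
      refine div_le_div_of_nonneg_right ?_ (by positivity)
      refine mul_le_mul_of_nonneg_right ?_ hPm
      linarith
    refine (Finset.sum_le_sum a1).trans ?_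
    rw [Finset.sum_const, Finset.card_range, nsmul_eq_mul]
    refine le_trans (le_of_eq ?_) h6
    ring
  have S4 : ∑ j ∈ range M, (if n3 < j + 1 then 4 * wA c n3 j * K else 0) ≤ 1 := by
    have a1 : ∀ j ∈ range M, (if n3 < j + 1 then 4 * wA c n3 j * K else 0) ≤ 4 * c ^ n3 * K := by
      intro j _
      split_ifs with h
      · rw [wA_big (by omega)]
      · positivity
    refine (Finset.sum_le_sum a1).trans ?_
    rw [Finset.sum_const, Finset.card_range, nsmul_eq_mul]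
    refine le_trans (le_of_eq ?_) h2
    ring
  rw [e0]
  linarith


theorem fn_hyp {M L n3 : ℕ} {m H p R : ℝ} (hm : 1 ≤ m) (hH : 1 ≤ H) (hp : 0 < p) (hp1 : p ≤ 1)
    (hR : 0 ≤ R) (hn3 : 1 ≤ n3) (hn3M : n3 ≤ M)
    (h1 : (1 - p / 16) ^ n3 * (DD H 0 + 1) ≤ 1)
    (h2 : 4 * M * (1 - p / 16) ^ n3 * (5 * p * (DD H 0 + 1)) ≤ 1)
    (h3 : 12 * p * M * (1 - p / 16) ^ n3 ≤ 1)
    (h4 : (1 - p / 16) ^ n3 * (1 + Real.log M) ≤ 1)
    (h5 : 2 * n3 * (5 * p * (DD H 0 + 1) + p / 16 * (DD H 0 + 1)) ≤ m ^ 2 * R / 2)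
    (h6 : 4 * (M : ℝ) ^ 2 * (DD H 0 + 1) / m ^ 2 ≤ 1)
    (h7 : (M : ℝ) ^ 2 * Real.log (1 + M) ≤ m ^ 2)
    (h8 : (n3 : ℝ) + 1 ≤ H ^ (3 / 4 : ℝ))
    (h9 : L * (217 + 8 * Real.log n3) ≤ Real.log H / 2) :
    ∃ α β : ℕ → ℝ, FnHyp M L m (fun k => DD H k) (DD H 0 + 1) R (5 * p * (DD H 0 + 1))
      (1 / 16 * p) (6 * p) α β (fun k => Real.log (1 + k)) (Real.log H / 4) ∧
      α M * (DD H 0 + 1) + β M ≤ 217 + 8 * Real.log n3 := by
  obtain ⟨Pm, hPmdef⟩ : ∃ Pm, Pm = DD H 0 + 1 := ⟨_, rfl⟩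
  rw [← hPmdef] at h1 h2 h5 h6 ⊢
  have hH0 : (0 : ℝ) < H := by linarith
  have hPm : 0 ≤ Pm := by
    have := DD_nonneg hH0.le (le_refl (0 : ℝ))
    linarith
  obtain ⟨K, hKdef⟩ : ∃ K, K = 5 * p * Pm := ⟨_, rfl⟩
  rw [← hKdef] at h2 h5 ⊢
  have hK : 0 ≤ K := by rw [hKdef]; positivity
  obtain ⟨c, hcdef⟩ : ∃ c, c = 1 - p / 16 := ⟨_, rfl⟩
  rw [← hcdef] at h1 h2 h3 h4
  have hc : 0 ≤ c := by rw [hcdef]; linarith
  have hc2 : 1 / 2 ≤ c := by rw [hcdef]; linarith
  have hc1 : c < 1 := by rw [hcdef]; linarith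
  have hcp : 1 - c = p / 16 := by rw [hcdef]; ring
  have hlogH : 0 ≤ Real.log H := Real.log_nonneg hH
  have hn3r : (1 : ℝ) ≤ n3 := by exact_mod_cast hn3
  have hlogn : 0 ≤ Real.log n3 := Real.log_nonneg hn3r
  have hβ := wBe_le (M := M) (n3 := n3) hm hp hPm hK hc hcp hc1 h2 h3 h4 h6
  have htot : wA c n3 M * Pm + wBe p m Pm K c n3 M ≤ 217 + 8 * Real.log n3 := by
    rw [wA_big hn3M]
    linarith
  have hβstep : ∀ k, 1 ≤ k → wBe p m Pm K c n3 k - wBe p m Pm K c n3 (k - 1) =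
      wB p m Pm K c n3 k := by
    intro k hk
    obtain ⟨j, rfl⟩ : ∃ j, k = j + 1 := ⟨k - 1, by omega⟩
    rw [Nat.add_sub_cancel]
    unfold wBe
    rw [Finset.sum_range_succ]
    ring
  have hαn := fun k => wA_nonneg hc n3 k
  have hβmono : Monotone (wBe p m Pm K c n3) := by
    refine monotone_nat_of_le_succ fun k => ?_
    have h := hβstep (k + 1) (by omega)
    rw [Nat.add_sub_cancel] at h
    have h' := wB_nonneg (m := m) hp.le hPm hK hc n3 (k + 1)
    linarith
  refine ⟨wA c n3, wBe p m Pm K c n3, ?_, htot⟩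
  refine ⟨hm, hR, hK, by positivity, hPm, by positivity, ?_, ?_, ?_, hαn, wA_anti hc hc1.le n3,
    hβmono, ?_, ?_, ?_, ?_, ?_, ?_, ?_, ?_⟩
  · unfold wA; simp
  · unfold wBe; simp
  · simp
  · intro a b hab
    simp only
    have : (a : ℝ) ≤ b := by exact_mod_cast hab
    exact Real.log_le_log (by positivity) (by linarith)
  · intro k hk _
    obtain ⟨j, rfl⟩ : ∃ j, k = j + 1 := ⟨k - 1, by omega⟩
    rw [Nat.add_sub_cancel]
    push_cast
    have hj0 : (0 : ℝ) < (j : ℝ) + 1 := by positivity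
    have e1 : Real.log (1 + ((j : ℝ) + 1)) - Real.log (1 + (j : ℝ)) ≤ 1 / ((j : ℝ) + 1) := by
      rw [← Real.log_div (by positivity) (by positivity)]
      refine (Real.log_le_sub_one_of_pos (by positivity)).trans (le_of_eq ?_)
      have : (1 : ℝ) + j ≠ 0 := by positivity
      field_simp
      ring
    calc ((j : ℝ) + 1) * (Real.log (1 + ((j : ℝ) + 1)) - Real.log (1 + (j : ℝ)))
        ≤ ((j : ℝ) + 1) * (1 / ((j : ℝ) + 1)) := mul_le_mul_of_nonneg_left e1 hj0.le
      _ = 1 := by field_simp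
  · intro k hk
    refine le_trans ?_ h7
    have hk' : (k : ℝ) ≤ M := by exact_mod_cast hk
    have e1 : (k : ℝ) ^ 2 ≤ (M : ℝ) ^ 2 := pow_le_pow_left₀ (by positivity) hk' 2
    have e2 : Real.log (1 + (k : ℝ)) ≤ Real.log (1 + (M : ℝ)) :=
      Real.log_le_log (by positivity) (by linarith)
    have e3 : 0 ≤ Real.log (1 + (k : ℝ)) := Real.log_nonneg (by
      have : (0 : ℝ) ≤ k := by positivity
      linarith)
    exact mul_le_mul e1 e2 e3 (by positivity)
  · intro k hk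
    by_cases hkn : k ≤ n3
    · obtain ⟨j, rfl⟩ : ∃ j, k = j + 1 := ⟨k - 1, by omega⟩
      rw [Nat.add_sub_cancel, wA_succ hkn]
      have : wA c n3 j - c * wA c n3 j = (1 - c) * wA c n3 j := by ring
      rw [this, hcp]
      apply le_of_eq
      ring
    · rw [wA_big (by omega : n3 ≤ k - 1), wA_big (by omega : n3 ≤ k), sub_self]
      positivity
  · intro k hk _
    rw [hβstep k hk]
    unfold wB
    have e1 : 0 ≤ (if n3 < k then 4 * wA c n3 (k - 1) * K else 0) := by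
      split_ifs
      · have := hαn (k - 1)
        positivity
      · exact le_rfl
    have e2 : wA c n3 (k - 1) * (6 * p) + 4 * wA c n3 k / k + 2 * k * Pm / m ^ 2 =
        (12 * p * wA c n3 (k - 1) + 8 * wA c n3 k / k + 4 * k * Pm / m ^ 2) / 2 := by ring
    rw [e2]
    linarith
  · intro k hk hkM
    rw [hβstep k hk]
    have hk0 : (1 : ℝ) ≤ k := by exact_mod_cast hk
    have hkk : (0 : ℝ) < k := by linarith
    have hm0 : (0 : ℝ) < m := by linarith
    have f1 := hαn (k - 1)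
    have f2 := hαn k
    have f3 : 0 ≤ 12 * p * wA c n3 (k - 1) := by positivity
    have f4 : 0 ≤ 8 * wA c n3 k / k := by positivity
    by_cases hkn : k ≤ n3
    · have g1 : (k : ℝ) ^ 2 * Pm / m ^ 2 ≤ k * wB p m Pm K c n3 k / 4 := by
        unfold wB
        rw [if_neg (by omega), add_zero]
        have : (k : ℝ) ^ 2 * Pm / m ^ 2 = k * (4 * k * Pm / m ^ 2) / 4 := by ring
        rw [this]
        have : (k : ℝ) * (4 * k * Pm / m ^ 2) ≤
            k * (12 * p * wA c n3 (k - 1) + 8 * wA c n3 k / k + 4 * k * Pm / m ^ 2) :=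
          mul_le_mul_of_nonneg_left (by linarith) hkk.le
        linarith
      have g2 : wA c n3 k = c * wA c n3 (k - 1) := by
        obtain ⟨j, rfl⟩ : ∃ j, k = j + 1 := ⟨k - 1, by omega⟩
        rw [Nat.add_sub_cancel, wA_succ hkn]
      have g3 : wA c n3 (k - 1) ≤ 2 * wA c n3 k := by
        rw [g2]
        have : 1 / 2 * wA c n3 (k - 1) ≤ c * wA c n3 (k - 1) :=
          mul_le_mul_of_nonneg_right hc2 f1
        linarith
      have g4 : wA c n3 (k - 1) - wA c n3 k ≤ 2 * (p / 16) * wA c n3 k := by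
        have : wA c n3 (k - 1) - wA c n3 k = (1 - c) * wA c n3 (k - 1) := by rw [g2]; ring
        rw [this, hcp]
        have : p / 16 * wA c n3 (k - 1) ≤ p / 16 * (2 * wA c n3 k) :=
          mul_le_mul_of_nonneg_left g3 (by positivity)
        linarith
      have g5 : wA c n3 (k - 1) * K + (wA c n3 (k - 1) - wA c n3 k) * Pm ≤
          wA c n3 k * (2 * (K + p / 16 * Pm)) := by
        have t1 : wA c n3 (k - 1) * K ≤ 2 * wA c n3 k * K := mul_le_mul_of_nonneg_right g3 hK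
        have t2 : (wA c n3 (k - 1) - wA c n3 k) * Pm ≤ 2 * (p / 16) * wA c n3 k * Pm :=
          mul_le_mul_of_nonneg_right g4 hPm
        linarith
      have g6 : (k : ℝ) * (wA c n3 (k - 1) * K + (wA c n3 (k - 1) - wA c n3 k) * Pm) ≤
          m ^ 2 * wA c n3 k * R / 2 := by
        have hkn' : (k : ℝ) ≤ n3 := by exact_mod_cast hkn
        have t0 : 0 ≤ wA c n3 k * (2 * (K + p / 16 * Pm)) := by positivity
        calc (k : ℝ) * (wA c n3 (k - 1) * K + (wA c n3 (k - 1) - wA c n3 k) * Pm)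
            ≤ k * (wA c n3 k * (2 * (K + p / 16 * Pm))) := mul_le_mul_of_nonneg_left g5 hkk.le
          _ ≤ n3 * (wA c n3 k * (2 * (K + p / 16 * Pm))) := mul_le_mul_of_nonneg_right hkn' t0
          _ = wA c n3 k * (2 * n3 * (K + p / 16 * Pm)) := by ring
          _ ≤ wA c n3 k * (m ^ 2 * R / 2) := mul_le_mul_of_nonneg_left h5 f2
          _ = _ := by ring
      linarith
    · have g1 : wA c n3 (k - 1) = c ^ n3 := wA_big (by omega)
      have g2 : wA c n3 k = c ^ n3 := wA_big (by omega)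
      have g3 : (k : ℝ) ^ 2 * Pm / m ^ 2 + k * (wA c n3 (k - 1) * K) ≤
          k * wB p m Pm K c n3 k / 4 := by
        unfold wB
        rw [if_pos (by omega)]
        have : (k : ℝ) ^ 2 * Pm / m ^ 2 + k * (wA c n3 (k - 1) * K) =
            k * (4 * k * Pm / m ^ 2 + 4 * wA c n3 (k - 1) * K) / 4 := by ring
        rw [this]
        have : (k : ℝ) * (4 * k * Pm / m ^ 2 + 4 * wA c n3 (k - 1) * K) ≤
            k * (12 * p * wA c n3 (k - 1) + 8 * wA c n3 k / k + 4 * k * Pm / m ^ 2 +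
              4 * wA c n3 (k - 1) * K) :=
          mul_le_mul_of_nonneg_left (by linarith) hkk.le
        linarith
      have g4 : 0 ≤ m ^ 2 * wA c n3 k * R / 2 := by positivity
      have g5 : wA c n3 (k - 1) - wA c n3 k = 0 := by rw [g1, g2, sub_self]
      rw [g5, zero_mul, add_zero]
      linarith
  · intro k hk hkM x hx hxP rem hrem
    have hDk : 0 ≤ DD H k := DD_nonneg hH0.le (by positivity)
    have hgk : 0 ≤ Real.log (1 + (k : ℝ)) := Real.log_nonneg (by
      have : (0 : ℝ) ≤ k := by positivity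
      linarith)
    have hk0 : (0 : ℝ) < 1 + k := by positivity
    by_cases hkH : (k : ℝ) + 1 ≤ H ^ (3 / 4 : ℝ)
    · have e1 : Real.log H / 4 ≤ DD H k := by
        unfold DD
        have e2 : H ^ (1 / 4 : ℝ) ≤ 1 + H / (1 + k) := by
          have e3 : H ^ (1 / 4 : ℝ) ≤ H / (1 + k) := by
            rw [le_div_iff₀ hk0]
            have e4 : H ^ (1 / 4 : ℝ) * H ^ (3 / 4 : ℝ) = H := by
              rw [← Real.rpow_add hH0]
              norm_num
            calc H ^ (1 / 4 : ℝ) * (1 + k) ≤ H ^ (1 / 4 : ℝ) * H ^ (3 / 4 : ℝ) :=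
                  mul_le_mul_of_nonneg_left (by linarith) (by positivity)
              _ = H := e4
          linarith
        have e5 : Real.log (H ^ (1 / 4 : ℝ)) = Real.log H / 4 := by
          rw [Real.log_rpow hH0]; ring
        rw [← e5]
        exact Real.log_le_log (by positivity) e2
      rw [max_eq_left (by linarith : Real.log H / 4 - DD H k ≤ 0), mul_zero]
      have e6 : 0 ≤ (rem : ℝ) * max 0 (Real.log H / 4 -
          (wA c n3 k * x + wBe p m Pm K c n3 k)) :=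
        mul_nonneg (by positivity) (le_max_left _ _)
      linarith
    · have hkn : n3 ≤ k := by
        have e1 : (n3 : ℝ) + 1 < (k : ℝ) + 1 := by linarith
        have e2 : (n3 : ℝ) < k := by linarith
        exact (by exact_mod_cast e2 : n3 < k).le
      have e1 : wA c n3 k * x + wBe p m Pm K c n3 k ≤ 217 + 8 * Real.log n3 := by
        have t1 : wA c n3 k = wA c n3 M := by rw [wA_big hkn, wA_big hn3M]
        have t2 : wA c n3 k * x ≤ wA c n3 M * Pm := by
          rw [t1]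
          exact mul_le_mul_of_nonneg_left hxP (hαn M)
        have t3 := hβmono hkM
        linarith
      have e2 : max 0 (Real.log H / 4 - DD H k) ≤ Real.log H / 4 :=
        max_le (by positivity) (by linarith)
      have e3 : ((rem : ℝ) + 1) * max 0 (Real.log H / 4 - DD H k) ≤
          ((rem : ℝ) + 1) * (Real.log H / 4) := mul_le_mul_of_nonneg_left e2 (by positivity)
      have e4 : Real.log H / 4 - (217 + 8 * Real.log n3) ≤
          max 0 (Real.log H / 4 - (wA c n3 k * x + wBe p m Pm K c n3 k)) :=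
        le_trans (by linarith) (le_max_right _ _)
      have e5 : (rem : ℝ) * (Real.log H / 4 - (217 + 8 * Real.log n3)) ≤ (rem : ℝ) *
          max 0 (Real.log H / 4 - (wA c n3 k * x + wBe p m Pm K c n3 k)) :=
        mul_le_mul_of_nonneg_left e4 (by positivity)
      have e6 : (rem : ℝ) * (217 + 8 * Real.log n3) ≤ L * (217 + 8 * Real.log n3) := by
        have : (rem : ℝ) ≤ L := by exact_mod_cast hrem
        exact mul_le_mul_of_nonneg_right this (by positivity)
      have e7 : 3 / 4 * Real.log H ≤ Real.log (1 + k) := by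
        rw [← Real.log_rpow hH0]
        exact Real.log_le_log (by positivity) (by linarith)
      have e8 : (rem : ℝ) * (Real.log H / 4 - (217 + 8 * Real.log n3)) =
          rem * (Real.log H / 4) - rem * (217 + 8 * Real.log n3) := by ring
      have e9 : ((rem : ℝ) + 1) * (Real.log H / 4) = rem * (Real.log H / 4) + Real.log H / 4 := by
        ring
      linarith
  · have e1 : Real.log H ≤ DD H 0 := by
      unfold DD
      apply Real.log_le_log hH0
      simp
    have e2 : Real.log H / 4 ≤ DD H 0 := by linarith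
    simpa using e2

end Pool.Agent.Helper120.Ea
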