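import Pool.Agent.Helper120.Ea.ParA

open Finset

namespace Pool.Agent.Helper120.Ea


/-- number of levels with decreasing influence -/
noncomputable def n3 (u k0 : ℕ) : ℕ := ⌈48 * (u : ℝ) ^ 28 * Real.log ((u ^ (10 * k0 + 5) : ℕ) : ℝ)⌉₊

theorem big_basic {u k0 L : ℕ} (h : Big u k0 L) :
    (100 : ℝ) ≤ u ∧ 1 ≤ Real.log u ∧ (5003 : ℝ) ≤ k0 ∧
      10 ^ 8 * ((k0 : ℝ) * Real.log u) ≤ u ∧ 10 ^ 8 * ((k0 : ℝ) * Real.log u) ^ 3 ≤ u := by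
  have hU : (100 : ℝ) ≤ u := by exact_mod_cast h.hu
  have hl : 1 ≤ Real.log u := by
    rw [Real.le_log_iff_exp_le (by linarith)]
    have := Real.exp_one_lt_d9
    linarith
  have hK : (5003 : ℝ) ≤ k0 := by
    have h1 : 5003 ≤ k0 := by rw [h.hk]; have := h.hL; omega
    exact_mod_cast h1
  have hA := h.hA
  have h1 : 10 ^ 8 * ((k0 : ℝ) * Real.log u) ^ 3 ≤ u := by
    refine le_trans ?_ hA
    rw [mul_pow, mul_assoc]
    have : Real.log u ^ 3 ≤ (1 + Real.log u) ^ 3 :=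
      pow_le_pow_left₀ (by linarith) (by linarith) 3
    gcongr
  refine ⟨hU, hl, hK, ?_, h1⟩
  refine le_trans ?_ h1
  have h2 : (1 : ℝ) ≤ (k0 : ℝ) * Real.log u := by nlinarith
  have h3 : (k0 : ℝ) * Real.log u ≤ ((k0 : ℝ) * Real.log u) ^ 3 :=
    le_self_pow₀ h2 (by norm_num)
  linarith

theorem logM_eq (u k0 : ℕ) : Real.log ((u ^ (10 * k0 + 5) : ℕ) : ℝ) =
    (10 * k0 + 5) * Real.log u := by
  push_cast
  rw [Real.log_pow]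
  push_cast
  ring

theorem logM_bd {u k0 L : ℕ} (h : Big u k0 L) :
    1 ≤ Real.log ((u ^ (10 * k0 + 5) : ℕ) : ℝ) ∧
      Real.log ((u ^ (10 * k0 + 5) : ℕ) : ℝ) ≤ 11 * ((k0 : ℝ) * Real.log u) := by
  obtain ⟨hU, hl, hK, h1, h2⟩ := big_basic h
  rw [logM_eq]
  constructor
  · nlinarith
  · nlinarith

theorem M_ge {u k0 L : ℕ} (h : Big u k0 L) : (u : ℝ) ≤ ((u ^ (10 * k0 + 5) : ℕ) : ℝ) := by
  obtain ⟨hU, hl, hK, h1, h2⟩ := big_basic h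
  push_cast
  exact le_self_pow₀ (by linarith) (by omega)

theorem p_bd {u k0 L : ℕ} (h : Big u k0 L) : 0 < 1 / (u : ℝ) ^ 28 ∧ 1 / (u : ℝ) ^ 28 ≤ 1 := by
  obtain ⟨hU, hl, hK, h1, h2⟩ := big_basic h
  have h3 : 1 ≤ (u : ℝ) ^ 28 := one_le_pow₀ (by linarith)
  constructor
  · positivity
  · rw [div_le_one (by linarith)]; exact h3

theorem n3_le {u k0 L : ℕ} (h : Big u k0 L) :
    1 ≤ n3 u k0 ∧ n3 u k0 ≤ u ^ 29 ∧ n3 u k0 ≤ u ^ (10 * k0 + 5) ∧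
      Real.log (n3 u k0) ≤ 29 * Real.log u ∧
      (n3 u k0 : ℝ) * (1 / (u : ℝ) ^ 28) ≤ 49 * (11 * k0 * Real.log u) := by
  obtain ⟨hU, hl, hK, h1, h2⟩ := big_basic h
  obtain ⟨hm1, hm2⟩ := logM_bd h
  have hU28 : 1 ≤ (u : ℝ) ^ 28 := one_le_pow₀ (by linarith)
  have hkl : (1 : ℝ) ≤ (k0 : ℝ) * Real.log u := by nlinarith
  have a1 : 1 ≤ n3 u k0 := by
    unfold n3
    rw [Nat.one_le_ceil_iff]
    positivity
  have a2 : n3 u k0 ≤ u ^ 29 := by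
    unfold n3
    rw [Nat.ceil_le]
    push_cast
    calc 48 * (u : ℝ) ^ 28 * Real.log ((u : ℝ) ^ (10 * k0 + 5))
        = (u : ℝ) ^ 28 * (48 * Real.log ((u ^ (10 * k0 + 5) : ℕ) : ℝ)) := by push_cast; ring
      _ ≤ (u : ℝ) ^ 28 * u := by
          refine mul_le_mul_of_nonneg_left ?_ (by positivity)
          linarith
      _ = (u : ℝ) ^ 29 := by ring
  have a3 : n3 u k0 ≤ u ^ (10 * k0 + 5) :=
    a2.trans (Nat.pow_le_pow_right (by have := h.hu; omega) (by have := h.hk; have := h.hL; omega))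
  have a2' : (n3 u k0 : ℝ) ≤ (u : ℝ) ^ 29 := by exact_mod_cast a2
  have a1' : (1 : ℝ) ≤ (n3 u k0 : ℝ) := by exact_mod_cast a1
  refine ⟨a1, a2, a3, ?_, ?_⟩
  · have := Real.log_le_log (by linarith) a2'
    rw [Real.log_pow] at this
    exact_mod_cast this
  · have h3 : (n3 u k0 : ℝ) < 48 * (u : ℝ) ^ 28 * Real.log ((u ^ (10 * k0 + 5) : ℕ) : ℝ) + 1 := by
      unfold n3
      apply Nat.ceil_lt_add_one
      positivity
    rw [mul_one_div, div_le_iff₀ (by positivity)]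
    have h4 : Real.log ((u ^ (10 * k0 + 5) : ℕ) : ℝ) * (u : ℝ) ^ 28 ≤
        11 * ((k0 : ℝ) * Real.log u) * (u : ℝ) ^ 28 :=
      mul_le_mul_of_nonneg_right hm2 (by positivity)
    have h5 : 1 ≤ ((k0 : ℝ) * Real.log u) * (u : ℝ) ^ 28 := one_le_mul_of_one_le_of_one_le hkl hU28
    nlinarith

theorem pow_n3_le {u k0 L : ℕ} (h : Big u k0 L) :
    (1 - (1 / (u : ℝ) ^ 28) / 16) ^ (n3 u k0) ≤ 1 / ((u ^ (10 * k0 + 5) : ℕ) : ℝ) ^ 3 := by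
  obtain ⟨hU, hl, hK, h1, h2⟩ := big_basic h
  obtain ⟨hp0, hp1⟩ := p_bd h
  have hM := M_ge h
  set M : ℝ := ((u ^ (10 * k0 + 5) : ℕ) : ℝ) with hMdef
  have hM0 : 0 < M := by linarith
  set p : ℝ := 1 / (u : ℝ) ^ 28 with hp
  have h3 : 1 - p / 16 ≤ Real.exp (-(p / 16)) := Real.one_sub_le_exp_neg _
  have h4 : (1 - p / 16) ^ (n3 u k0) ≤ Real.exp (-(p / 16)) ^ (n3 u k0) :=
    pow_le_pow_left₀ (by linarith) h3 _
  refine h4.trans ?_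
  rw [← Real.exp_nat_mul]
  have h5 : 1 / M ^ 3 = Real.exp (-(3 * Real.log M)) := by
    rw [Real.exp_neg, one_div]
    congr 1
    rw [show (3 : ℝ) * Real.log M = ((3 : ℕ) : ℝ) * Real.log M by norm_num, Real.exp_nat_mul,
      Real.exp_log hM0]
  rw [h5]
  apply Real.exp_le_exp.2
  have h6 : 48 * (u : ℝ) ^ 28 * Real.log M ≤ (n3 u k0 : ℝ) := by
    rw [hMdef]; unfold n3; exact Nat.le_ceil _
  have h7 : 48 * Real.log M ≤ (n3 u k0 : ℝ) * p := by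
    rw [hp, mul_one_div, le_div_iff₀ (by positivity)]
    linarith
  nlinarith

theorem q_nonneg {u k0 L : ℕ} (h : Big u k0 L) :
    0 ≤ (1 - (1 / (u : ℝ) ^ 28) / 16) ^ (n3 u k0) := by
  obtain ⟨hp0, hp1⟩ := p_bd h
  apply pow_nonneg
  linarith

theorem DDp1 {u k0 L : ℕ} (h : Big u k0 L) :
    1 ≤ DD ((u : ℝ) ^ (k0 - 2) / 2) 0 + 1 ∧
      DD ((u : ℝ) ^ (k0 - 2) / 2) 0 + 1 ≤ 2 * ((k0 : ℝ) * Real.log u) := by
  obtain ⟨hU, hl, hK, h1, h2⟩ := big_basic h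
  obtain ⟨h3, h4⟩ := DD_le h
  have hkl : (1 : ℝ) ≤ (k0 : ℝ) * Real.log u := by nlinarith
  exact ⟨by linarith, by linarith⟩

theorem par_h1 {u k0 L : ℕ} (h : Big u k0 L) :
    (1 - (1 / (u : ℝ) ^ 28) / 16) ^ (n3 u k0) * (DD ((u : ℝ) ^ (k0 - 2) / 2) 0 + 1) ≤ 1 := by
  obtain ⟨hU, hl, hK, h1, h2⟩ := big_basic h
  have hq := pow_n3_le h
  have hq0 := q_nonneg h
  obtain ⟨hD1, hD2⟩ := DDp1 h
  have hM := M_ge h
  set M : ℝ := ((u ^ (10 * k0 + 5) : ℕ) : ℝ) with hMdef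
  have hM1 : 1 ≤ M := by linarith
  have hM3 : M ≤ M ^ 3 := le_self_pow₀ hM1 (by norm_num)
  calc _ ≤ 1 / M ^ 3 * (DD ((u : ℝ) ^ (k0 - 2) / 2) 0 + 1) :=
        mul_le_mul_of_nonneg_right hq (by linarith)
    _ ≤ 1 := by
        rw [one_div, inv_mul_le_iff₀ (by positivity)]
        linarith

theorem par_h2 {u k0 L : ℕ} (h : Big u k0 L) :
    4 * ((u ^ (10 * k0 + 5) : ℕ) : ℝ) * (1 - (1 / (u : ℝ) ^ 28) / 16) ^ (n3 u k0) *
      (5 * (1 / (u : ℝ) ^ 28) * (DD ((u : ℝ) ^ (k0 - 2) / 2) 0 + 1)) ≤ 1 := by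
  obtain ⟨hU, hl, hK, h1, h2⟩ := big_basic h
  have hq := pow_n3_le h
  have hq0 := q_nonneg h
  obtain ⟨hD1, hD2⟩ := DDp1 h
  obtain ⟨hp0, hp1⟩ := p_bd h
  have hM := M_ge h
  set M : ℝ := ((u ^ (10 * k0 + 5) : ℕ) : ℝ) with hMdef
  set D : ℝ := DD ((u : ℝ) ^ (k0 - 2) / 2) 0 + 1
  set p : ℝ := 1 / (u : ℝ) ^ 28
  have hM1 : 1 ≤ M := by linarith
  have hM2 : M ≤ M ^ 2 := le_self_pow₀ hM1 (by norm_num)
  have hpD : 5 * p * D ≤ 5 * D := by nlinarith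
  calc 4 * M * (1 - p / 16) ^ (n3 u k0) * (5 * p * D)
      ≤ 4 * M * (1 / M ^ 3) * (5 * D) := by gcongr
    _ = (20 * D) / M ^ 2 := by field_simp; ring
    _ ≤ 1 := by
        rw [div_le_one (by positivity)]
        linarith

theorem par_h3 {u k0 L : ℕ} (h : Big u k0 L) :
    12 * (1 / (u : ℝ) ^ 28) * ((u ^ (10 * k0 + 5) : ℕ) : ℝ) *
      (1 - (1 / (u : ℝ) ^ 28) / 16) ^ (n3 u k0) ≤ 1 := by
  obtain ⟨hU, hl, hK, h1, h2⟩ := big_basic h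
  have hq := pow_n3_le h
  have hq0 := q_nonneg h
  obtain ⟨hp0, hp1⟩ := p_bd h
  have hM := M_ge h
  set M : ℝ := ((u ^ (10 * k0 + 5) : ℕ) : ℝ) with hMdef
  set p : ℝ := 1 / (u : ℝ) ^ 28
  have hM1 : 1 ≤ M := by linarith
  have hM2 : M ≤ M ^ 2 := le_self_pow₀ hM1 (by norm_num)
  calc 12 * p * M * (1 - p / 16) ^ (n3 u k0)
      ≤ 12 * 1 * M * (1 / M ^ 3) := by gcongr
    _ = 12 / M ^ 2 := by field_simp
    _ ≤ 1 := by
        rw [div_le_one (by positivity)]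
        linarith

theorem par_h4 {u k0 L : ℕ} (h : Big u k0 L) :
    (1 - (1 / (u : ℝ) ^ 28) / 16) ^ (n3 u k0) *
      (1 + Real.log ((u ^ (10 * k0 + 5) : ℕ) : ℝ)) ≤ 1 := by
  obtain ⟨hU, hl, hK, h1, h2⟩ := big_basic h
  have hq := pow_n3_le h
  have hq0 := q_nonneg h
  obtain ⟨hm1, hm2⟩ := logM_bd h
  have hM := M_ge h
  set M : ℝ := ((u ^ (10 * k0 + 5) : ℕ) : ℝ) with hMdef
  have hM1 : 1 ≤ M := by linarith
  have hM3 : M ≤ M ^ 3 := le_self_pow₀ hM1 (by norm_num)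
  have hlog : Real.log M ≤ M - 1 := Real.log_le_sub_one_of_pos (by linarith)
  calc _ ≤ 1 / M ^ 3 * (1 + Real.log M) :=
        mul_le_mul_of_nonneg_right hq (by linarith)
    _ ≤ 1 := by
        rw [one_div, inv_mul_le_iff₀ (by positivity)]
        linarith

theorem par_h5 {u k0 L : ℕ} (h : Big u k0 L) :
    2 * (n3 u k0 : ℝ) * (5 * (1 / (u : ℝ) ^ 28) * (DD ((u : ℝ) ^ (k0 - 2) / 2) 0 + 1) +
      (1 / (u : ℝ) ^ 28) / 16 * (DD ((u : ℝ) ^ (k0 - 2) / 2) 0 + 1)) ≤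
    ((u : ℝ) ^ (10 * k0 + 19)) ^ 2 * (((((u ^ 4 : ℕ) : ℝ) + 1) /
      (24 * Real.log (2 * ((u ^ (10 * k0 + 5) : ℕ) : ℝ)))) / ((u : ℝ) ^ (10 * k0 + 19)) ^ 2) / 2 := by
  obtain ⟨hU, hl, hK, h1, h2⟩ := big_basic h
  obtain ⟨hD1, hD2⟩ := DDp1 h
  obtain ⟨hp0, hp1⟩ := p_bd h
  obtain ⟨-, -, -, -, hn⟩ := n3_le h
  obtain ⟨hL0, hL1⟩ := logM_le h
  set Lg : ℝ := Real.log (2 * ((u ^ (10 * k0 + 5) : ℕ) : ℝ)) with hLg
  set D : ℝ := DD ((u : ℝ) ^ (k0 - 2) / 2) 0 + 1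
  set p : ℝ := 1 / (u : ℝ) ^ 28
  set x : ℝ := (k0 : ℝ) * Real.log u with hx
  have hx1 : 1 ≤ x := by nlinarith
  have hm0 : ((u : ℝ) ^ (10 * k0 + 19)) ^ 2 ≠ 0 := by positivity
  rw [mul_div_cancel₀ _ hm0]
  have hU4 : (u : ℝ) ≤ (u : ℝ) ^ 4 := le_self_pow₀ (by linarith) (by norm_num)
  have e1 : 2 * (n3 u k0 : ℝ) * (5 * p * D + p / 16 * D) = 81 / 8 * ((n3 u k0 : ℝ) * p) * D := by
    ring
  rw [e1]
  have h3 : (n3 u k0 : ℝ) * p ≤ 539 * x := by rw [hx]; linarith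
  have h4 : 81 / 8 * ((n3 u k0 : ℝ) * p) * D ≤ 81 / 8 * (539 * x) * (2 * x) := by
    have : 0 ≤ (n3 u k0 : ℝ) * p := by positivity
    gcongr
  refine h4.trans ?_
  rw [div_div, le_div_iff₀ (by positivity)]
  have h5 : Lg ≤ 11 * x := by rw [hx]; linarith
  push_cast
  calc 81 / 8 * (539 * x) * (2 * x) * (24 * Lg * 2)
      ≤ 81 / 8 * (539 * x) * (2 * x) * (24 * (11 * x) * 2) := by gcongr
    _ = 5762988 * x ^ 3 := by ring
    _ ≤ (u : ℝ) ^ 4 + 1 := by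
        have : 0 ≤ x ^ 3 := by positivity
        nlinarith

theorem m_sq (u k0 : ℕ) : ((u : ℝ) ^ (10 * k0 + 19)) ^ 2 =
    ((u ^ (10 * k0 + 5) : ℕ) : ℝ) ^ 2 * (u : ℝ) ^ 28 := by
  push_cast
  rw [← pow_mul, ← pow_mul, ← pow_add]
  congr 1
  ring

theorem par_h6 {u k0 L : ℕ} (h : Big u k0 L) :
    4 * ((u ^ (10 * k0 + 5) : ℕ) : ℝ) ^ 2 * (DD ((u : ℝ) ^ (k0 - 2) / 2) 0 + 1) /
      ((u : ℝ) ^ (10 * k0 + 19)) ^ 2 ≤ 1 := by
  obtain ⟨hU, hl, hK, h1, h2⟩ := big_basic h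
  obtain ⟨hD1, hD2⟩ := DDp1 h
  have hM := M_ge h
  have hm := m_sq u k0
  have hm0 : 0 < ((u : ℝ) ^ (10 * k0 + 19)) ^ 2 := by positivity
  rw [div_le_one hm0, hm]
  set M : ℝ := ((u ^ (10 * k0 + 5) : ℕ) : ℝ) with hMdef
  have hU28 : (u : ℝ) ≤ (u : ℝ) ^ 28 := le_self_pow₀ (by linarith) (by norm_num)
  have hM2 : 0 ≤ M ^ 2 := by positivity
  nlinarith

theorem par_h7 {u k0 L : ℕ} (h : Big u k0 L) :
    ((u ^ (10 * k0 + 5) : ℕ) : ℝ) ^ 2 * Real.log (1 + ((u ^ (10 * k0 + 5) : ℕ) : ℝ)) ≤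
      ((u : ℝ) ^ (10 * k0 + 19)) ^ 2 := by
  obtain ⟨hU, hl, hK, h1, h2⟩ := big_basic h
  obtain ⟨hL0, hL1⟩ := logM_le h
  have hM := M_ge h
  have hm := m_sq u k0
  rw [hm]
  set M : ℝ := ((u ^ (10 * k0 + 5) : ℕ) : ℝ) with hMdef
  have hU28 : (u : ℝ) ≤ (u : ℝ) ^ 28 := le_self_pow₀ (by linarith) (by norm_num)
  have h3 : Real.log (1 + M) ≤ Real.log (2 * M) := Real.log_le_log (by linarith) (by linarith)
  refine mul_le_mul_of_nonneg_left ?_ (by positivity)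
  linarith

theorem H_ge {u k0 L : ℕ} (h : Big u k0 L) :
    (u : ℝ) ^ (k0 - 3) ≤ (u : ℝ) ^ (k0 - 2) / 2 := by
  obtain ⟨hU, hl, hK, h1, h2⟩ := big_basic h
  have h3 : k0 - 2 = (k0 - 3) + 1 := by have := h.hk; omega
  rw [h3, pow_succ]
  have h4 : 0 < (u : ℝ) ^ (k0 - 3) := by positivity
  nlinarith

theorem par_h8 {u k0 L : ℕ} (h : Big u k0 L) :
    (n3 u k0 : ℝ) + 1 ≤ ((u : ℝ) ^ (k0 - 2) / 2) ^ (3 / 4 : ℝ) := by
  obtain ⟨hU, hl, hK, h1, h2⟩ := big_basic h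
  obtain ⟨-, hn, -, -, -⟩ := n3_le h
  have hn' : (n3 u k0 : ℝ) ≤ (u : ℝ) ^ 29 := by exact_mod_cast hn
  have h3 : (u : ℝ) ^ 40 ≤ (u : ℝ) ^ (k0 - 2) / 2 := by
    refine le_trans ?_ (H_ge h)
    apply pow_le_pow_right₀ (by linarith)
    have := h.hk; have := h.hL; omega
  have h4 : ((u : ℝ) ^ 40) ^ (3 / 4 : ℝ) ≤ ((u : ℝ) ^ (k0 - 2) / 2) ^ (3 / 4 : ℝ) :=
    Real.rpow_le_rpow (by positivity) h3 (by norm_num)
  refine le_trans ?_ h4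
  have h5 : ((u : ℝ) ^ 40) ^ (3 / 4 : ℝ) = (u : ℝ) ^ 30 := by
    rw [← Real.rpow_natCast, ← Real.rpow_mul (by linarith), ← Real.rpow_natCast]
    norm_num
  rw [h5]
  have h6 : 1 ≤ (u : ℝ) ^ 29 := one_le_pow₀ (by linarith)
  calc (n3 u k0 : ℝ) + 1 ≤ (u : ℝ) ^ 29 * 2 := by linarith
    _ ≤ (u : ℝ) ^ 29 * u := by
        refine mul_le_mul_of_nonneg_left (by linarith) (by positivity)
    _ = (u : ℝ) ^ 30 := by ring

theorem logH_ge {u k0 L : ℕ} (h : Big u k0 L) :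
    1000 * L * Real.log u ≤ Real.log ((u : ℝ) ^ (k0 - 2) / 2) := by
  obtain ⟨hU, hl, hK, h1, h2⟩ := big_basic h
  have h3 := Real.log_le_log (by positivity) (H_ge h)
  rw [Real.log_pow] at h3
  refine le_trans (le_of_eq ?_) h3
  have h4 : k0 - 3 = 1000 * L := by have := h.hk; omega
  rw [h4]; push_cast; ring

theorem par_h9 {u k0 L : ℕ} (h : Big u k0 L) :
    L * (217 + 8 * Real.log (n3 u k0)) ≤ Real.log ((u : ℝ) ^ (k0 - 2) / 2) / 2 := by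
  obtain ⟨hU, hl, hK, h1, h2⟩ := big_basic h
  obtain ⟨-, -, -, hn, -⟩ := n3_le h
  have hH := logH_ge h
  have hL : (5 : ℝ) ≤ L := by exact_mod_cast h.hL
  have h3 : 217 + 8 * Real.log (n3 u k0) ≤ 449 * Real.log u := by linarith
  have h4 : (L : ℝ) * (217 + 8 * Real.log (n3 u k0)) ≤ L * (449 * Real.log u) :=
    mul_le_mul_of_nonneg_left h3 (by linarith)
  have h5 : 0 ≤ (L : ℝ) * Real.log u := by positivity
  nlinarith

theorem par_final {u k0 L : ℕ} (h : Big u k0 L) {C : ℝ} (hC : 126 * C + 1 < L) :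
    C * ((u : ℝ) ^ (10 * k0 + 19)) ^ 2 * Real.log ((u : ℝ) ^ (10 * k0 + 19)) <
      ((u : ℝ) ^ (10 * k0 + 19)) ^ 2 / 2 * (((L : ℝ) - 1) *
        (Real.log ((u : ℝ) ^ (k0 - 2) / 2) / 4 - (217 + 8 * Real.log (n3 u k0)))) := by
  obtain ⟨hU, hl, hK, h1, h2⟩ := big_basic h
  obtain ⟨-, -, -, hn, -⟩ := n3_le h
  have hH := logH_ge h
  have hL : (5 : ℝ) ≤ L := by exact_mod_cast h.hL
  have hk : (k0 : ℝ) = 1000 * L + 3 := by
    have := h.hk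
    exact_mod_cast this
  have hm0 : 0 < ((u : ℝ) ^ (10 * k0 + 19)) ^ 2 := by positivity
  set G : ℝ := Real.log ((u : ℝ) ^ (k0 - 2) / 2) / 4 - (217 + 8 * Real.log (n3 u k0)) with hG
  have hlogm : Real.log ((u : ℝ) ^ (10 * k0 + 19)) = (10000 * L + 49) * Real.log u := by
    rw [Real.log_pow]
    push_cast
    rw [hk]
    ring
  rw [hlogm]
  set l : ℝ := Real.log u with hldef
  have hG1 : 160 * L * l ≤ G := by
    have e1 : 217 + 8 * Real.log (n3 u k0) ≤ 449 * l := by linarith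
    have e2 : 449 * l ≤ 90 * L * l := by nlinarith
    rw [hG]
    linarith
  have key : C * ((10000 * L + 49) * l) < 1 / 2 * (((L : ℝ) - 1) * G) := by
    have r1 : 80 * L * ((L : ℝ) - 1) * l ≤ 1 / 2 * (((L : ℝ) - 1) * G) := by
      have : ((L : ℝ) - 1) * (160 * L * l) ≤ ((L : ℝ) - 1) * G :=
        mul_le_mul_of_nonneg_left hG1 (by linarith)
      linarith
    refine lt_of_lt_of_le ?_ r1
    have hpos : 0 < L * ((L : ℝ) - 1) * l := by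
      have : (0:ℝ) < L - 1 := by linarith
      positivity
    rcases le_or_gt C 0 with hC0 | hC0
    · have : C * ((10000 * L + 49) * l) ≤ 0 :=
        mul_nonpos_of_nonpos_of_nonneg hC0 (by positivity)
      linarith
    · have s1 : C * ((10000 * L + 49) * l) ≤ C * (10010 * L * l) := by
        refine mul_le_mul_of_nonneg_left ?_ hC0.le
        have : (49:ℝ) * l ≤ 10 * L * l := by nlinarith
        linarith
      have s2 : 126 * (C * (10010 * L * l)) < (L - 1) * (10010 * L * l) := by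
        have : 0 < 10010 * L * l := by positivity
        nlinarith
      nlinarith
  calc C * ((u : ℝ) ^ (10 * k0 + 19)) ^ 2 * ((10000 * L + 49) * l)
      = ((u : ℝ) ^ (10 * k0 + 19)) ^ 2 * (C * ((10000 * L + 49) * l)) := by ring
    _ < ((u : ℝ) ^ (10 * k0 + 19)) ^ 2 * (1 / 2 * (((L : ℝ) - 1) * G)) :=
        mul_lt_mul_of_pos_left key hm0
    _ = _ := by ring

end Pool.Agent.Helper120.Ea
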