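import Mathlib

open Finset

namespace Pool.Agent.Helper120.Ea

/-- the potential of a block with weight `X` of defects -/
noncomputable def DD (H X : ℝ) : ℝ := Real.log (1 + H / (1 + X))

theorem DD_nonneg {H X : ℝ} (hH : 0 ≤ H) (hX : 0 ≤ X) : 0 ≤ DD H X := by
  apply Real.log_nonneg
  have : 0 ≤ H / (1 + X) := by positivity
  linarith

theorem DD_anti {H X Y : ℝ} (hH : 0 ≤ H) (hX : 0 ≤ X) (hXY : X ≤ Y) : DD H Y ≤ DD H X := by
  have hY : 0 ≤ Y := hX.trans hXY
  apply Real.log_le_log (by positivity)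
  gcongr

theorem DD_tangent {H X Y : ℝ} (hH : 0 ≤ H) (hX : 0 ≤ X) (hY : 0 ≤ Y) :
    DD H X + H / ((1 + X) * (1 + X + H)) * (X - Y) ≤ DD H Y := by
  have hx : 0 < 1 + X := by linarith
  have hy : 0 < 1 + Y := by linarith
  have hxh : 0 < 1 + X + H := by linarith
  have hyh : 0 < 1 + Y + H := by linarith
  have e1 : 1 + H / (1 + X) = (1 + X + H) / (1 + X) := by field_simp
  have e2 : 1 + H / (1 + Y) = (1 + Y + H) / (1 + Y) := by field_simp
  have h1 := Real.log_le_sub_one_of_pos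
    (show 0 < ((1 + X + H) / (1 + X)) / ((1 + Y + H) / (1 + Y)) by positivity)
  rw [Real.log_div (by positivity) (by positivity)] at h1
  have h2 : ((1 + X + H) / (1 + X)) / ((1 + Y + H) / (1 + Y)) - 1
      = H * (Y - X) / ((1 + X) * (1 + Y + H)) := by
    field_simp
    ring
  have h3 : H * (Y - X) / ((1 + X) * (1 + Y + H)) ≤ H * (Y - X) / ((1 + X) * (1 + X + H)) := by
    rw [div_le_div_iff₀ (by positivity) (by positivity)]
    nlinarith [mul_nonneg (mul_nonneg hH hx.le) (sq_nonneg (Y - X))]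
  have h4 : H / ((1 + X) * (1 + X + H)) * (X - Y) = -(H * (Y - X) / ((1 + X) * (1 + X + H))) := by
    ring
  unfold DD
  rw [e1, e2, h4]
  linarith

theorem DD_conv {H X Y a b : ℝ} (hH : 0 ≤ H) (hX : 0 ≤ X) (hY : 0 ≤ Y) (ha : 0 ≤ a) (hb : 0 ≤ b)
    (hab : a + b = 1) : DD H (a * X + b * Y) ≤ a * DD H X + b * DD H Y := by
  have hZ : 0 ≤ a * X + b * Y := by positivity
  have h1 := mul_le_mul_of_nonneg_left (DD_tangent hH hZ hX) ha
  have h2 := mul_le_mul_of_nonneg_left (DD_tangent hH hZ hY) hb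
  set m := H / ((1 + (a * X + b * Y)) * (1 + (a * X + b * Y) + H)) with hm
  have h3 : a * (DD H (a * X + b * Y) + m * (a * X + b * Y - X)) +
      b * (DD H (a * X + b * Y) + m * (a * X + b * Y - Y)) = DD H (a * X + b * Y) := by
    have hb' : b = 1 - a := by linarith
    rw [hb']
    ring
  linarith

/-- chord bound (convexity in `X` between `0` and `X`) -/
theorem DD_chord {H X l : ℝ} (hH : 0 ≤ H) (hX : 0 < X) (hl : 0 ≤ l) (hlX : l ≤ X) :
    DD H (X - l) ≤ DD H X + l / X * DD H 0 := by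
  have h1 : l / X ≤ 1 := (div_le_one hX).2 hlX
  have h2 : 0 ≤ l / X := by positivity
  have h3 := DD_conv (a := 1 - l / X) (b := l / X) hH hX.le (le_refl (0 : ℝ)) (by linarith) h2
    (by ring)
  have h4 : (1 - l / X) * X + l / X * 0 = X - l := by
    field_simp
    ring
  rw [h4] at h3
  have h5 := mul_nonneg h2 (DD_nonneg hH hX.le)
  linarith

theorem DD_pred {H : ℝ} (hH : 0 ≤ H) {n : ℝ} (hn : 1 ≤ n) : DD H (n - 1) - DD H n ≤ 1 / n := by
  have hn0 : 0 < n := by linarith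
  have e1 : 1 + H / (1 + (n - 1)) = (n + H) / n := by
    rw [show 1 + (n - 1) = n by ring]
    field_simp
  have e2 : 1 + H / (1 + n) = (1 + n + H) / (1 + n) := by field_simp
  have h1 := Real.log_le_sub_one_of_pos
    (show 0 < ((n + H) / n) / ((1 + n + H) / (1 + n)) by positivity)
  rw [Real.log_div (by positivity) (by positivity)] at h1
  have h2 : ((n + H) / n) / ((1 + n + H) / (1 + n)) - 1 = H / (n * (1 + n + H)) := by
    field_simp
    ring
  have h3 : H / (n * (1 + n + H)) ≤ 1 / n := by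
    rw [div_le_div_iff₀ (by positivity) hn0]
    nlinarith
  unfold DD
  rw [e1, e2]
  linarith

/-- pairs `(l1-1,l2-1)` with `l1,l2 ≥ 1`, `l1+l2 ≤ l` -/
def spl (l : ℕ) : Finset (ℕ × ℕ) := (range l ×ˢ range l).filter fun p => p.1 + p.2 + 2 ≤ l

theorem sum_spl {M : Type*} [AddCommMonoid M] (l : ℕ) (f : ℕ → M) :
    ∑ p ∈ spl l, f p.1 = ∑ a ∈ range l, (l - 1 - a) • f a := by
  unfold spl
  rw [Finset.sum_filter, Finset.sum_product]
  refine Finset.sum_congr rfl fun a ha => ?_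
  rw [← Finset.sum_filter]
  have h1 : (range l).filter (fun b => a + b + 2 ≤ l) = range (l - 1 - a) := by
    ext b
    simp only [mem_filter, mem_range]
    rw [mem_range] at ha
    omega
  show ∑ b ∈ (range l).filter (fun b => a + b + 2 ≤ l), f a = _
  rw [Finset.sum_const, h1, card_range]

theorem sum_spl_swap {M : Type*} [AddCommMonoid M] (l : ℕ) (f : ℕ → M) :
    ∑ p ∈ spl l, f p.2 = ∑ p ∈ spl l, f p.1 := by
  refine Finset.sum_bij' (fun p _ => (p.2, p.1)) (fun p _ => (p.2, p.1)) ?_ ?_ ?_ ?_ ?_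
  · rintro ⟨a, b⟩ h
    simp only [spl, mem_filter, mem_product, mem_range] at h ⊢
    omega
  · rintro ⟨a, b⟩ h
    simp only [spl, mem_filter, mem_product, mem_range] at h ⊢
    omega
  · rintro ⟨a, b⟩ h; rfl
  · rintro ⟨a, b⟩ h; rfl
  · rintro ⟨a, b⟩ h; rfl

theorem card_spl (l : ℕ) : 2 * (spl l).card = l * (l - 1) := by
  have h1 : (spl l).card = ∑ a ∈ range l, (l - 1 - a) := by
    rw [Finset.card_eq_sum_ones, sum_spl l (fun _ => 1)]
    simp
  have h2 : ∑ a ∈ range l, (l - 1 - a) = ∑ a ∈ range l, a :=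
    Finset.sum_range_reflect (fun a => a) l
  rw [h1, h2, mul_comm, Finset.sum_range_id_mul_two]

theorem DD_scale {H X w : ℝ} (hH : 0 ≤ H) (hX : 0 ≤ X) (hw : 0 < w) :
    DD H (X * w) - DD H X ≤ H * X / ((1 + X) * (1 + X + H)) * (1 / w - 1) := by
  have e1 : 1 + H / (1 + X) = (1 + X + H) / (1 + X) := by field_simp
  have hxw : 0 < 1 + X * w := by positivity
  have e2 : 1 + H / (1 + X * w) = (1 + X * w + H) / (1 + X * w) := by field_simp
  have h1 := Real.log_le_sub_one_of_pos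
    (show 0 < ((1 + X * w + H) / (1 + X * w)) / ((1 + X + H) / (1 + X)) by positivity)
  rw [Real.log_div (by positivity) (by positivity)] at h1
  have h2 : ((1 + X * w + H) / (1 + X * w)) / ((1 + X + H) / (1 + X)) - 1
      = H * X * (1 - w) / ((1 + X * w) * (1 + X + H)) := by
    field_simp
    ring
  have h3 : H * X * (1 - w) / ((1 + X * w) * (1 + X + H)) ≤
      H * X * (1 - w) / ((w * (1 + X)) * (1 + X + H)) := by
    rw [div_le_div_iff₀ (by positivity) (by positivity)]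
    have h5 : 0 ≤ H * X * (1 + X + H) * (1 - w) ^ 2 := by positivity
    nlinarith
  have h4 : H * X / ((1 + X) * (1 + X + H)) * (1 / w - 1) =
      H * X * (1 - w) / ((w * (1 + X)) * (1 + X + H)) := by
    field_simp
  unfold DD
  rw [e1, e2, h4]
  linarith

theorem sum_inv_sqrt (n : ℕ) : ∑ a ∈ range n, 1 / √((a : ℝ) + 1) ≤ 2 * √(n : ℝ) := by
  induction n with
  | zero => simp
  | succ n ih =>
    rw [Finset.sum_range_succ]
    have h1 : √((n : ℝ) + 1) ^ 2 = (n : ℝ) + 1 := Real.sq_sqrt (by positivity)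
    have h2 : √(n : ℝ) ^ 2 = (n : ℝ) := Real.sq_sqrt (by positivity)
    have h3 : 0 < √((n : ℝ) + 1) := Real.sqrt_pos.2 (by positivity)
    have h4 : 0 ≤ √(n : ℝ) := Real.sqrt_nonneg _
    have h5 : 1 / √((n : ℝ) + 1) ≤ 2 * (√((n : ℝ) + 1) - √(n : ℝ)) := by
      rw [div_le_iff₀ h3]
      nlinarith [sq_nonneg (√((n : ℝ) + 1) - √(n : ℝ))]
    push_cast
    linarith

theorem inv_rpow_le {u : ℝ} (hu : 0 < u) :
    1 / u ^ (1 / 10 : ℝ) ≤ 4 / 5 + 1 / 5 * √(1 / u) := by
  have h1 : 1 / u ^ (1 / 10 : ℝ) = (√(1 / u)) ^ (1 / 5 : ℝ) * 1 ^ (4 / 5 : ℝ) := by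
    rw [Real.one_rpow, mul_one, Real.sqrt_eq_rpow, ← Real.rpow_mul (by positivity), one_div,
      one_div, ← Real.inv_rpow hu.le]
    norm_num
  rw [h1]
  have h2 := Real.geom_mean_le_arith_mean2_weighted (w₁ := 1 / 5) (w₂ := 4 / 5)
    (p₁ := √(1 / u)) (p₂ := 1) (by norm_num) (by norm_num) (Real.sqrt_nonneg _) (by norm_num)
    (by norm_num)
  linarith

theorem sum_inv_w {l : ℕ} (hl : 3 ≤ l) :
    ∑ p ∈ spl l, 1 / ((((p.1 : ℝ) + 1) / l) ^ (1 / 10 : ℝ) +
      (((p.2 : ℝ) + 1) / l) ^ (1 / 10 : ℝ)) ≤ ((spl l).card : ℝ) := by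
  have hl0 : (0 : ℝ) < l := by
    have : 0 < l := by omega
    exact_mod_cast this
  set g : ℕ → ℝ := fun a => 1 / (((a : ℝ) + 1) / l) ^ (1 / 10 : ℝ) with hg
  have h1 : ∑ p ∈ spl l, 1 / ((((p.1 : ℝ) + 1) / l) ^ (1 / 10 : ℝ) +
      (((p.2 : ℝ) + 1) / l) ^ (1 / 10 : ℝ)) ≤ ∑ p ∈ spl l, (1 / 4 * g p.1 + 1 / 4 * g p.2) := by
    refine Finset.sum_le_sum fun p _ => ?_
    have ha : 0 < (((p.1 : ℝ) + 1) / l) ^ (1 / 10 : ℝ) := by positivity
    have hb : 0 < (((p.2 : ℝ) + 1) / l) ^ (1 / 10 : ℝ) := by positivity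
    simp only [hg]
    set A := (((p.1 : ℝ) + 1) / l) ^ (1 / 10 : ℝ)
    set B := (((p.2 : ℝ) + 1) / l) ^ (1 / 10 : ℝ)
    have : 1 / 4 * (1 / A) + 1 / 4 * (1 / B) = (A + B) / (4 * (A * B)) := by
      field_simp
      ring
    rw [this, div_le_div_iff₀ (by positivity) (by positivity)]
    nlinarith [sq_nonneg (A - B)]
  rw [Finset.sum_add_distrib, ← Finset.mul_sum, ← Finset.mul_sum, sum_spl_swap l g] at h1
  have h2 : ∑ p ∈ spl l, g p.1 ≤ ∑ p ∈ spl l, (4 / 5 + 1 / 5 * √(1 / (((p.1 : ℝ) + 1) / l))) :=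
    Finset.sum_le_sum fun p _ => inv_rpow_le (by positivity)
  rw [Finset.sum_add_distrib, ← Finset.mul_sum, Finset.sum_const, nsmul_eq_mul,
    sum_spl l (fun a => √(1 / (((a : ℝ) + 1) / l)))] at h2
  have h3 : ∑ a ∈ range l, (l - 1 - a) • √(1 / (((a : ℝ) + 1) / l)) ≤
      ∑ a ∈ range l, (l * √(l : ℝ)) * (1 / √((a : ℝ) + 1)) := by
    refine Finset.sum_le_sum fun a _ => ?_
    rw [nsmul_eq_mul, one_div_div, Real.sqrt_div hl0.le]
    have h4 : ((l - 1 - a : ℕ) : ℝ) ≤ l := by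
      have : l - 1 - a ≤ l := by omega
      exact_mod_cast this
    have h5 : 0 ≤ √(l : ℝ) / √((a : ℝ) + 1) := by positivity
    calc ((l - 1 - a : ℕ) : ℝ) * (√(l : ℝ) / √((a : ℝ) + 1))
        ≤ l * (√(l : ℝ) / √((a : ℝ) + 1)) := mul_le_mul_of_nonneg_right h4 h5
      _ = (l * √(l : ℝ)) * (1 / √((a : ℝ) + 1)) := by ring
  rw [← Finset.mul_sum] at h3
  have h6 : (l * √(l : ℝ)) * ∑ a ∈ range l, 1 / √((a : ℝ) + 1) ≤ (l * √(l : ℝ)) * (2 * √(l : ℝ)) :=
    mul_le_mul_of_nonneg_left (sum_inv_sqrt l) (by positivity)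
  have h7 : (l * √(l : ℝ)) * (2 * √(l : ℝ)) = 2 * (l : ℝ) ^ 2 := by
    have : √(l : ℝ) * √(l : ℝ) = l := Real.mul_self_sqrt hl0.le
    linear_combination (2 * (l : ℝ)) * this
  have h8 : (2 : ℝ) * ((spl l).card : ℝ) = l * (l - 1) := by
    have := card_spl l
    have h9 : ((2 * (spl l).card : ℕ) : ℝ) = ((l * (l - 1) : ℕ) : ℝ) := by rw [this]
    push_cast [Nat.cast_sub (show 1 ≤ l by omega)] at h9
    exact h9
  have hl3 : (3 : ℝ) ≤ l := by exact_mod_cast hl
  nlinarith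

theorem split_sum {l : ℕ} (hl : 3 ≤ l) {H X G d : ℝ} (hH : 0 ≤ H) (hd : 0 ≤ d) (hG : 0 ≤ G)
    (hX : 0 < X) (hGX : G + 2 * d ≤ X) :
    ∑ p ∈ spl l, (DD H (X + G * ((((p.1 : ℝ) + 1) / l) ^ (1 / 10 : ℝ) +
      (((p.2 : ℝ) + 1) / l) ^ (1 / 10 : ℝ) - 1) - 2 * d) - DD H X) ≤
    4 * d * DD H 0 / X * ((spl l).card : ℝ) := by
  have hl0 : (0 : ℝ) < l := by
    have : 0 < l := by omega
    exact_mod_cast this
  set s : ℝ := H * X / ((1 + X) * (1 + X + H)) with hs
  have hs0 : 0 ≤ s := by positivity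
  have hD0 : 0 ≤ DD H 0 := DD_nonneg hH le_rfl
  set W : ℕ × ℕ → ℝ := fun p => (((p.1 : ℝ) + 1) / l) ^ (1 / 10 : ℝ) +
      (((p.2 : ℝ) + 1) / l) ^ (1 / 10 : ℝ) with hW
  have hW0 : ∀ p, 0 < W p := fun p => by positivity
  have hterm : ∀ p ∈ spl l, DD H (X + G * (W p - 1) - 2 * d) - DD H X ≤
      G / X * s * (1 / W p - 1) + 2 * d * DD H 0 / X * (1 + 1 / W p) := by
    intro p _
    have hw := hW0 p
    set w := W p with hw'
    have hGX' : G ≤ X := by linarith
    have hY0 : 0 < X + G * (w - 1) := by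
      rcases hG.eq_or_lt with h | h
      · rw [← h]; linarith
      · nlinarith
    have hY2 : 2 * d ≤ X + G * (w - 1) := by nlinarith
    have h1 := DD_chord hH hY0 (by positivity : 0 ≤ 2 * d) hY2
    have h2 : 2 * d / (X + G * (w - 1)) ≤ 2 * d / X * (1 + 1 / w) := by
      have h3 : 1 / (X + G * (w - 1)) ≤ 1 / X * (1 + 1 / w) := by
        rcases le_total 1 w with h | h
        · have h4 : 1 / (X + G * (w - 1)) ≤ 1 / X := by
            apply one_div_le_one_div_of_le hX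
            nlinarith
          have h5 : 0 ≤ 1 / X * (1 / w) := by positivity
          have h6 : 1 / X * (1 + 1 / w) = 1 / X + 1 / X * (1 / w) := by ring
          linarith
        · have h4 : 1 / (X + G * (w - 1)) ≤ 1 / (X * w) := by
            apply one_div_le_one_div_of_le (by positivity)
            nlinarith
          have h5 : 0 ≤ 1 / X := by positivity
          have h6 : 1 / X * (1 + 1 / w) = 1 / X + 1 / (X * w) := by
            field_simp
          linarith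
      calc 2 * d / (X + G * (w - 1)) = 2 * d * (1 / (X + G * (w - 1))) := by ring
        _ ≤ 2 * d * (1 / X * (1 + 1 / w)) := mul_le_mul_of_nonneg_left h3 (by positivity)
        _ = 2 * d / X * (1 + 1 / w) := by ring
    have h3 := mul_le_mul_of_nonneg_right h2 hD0
    have hgx : 0 ≤ G / X := by positivity
    have h4 : DD H (X + G * (w - 1)) ≤ (1 - G / X) * DD H X + G / X * DD H (X * w) := by
      have h5 := DD_conv (a := 1 - G / X) (b := G / X) hH hX.le
        (show 0 ≤ X * w by positivity)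
        (by have := (div_le_one hX).2 hGX'; linarith) hgx (by ring)
      have h6 : (1 - G / X) * X + G / X * (X * w) = X + G * (w - 1) := by
        field_simp
        ring
      rwa [h6] at h5
    have h7 := mul_le_mul_of_nonneg_left (DD_scale hH hX.le hw) hgx
    rw [← hs] at h7
    have h8 : 2 * d / X * (1 + 1 / w) * DD H 0 = 2 * d * DD H 0 / X * (1 + 1 / w) := by ring
    have h9 : G / X * (s * (1 / w - 1)) = G / X * s * (1 / w - 1) := by ring
    nlinarith
  refine (Finset.sum_le_sum hterm).trans ?_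
  have hsum := sum_inv_w hl
  have e1 : ∑ p ∈ spl l, (G / X * s * (1 / W p - 1) + 2 * d * DD H 0 / X * (1 + 1 / W p)) =
      G / X * s * (∑ p ∈ spl l, 1 / W p - (spl l).card) +
      2 * d * DD H 0 / X * ((spl l).card + ∑ p ∈ spl l, 1 / W p) := by
    rw [Finset.sum_add_distrib, ← Finset.mul_sum, ← Finset.mul_sum, Finset.sum_sub_distrib,
      Finset.sum_add_distrib]
    simp
  rw [e1]
  have hsum' : ∑ p ∈ spl l, 1 / W p ≤ ((spl l).card : ℝ) := hsum
  have h1 : G / X * s * (∑ p ∈ spl l, 1 / W p - (spl l).card) ≤ 0 :=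
    mul_nonpos_of_nonneg_of_nonpos (by positivity) (by linarith)
  have h2 : 2 * d * DD H 0 / X * ((spl l).card + ∑ p ∈ spl l, 1 / W p) ≤
      2 * d * DD H 0 / X * ((spl l).card + (spl l).card) :=
    mul_le_mul_of_nonneg_left (by linarith) (by positivity)
  have h3 : 2 * d * DD H 0 / X * (((spl l).card : ℝ) + (spl l).card) =
      4 * d * DD H 0 / X * ((spl l).card : ℝ) := by ring
  linarith

end Pool.Agent.Helper120.Ea
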