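import Mathlib

open Finset

namespace Pool.Agent.Helper120.Ea

/-- active edges of one block: `(j,k)`, `k ≤ r` is the `k`-th parallel edge number `j` of the path,
`(j, r+1)` is the spoke at position `j` -/
abbrev BE (M r : ℕ) := Fin M × Fin (r + 2)

/-- a set of pairwise disjoint intervals `[p.1, p.2]` in `[0, M)` -/
structure Valid (M : ℕ) (R : Finset (ℕ × ℕ)) : Prop where
  le : ∀ p ∈ R, p.1 ≤ p.2
  lt : ∀ p ∈ R, p.2 < M
  disj : ∀ p ∈ R, ∀ q ∈ R, p ≠ q → p.2 < q.1 ∨ q.2 < p.1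

/-- the edge set coded by the intervals `R` and the copies `κ` -/
noncomputable def enc (M r : ℕ) (R : Finset (ℕ × ℕ)) (κ : ℕ → ℕ) : Finset (BE M r) := by
  classical exact
  Finset.univ.filter fun e =>
    (e.2.val = r + 1 ∧ ∃ p ∈ R, p.2 = e.1.val) ∨
    (e.2.val = κ e.1.val ∧ e.2.val ≤ r ∧ ∀ p ∈ R, p.1 ≠ e.1.val)

/-- coded edge sets of a block -/
def IsCode (M r : ℕ) (T : Finset (BE M r)) : Prop :=
  ∃ (R : Finset (ℕ × ℕ)) (κ : ℕ → ℕ), Valid M R ∧ (∀ j, κ j ≤ r) ∧ T = enc M r R κ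

section blk
open Classical

variable {M r : ℕ}

lemma mem_enc {R : Finset (ℕ × ℕ)} {κ : ℕ → ℕ} {e : BE M r} :
    e ∈ enc M r R κ ↔ (e.2.val = r + 1 ∧ ∃ p ∈ R, p.2 = e.1.val) ∨
    (e.2.val = κ e.1.val ∧ e.2.val ≤ r ∧ ∀ p ∈ R, p.1 ≠ e.1.val) := by
  simp [enc]

/-- some copy of the path edge `j` is present -/
def pres (T : Finset (BE M r)) (j : ℕ) : Prop := ∃ e ∈ T, e.1.val = j ∧ e.2.val ≤ r

/-- the spoke at `j` is present -/
def spk (T : Finset (BE M r)) (j : ℕ) : Prop := ∃ e ∈ T, e.1.val = j ∧ e.2.val = r + 1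

/-- `p` is a defect interval of `T` -/
def IsRun (T : Finset (BE M r)) (p : ℕ × ℕ) : Prop :=
  p.1 ≤ p.2 ∧ p.2 < M ∧ ¬ pres T p.1 ∧ (∀ i, p.1 < i → i ≤ p.2 → pres T i) ∧
    (∀ i, p.1 ≤ i → i < p.2 → ¬ spk T i) ∧ spk T p.2

noncomputable def runs (T : Finset (BE M r)) : Finset (ℕ × ℕ) :=
  (range M ×ˢ range M).filter (IsRun T)

lemma mem_runs {T : Finset (BE M r)} {p : ℕ × ℕ} : p ∈ runs T ↔ IsRun T p := by
  unfold runs
  simp only [mem_filter, mem_product, mem_range]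
  constructor
  · exact fun h => h.2
  · intro h
    exact ⟨⟨lt_of_le_of_lt h.1 h.2.1, h.2.1⟩, h⟩

lemma pres_enc {R : Finset (ℕ × ℕ)} {κ : ℕ → ℕ} (hκ : ∀ j, κ j ≤ r) {j : ℕ} (hj : j < M) :
    pres (enc M r R κ) j ↔ ∀ p ∈ R, p.1 ≠ j := by
  unfold pres
  constructor
  · rintro ⟨e, he, h1, h2⟩
    rw [mem_enc] at he
    rcases he with he | he
    · omega
    · rw [← h1]; exact he.2.2
  · intro h
    refine ⟨(⟨j, hj⟩, ⟨κ j, by have := hκ j; omega⟩), ?_, rfl, hκ j⟩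
    rw [mem_enc]
    right
    exact ⟨rfl, hκ j, h⟩

lemma spk_enc {R : Finset (ℕ × ℕ)} {κ : ℕ → ℕ} (hV : Valid M R) {j : ℕ} :
    spk (enc M r R κ) j ↔ ∃ p ∈ R, p.2 = j := by
  unfold spk
  constructor
  · rintro ⟨e, he, h1, h2⟩
    rw [mem_enc] at he
    rcases he with he | he
    · rw [← h1]; exact he.2
    · omega
  · rintro ⟨p, hp, rfl⟩
    refine ⟨(⟨p.2, hV.lt p hp⟩, ⟨r + 1, by omega⟩), ?_, rfl, rfl⟩
    rw [mem_enc]
    left
    exact ⟨rfl, p, hp, rfl⟩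

lemma Valid.eq_of_fst {R : Finset (ℕ × ℕ)} (hV : Valid M R) {p q : ℕ × ℕ} (hp : p ∈ R)
    (hq : q ∈ R) (h : p.1 = q.1) : p = q := by
  by_contra hne
  have h1 := hV.le p hp
  have h2 := hV.le q hq
  rcases hV.disj p hp q hq hne with h3 | h3 <;> omega

lemma Valid.eq_of_snd {R : Finset (ℕ × ℕ)} (hV : Valid M R) {p q : ℕ × ℕ} (hp : p ∈ R)
    (hq : q ∈ R) (h : p.2 = q.2) : p = q := by
  by_contra hne
  have h1 := hV.le p hp
  have h2 := hV.le q hq
  rcases hV.disj p hp q hq hne with h3 | h3 <;> omega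

/-- overlapping intervals are equal -/
lemma Valid.eq_of_overlap {R : Finset (ℕ × ℕ)} (hV : Valid M R) {p q : ℕ × ℕ} (hp : p ∈ R)
    (hq : q ∈ R) (h1 : p.1 ≤ q.2) (h2 : q.1 ≤ p.2) : p = q := by
  by_contra hne
  rcases hV.disj p hp q hq hne with h3 | h3 <;> omega

lemma runs_enc {R : Finset (ℕ × ℕ)} {κ : ℕ → ℕ} (hV : Valid M R) (hκ : ∀ j, κ j ≤ r) :
    runs (enc M r R κ) = R := by
  ext p
  rw [mem_runs]
  constructor
  · rintro ⟨h1, h2, h3, h4, h5, h6⟩
    rw [pres_enc hκ (by omega)] at h3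
    push Not at h3
    obtain ⟨p', hp', hp1⟩ := h3
    rw [spk_enc hV] at h6
    obtain ⟨p'', hp'', hp2⟩ := h6
    have hle' := hV.le p' hp'
    have hle'' := hV.le p'' hp''
    by_cases hpp : p' = p''
    · subst hpp
      have : p = p' := Prod.ext hp1.symm hp2.symm
      rw [this]; exact hp'
    · exfalso
      rcases hV.disj p' hp' p'' hp'' hpp with h | h
      · have := h5 p'.2 (by omega) (by omega)
        rw [spk_enc hV] at this
        exact this ⟨p', hp', rfl⟩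
      · omega
  · intro hp
    have h1 := hV.le p hp
    have h2 := hV.lt p hp
    refine ⟨h1, h2, ?_, ?_, ?_, ?_⟩
    · rw [pres_enc hκ (by omega)]
      push Not
      exact ⟨p, hp, rfl⟩
    · intro i hi hi'
      rw [pres_enc hκ (by omega)]
      intro q hq hqi
      have := hV.le q hq
      have : p = q := hV.eq_of_overlap hp hq (by omega) (by omega)
      subst this
      omega
    · intro i hi hi'
      rw [spk_enc hV]
      rintro ⟨q, hq, hqi⟩
      have := hV.le q hq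
      have : p = q := hV.eq_of_overlap hp hq (by omega) (by omega)
      subst this
      omega
    · rw [spk_enc hV]
      exact ⟨p, hp, rfl⟩

/-- total length of the defect intervals -/
noncomputable def JJ (T : Finset (BE M r)) : ℕ := ∑ p ∈ runs T, (2 * (p.2 - p.1) + 1)

/-- the tiny defects: positive copies -/
noncomputable def tin (T : Finset (BE M r)) : Finset (BE M r) :=
  T.filter fun e => e.2.val ≠ 0 ∧ e.2.val ≤ r

noncomputable def nn (T : Finset (BE M r)) : ℕ := (tin T).card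

lemma IsCode.valid {T : Finset (BE M r)} (h : IsCode M r T) : Valid M (runs T) := by
  obtain ⟨R, κ, hV, hκ, rfl⟩ := h
  rw [runs_enc hV hκ]; exact hV

lemma IsCode.exists_kappa {T : Finset (BE M r)} (h : IsCode M r T) :
    ∃ κ : ℕ → ℕ, (∀ j, κ j ≤ r) ∧ T = enc M r (runs T) κ := by
  obtain ⟨R, κ, hV, hκ, rfl⟩ := h
  exact ⟨κ, hκ, by rw [runs_enc hV hκ]⟩

/-- at most one copy at each position -/
lemma IsCode.copy_unique {T : Finset (BE M r)} (h : IsCode M r T) {e f : BE M r} (he : e ∈ T)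
    (hf : f ∈ T) (h1 : e.1 = f.1) (h2 : e.2.val ≤ r) (h3 : f.2.val ≤ r) : e = f := by
  obtain ⟨R, κ, hV, hκ, rfl⟩ := h
  rw [mem_enc] at he hf
  rcases he with he | he
  · omega
  rcases hf with hf | hf
  · omega
  refine Prod.ext h1 (Fin.ext ?_)
  rw [he.1, hf.1, h1]

end blk

end Pool.Agent.Helper120.Ea
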