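import Pool.Agent.Helper120.Ea.All

open Finset

namespace Pool.Agent.Helper120.Ea

section blk
open Classical

variable {M r : ℕ}

theorem qq_self {β : Type*} [Fintype β] (m : ℝ) (T : Finset β) :
    qq m T T = (1 - 1 / m) ^ (Fintype.card β) := by
  unfold qq mu
  rw [symmDiff_self]
  simp

theorem mem_Om {T : Finset (BE M r)} : T ∈ Om M r ↔ IsCode M r T := by
  unfold Om; simp

/-- all properties of one block -/
theorem blk_hyp {l0 : ℕ} {d H m : ℝ} (hr : 1 ≤ r) (hl0 : 3 ≤ l0) (hd : 0 < d)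
    (hd2 : d ≤ 1 / 4) (hH : 0 ≤ H) (hm : 2 ≤ m) (hM : 2 * (r + 2) ≤ M)
    (hbig : 2 * (((r : ℝ) + 2) * M) ≤ m)
    (hm3 : (((r : ℝ) + 2) * M / m) ^ 3 * (DD H 0 + 1) ≤ (M : ℝ) ^ 2 / m ^ 2)
    (hC1 : DD H 0 * (12 * (r + 2) / l0 + 8 * d + 6 * (r + 2) * M / m) ≤
      1 / (48 * Real.log (2 * M)))
    (hC2 : DD H 0 * (4 + d * l0) ≤ (r + 1) / (48 * Real.log (2 * M)))
    (hHpsi : ∀ l : ℕ, M ≤ 2 * l → H ≤ psi l0 d l)
    (hMD : (M : ℝ) ^ 2 * DD H 0 ≤ m ^ 2) :
    BlkHyp (Om M r) M m JJ nn (Phi l0 d H) (qq m) (fun k => DD H k) (DD H 0 + 1)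
      (((r + 1) / (24 * Real.log (2 * M))) / m ^ 2)
      (5 * ((M : ℝ) ^ 2 / m ^ 2) * (DD H 0 + 1)) ((1 / 16) * ((M : ℝ) ^ 2 / m ^ 2))
      (6 * ((M : ℝ) ^ 2 / m ^ 2)) := by
  have hm1 : (1 : ℝ) ≤ m := by linarith
  have hm0 : (0 : ℝ) < m := by linarith
  have hM0 : 0 < M := by omega
  have h0 : 0 ≤ DD H 0 := DD_nonneg hH le_rfl
  have hcard : Fintype.card (BE M r) = M * (r + 2) := by
    simp [BE, Fintype.card_prod]
  have hbase : 0 ≤ 1 - 1 / m := by
    have : 1 / m ≤ 1 := by rw [div_le_one hm0]; linarith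
    linarith
  have hfac : ∀ c : ℕ, c ≤ Fintype.card (BE M r) → 1 / 2 ≤ (1 - 1 / m) ^ c := by
    intro c hc
    apply fac_ge hm
    have h2 : (c : ℝ) ≤ ((M * (r + 2) : ℕ) : ℝ) := by
      rw [← hcard]; exact_mod_cast hc
    push_cast at h2
    nlinarith
  have hruns : ∀ {T T' : Finset (BE M r)}, JJ T = 0 → (JJ T' = 0 ↔ runs T' = runs T) := by
    intro T T' hJ
    rw [(runs_empty_iff T).1 hJ, runs_empty_iff]
  have hm3' : ((r + 2) * M / m) ^ 3 ≤ (M : ℝ) ^ 2 / m ^ 2 := by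
    refine le_trans ?_ hm3
    have : 0 ≤ (((r : ℝ) + 2) * M / m) ^ 3 := by positivity
    nlinarith
  constructor
  · intro T _ T' _
    exact qq_nonneg hm1 T T'
  · intro T _
    rw [← sum_qq_univ m T]
    exact sum_le_sum_of_subset_of_nonneg (subset_univ _) fun T' _ _ => qq_nonneg hm1 T T'
  · intro T hT
    have h1 : qq m T T ≤ ∑ T' ∈ (Om M r).filter (fun T' => PSame JJ nn T' T), qq m T T' := by
      apply single_le_sum (f := fun T' => qq m T T') (fun T' _ => qq_nonneg hm1 T T')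
      rw [mem_filter]
      exact ⟨hT, rfl, rfl⟩
    refine le_trans ?_ h1
    rw [qq_self]
    exact hfac _ le_rfl
  · intro T hT
    exact nn_le (mem_Om.1 hT)
  · intro T hT
    exact (Phi_bounds hd.le hd2 hH hM0 (mem_Om.1 hT)).1
  · intro T hT
    exact (Phi_bounds hd.le hd2 hH hM0 (mem_Om.1 hT)).2
  · intro T _ hJ
    exact Phi_clean ((runs_empty_iff T).1 hJ)
  · intro T hT hJ
    have := own_dirty (H := H) hr hl0 hd hd2 hH hm hM0 hbig hC1 hC2 (mem_Om.1 hT) hJ
    unfold Own at this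
    exact this
  · intro T hT hJ
    have := own_clean (l0 := l0) (d := d) hH hm1 hMD (mem_Om.1 hT) hJ
    unfold Own at this
    exact this
  · intro T hT
    have := comp_dirty (l0 := l0) hd.le hd2 hH hm1 hM hm3' (mem_Om.1 hT)
    unfold Comp at this
    exact this
  · intro T hT hJ
    have := comp_clean (l0 := l0) hd.le hd2 hH hm hM hbig hm3 hHpsi (mem_Om.1 hT) hJ
    unfold Comp at this
    refine this.trans (le_of_eq ?_)
    ring
  · intro T hT hJ
    have h1 := heal_lower hm1 (mem_Om.1 hT)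
    have h2 : (Om M r).filter (fun T' => JJ T' = 0 ∧ nn T' + 1 = nn T) =
        (Om M r).filter (fun T' => runs T' = runs T ∧ nn T' + 1 = nn T) := by
      apply filter_congr
      intro T' _
      rw [hruns hJ]
    rw [h2]
    refine le_trans ?_ h1
    have h3 := hfac (Fintype.card (BE M r) - 2) (Nat.sub_le _ _)
    have h4 : (nn T : ℝ) / (2 * m ^ 2) = (nn T : ℝ) * ((1 / m) ^ 2 * (1 / 2)) := by
      field_simp
    rw [h4]
    apply mul_le_mul_of_nonneg_left _ (Nat.cast_nonneg _)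
    exact mul_le_mul_of_nonneg_left h3 (by positivity)
  · intro T hT hJ
    have h1 := heal_upper hm1 (mem_Om.1 hT)
    have h2 : (Om M r).filter (fun T' => JJ T' = 0 ∧ nn T' < nn T) =
        (Om M r).filter (fun T' => runs T' = runs T ∧ nn T' < nn T) := by
      apply filter_congr
      intro T' _
      rw [hruns hJ]
    rw [h2]
    exact h1
  · intro T hT hJ
    have h1 := heal_two hm1 (mem_Om.1 hT)
    have h2 : (Om M r).filter (fun T' => JJ T' = 0 ∧ nn T' + 2 ≤ nn T) =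
        (Om M r).filter (fun T' => runs T' = runs T ∧ nn T' + 2 ≤ nn T) := by
      apply filter_congr
      intro T' _
      rw [hruns hJ]
    rw [h2]
    exact h1

end blk

end Pool.Agent.Helper120.Ea
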