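import Pool.Agent.Helper120.Ea.Idx

open Finset

namespace Pool.Agent.Helper120.Ea

theorem psi_ge {l0 : ℕ} {d : ℝ} (hd : 0 ≤ d) (l : ℕ) : 1 - d ≤ psi l0 d l := by
  unfold psi
  have := mul_nonneg hd (le_max_left 0 (((l : ℝ) / l0) ^ (1 / 10 : ℝ) - 1))
  linarith

theorem psi_mono {l0 : ℕ} {d : ℝ} (hd : 0 ≤ d) {l l' : ℕ} (h : l ≤ l') :
    psi l0 d l ≤ psi l0 d l' := by
  unfold psi
  have h' : (l : ℝ) ≤ l' := by exact_mod_cast h
  have h1 : ((l : ℝ) / l0) ^ (1 / 10 : ℝ) ≤ ((l' : ℝ) / l0) ^ (1 / 10 : ℝ) := by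
    apply Real.rpow_le_rpow (by positivity) _ (by norm_num)
    gcongr
  have h2 : max 0 (((l : ℝ) / l0) ^ (1 / 10 : ℝ) - 1) ≤ max 0 (((l' : ℝ) / l0) ^ (1 / 10 : ℝ) - 1) :=
    max_le_max le_rfl (by linarith)
  have := mul_le_mul_of_nonneg_left h2 hd
  linarith

/-- `psi l / l` is decreasing -/
theorem psi_div_anti {l0 : ℕ} {d : ℝ} (hl0 : 1 ≤ l0) (hd : 0 ≤ d) (hd2 : d ≤ 1 / 4) {l l' : ℕ}
    (hl : 1 ≤ l) (h : l ≤ l') : psi l0 d l' * l ≤ psi l0 d l * l' := by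
  have h' : (l : ℝ) ≤ l' := by exact_mod_cast h
  have hlr : (1 : ℝ) ≤ l := by exact_mod_cast hl
  have hl0r : (1 : ℝ) ≤ l0 := by exact_mod_cast hl0
  have l0p : (0 : ℝ) < l0 := by linarith
  have lp : (0 : ℝ) < l := by linarith
  obtain ⟨a, ha⟩ : ∃ a, a = ((l : ℝ) / l0) ^ (1 / 10 : ℝ) := ⟨_, rfl⟩
  obtain ⟨b, hb⟩ : ∃ b, b = ((l' : ℝ) / l0) ^ (1 / 10 : ℝ) := ⟨_, rfl⟩
  have a0 : 0 ≤ a := by rw [ha]; positivity
  have key : b * l ≤ a * l' := by
    have e : (l' : ℝ) / l0 = (l : ℝ) / l0 * (l' / l) := by field_simp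
    have h1 : 1 ≤ (l' : ℝ) / l := by rw [le_div_iff₀ lp]; linarith
    have h2 : ((l' : ℝ) / l) ^ (1 / 10 : ℝ) ≤ l' / l := by
      calc ((l' : ℝ) / l) ^ (1 / 10 : ℝ) ≤ ((l' : ℝ) / l) ^ (1 : ℝ) :=
            Real.rpow_le_rpow_of_exponent_le h1 (by norm_num)
        _ = _ := Real.rpow_one _
    have h3 : b ≤ a * (l' / l) := by
      rw [hb, e, Real.mul_rpow (by positivity) (by positivity), ← ha]
      gcongr
    calc b * l ≤ a * (l' / l) * l := by gcongr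
      _ = a * l' := by field_simp
  unfold psi
  rw [← ha, ← hb]
  have m1 : max 0 (b - 1) * l ≤ max 0 (a - 1) * l' + (l' - l) := by
    rcases le_total (b - 1) 0 with h1 | h1
    · rw [max_eq_left h1, zero_mul]
      have := mul_nonneg (le_max_left 0 (a - 1)) (by linarith : (0 : ℝ) ≤ l')
      linarith
    · rw [max_eq_right h1]
      have := mul_le_mul_of_nonneg_right (le_max_right 0 (a - 1)) (by linarith : (0 : ℝ) ≤ l')
      nlinarith
  have m2 := mul_le_mul_of_nonneg_left m1 hd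
  nlinarith

theorem NN_ge {r l : ℕ} (hl : 1 ≤ l) : (r : ℝ) + 1 ≤ NN r l := by
  have hlr : (1 : ℝ) ≤ l := by exact_mod_cast hl
  have hr : (0 : ℝ) ≤ r := Nat.cast_nonneg r
  unfold NN
  nlinarith

theorem NN_ge2 {r l : ℕ} (hl : 1 ≤ l) : (l : ℝ) ^ 2 / 2 ≤ NN r l := by
  have hlr : (1 : ℝ) ≤ l := by exact_mod_cast hl
  have hr : (0 : ℝ) ≤ r := Nat.cast_nonneg r
  unfold NN
  nlinarith

theorem NN_mono {r l l' : ℕ} (hl : 1 ≤ l) (h : l ≤ l') : NN r l ≤ NN r l' := by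
  have hlr : (1 : ℝ) ≤ l := by exact_mod_cast hl
  have h' : (l : ℝ) ≤ l' := by exact_mod_cast h
  have hr : (0 : ℝ) ≤ r := Nat.cast_nonneg r
  unfold NN
  nlinarith

theorem NN_div {r l l' : ℕ} (hl : 1 ≤ l) (h : l ≤ l') : NN r l * l' ≤ NN r l' * l := by
  have hlr : (1 : ℝ) ≤ l := by exact_mod_cast hl
  have h' : (l : ℝ) ≤ l' := by exact_mod_cast h
  have e : NN r l' * l - NN r l * l' = ((l' : ℝ) - l) + (l * l' / 2) * (l' - l) := by
    unfold NN; ring
  have : 0 ≤ ((l' : ℝ) - l) + (l * l' / 2) * (l' - l) := by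
    have h1 : (0 : ℝ) ≤ l' - l := by linarith
    have h2 : (0 : ℝ) ≤ l * l' / 2 := by positivity
    nlinarith [mul_nonneg h2 h1]
  linarith

theorem cheb {ι : Type} (s : Finset ι) (A B C : ι → ℝ)
    (h : ∀ i ∈ s, ∀ j ∈ s, 0 ≤ (A i - A j) * (B i * C j - B j * C i)) :
    (∑ i ∈ s, A i * C i) * (∑ i ∈ s, B i) ≤ (∑ i ∈ s, A i * B i) * (∑ i ∈ s, C i) := by
  have e : ∑ i ∈ s, ∑ j ∈ s, (A i - A j) * (B i * C j - B j * C i) =
      2 * ((∑ i ∈ s, A i * B i) * (∑ i ∈ s, C i) - (∑ i ∈ s, A i * C i) * (∑ i ∈ s, B i)) := by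
    have e1 : ∀ i j, (A i - A j) * (B i * C j - B j * C i) =
        (A i * B i) * C j - (A i * C i) * B j - B i * (A j * C j) + C i * (A j * B j) := by
      intro i j; ring
    simp only [e1, Finset.sum_add_distrib, Finset.sum_sub_distrib, ← Finset.mul_sum,
      ← Finset.sum_mul]
    ring
  have : 0 ≤ ∑ i ∈ s, ∑ j ∈ s, (A i - A j) * (B i * C j - B j * C i) :=
    Finset.sum_nonneg (fun i hi => Finset.sum_nonneg (fun j hj => h i hi j hj))
  linarith

theorem term_bound {r l0 k : ℕ} {d t : ℝ} (hk : 1 ≤ k) (ht : 0 ≤ t) (hl0 : 3 ≤ l0) (hd : 0 < d)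
    (hd2 : d ≤ 1 / 4) :
    (if k ≤ l0 then 1 + (1 + d * (k : ℝ)) * t
        else (r + 2) * (k : ℝ) * (psi l0 d k + 1) + 4 * d * (k : ℝ) * ((k : ℝ) - 1) / 2) ≤
        (1 + (1 + d * l0) * t) + (6 * (r + 2) / l0 + 8 * d) * (NN r k * psi l0 d k) := by
  have hr : (0 : ℝ) ≤ r := Nat.cast_nonneg r
  have hl0r : (3 : ℝ) ≤ l0 := by exact_mod_cast hl0
  have pi : 3 / 4 ≤ psi l0 d k := by
    have := psi_ge (l0 := l0) hd.le k; linarith
  have li : (1 : ℝ) ≤ k := by exact_mod_cast hk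
  have ni : 0 ≤ NN r k := by have := NN_ge (r := r) hk; linarith
  have l0p : (0 : ℝ) < l0 := by linarith
  split_ifs with hc
  · have hc' : (k : ℝ) ≤ l0 := by exact_mod_cast hc
    have h2 : (1 + d * (k : ℝ)) * t ≤ (1 + d * l0) * t := by gcongr
    have h3 : 0 ≤ (6 * ((r : ℝ) + 2) / l0 + 8 * d) * (NN r k * psi l0 d k) := by
      positivity
    linarith
  · have hc' : (l0 : ℝ) ≤ k := by
      push Not at hc; exact_mod_cast hc.le
    have h2 : (k : ℝ) ≤ 2 * NN r k / l0 := by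
      rw [le_div_iff₀ l0p]
      have := NN_ge2 (r := r) hk
      nlinarith
    have h3 : ((r : ℝ) + 2) * (k : ℝ) * (psi l0 d k + 1) ≤
        6 * (r + 2) / l0 * (NN r k * psi l0 d k) := by
      calc ((r : ℝ) + 2) * (k : ℝ) * (psi l0 d k + 1)
          ≤ ((r : ℝ) + 2) * (2 * NN r k / l0) * (3 * psi l0 d k) := by
            gcongr
            linarith
        _ = _ := by ring
    have h4 : 4 * d * (k : ℝ) * ((k : ℝ) - 1) / 2 ≤
        8 * d * (NN r k * psi l0 d k) := by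
      have h5 : (k : ℝ) * ((k : ℝ) - 1) / 2 ≤ NN r k := by
        unfold NN; nlinarith
      have h6 : NN r k ≤ 2 * (NN r k * psi l0 d k) := by nlinarith
      calc 4 * d * (k : ℝ) * ((k : ℝ) - 1) / 2 = 4 * d * ((k : ℝ) * ((k : ℝ) - 1) / 2) := by
            ring
        _ ≤ 4 * d * (2 * (NN r k * psi l0 d k)) := by gcongr; linarith
        _ = _ := by ring
    have h7 : 0 ≤ 1 + (1 + d * (l0 : ℝ)) * t := by positivity
    linarith

/-- final inequality for one block with at least one defect interval; `s` indexes the intervals,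
`l i` their lengths, `t i` the numbers of tiny defects inside, `n` the number of all tiny defects -/
theorem block_ineq {ι : Type} (s : Finset ι) (hs : s.Nonempty) (l : ι → ℕ) (t : ι → ℝ)
    {r l0 M : ℕ} {d h0 lM m n X J : ℝ} (hl : ∀ i ∈ s, 1 ≤ l i) (ht : ∀ i ∈ s, 0 ≤ t i)
    (hM : ∑ i ∈ s, (l i : ℝ) ≤ M) (hl0 : 3 ≤ l0) (hd : 0 < d) (hd2 : d ≤ 1 / 4) (hh0 : 0 ≤ h0)
    (hlM : 0 < lM) (hm : 0 < m) (hn : ∑ i ∈ s, t i ≤ n)
    (hX : X = n + ∑ i ∈ s, psi l0 d (l i)) (hJ0 : 0 ≤ J) (hJ : J + 1 ≤ 2 * ∑ i ∈ s, (l i : ℝ))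
    (hC1 : h0 * (12 * (r + 2) / l0 + 8 * d + 6 * (r + 2) * M / m) ≤ 1 / (48 * lM))
    (hC2 : h0 * (4 + d * l0) ≤ (r + 1) / (48 * lM)) :
    h0 / X * (∑ i ∈ s, if l i ≤ l0 then 1 + (1 + d * (l i : ℝ)) * t i
        else (r + 2) * (l i : ℝ) * (psi l0 d (l i) + 1) + 4 * d * (l i : ℝ) * ((l i : ℝ) - 1) / 2)
      + h0 + h0 / X * (1 / m) * ((∑ i ∈ s, NN r (l i)) * ((r + 2) * (∑ i ∈ s, psi l0 d (l i) * l i) + n)
        + (r + 2) * M * ∑ i ∈ s, NN r (l i) * (psi l0 d (l i) + 1))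
      ≤ (∑ i ∈ s, NN r (l i) * l i) / (6 * lM * (1 + J)) - (r + 1) / (24 * lM) := by
  have hr : (0 : ℝ) ≤ r := Nat.cast_nonneg r
  have hMr : (0 : ℝ) ≤ M := Nat.cast_nonneg M
  have hl0r : (3 : ℝ) ≤ l0 := by exact_mod_cast hl0
  have psi34 : ∀ i, 3 / 4 ≤ psi l0 d (l i) := fun i => by
    have := psi_ge (l0 := l0) hd.le (l i); linarith
  have lr : ∀ i ∈ s, (1 : ℝ) ≤ l i := fun i hi => by exact_mod_cast hl i hi
  have Nr : ∀ i ∈ s, (r : ℝ) + 1 ≤ NN r (l i) := fun i hi => NN_ge (hl i hi)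
  have N0 : ∀ i ∈ s, 0 ≤ NN r (l i) := fun i hi => by linarith [Nr i hi]
  -- sums
  obtain ⟨SN, hSN⟩ : ∃ x, x = ∑ i ∈ s, NN r (l i) := ⟨_, rfl⟩
  obtain ⟨SP, hSP⟩ : ∃ x, x = ∑ i ∈ s, psi l0 d (l i) := ⟨_, rfl⟩
  obtain ⟨SL, hSL⟩ : ∃ x, x = ∑ i ∈ s, (l i : ℝ) := ⟨_, rfl⟩
  obtain ⟨SNL, hSNL⟩ : ∃ x, x = ∑ i ∈ s, NN r (l i) * l i := ⟨_, rfl⟩
  obtain ⟨SNP, hSNP⟩ : ∃ x, x = ∑ i ∈ s, NN r (l i) * psi l0 d (l i) := ⟨_, rfl⟩
  obtain ⟨SPL, hSPL⟩ : ∃ x, x = ∑ i ∈ s, psi l0 d (l i) * l i := ⟨_, rfl⟩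
  obtain ⟨SLL, hSLL⟩ : ∃ x, x = ∑ i ∈ s, (l i : ℝ) * l i := ⟨_, rfl⟩
  obtain ⟨ST, hST⟩ : ∃ x, x = ∑ i ∈ s, t i := ⟨_, rfl⟩
  have card1 : (1 : ℝ) ≤ s.card := by exact_mod_cast hs.card_pos
  have SL1 : 1 ≤ SL := by
    have : (s.card : ℝ) ≤ SL := by
      rw [hSL]
      calc (s.card : ℝ) = ∑ i ∈ s, (1 : ℝ) := by simp
        _ ≤ _ := Finset.sum_le_sum lr
    linarith
  have SPc : (s.card : ℝ) ≤ 4 / 3 * SP := by
    rw [hSP, Finset.mul_sum]
    calc (s.card : ℝ) = ∑ i ∈ s, (1 : ℝ) := by simp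
      _ ≤ _ := Finset.sum_le_sum (fun i _ => by linarith [psi34 i])
  have SP0 : 0 < SP := by linarith
  have ST0 : 0 ≤ ST := by rw [hST]; exact Finset.sum_nonneg ht
  have hn0 : 0 ≤ n := by rw [← hST] at hn; linarith
  rw [← hSP] at hX
  have X0 : 0 < X := by linarith
  have SNL0 : 0 ≤ SNL := by
    rw [hSNL]; exact Finset.sum_nonneg (fun i hi => mul_nonneg (N0 i hi) (by linarith [lr i hi]))
  have SN0 : 0 ≤ SN := by rw [hSN]; exact Finset.sum_nonneg N0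
  have SNSNL : SN ≤ SNL := by
    rw [hSN, hSNL]
    apply Finset.sum_le_sum
    intro i hi
    exact le_mul_of_one_le_right (N0 i hi) (lr i hi)
  -- Chebyshev
  have pl : ∀ i ∈ s, ∀ j ∈ s, l i ≤ l j →
      psi l0 d (l j) * l i ≤ psi l0 d (l i) * l j := fun i hi j _ hij =>
    psi_div_anti (by omega) hd.le hd2 (hl i hi) hij
  have ch1 : SNP * SL ≤ SNL * SP := by
    have := cheb s (fun i => NN r (l i)) (fun i => (l i : ℝ)) (fun i => psi l0 d (l i)) (by
      intro i hi j hj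
      rcases le_total (l i) (l j) with h | h
      · have h1 := NN_mono (r := r) (hl i hi) h
        have h2 := pl i hi j hj h
        apply mul_nonneg_of_nonpos_of_nonpos <;> linarith
      · have h1 := NN_mono (r := r) (hl j hj) h
        have h2 := pl j hj i hi h
        apply mul_nonneg <;> linarith)
    rw [hSNP, hSL, hSNL, hSP]; exact this
  have ch2 : SPL * SL ≤ SLL * SP := by
    have := cheb s (fun i => (l i : ℝ)) (fun i => (l i : ℝ)) (fun i => psi l0 d (l i)) (by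
      intro i hi j hj
      rcases le_total (l i) (l j) with h | h
      · have h1 : (l i : ℝ) ≤ l j := by exact_mod_cast h
        have h2 := pl i hi j hj h
        apply mul_nonneg_of_nonpos_of_nonpos <;> linarith
      · have h1 : (l j : ℝ) ≤ l i := by exact_mod_cast h
        have h2 := pl j hj i hi h
        apply mul_nonneg <;> linarith)
    rw [hSPL, hSL, hSLL, hSP]
    have e : ∑ i ∈ s, psi l0 d (l i) * (l i : ℝ) = ∑ i ∈ s, (l i : ℝ) * psi l0 d (l i) :=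
      Finset.sum_congr rfl (fun i _ => mul_comm _ _)
    rw [e]; exact this
  have ch3 : SLL * SN ≤ SNL * SL := by
    have := cheb s (fun i => (l i : ℝ)) (fun i => NN r (l i)) (fun i => (l i : ℝ)) (by
      intro i hi j hj
      rcases le_total (l i) (l j) with h | h
      · have h1 : (l i : ℝ) ≤ l j := by exact_mod_cast h
        have h2 := NN_div (r := r) (hl i hi) h
        apply mul_nonneg_of_nonpos_of_nonpos <;> linarith
      · have h1 : (l j : ℝ) ≤ l i := by exact_mod_cast h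
        have h2 := NN_div (r := r) (hl j hj) h
        apply mul_nonneg <;> linarith)
    rw [hSLL, hSN, hSNL, hSL]
    have e : ∑ i ∈ s, NN r (l i) * (l i : ℝ) = ∑ i ∈ s, (l i : ℝ) * NN r (l i) :=
      Finset.sum_congr rfl (fun i _ => mul_comm _ _)
    rw [e]; exact this
  obtain ⟨E, hE⟩ : ∃ E, E = SNL / SL := ⟨_, rfl⟩
  have SLp : 0 < SL := by linarith
  have ESL : E * SL = SNL := by rw [hE]; field_simp
  have E0 : 0 ≤ E := by rw [hE]; positivity
  have Er : (r : ℝ) + 1 ≤ E := by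
    rw [hE, le_div_iff₀ SLp, hSL, hSNL, Finset.mul_sum]
    apply Finset.sum_le_sum
    intro i hi
    exact mul_le_mul_of_nonneg_right (Nr i hi) (by linarith [lr i hi])
  have SPX : SP ≤ X := by linarith
  have b1 : SNP ≤ E * X := by
    have h1 : SNP * SL ≤ (E * SP) * SL := by
      calc SNP * SL ≤ SNL * SP := ch1
        _ = (E * SP) * SL := by rw [← ESL]; ring
    have h2 := le_of_mul_le_mul_right h1 SLp
    calc SNP ≤ E * SP := h2
      _ ≤ E * X := by gcongr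
  have SLM : SL ≤ M := by rw [hSL]; exact hM
  have bNL : SNL ≤ E * M := by
    rw [← ESL]; gcongr
  have b2 : SN * SPL ≤ (E * M) * X := by
    have h1 : (SN * SPL) * SL ≤ (SNL * SP) * SL := by
      calc (SN * SPL) * SL = SN * (SPL * SL) := by ring
        _ ≤ SN * (SLL * SP) := by gcongr
        _ = (SLL * SN) * SP := by ring
        _ ≤ (SNL * SL) * SP := by gcongr
        _ = _ := by ring
    have h2 := le_of_mul_le_mul_right h1 SLp
    calc SN * SPL ≤ SNL * SP := h2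
      _ ≤ (E * M) * X := by gcongr
  have b3 : SN * n ≤ (E * M) * X := by
    have : n ≤ X := by linarith
    calc SN * n ≤ SNL * X := by gcongr
      _ ≤ (E * M) * X := by gcongr
  have b4 : ∑ i ∈ s, NN r (l i) * (psi l0 d (l i) + 1) ≤ 3 * (E * X) := by
    calc ∑ i ∈ s, NN r (l i) * (psi l0 d (l i) + 1) ≤ ∑ i ∈ s, 3 * (NN r (l i) * psi l0 d (l i)) := by
          apply Finset.sum_le_sum
          intro i hi
          have h1 := N0 i hi
          have h2 := psi34 i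
          have h3 := mul_nonneg h1 (by linarith : 0 ≤ 2 * psi l0 d (l i) - 1)
          have h4 : NN r (l i) * (2 * psi l0 d (l i) - 1) =
            3 * (NN r (l i) * psi l0 d (l i)) - NN r (l i) * (psi l0 d (l i) + 1) := by ring
          linarith
      _ = 3 * SNP := by rw [← Finset.mul_sum, hSNP]
      _ ≤ _ := by linarith
  have b5 : (∑ i ∈ s, if l i ≤ l0 then 1 + (1 + d * (l i : ℝ)) * t i
        else (r + 2) * (l i : ℝ) * (psi l0 d (l i) + 1) + 4 * d * (l i : ℝ) * ((l i : ℝ) - 1) / 2) ≤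
      (4 / 3 + d * l0) * X + (6 * (r + 2) / l0 + 8 * d) * (E * X) := by
    have h1 : ∀ i ∈ s, (if l i ≤ l0 then 1 + (1 + d * (l i : ℝ)) * t i
        else (r + 2) * (l i : ℝ) * (psi l0 d (l i) + 1) + 4 * d * (l i : ℝ) * ((l i : ℝ) - 1) / 2) ≤
        (1 + (1 + d * l0) * t i) + (6 * (r + 2) / l0 + 8 * d) * (NN r (l i) * psi l0 d (l i)) := by
      intro i hi
      exact term_bound (hl i hi) (ht i hi) hl0 hd hd2
    have h2 := Finset.sum_le_sum h1
    refine h2.trans ?_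
    rw [Finset.sum_add_distrib, Finset.sum_add_distrib, ← Finset.mul_sum, ← Finset.mul_sum,
      ← hSNP, ← hST]
    simp only [Finset.sum_const, nsmul_eq_mul, mul_one]
    rw [← hST] at hn
    have l0p : (0 : ℝ) < l0 := by linarith
    have h3 : (6 * ((r : ℝ) + 2) / l0 + 8 * d) * SNP ≤ (6 * (r + 2) / l0 + 8 * d) * (E * X) := by
      gcongr
    have h4 : (s.card : ℝ) + (1 + d * l0) * ST ≤ (4 / 3 + d * l0) * X := by
      have h5 : (1 + d * l0) * ST ≤ (1 + d * l0) * n := by gcongr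
      have dl : 0 ≤ d * l0 := by positivity
      have h6 := mul_nonneg dl SP0.le
      have h7 : (4 / 3 + d * l0) * X = 4 / 3 * n + 4 / 3 * SP + d * l0 * n + d * l0 * SP := by
        rw [hX]; ring
      have h8 : (1 + d * l0) * n = n + d * l0 * n := by ring
      linarith
    linarith
  -- final assembly
  rw [← hSN, ← hSPL, ← hSNL]
  have hX' : 0 ≤ h0 / X := by positivity
  have l0p : (0 : ℝ) < l0 := by linarith
  have step1 : h0 / X * (∑ i ∈ s, if l i ≤ l0 then 1 + (1 + d * (l i : ℝ)) * t i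
        else (r + 2) * (l i : ℝ) * (psi l0 d (l i) + 1) + 4 * d * (l i : ℝ) * ((l i : ℝ) - 1) / 2) ≤
      h0 * (4 / 3 + d * l0) + h0 * (6 * (r + 2) / l0 + 8 * d) * E := by
    calc _ ≤ h0 / X * ((4 / 3 + d * l0) * X + (6 * (r + 2) / l0 + 8 * d) * (E * X)) := by gcongr
      _ = _ := by field_simp
  have step2 : h0 / X * (1 / m) * (SN * ((r + 2) * SPL + n)
        + (r + 2) * M * ∑ i ∈ s, NN r (l i) * (psi l0 d (l i) + 1)) ≤
      h0 * (6 * (r + 2) * M / m) * E := by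
    have h1 : SN * ((r + 2) * SPL + n) + (r + 2) * M * ∑ i ∈ s, NN r (l i) * (psi l0 d (l i) + 1) ≤
        (6 * (r + 2)) * ((E * M) * X) := by
      have h2 : ((r : ℝ) + 2) * M * ∑ i ∈ s, NN r (l i) * (psi l0 d (l i) + 1) ≤
        ((r : ℝ) + 2) * M * (3 * (E * X)) := by gcongr
      have h3 : ((r : ℝ) + 2) * (SN * SPL) ≤ (r + 2) * ((E * M) * X) := by gcongr
      have h4 : 0 ≤ (E * M) * X := by positivity
      have h5 := mul_nonneg hr h4
      have h6 : SN * ((r + 2) * SPL + n) = (r + 2) * (SN * SPL) + SN * n := by ring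
      have h7 : ((r : ℝ) + 2) * M * (3 * (E * X)) = 3 * (r * ((E * M) * X)) + 6 * ((E * M) * X) := by
        ring
      have h8 : ((r : ℝ) + 2) * ((E * M) * X) = (r * ((E * M) * X)) + 2 * ((E * M) * X) := by
        ring
      have h9 : 6 * ((r : ℝ) + 2) * ((E * M) * X) = 6 * (r * ((E * M) * X)) +
        12 * ((E * M) * X) := by ring
      linarith
    calc _ ≤ h0 / X * (1 / m) * ((6 * (r + 2)) * ((E * M) * X)) := by gcongr
      _ = _ := by field_simp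
  have step3 : E / (12 * lM) ≤ SNL / (6 * lM * (1 + J)) := by
    rw [div_le_div_iff₀ (by positivity) (by positivity)]
    rw [← hSL] at hJ
    calc E * (6 * lM * (1 + J)) ≤ E * (6 * lM * (2 * SL)) := by gcongr; linarith
      _ = (E * SL) * (12 * lM) := by ring
      _ = _ := by rw [ESL]
  have c1 := mul_le_mul_of_nonneg_right hC1 E0
  have e1 : 1 / (48 * lM) * E = E / (48 * lM) := by ring
  have e2 : ((r : ℝ) + 1) / (48 * lM) ≤ E / (48 * lM) := by gcongr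
  have e3 : ((r : ℝ) + 1) / (24 * lM) ≤ E / (24 * lM) := by gcongr
  have e4 : E / (12 * lM) = E / (24 * lM) + E / (24 * lM) := by field_simp; ring
  have e5 : E / (24 * lM) = E / (48 * lM) + E / (48 * lM) := by field_simp; ring
  have e6 : h0 * (12 * (r + 2) / l0 + 8 * d + 6 * (r + 2) * M / m) * E =
      h0 * (6 * (r + 2) / l0 + 8 * d) * E + h0 * (6 * (r + 2) * M / m) * E +
        h0 * (6 * (r + 2) / l0) * E := by ring
  have e7 : 0 ≤ h0 * (6 * ((r : ℝ) + 2) / l0) * E := by positivity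
  have e8 : h0 * (4 + d * l0) = h0 * (4 / 3 + d * l0) + h0 + h0 * (5 / 3) := by ring
  have e9 : 0 ≤ h0 * (5 / 3) := by positivity
  linarith

end Pool.Agent.Helper120.Ea
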