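import Pool.Agent.Helper120.Ea.Idx

open Finset

namespace Pool.Agent.Helper120.Ea

theorem sum_IdxA (r : ℕ) (p : ℕ × ℕ) (h : Option ℕ × Option ℕ × ℕ → ℝ) :
    ∑ σ ∈ Idx r p, h σ = ∑ k ∈ range (r + 1), h (none, none, k) +
      ∑ i ∈ Ioc p.1 p.2, ∑ k ∈ range (r + 1), h (none, some i, k) +
      ∑ c ∈ Ico p.1 p.2, h (some c, none, 0) +
      ∑ y ∈ ((Ico p.1 p.2) ×ˢ (Ioc p.1 p.2)).filter (fun y => y.1 < y.2),
        h (some y.1, some y.2, 0) := by
  unfold Idx
  rw [Finset.sum_union, Finset.sum_union, Finset.sum_union, Finset.sum_image, Finset.sum_image,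
    Finset.sum_image, Finset.sum_image, Finset.sum_product]
  · rintro ⟨a, b⟩ _ ⟨a', b'⟩ _ he
    simp only [Prod.mk.injEq, Option.some.injEq, and_true] at he
    exact Prod.ext he.1 he.2
  · intro a _ a' _ he
    simpa using he
  · rintro ⟨a, b⟩ _ ⟨a', b'⟩ _ he
    simp only [Prod.mk.injEq, Option.some.injEq, true_and] at he
    exact Prod.ext he.1 he.2
  · intro a _ a' _ he
    simpa using he
  · rw [Finset.disjoint_left]
    intro x hx hx'
    simp only [mem_image] at hx hx'
    obtain ⟨k, _, rfl⟩ := hx
    obtain ⟨y, _, hy⟩ := hx'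
    simp at hy
  · rw [Finset.disjoint_left]
    intro x hx hx'
    simp only [mem_union, mem_image] at hx hx'
    obtain ⟨y, _, rfl⟩ := hx'
    rcases hx with ⟨z, _, hz⟩ | ⟨z, _, hz⟩ <;> simp at hz
  · rw [Finset.disjoint_left]
    intro x hx hx'
    simp only [mem_union, mem_image] at hx hx'
    obtain ⟨y, _, rfl⟩ := hx'
    rcases hx with (⟨z, _, hz⟩ | ⟨z, _, hz⟩) | ⟨z, _, hz⟩ <;> simp at hz

theorem term_leA {H X D L : ℝ} (hH : 0 ≤ H) (hX : 0 < X) (hL : 0 ≤ L) (hLX : L ≤ X)
    (h : -L ≤ D) : DD H (X + D) - DD H X ≤ L * (DD H 0 / X) := by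
  have h1 : DD H (X + D) ≤ DD H (X - L) := DD_anti hH (by linarith) (by linarith)
  have h2 := DD_chord hH hX hL hLX
  have h3 : L / X * DD H 0 = L * (DD H 0 / X) := by ring
  linarith

theorem psi_geA (l0 : ℕ) {d : ℝ} (hd : 0 < d) (l : ℕ) : 1 - d ≤ psi l0 d l := by
  unfold psi
  have := mul_nonneg hd.le (le_max_left 0 (((l : ℝ) / l0) ^ (1 / 10 : ℝ) - 1))
  linarith

theorem psi_small {l0 : ℕ} (hl0 : 3 ≤ l0) {d : ℝ} {l : ℕ} (h : l ≤ l0) :
    psi l0 d l = 1 - d := by
  unfold psi
  have h1 : ((l : ℝ) / l0) ^ (1 / 10 : ℝ) ≤ 1 := by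
    apply Real.rpow_le_one (by positivity)
    · apply div_le_one_of_le₀ (by exact_mod_cast h) (by positivity)
    · norm_num
  rw [max_eq_left (by linarith)]
  ring

theorem psi_geA2 (l0 : ℕ) {d : ℝ} (hd : 0 < d) (l : ℕ) :
    1 - 2 * d + d * ((l : ℝ) / l0) ^ (1 / 10 : ℝ) ≤ psi l0 d l := by
  unfold psi
  have := mul_le_mul_of_nonneg_left (le_max_right 0 (((l : ℝ) / l0) ^ (1 / 10 : ℝ) - 1)) hd.le
  linarith

theorem psi_big {l0 : ℕ} (hl0 : 3 ≤ l0) {d : ℝ} {l : ℕ} (h : l0 < l) :
    psi l0 d l = 1 - 2 * d + d * ((l : ℝ) / l0) ^ (1 / 10 : ℝ) := by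
  unfold psi
  have hl00 : (0 : ℝ) < l0 := by
    have : 0 < l0 := by omega
    exact_mod_cast this
  have h1 : 1 ≤ ((l : ℝ) / l0) ^ (1 / 10 : ℝ) := by
    apply Real.one_le_rpow
    · rw [le_div_iff₀ hl00, one_mul]; exact_mod_cast h.le
    · norm_num
  rw [max_eq_right (by linarith)]
  ring

/-- sum over all cuts of one interval of the change of the potential -/
theorem cut_sum {r l0 : ℕ} {d H X : ℝ} {κ : ℕ → ℕ} {p : ℕ × ℕ} (hp : p.1 ≤ p.2) (hr : 1 ≤ r)
    (hl0 : 3 ≤ l0) (hd : 0 < d) (hd2 : d ≤ 1 / 4) (hH : 0 ≤ H)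
    (hX : psi l0 d (p.2 - p.1 + 1) + (((Ioc p.1 p.2).filter fun i => κ i ≠ 0).card : ℝ) ≤ X) :
    ∑ σ ∈ Idx r p, (DD H (X + dX l0 d κ p σ) - DD H X) ≤ DD H 0 / X *
      (if p.2 - p.1 + 1 ≤ l0 then
        1 + (1 + d * ((p.2 - p.1 + 1 : ℕ) : ℝ)) * (((Ioc p.1 p.2).filter fun i => κ i ≠ 0).card : ℝ)
      else (r + 2) * ((p.2 - p.1 + 1 : ℕ) : ℝ) * (psi l0 d (p.2 - p.1 + 1) + 1)
        + 4 * d * ((p.2 - p.1 + 1 : ℕ) : ℝ) * (((p.2 - p.1 + 1 : ℕ) : ℝ) - 1) / 2) := by
  obtain ⟨a, b⟩ := p
  simp only at hp hX ⊢
  set l := b - a + 1 with hl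
  set T := (Ioc a b).filter (fun i => κ i ≠ 0) with hT
  have ht0 : (0 : ℝ) ≤ T.card := Nat.cast_nonneg _
  have hψ := psi_geA l0 hd l
  have hX0 : 0 < X := by linarith
  have hψX : psi l0 d l ≤ X := by linarith
  have hD0 : 0 ≤ DD H 0 := DD_nonneg hH le_rfl
  set B := DD H 0 / X with hB
  have hB0 : 0 ≤ B := by positivity
  have hκX : ∀ i ∈ Ioc a b, κ i ≠ 0 → psi l0 d l + 1 ≤ X := by
    intro i hi hk
    have h1 : 1 ≤ T.card := by
      rw [Nat.succ_le_iff, Finset.card_pos]
      exact ⟨i, mem_filter.mpr ⟨hi, hk⟩⟩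
    have h2 : (1 : ℝ) ≤ T.card := by exact_mod_cast h1
    linarith
  rw [sum_IdxA]
  simp only
  have hlen : ((Ico a b).card : ℝ) = (l : ℝ) - 1 := by
    rw [Nat.card_Ico, hl]; push_cast; ring
  have hlen' : ((Ioc a b).card : ℝ) = (l : ℝ) - 1 := by
    rw [Nat.card_Ioc, hl]; push_cast; ring
  by_cases hcase : l ≤ l0
  · rw [if_pos hcase]
    have e0 : psi l0 d l = 1 - d := psi_small hl0 hcase
    have T1 : ∑ k ∈ range (r + 1), (DD H (X + dX l0 d κ (a, b) (none, none, k)) - DD H X) ≤ B := by
      have : ∀ k ∈ range (r + 1), DD H (X + dX l0 d κ (a, b) (none, none, k)) - DD H X ≤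
          if k = 0 then B else 0 := by
        intro k _
        by_cases hk : k = 0
        · subst hk
          rw [if_pos rfl]
          have h1 := term_leA (D := dX l0 d κ (a, b) (none, none, 0)) (L := 1 - d) hH hX0
            (by linarith) (by linarith) (by
              simp only [dX, Option.elim]
              rw [← hl, e0]; simp)
          refine h1.trans ?_
          nlinarith
        · rw [if_neg hk]
          have h1 := term_leA (D := dX l0 d κ (a, b) (none, none, k)) (L := 0) hH hX0
            le_rfl hX0.le (by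
              simp only [dX, Option.elim]
              rw [← hl, e0, if_neg hk]; linarith)
          linarith
      refine (Finset.sum_le_sum this).trans ?_
      rw [Finset.sum_ite_eq' (range (r + 1)) 0 (fun _ => B)]
      simp
    have T2 : ∑ i ∈ Ioc a b, ∑ k ∈ range (r + 1),
        (DD H (X + dX l0 d κ (a, b) (none, some i, k)) - DD H X) ≤ T.card * B := by
      have : ∀ i ∈ Ioc a b, ∑ k ∈ range (r + 1),
          (DD H (X + dX l0 d κ (a, b) (none, some i, k)) - DD H X) ≤
          if κ i ≠ 0 then B else 0 := by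
        intro i hi
        have hi' := mem_Ioc.mp hi
        have ei : psi l0 d (b - i + 1) = 1 - d := psi_small hl0 (by omega)
        by_cases hk : κ i = 0
        · rw [if_neg (not_not.mpr hk)]
          apply Finset.sum_nonpos
          intro k _
          have h1 := term_leA (D := dX l0 d κ (a, b) (none, some i, k)) (L := 0) hH hX0
            le_rfl hX0.le (by
              simp only [dX, Option.elim]
              rw [← hl, e0, ei, if_pos hk]
              split_ifs <;> linarith)
          linarith
        · rw [if_pos hk]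
          have : ∀ k ∈ range (r + 1), DD H (X + dX l0 d κ (a, b) (none, some i, k)) - DD H X ≤
              if k = 0 then B else 0 := by
            intro k _
            by_cases hk0 : k = 0
            · subst hk0
              rw [if_pos rfl]
              have h1 := term_leA (D := dX l0 d κ (a, b) (none, some i, 0)) (L := 1) hH hX0
                (by linarith) (by have := hκX i hi hk; linarith) (by
                  simp only [dX, Option.elim]
                  rw [← hl, e0, ei, if_neg hk]; simp)
              linarith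
            · rw [if_neg hk0]
              have h1 := term_leA (D := dX l0 d κ (a, b) (none, some i, k)) (L := 0) hH hX0
                le_rfl hX0.le (by
                  simp only [dX, Option.elim]
                  rw [← hl, e0, ei, if_neg hk, if_neg hk0]; linarith)
              linarith
          refine (Finset.sum_le_sum this).trans ?_
          rw [Finset.sum_ite_eq' (range (r + 1)) 0 (fun _ => B)]
          simp
      refine (Finset.sum_le_sum this).trans ?_
      rw [← Finset.sum_filter, Finset.sum_const, nsmul_eq_mul]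
    have T3 : ∑ c ∈ Ico a b, (DD H (X + dX l0 d κ (a, b) (some c, none, 0)) - DD H X) ≤ 0 := by
      apply Finset.sum_nonpos
      intro c hc
      have hc' := mem_Ico.mp hc
      have ec : psi l0 d (c - a + 1) = 1 - d := psi_small hl0 (by omega)
      have h1 := term_leA (D := dX l0 d κ (a, b) (some c, none, 0)) (L := 0) hH hX0
        le_rfl hX0.le (by
          simp only [dX, Option.elim]
          rw [← hl, e0, ec]; linarith)
      linarith
    have T4 : ∑ y ∈ ((Ico a b) ×ˢ (Ioc a b)).filter (fun y => y.1 < y.2),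
        (DD H (X + dX l0 d κ (a, b) (some y.1, some y.2, 0)) - DD H X) ≤
        ((l : ℝ) - 1) * (T.card * (d * B)) := by
      have hdX : d ≤ X := by linarith
      have : ∀ y ∈ ((Ico a b) ×ˢ (Ioc a b)).filter (fun y => y.1 < y.2),
          (DD H (X + dX l0 d κ (a, b) (some y.1, some y.2, 0)) - DD H X) ≤
          if κ y.2 ≠ 0 then d * B else 0 := by
        rintro ⟨c, i⟩ hy
        simp only [mem_filter, mem_product, mem_Ico, mem_Ioc] at hy
        have ec : psi l0 d (c - a + 1) = 1 - d := psi_small hl0 (by omega)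
        have ei : psi l0 d (b - i + 1) = 1 - d := psi_small hl0 (by omega)
        simp only
        by_cases hk : κ i = 0
        · rw [if_neg (not_not.mpr hk)]
          have h1 := term_leA (D := dX l0 d κ (a, b) (some c, some i, 0)) (L := 0) hH hX0
            le_rfl hX0.le (by
              simp only [dX, Option.elim]
              rw [← hl, e0, ec, ei, if_pos hk]; linarith)
          linarith
        · rw [if_pos hk]
          exact term_leA (D := dX l0 d κ (a, b) (some c, some i, 0)) (L := d) hH hX0
            hd.le hdX (by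
              simp only [dX, Option.elim]
              rw [← hl, e0, ec, ei, if_neg hk]; linarith)
      refine (Finset.sum_le_sum this).trans ?_
      refine (Finset.sum_le_sum_of_subset_of_nonneg (Finset.filter_subset _ _) (by
        intro y _ _
        split_ifs
        · exact mul_nonneg hd.le hB0
        · exact le_rfl)).trans ?_
      rw [Finset.sum_product]
      have e5 : ∀ x ∈ Ico a b, ∑ i ∈ Ioc a b, (if κ (x, i).2 ≠ 0 then d * B else 0) =
          (T.card : ℝ) * (d * B) := by
        intro x _
        simp only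
        rw [← Finset.sum_filter, Finset.sum_const, nsmul_eq_mul]
      rw [Finset.sum_congr rfl e5, Finset.sum_const, nsmul_eq_mul, hlen]
    have hl1 : (0:ℝ) ≤ (T.card : ℝ) * (d * B) := by positivity
    have expand : B * (1 + (1 + d * (l : ℝ)) * (T.card : ℝ)) =
        B + T.card * B + (l : ℝ) * (T.card * (d * B)) := by ring
    rw [expand]
    have : ((l : ℝ) - 1) * (T.card * (d * B)) ≤ (l : ℝ) * (T.card * (d * B)) := by
      apply mul_le_mul_of_nonneg_right _ hl1
      linarith
    linarith
  · rw [if_neg hcase]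
    push Not at hcase
    have hl3 : 3 ≤ l := by omega
    have hl0pos : (0:ℝ) < l0 := by
      have : 0 < l0 := by omega
      exact_mod_cast this
    have hlpos : (0:ℝ) < l := by
      have : 0 < l := by omega
      exact_mod_cast this
    set P := psi l0 d l with hP
    have hP0 : 0 ≤ P := by linarith
    set G := d * ((l : ℝ) / l0) ^ (1 / 10 : ℝ) with hG
    have hG0 : 0 ≤ G := by positivity
    have hPG : P = 1 - 2 * d + G := psi_big hl0 hcase
    have T1 : ∑ k ∈ range (r + 1), (DD H (X + dX l0 d κ (a, b) (none, none, k)) - DD H X) ≤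
        (r + 1) * ((P + 1) * B) := by
      have : ∀ k ∈ range (r + 1), DD H (X + dX l0 d κ (a, b) (none, none, k)) - DD H X ≤
          (P + 1) * B := by
        intro k _
        have h1 := term_leA (D := dX l0 d κ (a, b) (none, none, k)) (L := P) hH hX0
          hP0 hψX (by
            simp only [dX, Option.elim]
            rw [← hl, ← hP]
            split_ifs <;> linarith)
        refine h1.trans ?_
        nlinarith
      refine (Finset.sum_le_sum this).trans ?_
      rw [Finset.sum_const, card_range, nsmul_eq_mul]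
      push_cast
      exact le_rfl
    have T2 : ∑ i ∈ Ioc a b, ∑ k ∈ range (r + 1),
        (DD H (X + dX l0 d κ (a, b) (none, some i, k)) - DD H X) ≤
        ((l : ℝ) - 1) * ((r + 1) * ((P + 1) * B)) := by
      have : ∀ i ∈ Ioc a b, ∑ k ∈ range (r + 1),
          (DD H (X + dX l0 d κ (a, b) (none, some i, k)) - DD H X) ≤
          (r + 1) * ((P + 1) * B) := by
        intro i hi
        have hψi := psi_geA l0 hd (b - i + 1)
        have : ∀ k ∈ range (r + 1), DD H (X + dX l0 d κ (a, b) (none, some i, k)) - DD H X ≤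
            (P + 1) * B := by
          intro k _
          by_cases hk : κ i = 0
          · have h1 := term_leA (D := dX l0 d κ (a, b) (none, some i, k)) (L := P) hH hX0
              hP0 hψX (by
                simp only [dX, Option.elim]
                rw [← hl, ← hP, if_pos hk]
                split_ifs <;> linarith)
            refine h1.trans ?_
            nlinarith
          · exact term_leA (D := dX l0 d κ (a, b) (none, some i, k)) (L := P + 1) hH hX0
              (by linarith) (hκX i hi hk) (by
                simp only [dX, Option.elim]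
                rw [← hl, ← hP, if_neg hk]
                split_ifs <;> linarith)
        refine (Finset.sum_le_sum this).trans ?_
        rw [Finset.sum_const, card_range, nsmul_eq_mul]
        push_cast
        exact le_rfl
      refine (Finset.sum_le_sum this).trans ?_
      rw [Finset.sum_const, nsmul_eq_mul, hlen']
    have T3 : ∑ c ∈ Ico a b, (DD H (X + dX l0 d κ (a, b) (some c, none, 0)) - DD H X) ≤
        ((l : ℝ) - 1) * ((P + 1) * B) := by
      have : ∀ c ∈ Ico a b, (DD H (X + dX l0 d κ (a, b) (some c, none, 0)) - DD H X) ≤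
          (P + 1) * B := by
        intro c _
        have hψc := psi_geA l0 hd (c - a + 1)
        have h1 := term_leA (D := dX l0 d κ (a, b) (some c, none, 0)) (L := P) hH hX0
          hP0 hψX (by
            simp only [dX, Option.elim]
            rw [← hl, ← hP]
            linarith)
        refine h1.trans ?_
        nlinarith
      refine (Finset.sum_le_sum this).trans ?_
      rw [Finset.sum_const, nsmul_eq_mul, hlen]
    have T4 : ∑ y ∈ ((Ico a b) ×ˢ (Ioc a b)).filter (fun y => y.1 < y.2),
        (DD H (X + dX l0 d κ (a, b) (some y.1, some y.2, 0)) - DD H X) ≤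
        4 * d * DD H 0 / X * ((spl l).card : ℝ) := by
      refine le_trans ?_ (split_sum hl3 hH hd.le hG0 hX0 (by linarith))
      refine le_trans (Finset.sum_le_sum (g := fun y : ℕ × ℕ =>
        (DD H (X + G * ((((y.1 - a : ℕ) : ℝ) + 1) / l) ^ (1 / 10 : ℝ) +
          G * ((((b - y.2 : ℕ) : ℝ) + 1) / l) ^ (1 / 10 : ℝ) - G - 2 * d) - DD H X)) ?_) ?_
      · rintro ⟨c, i⟩ hy
        simp only [mem_filter, mem_product, mem_Ico, mem_Ioc] at hy
        simp only
        have hw1 : 0 ≤ ((((c - a : ℕ) : ℝ) + 1) / l) ^ (1 / 10 : ℝ) := by positivity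
        have hw2 : 0 ≤ ((((b - i : ℕ) : ℝ) + 1) / l) ^ (1 / 10 : ℝ) := by positivity
        have hs : ∀ u : ℕ, (((u + 1 : ℕ) : ℝ) / l0) ^ (1 / 10 : ℝ) =
            (((u : ℝ) + 1) / l) ^ (1 / 10 : ℝ) * ((l : ℝ) / l0) ^ (1 / 10 : ℝ) := by
          intro u
          rw [← Real.mul_rpow (by positivity) (by positivity)]
          congr 1
          push_cast
          field_simp
        have h1 := psi_geA2 l0 hd (c - a + 1)
        have h2 := psi_geA2 l0 hd (b - i + 1)
        rw [hs] at h1 h2
        have hdX : G * ((((c - a : ℕ) : ℝ) + 1) / l) ^ (1 / 10 : ℝ) +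
          G * ((((b - i : ℕ) : ℝ) + 1) / l) ^ (1 / 10 : ℝ) - G - 2 * d ≤
            dX l0 d κ (a, b) (some c, some i, 0) := by
          simp only [dX, Option.elim]
          rw [← hl, ← hP, hPG]
          have h3 : (if κ i = 0 then (0:ℝ) else 1) ≤ 1 := by split_ifs <;> norm_num
          have e1 : G * ((((c - a : ℕ) : ℝ) + 1) / l) ^ (1 / 10 : ℝ) =
            d * (((((c - a : ℕ) : ℝ) + 1) / l) ^ (1 / 10 : ℝ) * ((l : ℝ) / l0) ^ (1 / 10 : ℝ)) := by
            rw [hG]; ring
          have e2 : G * ((((b - i : ℕ) : ℝ) + 1) / l) ^ (1 / 10 : ℝ) =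
            d * (((((b - i : ℕ) : ℝ) + 1) / l) ^ (1 / 10 : ℝ) * ((l : ℝ) / l0) ^ (1 / 10 : ℝ)) := by
            rw [hG]; ring
          rw [e1, e2]
          linarith
        have h4 : DD H (X + dX l0 d κ (a, b) (some c, some i, 0)) ≤
            DD H (X + G * ((((c - a : ℕ) : ℝ) + 1) / l) ^ (1 / 10 : ℝ) +
          G * ((((b - i : ℕ) : ℝ) + 1) / l) ^ (1 / 10 : ℝ) - G - 2 * d) := by
          apply DD_anti hH
          · have g1 := mul_nonneg hG0 hw1
            have g2 := mul_nonneg hG0 hw2
            linarith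
          · linarith
        linarith
      · apply le_of_eq
        refine Finset.sum_bij' (fun y _ => (y.1 - a, b - y.2)) (fun u _ => (a + u.1, b - u.2))
          ?_ ?_ ?_ ?_ ?_
        · rintro ⟨c, i⟩ hy
          simp only [mem_filter, mem_product, mem_Ico, mem_Ioc] at hy
          simp only [spl, mem_filter, mem_product, mem_range]
          omega
        · rintro ⟨u, v⟩ hy
          simp only [spl, mem_filter, mem_product, mem_range] at hy
          simp only [mem_filter, mem_product, mem_Ico, mem_Ioc]
          omega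
        · rintro ⟨c, i⟩ hy
          simp only [mem_filter, mem_product, mem_Ico, mem_Ioc] at hy
          simp only [Prod.mk.injEq]
          omega
        · rintro ⟨u, v⟩ hy
          simp only [spl, mem_filter, mem_product, mem_range] at hy
          simp only [Prod.mk.injEq]
          omega
        · rintro ⟨c, i⟩ hy
          simp only
          congr 2
          ring
    have h8 : (2 : ℝ) * ((spl l).card : ℝ) = l * (l - 1) := by
      have := card_spl l
      have h9 : ((2 * (spl l).card : ℕ) : ℝ) = ((l * (l - 1) : ℕ) : ℝ) := by rw [this]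
      push_cast [Nat.cast_sub (show 1 ≤ l by omega)] at h9
      exact h9
    have h10 : 4 * d * DD H 0 / X * ((spl l).card : ℝ) = B * (4 * d * (l : ℝ) * ((l : ℝ) - 1) / 2) := by
      have : ((spl l).card : ℝ) = (l : ℝ) * (l - 1) / 2 := by linarith
      rw [this, hB]; ring
    rw [h10] at T4
    have hPB : 0 ≤ (P + 1) * B := by positivity
    have expand : B * (((r : ℝ) + 2) * (l : ℝ) * (P + 1) + 4 * d * (l : ℝ) * ((l : ℝ) - 1) / 2) =
        (r + 1) * ((P + 1) * B) + ((l : ℝ) - 1) * ((r + 1) * ((P + 1) * B)) +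
        ((l : ℝ) - 1) * ((P + 1) * B) + (P + 1) * B +
        B * (4 * d * (l : ℝ) * ((l : ℝ) - 1) / 2) := by ring
    rw [expand]
    linarith

end Pool.Agent.Helper120.Ea
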