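import Pool.Agent.Helper120.Ea.Defs2


open Finset

namespace Pool.Agent.Helper120.Ea

section blk
open Classical

variable {M r : ℕ}

lemma mem_Idx {p : ℕ × ℕ} {σ : Option ℕ × Option ℕ × ℕ} : σ ∈ Idx r p ↔
    (∃ k, k ≤ r ∧ σ = (none, none, k)) ∨
    (∃ i k, p.1 < i ∧ i ≤ p.2 ∧ k ≤ r ∧ σ = (none, some i, k)) ∨
    (∃ c, p.1 ≤ c ∧ c < p.2 ∧ σ = (some c, none, 0)) ∨
    (∃ c i, p.1 ≤ c ∧ c < p.2 ∧ p.1 < i ∧ i ≤ p.2 ∧ c < i ∧ σ = (some c, some i, 0)) := by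
  unfold Idx
  simp only [mem_union, mem_image, mem_range, mem_product, mem_Ioc, mem_Ico, mem_filter]
  constructor
  · rintro (((⟨k, hk, rfl⟩ | ⟨⟨i, k⟩, ⟨⟨h1, h2⟩, h3⟩, rfl⟩) | ⟨c, ⟨h1, h2⟩, rfl⟩) |
      ⟨⟨c, i⟩, ⟨⟨⟨h1, h2⟩, h3, h4⟩, h5⟩, rfl⟩)
    · exact Or.inl ⟨k, by omega, rfl⟩
    · exact Or.inr (Or.inl ⟨i, k, h1, h2, by simp only at h3; omega, rfl⟩)
    · exact Or.inr (Or.inr (Or.inl ⟨c, h1, h2, rfl⟩))
    · exact Or.inr (Or.inr (Or.inr ⟨c, i, h1, h2, h3, h4, h5, rfl⟩))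
  · rintro (⟨k, hk, rfl⟩ | ⟨i, k, h1, h2, h3, rfl⟩ | ⟨c, h1, h2, rfl⟩ | ⟨c, i, h1, h2, h3, h4, h5, rfl⟩)
    · exact Or.inl (Or.inl (Or.inl ⟨k, by omega, rfl⟩))
    · exact Or.inl (Or.inl (Or.inr ⟨(i, k), ⟨⟨h1, h2⟩, by simp only; omega⟩, rfl⟩))
    · exact Or.inl (Or.inr ⟨c, ⟨h1, h2⟩, rfl⟩)
    · exact Or.inr ⟨(c, i), ⟨⟨⟨h1, h2⟩, h3, h4⟩, h5⟩, rfl⟩

lemma toBE_val (hM : 0 < M) {x : ℕ × ℕ} (h1 : x.1 < M) (h2 : x.2 < r + 2) :
    (((toBE hM x : BE M r).1.val, (toBE hM x : BE M r).2.val) : ℕ × ℕ) = x := by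
  unfold toBE
  simp only [Nat.mod_eq_of_lt h1, Nat.mod_eq_of_lt h2]

lemma rmE_bd {κ : ℕ → ℕ} (hκ : ∀ j, κ j ≤ r) {p : ℕ × ℕ} (hp : p.1 ≤ p.2) {c i : Option ℕ}
    (hA : Adm p c i) : p.1 ≤ (rmE κ p i r).1 ∧ (rmE κ p i r).1 ≤ p.2 ∧ (rmE κ p i r).2 < r + 2 := by
  unfold rmE
  rcases i with _ | i
  · simp only [Option.elim_none]; omega
  · have h1 := hA.2.1 i rfl
    have h2 := hκ i
    simp only [Option.elim_some]; omega

lemma adE_bd {p : ℕ × ℕ} (hp : p.1 ≤ p.2) {c i : Option ℕ} {k : ℕ} (hk : k ≤ r)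
    (hA : Adm p c i) : p.1 ≤ (adE p c k r).1 ∧ (adE p c k r).1 ≤ p.2 ∧ (adE p c k r).2 < r + 2 := by
  unfold adE
  rcases c with _ | c
  · simp only [Option.elim_none]; omega
  · have h1 := hA.1 c rfl
    simp only [Option.elim_some]; omega

theorem Adm_of_Idx {p : ℕ × ℕ} (hp : p.1 ≤ p.2) {σ : Option ℕ × Option ℕ × ℕ} (hσ : σ ∈ Idx r p) :
    Adm p σ.1 σ.2.1 ∧ σ.2.2 ≤ r := by
  rw [mem_Idx] at hσ
  rcases hσ with ⟨k, hk, rfl⟩ | ⟨i, k, h1, h2, h3, rfl⟩ | ⟨c, h1, h2, rfl⟩ |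
    ⟨c, i, h1, h2, h3, h4, h5, rfl⟩
  · refine ⟨⟨?_, ?_, ?_⟩, hk⟩
    · intro x hx; simp at hx
    · intro x hx; simp at hx
    · intro x y hx; simp at hx
  · refine ⟨⟨?_, ?_, ?_⟩, h3⟩
    · intro x hx; simp at hx
    · intro x hx
      simp only [Option.some.injEq] at hx
      subst hx
      exact ⟨h1, h2⟩
    · intro x y hx; simp at hx
  · refine ⟨⟨?_, ?_, ?_⟩, by simp⟩
    · intro x hx
      simp only [Option.some.injEq] at hx
      subst hx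
      exact ⟨h1, h2⟩
    · intro x hx; simp at hx
    · intro x y _ hy; simp at hy
  · refine ⟨⟨?_, ?_, ?_⟩, by simp⟩
    · intro x hx
      simp only [Option.some.injEq] at hx
      subst hx
      exact ⟨h1, h2⟩
    · intro x hx
      simp only [Option.some.injEq] at hx
      subst hx
      exact ⟨h3, h4⟩
    · intro x y hx hy
      simp only [Option.some.injEq] at hx hy
      subst hx hy
      exact h5

theorem swp_eq (hM : 0 < M) {R : Finset (ℕ × ℕ)} {κ : ℕ → ℕ} (hV : Valid M R)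
    (hκ : ∀ j, κ j ≤ r) {p : ℕ × ℕ} (hp : p ∈ R) {σ : Option ℕ × Option ℕ × ℕ}
    (hσ : σ ∈ Idx r p) :
    fE hM κ p σ ∈ enc M r R κ ∧ (gE hM p σ : BE M r) ∉ enc M r R κ ∧
    swp hM κ (enc M r R κ) p σ = enc M r (newR R p σ.1 σ.2.1) (newκ κ p σ.1 σ.2.2) ∧
    p.1 ≤ (gE hM p σ : BE M r).1.val ∧ (gE hM p σ : BE M r).1.val ≤ p.2 ∧
    p.1 ≤ (fE hM κ p σ : BE M r).1.val ∧ (fE hM κ p σ : BE M r).1.val ≤ p.2 := by
  have hple := hV.le p hp
  have hplt := hV.lt p hp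
  obtain ⟨hA, hk⟩ := Adm_of_Idx hple hσ
  obtain ⟨r1, r2, r3⟩ := rmE_bd hκ hple hA
  obtain ⟨a1, a2, a3⟩ := adE_bd hple hk hA
  have hf : ((fE hM κ p σ : BE M r).1.val, (fE hM κ p σ : BE M r).2.val) = rmE κ p σ.2.1 r :=
    toBE_val hM (by omega) r3
  have hg : ((gE hM p σ : BE M r).1.val, (gE hM p σ : BE M r).2.val) = adE p σ.1 σ.2.2 r :=
    toBE_val hM (by omega) a3
  have hf1 : (fE hM κ p σ : BE M r).1.val = (rmE κ p σ.2.1 r).1 := congrArg Prod.fst hf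
  have hf2 : (fE hM κ p σ : BE M r).2.val = (rmE κ p σ.2.1 r).2 := congrArg Prod.snd hf
  have hg1 : (gE hM p σ : BE M r).1.val = (adE p σ.1 σ.2.2 r).1 := congrArg Prod.fst hg
  have hg2 : (gE hM p σ : BE M r).2.val = (adE p σ.1 σ.2.2 r).2 := congrArg Prod.snd hg
  refine ⟨?_, ?_, swap_enc hV hκ hp hA hk hf hg, ?_, ?_, ?_, ?_⟩
  · rw [mem_enc, hf1, hf2]
    unfold rmE
    rcases hi : σ.2.1 with _ | i
    · left
      simp only [Option.elim_none]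
      exact ⟨trivial, p, hp, rfl⟩
    · right
      have h1 := hA.2.1 i hi
      simp only [Option.elim_some]
      exact ⟨trivial, hκ i, hV.no_start_inside hp h1.1 h1.2⟩
  · rw [mem_enc, hg1, hg2]
    unfold adE
    rcases hc : σ.1 with _ | c
    · simp only [Option.elim_none]
      rintro (h | h)
      · omega
      · exact h.2.2 p hp rfl
    · have h1 := hA.1 c hc
      simp only [Option.elim_some]
      rintro (h | h)
      · exact hV.no_end_inside hp h1.1 h1.2 h.2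
      · omega
  · rw [hg1]; exact a1
  · rw [hg1]; exact a2
  · rw [hf1]; exact r1
  · rw [hf1]; exact r2

theorem swp_inj (hM : 0 < M) {R : Finset (ℕ × ℕ)} {κ : ℕ → ℕ} (hV : Valid M R)
    (hκ : ∀ j, κ j ≤ r) {p p' : ℕ × ℕ} (hp : p ∈ R) (hp' : p' ∈ R)
    {σ σ' : Option ℕ × Option ℕ × ℕ} (hσ : σ ∈ Idx r p) (hσ' : σ' ∈ Idx r p')
    (h : swp hM κ (enc M r R κ) p σ = swp hM κ (enc M r R κ) p' σ') : p = p' ∧ σ = σ' := by
  obtain ⟨f1, g1, _, gl, gr, fl, fr⟩ := swp_eq hM hV hκ hp hσ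
  obtain ⟨f1', g1', _, gl', gr', fl', fr'⟩ := swp_eq hM hV hκ hp' hσ'
  have hg : (gE hM p σ : BE M r) = gE hM p' σ' := by
    have h1 : (gE hM p σ : BE M r) ∈ swp hM κ (enc M r R κ) p' σ' := by
      rw [← h]; exact mem_insert_self _ _
    unfold swp at h1
    rw [mem_insert] at h1
    rcases h1 with h1 | h1
    · exact h1
    · exact absurd (mem_of_mem_erase h1) g1
  have hf : (fE hM κ p σ : BE M r) = fE hM κ p' σ' := by
    by_contra hne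
    have h1 : (fE hM κ p σ : BE M r) ∈ swp hM κ (enc M r R κ) p' σ' := by
      unfold swp
      rw [mem_insert]
      right
      exact mem_erase.mpr ⟨hne, f1⟩
    rw [← h] at h1
    unfold swp at h1
    rw [mem_insert] at h1
    rcases h1 with h1 | h1
    · exact g1 (h1 ▸ f1)
    · exact (notMem_erase _ _) h1
  have hpp : p = p' := hV.eq_of_overlap hp hp' (by rw [hg] at gl; omega) (by rw [hg] at gr; omega)
  refine ⟨hpp, ?_⟩
  subst hpp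
  have hple := hV.le p hp
  have hplt := hV.lt p hp
  obtain ⟨hA, hk⟩ := Adm_of_Idx hple hσ
  obtain ⟨hA', hk'⟩ := Adm_of_Idx hple hσ'
  obtain ⟨r1, r2, r3⟩ := rmE_bd hκ hple hA
  obtain ⟨a1, a2, a3⟩ := adE_bd hple hk hA
  obtain ⟨r1', r2', r3'⟩ := rmE_bd hκ hple hA'
  obtain ⟨a1', a2', a3'⟩ := adE_bd hple hk' hA'
  have ef : rmE κ p σ.2.1 r = rmE κ p σ'.2.1 r := by
    rw [← toBE_val hM (x := rmE κ p σ.2.1 r) (by omega) r3,
      ← toBE_val hM (x := rmE κ p σ'.2.1 r) (by omega) r3']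
    unfold fE at hf
    rw [hf]
  have eg : adE p σ.1 σ.2.2 r = adE p σ'.1 σ'.2.2 r := by
    rw [← toBE_val hM (x := adE p σ.1 σ.2.2 r) (by omega) a3,
      ← toBE_val hM (x := adE p σ'.1 σ'.2.2 r) (by omega) a3']
    unfold gE at hg
    rw [hg]
  rw [mem_Idx] at hσ hσ'
  unfold rmE at ef
  unfold adE at eg
  rcases hσ with ⟨k, h0, rfl⟩ | ⟨i, k, h1, h2, h3, rfl⟩ | ⟨c, h1, h2, rfl⟩ |
    ⟨c, i, h1, h2, h3, h4, h5, rfl⟩ <;>
  rcases hσ' with ⟨k', h0', rfl⟩ | ⟨i', k', h1', h2', h3', rfl⟩ | ⟨c', h1', h2', rfl⟩ |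
    ⟨c', i', h1', h2', h3', h4', h5', rfl⟩ <;>
  simp only [Option.elim_none, Option.elim_some, Prod.mk.injEq, reduceCtorEq, Option.some.injEq,
    true_and, and_true, false_and, and_false] at ef eg ⊢
  all_goals first
    | omega
    | (have := hκ i; omega)
    | (have := hκ i'; omega)

/-- exchange lemma in terms of cuts -/
theorem exists_cut (hM : 0 < M) {R R' : Finset (ℕ × ℕ)} {κ κ' : ℕ → ℕ} (hV : Valid M R)
    (hV' : Valid M R') (hκ : ∀ j, κ j ≤ r) (hκ' : ∀ j, κ' j ≤ r) (hne : R' ≠ R)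
    (hJ : JJ (enc M r R' κ') ≤ JJ (enc M r R κ)) :
    ∃ p ∈ R, ∃ σ ∈ Idx r p, fE hM κ p σ ∈ enc M r R κ ∧ fE hM κ p σ ∉ enc M r R' κ' ∧
      (gE hM p σ : BE M r) ∉ enc M r R κ ∧ (gE hM p σ : BE M r) ∈ enc M r R' κ' := by
  unfold JJ at hJ
  rw [runs_enc hV hκ, runs_enc hV' hκ'] at hJ
  obtain ⟨p, hp, c, i, k, f, g, hA, hk, hf, hg, h1, h2, h3, h4⟩ := exchange hV hV' hκ hκ' hne hJ
  have hple := hV.le p hp
  have hplt := hV.lt p hp
  set k' : ℕ := c.elim k fun _ => 0 with hk'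
  have hk'r : k' ≤ r := by
    rw [hk']
    rcases c with _ | c
    · exact hk
    · simp
  have hadE : adE p c k' r = adE p c k r := by
    rw [hk']
    unfold adE
    rcases c with _ | c
    · rfl
    · rfl
  have hmem : ((c, i, k') : Option ℕ × Option ℕ × ℕ) ∈ Idx r p := by
    rw [mem_Idx]
    rcases c with _ | c <;> rcases i with _ | i
    · exact Or.inl ⟨k, hk, rfl⟩
    · have := hA.2.1 i rfl
      exact Or.inr (Or.inl ⟨i, k, this.1, this.2, hk, rfl⟩)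
    · have := hA.1 c rfl
      exact Or.inr (Or.inr (Or.inl ⟨c, this.1, this.2, rfl⟩))
    · have h5 := hA.1 c rfl
      have h6 := hA.2.1 i rfl
      have h7 := hA.2.2 c i rfl rfl
      exact Or.inr (Or.inr (Or.inr ⟨c, i, h5.1, h5.2, h6.1, h6.2, h7, rfl⟩))
  obtain ⟨r1, r2, r3⟩ := rmE_bd hκ hple hA
  obtain ⟨a1, a2, a3⟩ := adE_bd hple hk'r hA
  have hf' : (fE hM κ p (c, i, k') : BE M r) = f := by
    have e1 : ((fE hM κ p (c, i, k') : BE M r).1.val, (fE hM κ p (c, i, k') : BE M r).2.val)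
        = rmE κ p i r := toBE_val hM (x := rmE κ p i r) (lt_of_le_of_lt r2 hplt) r3
    rw [← hf] at e1
    rw [be_eq_iff]
    exact ⟨congrArg Prod.fst e1, congrArg Prod.snd e1⟩
  have hg' : (gE hM p (c, i, k') : BE M r) = g := by
    have e1 : ((gE hM p (c, i, k') : BE M r).1.val, (gE hM p (c, i, k') : BE M r).2.val)
        = adE p c k' r := toBE_val hM (x := adE p c k' r) (lt_of_le_of_lt a2 hplt) a3
    rw [hadE, ← hg] at e1
    rw [be_eq_iff]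
    exact ⟨congrArg Prod.fst e1, congrArg Prod.snd e1⟩
  refine ⟨p, hp, (c, i, k'), hmem, ?_, ?_, ?_, ?_⟩
  · rw [hf']; exact h1
  · rw [hf']; exact h2
  · rw [hg']; exact h3
  · rw [hg']; exact h4

end blk

end Pool.Agent.Helper120.Ea
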