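import Pool.Agent.Helper120.Ea.Anal

open Finset

namespace Pool.Agent.Helper120.Ea

/-- all cuts of the interval `p` (with the copy used when the start is closed) -/
def Idx (r : ℕ) (p : ℕ × ℕ) : Finset (Option ℕ × Option ℕ × ℕ) :=
  (range (r + 1)).image (fun k => (none, none, k)) ∪
  ((Ioc p.1 p.2) ×ˢ range (r + 1)).image (fun y => (none, some y.1, y.2)) ∪
  (Ico p.1 p.2).image (fun c => (some c, none, 0)) ∪
  (((Ico p.1 p.2) ×ˢ (Ioc p.1 p.2)).filter (fun y => y.1 < y.2)).image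
    (fun y => (some y.1, some y.2, 0))

/-- weight of a defect interval with `l` positions -/
noncomputable def psi (l0 : ℕ) (d : ℝ) (l : ℕ) : ℝ :=
  (1 - d) + d * max 0 (((l : ℝ) / l0) ^ (1 / 10 : ℝ) - 1)

/-- change of the weight of defects caused by the cut `σ` of the interval `p` -/
noncomputable def dX (l0 : ℕ) (d : ℝ) (κ : ℕ → ℕ) (p : ℕ × ℕ) (σ : Option ℕ × Option ℕ × ℕ) : ℝ :=
  - psi l0 d (p.2 - p.1 + 1)
  + (σ.1.elim (if σ.2.2 = 0 then 0 else 1) fun c => psi l0 d (c - p.1 + 1))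
  + (σ.2.1.elim 0 fun i => psi l0 d (p.2 - i + 1) - (if κ i = 0 then 0 else 1))

/-- decrease of the total length caused by the cut `σ` of the interval `p` -/
def dJ (p : ℕ × ℕ) (σ : Option ℕ × Option ℕ × ℕ) : ℕ :=
  (2 * (p.2 - p.1) + 1) - (σ.1.elim 0 fun c => 2 * (c - p.1) + 1)
  - (σ.2.1.elim 0 fun i => 2 * (p.2 - i) + 1)

/-- number of cuts -/
noncomputable def NN (r l : ℕ) : ℝ := (r + 1) * l + (l - 1) + l * (l - 1) / 2

end Pool.Agent.Helper120.Ea
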