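import Mathlib

open Finset

namespace Pool.Agent.Helper120.Ea

section mu
open Classical

variable {β : Type*} [Fintype β]

/-- probability that exactly the elements of `F` are flipped, each with probability `1/m` -/
noncomputable def mu (m : ℝ) (F : Finset β) : ℝ :=
  (1 / m) ^ F.card * (1 - 1 / m) ^ (Fintype.card β - F.card)

lemma mu_nonneg {m : ℝ} (hm : 1 ≤ m) (F : Finset β) : 0 ≤ mu m F := by
  unfold mu
  have h1 : (0:ℝ) ≤ 1 / m := by positivity
  have h2 : (0:ℝ) ≤ 1 - 1 / m := by
    rw [sub_nonneg, div_le_one (by linarith)]; exact hm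
  positivity

lemma sum_mu (m : ℝ) : ∑ F : Finset β, mu m F = 1 := by
  unfold mu
  have := Finset.sum_pow_mul_eq_add_pow (1/m : ℝ) (1 - 1/m) (Finset.univ : Finset β)
  rw [Finset.powerset_univ] at this
  rw [Finset.card_univ] at this
  rw [this]; simp

lemma sum_mu_superset {m : ℝ} (S : Finset β) :
    ∑ F ∈ (Finset.univ : Finset (Finset β)).filter (fun F => S ⊆ F), mu m F = (1 / m) ^ S.card := by
  have h1 : ((Finset.univ : Finset (Finset β)).filter (fun F => S ⊆ F)) =
      (Sᶜ.powerset).image (fun G => S ∪ G) := by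
    ext F
    simp only [mem_filter, mem_univ, true_and, mem_image, mem_powerset]
    constructor
    · intro h
      refine ⟨F \ S, ?_, ?_⟩
      · intro x hx
        rw [mem_sdiff] at hx
        simpa using hx.2
      · rw [Finset.union_sdiff_of_subset h]
    · rintro ⟨G, hG, rfl⟩
      exact subset_union_left
  rw [h1, sum_image]
  · have h2 : ∀ G ∈ Sᶜ.powerset, mu m (S ∪ G) =
        (1/m) ^ S.card * ((1/m) ^ G.card * (1 - 1/m) ^ (Sᶜ.card - G.card)) := by
      intro G hG
      rw [mem_powerset] at hG
      have hd : Disjoint S G := by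
        rw [disjoint_left]
        intro x hx hx'
        have := hG hx'
        simp at this
        exact this hx
      unfold mu
      rw [card_union_of_disjoint hd, pow_add, card_compl]
      have : Fintype.card β - (S.card + G.card) = Fintype.card β - S.card - G.card := by omega
      rw [this]; ring
    rw [sum_congr rfl h2, ← mul_sum, Finset.sum_pow_mul_eq_add_pow]
    simp
  · intro G hG G' hG' h
    simp only [coe_powerset, Set.mem_preimage, Set.mem_powerset_iff, coe_subset] at hG hG'
    have key : ∀ G : Finset β, G ⊆ Sᶜ → (S ∪ G) \ S = G := by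
      intro G hG
      ext x
      simp only [mem_sdiff, mem_union]
      constructor
      · rintro ⟨h1 | h1, h2⟩
        · exact absurd h1 h2
        · exact h1
      · intro hx
        have := hG hx
        simp at this
        exact ⟨Or.inr hx, this⟩
    have h3 := key G (by simpa using hG)
    have h4 := key G' (by simpa using hG')
    simp only at h
    rw [← h3, ← h4, h]

/-- transition weight -/
noncomputable def qq (m : ℝ) (T T' : Finset β) : ℝ := mu m (symmDiff T T')

lemma qq_nonneg {m : ℝ} (hm : 1 ≤ m) (T T' : Finset β) : 0 ≤ qq m T T' := mu_nonneg hm _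

lemma symmDiff_injective (T : Finset β) : Function.Injective (fun T' => symmDiff T T') := by
  intro A B h
  exact symmDiff_right_injective T h

lemma sum_qq_univ (m : ℝ) (T : Finset β) : ∑ T' : Finset β, qq m T T' = 1 := by
  unfold qq
  rw [← sum_mu (β := β) m]
  exact Fintype.sum_bijective (fun T' => symmDiff T T')
    ⟨symmDiff_injective T, fun F => ⟨symmDiff T F, by simp⟩⟩ _ _ (fun _ => rfl)

lemma sum_qq_superset {m : ℝ} (T S : Finset β) :
    ∑ T' ∈ (Finset.univ : Finset (Finset β)).filter (fun T' => S ⊆ symmDiff T T'), qq m T T' =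
      (1 / m) ^ S.card := by
  rw [← sum_mu_superset (m := m) S]
  unfold qq
  apply Finset.sum_nbij' (fun T' => symmDiff T T') (fun F => symmDiff T F)
  · intro a ha; simpa using ha
  · intro a ha; simpa using ha
  · intro a ha; simp
  · intro a ha; simp
  · intro a ha; rfl

/-- weighted union bound -/
lemma wub {ι : Type*} {m : ℝ} (hm : 1 ≤ m) (T : Finset β) (I : Finset ι) (S : ι → Finset β)
    (c : ι → ℝ) (hc : ∀ i ∈ I, 0 ≤ c i) (f : Finset β → ℝ) (A : Finset (Finset β))
    (h : ∀ T' ∈ A, f T' ≤ ∑ i ∈ I, if S i ⊆ symmDiff T T' then c i else 0) :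
    ∑ T' ∈ A, qq m T T' * f T' ≤ ∑ i ∈ I, c i * (1 / m) ^ (S i).card := by
  calc ∑ T' ∈ A, qq m T T' * f T'
      ≤ ∑ T' ∈ A, qq m T T' * ∑ i ∈ I, (if S i ⊆ symmDiff T T' then c i else 0) :=
        sum_le_sum fun T' hT' => mul_le_mul_of_nonneg_left (h T' hT') (qq_nonneg hm _ _)
    _ = ∑ i ∈ I, ∑ T' ∈ A, qq m T T' * (if S i ⊆ symmDiff T T' then c i else 0) := by
        rw [sum_comm]
        refine sum_congr rfl fun T' _ => ?_
        rw [mul_sum]
    _ ≤ ∑ i ∈ I, c i * (1 / m) ^ (S i).card := by
        refine sum_le_sum fun i hi => ?_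
        rw [← sum_qq_superset (m := m) T (S i), mul_sum, sum_filter]
        calc ∑ T' ∈ A, qq m T T' * (if S i ⊆ symmDiff T T' then c i else 0)
            ≤ ∑ T' : Finset β, qq m T T' * (if S i ⊆ symmDiff T T' then c i else 0) := by
              apply sum_le_sum_of_subset_of_nonneg (subset_univ _)
              intro T' _ _
              refine mul_nonneg (qq_nonneg hm _ _) ?_
              split_ifs
              · exact hc i hi
              · exact le_refl _
          _ = _ := by
              refine sum_congr rfl fun T' _ => ?_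
              split_ifs
              · ring
              · ring

/-- single swaps have all the same weight -/
lemma qq_swap {m : ℝ} {T : Finset β} {f g : β} (hf : f ∈ T) (hg : g ∉ T) :
    qq m T (insert g (T.erase f)) = (1 / m) ^ 2 * (1 - 1 / m) ^ (Fintype.card β - 2) := by
  have hfg : f ≠ g := fun h => hg (h ▸ hf)
  have h : symmDiff T (insert g (T.erase f)) = {f, g} := by
    ext x
    simp only [mem_symmDiff, mem_insert, mem_erase, mem_singleton]
    by_cases h1 : x = g
    · subst h1; simp [hg]
    · by_cases h2 : x = f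
      · subst h2; simp [hf, h1]
      · simp [h1, h2]
  unfold qq mu
  rw [h, card_pair hfg]

omit [Fintype β] in
lemma eq_swap_of_card {T T' : Finset β} {f g : β} (hf : f ∈ T) (hf' : f ∉ T') (hg : g ∉ T)
    (hg' : g ∈ T') (hc : (symmDiff T T').card ≤ 2) : T' = insert g (T.erase f) := by
  have hfg : f ≠ g := fun h => hg (h ▸ hf)
  have hsub : ({f, g} : Finset β) ⊆ symmDiff T T' := by
    intro x hx
    simp only [mem_insert, mem_singleton] at hx
    rw [mem_symmDiff]
    rcases hx with rfl | rfl
    · exact Or.inl ⟨hf, hf'⟩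
    · exact Or.inr ⟨hg', hg⟩
  have heq : ({f, g} : Finset β) = symmDiff T T' := eq_of_subset_of_card_le hsub (by
    rw [card_pair hfg]; exact hc)
  ext x
  have hx : x ∈ symmDiff T T' ↔ x = f ∨ x = g := by rw [← heq]; simp
  rw [mem_symmDiff] at hx
  rw [mem_insert, mem_erase]
  by_cases h1 : x = g
  · subst h1; simp [hg']
  · by_cases h2 : x = f
    · subst h2; simp [hf', h1]
    · simp only [h1, h2, or_self, iff_false, not_or, not_and, not_not] at hx
      simp only [h1, false_or, ne_eq, h2, not_false_eq_true, true_and]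
      exact ⟨fun h => hx.2 h, fun h => hx.1 h⟩

omit [Fintype β] in
lemma exists_third {T T' : Finset β} {f g : β} (hf : f ∈ T) (hg : g ∉ T)
    (hne : T' ≠ insert g (T.erase f)) (hf' : f ∉ T')
    (hg' : g ∈ T') : ∃ e ∈ symmDiff T T', e ≠ f ∧ e ≠ g := by
  by_contra hcon
  push Not at hcon
  apply hne
  apply eq_swap_of_card hf hf' hg hg'
  have : symmDiff T T' ⊆ {f, g} := by
    intro x hx
    simp only [mem_insert, mem_singleton]
    by_cases h : x = f
    · exact Or.inl h
    · exact Or.inr (hcon x hx h)
  exact (card_le_card this).trans (card_le_two)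

end mu

/-! versions for an arbitrary decision procedure -/
section gen

variable {β : Type*} [Fintype β] [inst : DecidableEq β]

theorem qq_eq_g (m : ℝ) (T T' : Finset β) : qq m T T' = mu m (symmDiff T T') := by
  have h : inst = fun a b => Classical.propDecidable (a = b) := Subsingleton.elim _ _
  subst h
  rfl

theorem wub_g {ι : Type*} {m : ℝ} (hm : 1 ≤ m) (T : Finset β) (I : Finset ι) (S : ι → Finset β)
    (c : ι → ℝ) (hc : ∀ i ∈ I, 0 ≤ c i) (f : Finset β → ℝ) (A : Finset (Finset β))
    (h : ∀ T' ∈ A, f T' ≤ ∑ i ∈ I, if S i ⊆ symmDiff T T' then c i else 0) :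
    ∑ T' ∈ A, qq m T T' * f T' ≤ ∑ i ∈ I, c i * (1 / m) ^ (S i).card := by
  have h0 : inst = fun a b => Classical.propDecidable (a = b) := Subsingleton.elim _ _
  subst h0
  exact wub hm T I S c hc f A h

theorem qq_swap_g {m : ℝ} {T : Finset β} {f g : β} (hf : f ∈ T) (hg : g ∉ T) :
    qq m T (insert g (T.erase f)) = (1 / m) ^ 2 * (1 - 1 / m) ^ (Fintype.card β - 2) := by
  have h0 : inst = fun a b => Classical.propDecidable (a = b) := Subsingleton.elim _ _
  subst h0
  exact qq_swap hf hg

omit [Fintype β] in
theorem eq_swap_of_card_g {T T' : Finset β} {f g : β} (hf : f ∈ T) (hf' : f ∉ T') (hg : g ∉ T)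
    (hg' : g ∈ T') (hc : (symmDiff T T').card ≤ 2) : T' = insert g (T.erase f) := by
  have h0 : inst = fun a b => Classical.propDecidable (a = b) := Subsingleton.elim _ _
  subst h0
  exact eq_swap_of_card hf hf' hg hg' hc

omit [Fintype β] in
theorem exists_third_g {T T' : Finset β} {f g : β} (hf : f ∈ T) (hg : g ∉ T)
    (hne : T' ≠ insert g (T.erase f)) (hf' : f ∉ T')
    (hg' : g ∈ T') : ∃ e ∈ symmDiff T T', e ≠ f ∧ e ≠ g := by
  have h0 : inst = fun a b => Classical.propDecidable (a = b) := Subsingleton.elim _ _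
  subst h0
  exact exists_third hf hg hne hf' hg'

end gen

end Pool.Agent.Helper120.Ea
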