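import Pool.Agent.Helper120.Ea.Exch
import Pool.Agent.Helper120.Ea.Idx
import Pool.Agent.Helper120.Ea.Mu

open Finset

namespace Pool.Agent.Helper120.Ea

section blk
open Classical

variable {M r : ℕ}

/-- weight of the defects -/
noncomputable def XX (l0 : ℕ) (d : ℝ) (T : Finset (BE M r)) : ℝ :=
  nn T + ∑ p ∈ runs T, psi l0 d (p.2 - p.1 + 1)

/-- a pair of numbers as an edge of the block (with junk values out of range) -/
def toBE (hM : 0 < M) (x : ℕ × ℕ) : BE M r :=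
  (⟨x.1 % M, Nat.mod_lt _ hM⟩, ⟨x.2 % (r + 2), Nat.mod_lt _ (by omega)⟩)

/-- the edge removed by the cut `σ` of the interval `p` -/
def fE (hM : 0 < M) (κ : ℕ → ℕ) (p : ℕ × ℕ) (σ : Option ℕ × Option ℕ × ℕ) : BE M r :=
  toBE hM (rmE κ p σ.2.1 r)

/-- the edge added by the cut `σ` of the interval `p` -/
def gE (hM : 0 < M) (p : ℕ × ℕ) (σ : Option ℕ × Option ℕ × ℕ) : BE M r :=
  toBE hM (adE p σ.1 σ.2.2 r)

/-- the tree after the cut -/
noncomputable def swp (hM : 0 < M) (κ : ℕ → ℕ) (T : Finset (BE M r)) (p : ℕ × ℕ)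
    (σ : Option ℕ × Option ℕ × ℕ) : Finset (BE M r) :=
  insert (gE hM p σ) (T.erase (fE hM κ p σ))

end blk

end Pool.Agent.Helper120.Ea
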