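import Pool.Agent.Helper120.Ea.Defs2

open Finset

namespace Pool.Agent.Helper120.Ea

section blk
open Classical

variable {M r : ℕ}

/-- all codes -/
noncomputable def Om (M r : ℕ) : Finset (Finset (BE M r)) := Finset.univ.filter (IsCode M r)

/-- potential of a block -/
noncomputable def Phi (l0 : ℕ) (d H : ℝ) (T : Finset (BE M r)) : ℝ :=
  DD H (XX l0 d T) + Real.log (1 + JJ T) / Real.log (2 * M)

/-- lexicographically smaller digits -/
def Less (T' T : Finset (BE M r)) : Prop := JJ T' < JJ T ∨ (JJ T' = JJ T ∧ nn T' < nn T)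

/-- same digits -/
def Same (T' T : Finset (BE M r)) : Prop := JJ T' = JJ T ∧ nn T' = nn T

/-- own drift of a block: better trees, and trees of the same digits counted with the positive part -/
noncomputable def Own (l0 : ℕ) (d H m : ℝ) (T : Finset (BE M r)) : ℝ :=
  ∑ T' ∈ (Om M r).filter (fun T' => Less T' T), qq m T T' * (Phi l0 d H T' - Phi l0 d H T) +
  ∑ T' ∈ (Om M r).filter (fun T' => Same T' T), qq m T T' * max 0 (Phi l0 d H T' - Phi l0 d H T)

/-- drift of a block under arbitrary transitions -/
noncomputable def Comp (l0 : ℕ) (d H m : ℝ) (T : Finset (BE M r)) : ℝ :=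
  ∑ T' ∈ Om M r, qq m T T' * (Phi l0 d H T' - Phi l0 d H T)

end blk

end Pool.Agent.Helper120.Ea
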