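import Pool.Agent.Helper120.Ea.Defs2


open Finset

namespace Pool.Agent.Helper120.Ea

section blk
open Classical

variable {M r : ℕ}

theorem nn_enc {R : Finset (ℕ × ℕ)} {κ : ℕ → ℕ} (hV : Valid M R) (hκ : ∀ j, κ j ≤ r) :
    nn (enc M r R κ) = ((range M).filter fun j => (∀ p ∈ R, p.1 ≠ j) ∧ κ j ≠ 0).card := by
  unfold nn tin
  refine card_bij (fun e _ => e.1.val) ?_ ?_ ?_
  · intro e he
    rw [mem_filter, mem_enc] at he
    obtain ⟨h1 | h1, h2, h3⟩ := he
    · omega
    · rw [mem_filter, mem_range]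
      exact ⟨e.1.2, h1.2.2, by rw [← h1.1]; exact h2⟩
  · intro e he f hf hef
    rw [mem_filter, mem_enc] at he hf
    obtain ⟨h1 | h1, h2, h3⟩ := he
    · omega
    obtain ⟨g1 | g1, g2, g3⟩ := hf
    · omega
    rw [be_eq_iff]
    exact ⟨hef, by rw [h1.1, g1.1, hef]⟩
  · intro j hj
    rw [mem_filter, mem_range] at hj
    refine ⟨(⟨j, hj.1⟩, ⟨κ j, by have := hκ j; omega⟩), ?_, rfl⟩
    rw [mem_filter, mem_enc]
    exact ⟨Or.inr ⟨rfl, hκ j, hj.2.1⟩, hj.2.2, hκ j⟩

/-- number of tiny defects inside an interval is part of all tiny defects -/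
theorem nn_ge {R : Finset (ℕ × ℕ)} {κ : ℕ → ℕ} (hV : Valid M R) (hκ : ∀ j, κ j ≤ r) :
    ∑ p ∈ R, ((Ioc p.1 p.2).filter fun i => κ i ≠ 0).card ≤ nn (enc M r R κ) := by
  rw [nn_enc hV hκ, ← card_biUnion]
  · apply card_le_card
    intro j hj
    rw [mem_biUnion] at hj
    obtain ⟨p, hp, hj⟩ := hj
    rw [mem_filter, mem_Ioc] at hj
    rw [mem_filter, mem_range]
    have := hV.lt p hp
    exact ⟨by omega, hV.no_start_inside hp hj.1.1 hj.1.2, hj.2⟩
  · intro p hp q hq hne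
    rw [Function.onFun, disjoint_left]
    intro j hj hj'
    rw [mem_filter, mem_Ioc] at hj hj'
    exact hne (hV.eq_of_overlap hp hq (by omega) (by omega))

lemma adm_of_mem {p : ℕ × ℕ} {σ : Option ℕ × Option ℕ × ℕ} (hσ : σ ∈ Idx r p) :
    Adm p σ.1 σ.2.1 ∧ σ.2.2 ≤ r := by
  unfold Idx at hσ
  simp only [mem_union, mem_image, mem_filter, mem_product, mem_Ico, mem_Ioc, mem_range] at hσ
  rcases hσ with ((⟨k, hk, rfl⟩ | ⟨y, ⟨⟨h1, h2⟩, hk⟩, rfl⟩) | ⟨c, ⟨h1, h2⟩, rfl⟩) |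
    ⟨y, ⟨⟨⟨h1, h2⟩, h3, h4⟩, h5⟩, rfl⟩
  · refine ⟨⟨?_, ?_, ?_⟩, by simp only; omega⟩
    · intro x hx; simp at hx
    · intro x hx; simp at hx
    · intro x y hx; simp at hx
  · refine ⟨⟨?_, ?_, ?_⟩, by simp only; omega⟩
    · intro x hx; simp at hx
    · intro x hx
      simp only [Option.some.injEq] at hx
      subst hx; exact ⟨h1, h2⟩
    · intro x y hx; simp at hx
  · refine ⟨⟨?_, ?_, ?_⟩, by simp only; omega⟩
    · intro x hx
      simp only [Option.some.injEq] at hx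
      subst hx; exact ⟨h1, h2⟩
    · intro x hx; simp at hx
    · intro x y hx hy; simp at hy
  · refine ⟨⟨?_, ?_, ?_⟩, by simp only; omega⟩
    · intro x hx
      simp only [Option.some.injEq] at hx
      subst hx; exact ⟨h1, h2⟩
    · intro x hx
      simp only [Option.some.injEq] at hx
      subst hx; exact ⟨h3, h4⟩
    · intro x z hx hz
      simp only [Option.some.injEq] at hx hz
      subst hx; subst hz; exact h5

lemma sum_newR {R : Finset (ℕ × ℕ)} (hV : Valid M R) {p : ℕ × ℕ} (hp : p ∈ R)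
    {c i : Option ℕ} (hA : Adm p c i) (h : ℕ × ℕ → ℝ) :
    ∑ q ∈ newR R p c i, h q = ∑ q ∈ R, h q - h p + (c.elim 0 fun c => h (p.1, c)) +
      (i.elim 0 fun i => h (i, p.2)) := by
  obtain ⟨h1, h2, h3⟩ := hA
  have n1 : ∀ x, (p.1, x) ∉ R.erase p := by
    intro x hx
    rw [mem_erase] at hx
    exact hx.1 (hV.eq_of_fst hx.2 hp rfl)
  have n2 : ∀ y, (y, p.2) ∉ R.erase p := by
    intro x hx
    rw [mem_erase] at hx
    exact hx.1 (hV.eq_of_snd hx.2 hp rfl)
  unfold newR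
  rcases c with _ | c <;> rcases i with _ | i <;> simp only [Option.elim_none, Option.elim_some]
  · rw [union_empty, union_empty, sum_erase_eq_sub hp]; ring
  · rw [union_empty, sum_union (disjoint_singleton_right.mpr (n2 i)), sum_erase_eq_sub hp,
      sum_singleton]; ring
  · rw [union_empty, sum_union (disjoint_singleton_right.mpr (n1 c)), sum_erase_eq_sub hp,
      sum_singleton]; ring
  · rw [sum_union, sum_union (disjoint_singleton_right.mpr (n1 c)), sum_erase_eq_sub hp,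
      sum_singleton, sum_singleton]
    rw [disjoint_singleton_right, mem_union, mem_singleton]
    rintro (h4 | h4)
    · exact n2 i h4
    · have h5 := (h2 i rfl).1
      have h6 := congrArg Prod.fst h4
      simp only at h6
      omega

theorem nn_swap {R : Finset (ℕ × ℕ)} {κ : ℕ → ℕ} (hV : Valid M R) (hκ : ∀ j, κ j ≤ r)
    {p : ℕ × ℕ} (hp : p ∈ R) {c i : Option ℕ} {k : ℕ} (hA : Adm p c i) (hk : k ≤ r) :
    (nn (enc M r (newR R p c i) (newκ κ p c k)) : ℝ) = nn (enc M r R κ) +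
      (c.elim (if k = 0 then 0 else 1) fun _ => 0) - (i.elim 0 fun i => if κ i = 0 then 0 else 1) := by
  rw [nn_enc hV hκ, nn_enc (newR_valid hV hp hA) (fun j => newκ_le hκ hk j)]
  obtain ⟨h1, h2, h3⟩ := hA
  have hplt := hV.lt p hp
  have hple := hV.le p hp
  rw [card_filter, card_filter]
  push_cast
  have key : ∀ j ∈ range M, (if (∀ q ∈ newR R p c i, q.1 ≠ j) ∧ newκ κ p c k j ≠ 0 then (1 : ℝ) else 0) =
      (if (∀ q ∈ R, q.1 ≠ j) ∧ κ j ≠ 0 then (1 : ℝ) else 0) +
      (if j = p.1 then (c.elim (if k = 0 then (0 : ℝ) else 1) fun _ => 0) else 0) -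
      (if i = some j then (if κ j = 0 then (0 : ℝ) else 1) else 0) := by
    intro j hj
    rw [if_congr (and_congr_left' (starts_newR hV hp j)) rfl rfl]
    by_cases hjp : j = p.1
    · subst hjp
      have hps : ¬ ∀ q ∈ R, q.1 ≠ p.1 := fun h => h p hp rfl
      have hi : i ≠ some p.1 := by
        intro h
        have := (h2 _ h).1
        omega
      rcases c with _ | c
      · simp only [newκ, Option.elim_none, Function.update_self, hps, or_true, true_and,
          not_true_eq_false, ne_eq, false_and, not_false_eq_true, hi, if_true, if_false]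
        by_cases hk0 : k = 0 <;> simp [hk0]
      · rw [if_neg (by rintro ⟨⟨_, h, _⟩, _⟩; exact h ⟨by simp, rfl⟩),
          if_neg (fun h : (∀ q ∈ R, q.1 ≠ p.1) ∧ κ p.1 ≠ 0 => hps h.1), if_neg hi]
        simp
    · have e1 : newκ κ p c k j = κ j := by
        unfold newκ
        rcases c with _ | c
        · simp only [Option.elim_none]; exact Function.update_of_ne hjp _ _
        · rfl
      rw [e1]
      by_cases hi : i = some j
      · have hin := h2 j hi
        have hns : ∀ q ∈ R, q.1 ≠ j := hV.no_start_inside hp hin.1 hin.2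
        have : ((∀ q ∈ R, q.1 ≠ j) ∧ κ j ≠ 0) ↔ κ j ≠ 0 := ⟨fun h => h.2, fun h => ⟨hns, h⟩⟩
        simp only [hi, ne_eq, not_true_eq_false, and_false, false_and, if_false, hjp, if_true]
        by_cases hκj : κ j = 0
        · simp [hκj]
        · rw [if_pos ⟨hns, hκj⟩, if_neg hκj]; ring
      · simp only [hjp, and_false, not_false_eq_true, true_and, or_false, ne_eq, hi, and_true,
          if_false, add_zero, sub_zero]
  rw [sum_congr rfl key, sum_sub_distrib, sum_add_distrib]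
  congr 1
  · congr 1
    rw [sum_ite_eq' (range M) p.1, if_pos (by rw [mem_range]; omega)]
  · rcases i with _ | i
    · simp
    · have hi := h2 i rfl
      have : ∀ j ∈ range M, (if some i = some j then (if κ j = 0 then (0 : ℝ) else 1) else 0) =
          (if j = i then (if κ i = 0 then (0 : ℝ) else 1) else 0) := by
        intro j _
        by_cases h : j = i
        · subst h; simp
        · have : i ≠ j := fun h' => h h'.symm
          simp [h, this]
      rw [sum_congr rfl this, sum_ite_eq' (range M) i, if_pos (by rw [mem_range]; omega)]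
      rfl

theorem XX_swap {R : Finset (ℕ × ℕ)} {κ : ℕ → ℕ} (hV : Valid M R) (hκ : ∀ j, κ j ≤ r) {l0 : ℕ}
    {d : ℝ} {p : ℕ × ℕ} (hp : p ∈ R) {σ : Option ℕ × Option ℕ × ℕ} (hσ : σ ∈ Idx r p) :
    XX l0 d (enc M r (newR R p σ.1 σ.2.1) (newκ κ p σ.1 σ.2.2)) =
      XX l0 d (enc M r R κ) + dX l0 d κ p σ := by
  obtain ⟨hA, hk⟩ := adm_of_mem hσ
  obtain ⟨c, i, k⟩ := σ
  simp only at hA hk ⊢
  unfold XX
  rw [runs_enc (newR_valid hV hp hA) (fun j => newκ_le hκ hk j), runs_enc hV hκ,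
    nn_swap hV hκ hp hA hk, sum_newR hV hp hA (fun q => psi l0 d (q.2 - q.1 + 1))]
  unfold dX
  rcases c with _ | c <;> rcases i with _ | i <;> simp only [Option.elim_none, Option.elim_some] <;> ring

theorem JJ_swap {R : Finset (ℕ × ℕ)} {κ : ℕ → ℕ} (hV : Valid M R) (hκ : ∀ j, κ j ≤ r)
    {p : ℕ × ℕ} (hp : p ∈ R) {σ : Option ℕ × Option ℕ × ℕ} (hσ : σ ∈ Idx r p) :
    JJ (enc M r (newR R p σ.1 σ.2.1) (newκ κ p σ.1 σ.2.2)) + dJ p σ = JJ (enc M r R κ) := by
  obtain ⟨hA, hk⟩ := adm_of_mem hσ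
  obtain ⟨c, i, k⟩ := σ
  simp only at hA hk ⊢
  have hdJ : dJ p (c, i, k) + (c.elim 0 fun c => 2 * (c - p.1) + 1) +
      (i.elim 0 fun i => 2 * (p.2 - i) + 1) = 2 * (p.2 - p.1) + 1 := by
    obtain ⟨h1, h2, h3⟩ := hA
    have hple := hV.le p hp
    unfold dJ
    rcases c with _ | c <;> rcases i with _ | i <;> simp only [Option.elim_none, Option.elim_some]
    · omega
    · have := h2 i rfl; omega
    · have := h1 c rfl; omega
    · have := h1 c rfl; have := h2 i rfl; have := h3 c i rfl rfl; omega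
  unfold JJ
  rw [runs_enc (newR_valid hV hp hA) (fun j => newκ_le hκ hk j), runs_enc hV hκ]
  have hs := sum_newR hV hp hA (fun q => ((2 * (q.2 - q.1) + 1 : ℕ) : ℝ))
  have h1 : ((∑ q ∈ newR R p c i, (2 * (q.2 - q.1) + 1) : ℕ) : ℝ) =
      ∑ q ∈ newR R p c i, ((2 * (q.2 - q.1) + 1 : ℕ) : ℝ) := by push_cast; rfl
  have h2 : ((∑ q ∈ R, (2 * (q.2 - q.1) + 1) : ℕ) : ℝ) =
      ∑ q ∈ R, ((2 * (q.2 - q.1) + 1 : ℕ) : ℝ) := by push_cast; rfl
  have h3 : (((∑ q ∈ newR R p c i, (2 * (q.2 - q.1) + 1)) + dJ p (c, i, k) : ℕ) : ℝ) =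
      ((∑ q ∈ R, (2 * (q.2 - q.1) + 1) : ℕ) : ℝ) := by
    rw [Nat.cast_add, h1, h2, hs]
    have h4 : ((dJ p (c, i, k) + (c.elim 0 fun c => 2 * (c - p.1) + 1) +
      (i.elim 0 fun i => 2 * (p.2 - i) + 1) : ℕ) : ℝ) = ((2 * (p.2 - p.1) + 1 : ℕ) : ℝ) := by
      rw [hdJ]
    rcases c with _ | c <;> rcases i with _ | i <;>
      simp only [Option.elim_none, Option.elim_some, Nat.cast_add, Nat.cast_zero] at h4 ⊢ <;> linarith
  exact_mod_cast h3

end blk

end Pool.Agent.Helper120.Ea
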