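import Pool.Agent.Helper120.Ea.Swap

open Finset

namespace Pool.Agent.Helper120.Ea

section blk
open Classical

variable {M r : ℕ}

/-- levels covered by the intervals -/
def cov (R : Finset (ℕ × ℕ)) : Finset ℕ := R.biUnion fun p => Icc (2 * p.1) (2 * p.2)

lemma mem_cov {R : Finset (ℕ × ℕ)} {t : ℕ} : t ∈ cov R ↔ ∃ p ∈ R, 2 * p.1 ≤ t ∧ t ≤ 2 * p.2 := by
  unfold cov; simp [mem_biUnion, mem_Icc]

lemma card_cov {R : Finset (ℕ × ℕ)} (hV : Valid M R) :
    (cov R).card = ∑ p ∈ R, (2 * (p.2 - p.1) + 1) := by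
  unfold cov
  rw [card_biUnion]
  · refine sum_congr rfl fun p hp => ?_
    have := hV.le p hp
    rw [Nat.card_Icc]; omega
  · intro p hp q hq hne
    change Disjoint (Icc (2 * p.1) (2 * p.2)) (Icc (2 * q.1) (2 * q.2))
    rw [disjoint_left]
    intro t h1 h2
    rw [mem_Icc] at h1 h2
    rcases hV.disj p hp q hq hne with h | h <;> omega

lemma card_cov_le {R : Finset (ℕ × ℕ)} (hV : Valid M R) :
    ∑ p ∈ R, (2 * (p.2 - p.1) + 1) ≤ 2 * M - 1 := by
  rw [← card_cov hV]
  have : cov R ⊆ range (2 * M - 1) := by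
    intro t ht
    rw [mem_cov] at ht
    obtain ⟨p, hp, h1, h2⟩ := ht
    have := hV.lt p hp
    rw [mem_range]; omega
  simpa using card_le_card this

lemma mem_of_cov_eq {R R' : Finset (ℕ × ℕ)} (hV : Valid M R) (hV' : Valid M R')
    (h : cov R = cov R') {p : ℕ × ℕ} (hp : p ∈ R) : p ∈ R' := by
  have hple := hV.le p hp
  have h1 : 2 * p.1 ∈ cov R' := by
    rw [← h, mem_cov]; exact ⟨p, hp, le_refl _, by omega⟩
  rw [mem_cov] at h1
  obtain ⟨q, hq, hq1, hq2⟩ := h1
  have hqle := hV'.le q hq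
  have e1 : q.1 = p.1 := by
    by_contra hne
    have h2 : 2 * p.1 - 1 ∈ cov R := by
      rw [h, mem_cov]; exact ⟨q, hq, by omega, by omega⟩
    rw [mem_cov] at h2
    obtain ⟨p', hp', h3, h4⟩ := h2
    have := hV.eq_of_overlap hp' hp (by omega) (by omega)
    subst this
    omega
  have e2 : q.2 = p.2 := by
    rcases lt_trichotomy q.2 p.2 with hlt | heq | hgt
    · exfalso
      have h2 : 2 * q.2 + 1 ∈ cov R' := by
        rw [← h, mem_cov]; exact ⟨p, hp, by omega, by omega⟩
      rw [mem_cov] at h2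
      obtain ⟨q', hq', h3, h4⟩ := h2
      have := hV'.eq_of_overlap hq' hq (by omega) (by omega)
      subst this
      omega
    · exact heq
    · exfalso
      have h2 : 2 * p.2 + 1 ∈ cov R := by
        rw [h, mem_cov]; exact ⟨q, hq, by omega, by omega⟩
      rw [mem_cov] at h2
      obtain ⟨p', hp', h3, h4⟩ := h2
      have := hV.eq_of_overlap hp' hp (by omega) (by omega)
      subst this
      omega
  have : q = p := Prod.ext e1 e2
  rw [← this]; exact hq

/-- exchange lemma: a different family of at most the same total length contains an improving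
swap -/
lemma exchange {R R' : Finset (ℕ × ℕ)} {κ κ' : ℕ → ℕ} (hV : Valid M R) (hV' : Valid M R')
    (hκ : ∀ j, κ j ≤ r) (hκ' : ∀ j, κ' j ≤ r) (hne : R' ≠ R)
    (hJ : ∑ p ∈ R', (2 * (p.2 - p.1) + 1) ≤ ∑ p ∈ R, (2 * (p.2 - p.1) + 1)) :
    ∃ p ∈ R, ∃ c i : Option ℕ, ∃ k, ∃ f g : BE M r, Adm p c i ∧ k ≤ r ∧
      (f.1.val, f.2.val) = rmE κ p i r ∧ (g.1.val, g.2.val) = adE p c k r ∧
      f ∈ enc M r R κ ∧ f ∉ enc M r R' κ' ∧ g ∉ enc M r R κ ∧ g ∈ enc M r R' κ' := by
  have hex : ∃ t, t ∈ cov R ∧ t ∉ cov R' := by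
    by_contra hcon
    push Not at hcon
    have hsub : cov R ⊆ cov R' := hcon
    rw [← card_cov hV, ← card_cov hV'] at hJ
    have heq := eq_of_subset_of_card_le hsub hJ
    apply hne
    ext p
    exact ⟨fun hp => mem_of_cov_eq hV' hV heq.symm hp, fun hp => mem_of_cov_eq hV hV' heq hp⟩
  obtain ⟨t, ht, ht'⟩ := hex
  rw [mem_cov] at ht
  obtain ⟨p, hp, hp1, hp2⟩ := ht
  have hnc : ∀ q ∈ R', t < 2 * q.1 ∨ 2 * q.2 < t := by
    intro q hq
    by_contra hcon
    push Not at hcon
    exact ht' (mem_cov.mpr ⟨q, hq, hcon.1, hcon.2⟩)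
  have hplt := hV.lt p hp
  have hple := hV.le p hp
  -- left end
  have hleft : ∃ c : Option ℕ, ∃ k, ∃ g : BE M r, (∀ x, c = some x → p.1 ≤ x ∧ 2 * x < t) ∧ k ≤ r ∧
      (g.1.val, g.2.val) = adE p c k r ∧ g ∉ enc M r R κ ∧ g ∈ enc M r R' κ' := by
    by_cases hS : ∃ q ∈ R', p.1 ≤ q.2 ∧ 2 * q.2 < t
    · obtain ⟨q, hq, hq1, hq2⟩ := hS
      have hqlt := hV'.lt q hq
      refine ⟨some q.2, 0, (⟨q.2, hqlt⟩, ⟨r + 1, by omega⟩), ?_, by omega, rfl, ?_, ?_⟩
      · intro x hx
        simp only [Option.some.injEq] at hx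
        subst hx
        exact ⟨hq1, hq2⟩
      · rw [mem_enc]
        rintro (h | h)
        · exact hV.no_end_inside hp hq1 (by omega) h.2
        · have := h.2.1
          simp only at this
          omega
      · rw [mem_enc]
        left
        exact ⟨rfl, q, hq, rfl⟩
    · push Not at hS
      have hns : ∀ q ∈ R', q.1 ≠ p.1 := by
        intro q hq hqp
        have := hV'.le q hq
        rcases hnc q hq with h | h
        · omega
        · have := hS q hq (by omega)
          omega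
      refine ⟨none, κ' p.1, (⟨p.1, by omega⟩, ⟨κ' p.1, by have := hκ' p.1; omega⟩), ?_, hκ' _, rfl, ?_, ?_⟩
      · intro x hx; simp at hx
      · rw [mem_enc]
        rintro (h | h)
        · have := hκ' p.1
          have := h.1
          simp only at this
          omega
        · exact h.2.2 p hp rfl
      · rw [mem_enc]
        right
        exact ⟨rfl, hκ' _, hns⟩
  have hright : ∃ i : Option ℕ, ∃ f : BE M r, (∀ y, i = some y → t < 2 * y ∧ y ≤ p.2) ∧
      (f.1.val, f.2.val) = rmE κ p i r ∧ f ∈ enc M r R κ ∧ f ∉ enc M r R' κ' := by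
    by_cases hS : ∃ q ∈ R', t < 2 * q.1 ∧ q.1 ≤ p.2
    · obtain ⟨q, hq, hq1, hq2⟩ := hS
      refine ⟨some q.1, (⟨q.1, by omega⟩, ⟨κ q.1, by have := hκ q.1; omega⟩), ?_, rfl, ?_, ?_⟩
      · intro y hy
        simp only [Option.some.injEq] at hy
        subst hy
        exact ⟨hq1, hq2⟩
      · rw [mem_enc]
        right
        exact ⟨rfl, hκ _, hV.no_start_inside hp (by simp only; omega) (by simpa using hq2)⟩
      · rw [mem_enc]
        rintro (h | h)
        · have := hκ q.1
          have := h.1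
          simp only at this
          omega
        · exact h.2.2 q hq rfl
    · push Not at hS
      have hns : ¬ ∃ q ∈ R', q.2 = p.2 := by
        rintro ⟨q, hq, hqp⟩
        have := hV'.le q hq
        rcases hnc q hq with h | h
        · have := hS q hq h
          omega
        · omega
      refine ⟨none, (⟨p.2, hplt⟩, ⟨r + 1, by omega⟩), ?_, rfl, ?_, ?_⟩
      · intro y hy; simp at hy
      · rw [mem_enc]
        left
        exact ⟨rfl, p, hp, rfl⟩
      · rw [mem_enc]
        rintro (h | h)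
        · exact hns h.2
        · have := h.2.1
          simp only at this
          omega
  obtain ⟨c, k, g, hc, hk, hg, hg1, hg2⟩ := hleft
  obtain ⟨i, f, hi, hf, hf1, hf2⟩ := hright
  refine ⟨p, hp, c, i, k, f, g, ⟨?_, ?_, ?_⟩, hk, hf, hg, hf1, hf2, hg1, hg2⟩
  · intro x hx
    have := hc x hx
    omega
  · intro y hy
    have := hi y hy
    omega
  · intro x y hx hy
    have := hc x hx
    have := hi y hy
    omega

end blk

end Pool.Agent.Helper120.Ea
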