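import Pool.Agent.Helper120.Ea.Step

open Finset MeasureTheory ProbabilityTheory
open scoped ENNReal

namespace Pool.Agent.Helper120.Ea

open Pool.Agent.Helper120.EaModel

section prob

variable {V E : Type} [Fintype E] [DecidableEq E]

instance instProbFlip : IsProbabilityMeasure (flipMeasure E) := by
  unfold flipMeasure; infer_instance

theorem flip_prob (i : ℕ × E) :
    flipMeasure E {ω | ω i = true} = ENNReal.ofReal (1 / (Fintype.card E : ℝ)) := by
  have h1 : (flipMeasure E).map (fun ω => ω i) = bernoulliMeasure true false (flipRate E) :=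
    Measure.infinitePi_map_eval (fun _ : ℕ × E => bernoulliMeasure true false (flipRate E)) i
  have h2 : (flipMeasure E).map (fun ω => ω i) {true} = flipMeasure E {ω | ω i = true} := by
    rw [Measure.map_apply (measurable_pi_apply i) (measurableSet_singleton true)]
    rfl
  rw [← h2, h1, bernoulliMeasure_apply_of_mem_of_notMem _ (measurableSet_singleton true) rfl
    (by simp)]
  have h3 : ((unitInterval.toNNReal (flipRate E) : NNReal) : ℝ) = 1 / (Fintype.card E : ℝ) := rfl
  rw [← h3, ENNReal.ofReal_coe_nnreal]

theorem run_eq (G : WGraph V E) (x0 : Finset E) (z : ℕ × E → Bool) (t : ℕ) :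
    G.run x0 z t = EaJ4.traj G.select (fun i (ω : ℕ × E → Bool) => ω i) x0 t z := by
  induction t with
  | zero => rfl
  | succ t ih =>
    show G.select (G.run x0 z t) (WGraph.mutant z t (G.run x0 z t)) = _
    rw [ih]
    rfl

theorem runtime_eq (G : WGraph V E) (x0 : Finset E) (z : ℕ × E → Bool) :
    G.runtime x0 z = EaJ4.hitTime (fun x => G.totalWeight x = G.optWeight)
      (EaJ4.traj G.select (fun i (ω : ℕ × E → Bool) => ω i) x0) z := by
  unfold WGraph.runtime EaJ4.hitTime
  simp only [run_eq]

end prob

section assemble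
open Classical

variable {P L M r : ℕ}

/-- the start string: all copies in the first block are number one, the other blocks are optimal -/
noncomputable def xstart (P L M r : ℕ) : Finset (Ex P L M r) :=
  unblk (fun b => if b.val = 0 then enc M r ∅ (fun _ => 1) else enc M r ∅ (fun _ => 0))

theorem xstart_frozen (d : Dep P L M r) : (Sum.inl d : Ex P L M r) ∈ xstart P L M r :=
  inl_mem_unblk _ d

theorem xstart_blk (b : Fin L) : blk (xstart P L M r) b =
    if b.val = 0 then enc M r ∅ (fun _ => 1) else enc M r ∅ (fun _ => 0) := by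
  unfold xstart
  rw [blk_unblk]

theorem xstart_tree (hr : 1 ≤ r) : (gr (xstart P L M r)).IsTree := by
  apply isTree_of_code _ xstart_frozen
  intro b
  rw [xstart_blk]
  split_ifs
  · exact (isCode_start hr).1
  · exact isCode_opt.1

/-- the potential of the start string is a lower bound for the expected runtime -/
theorem lower {m : ℝ} (hm : m = (Fintype.card (Ex P L M r) : ℝ)) (hM : 0 < M) (hm2 : 2 ≤ m)
    (hr : 1 ≤ r)
    {Φ : Finset (BE M r) → ℝ} {Dn : ℕ → ℝ} {Pm R K cp C0p : ℝ} {α β g : ℕ → ℝ} {G0 : ℝ}
    (hB : BlkHyp (Om M r) M m JJ nn Φ (qq m) Dn Pm R K cp C0p)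
    (hF : FnHyp M L m Dn Pm R K cp C0p α β g G0) :
    ENNReal.ofReal (VV m Φ α β g G0 (xstart P L M r)) ≤
      (theG P L M r).expectedRuntime (xstart P L M r) := by
  have hcard : 2 ≤ Fintype.card (Ex P L M r) := by
    rw [hm] at hm2
    exact_mod_cast hm2
  have hWn : ∀ T : Fin L → Finset (BE M r), 0 ≤ WW JJ nn Φ α β g G0 T :=
    fun T => pd_WW_nonneg JJ nn Φ α β g G0 hF.g_mono hF.g0 T
  have hV0 : ∀ x : Finset (Ex P L M r), 0 ≤ VV m Φ α β g G0 x := by
    intro x
    unfold VV
    split_ifs
    · exact mul_nonneg (by positivity) (hWn _)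
    · exact le_rfl
  have hsel : ∀ x y : Finset (Ex P L M r), ((gr x).IsTree ∧ ∀ d, Sum.inl d ∈ x) →
      ((gr ((theG P L M r).select x y)).IsTree ∧
        ∀ d, Sum.inl d ∈ (theG P L M r).select x y) := by
    rintro x y ⟨h1, h2⟩
    unfold WGraph.select
    split_ifs with h
    · exact ⟨h.1, frozen_of_le h1 h.1 h2 h.2⟩
    · exact ⟨h1, h2⟩
  have hkey := EaJ4.drift_lower (E := Ex P L M r) (flipMeasure (Ex P L M r))
    (fun i ω => ω i) (fun i => measurable_pi_apply i)
    (iIndepFun_infinitePi (P := fun _ : ℕ × Ex P L M r =>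
      bernoulliMeasure true false (flipRate (Ex P L M r))) (X := fun _ b => b)
      (fun _ => measurable_id))
    hcard (fun i => flip_prob i) (theG P L M r).select
    (fun x => (theG P L M r).totalWeight x = (theG P L M r).optWeight)
    (fun x => (gr x).IsTree ∧ ∀ d, Sum.inl d ∈ x)
    (VV m Φ α β g G0) (∑ x : Finset (Ex P L M r), VV m Φ α β g G0 x) (xstart P L M r)
    ⟨xstart_tree hr, xstart_frozen⟩ (fun x y h => hsel x y h)
    (by
      intro x y h
      unfold WGraph.select
      split_ifs with hy
      · have h1 : (theG P L M r).optWeight ≤ (theG P L M r).totalWeight y :=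
          Nat.sInf_le ⟨y, hy.1, rfl⟩
        have h2 := hy.2
        omega
      · exact h)
    hV0 (fun x => Finset.single_le_sum (fun y _ => hV0 y) (Finset.mem_univ x))
    (by
      intro x hx
      unfold VV
      split_ifs with h
      · have h1 := (cost_opt_iff h.1 h.2).1 hx
        have h2 : WW JJ nn Φ α β g G0 (blk x) = 0 := by
          unfold WW
          apply Finset.sum_eq_zero
          intro i _
          rw [if_neg (fun hi => h1 i hi.1)]
        rw [h2, mul_zero]
      · rfl)
    (by
      rintro x ⟨h1, h2⟩ hno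
      exact main_drift hm hM hB hF h1 h2 hno)
  unfold WGraph.expectedRuntime
  refine hkey.trans (le_of_eq ?_)
  apply lintegral_congr
  intro z
  exact (runtime_eq (theG P L M r) (xstart P L M r) z).symm

end assemble

end Pool.Agent.Helper120.Ea
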