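import Pool.Agent.Helper120.Ea.Defs3


open Finset

namespace Pool.Agent.Helper120.Ea

section blk
open Classical

variable {M r : ℕ}


theorem psi_nonneg {l0 : ℕ} {d : ℝ} (hd : 0 ≤ d) (hd2 : d ≤ 1 / 4) (l : ℕ) : 0 ≤ psi l0 d l := by
  unfold psi
  have h1 : 0 ≤ max (0 : ℝ) (((l : ℝ) / l0) ^ (1 / 10 : ℝ) - 1) := le_max_left _ _
  have h2 := mul_nonneg hd h1
  linarith

theorem j2029_mem_tin {T : Finset (BE M r)} {e : BE M r} :
    e ∈ tin T ↔ e ∈ T ∧ e.2.val ≠ 0 ∧ e.2.val ≤ r := by
  unfold tin; rw [mem_filter]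

theorem j2029_pres {T T' : Finset (BE M r)} {j : ℕ}
    (h : ∀ e ∈ symmDiff T T', e.1.val ≠ j) : pres T j ↔ pres T' j := by
  have key : ∀ e : BE M r, e.1.val = j → (e ∈ T ↔ e ∈ T') := by
    intro e he
    by_contra hc
    apply h e _ he
    rw [mem_symmDiff]
    tauto
  unfold pres
  constructor
  · rintro ⟨e, h1, h2, h3⟩
    exact ⟨e, (key e h2).1 h1, h2, h3⟩
  · rintro ⟨e, h1, h2, h3⟩
    exact ⟨e, (key e h2).2 h1, h2, h3⟩

theorem j2029_spk {T T' : Finset (BE M r)} {j : ℕ}
    (h : ∀ e ∈ symmDiff T T', e.1.val ≠ j) : spk T j ↔ spk T' j := by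
  have key : ∀ e : BE M r, e.1.val = j → (e ∈ T ↔ e ∈ T') := by
    intro e he
    by_contra hc
    apply h e _ he
    rw [mem_symmDiff]
    tauto
  unfold spk
  constructor
  · rintro ⟨e, h1, h2, h3⟩
    exact ⟨e, (key e h2).1 h1, h2, h3⟩
  · rintro ⟨e, h1, h2, h3⟩
    exact ⟨e, (key e h2).2 h1, h2, h3⟩

/-- defects that are not touched persist -/
theorem loss_bound {l0 : ℕ} {d : ℝ} (hd : 0 ≤ d) (hd2 : d ≤ 1 / 4) (T T' : Finset (BE M r)) :
    XX l0 d T ≤ XX l0 d T' +
      (∑ p ∈ runs T, if (∃ e ∈ symmDiff T T', p.1 ≤ e.1.val ∧ e.1.val ≤ p.2) then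
        psi l0 d (p.2 - p.1 + 1) else 0) + ((tin T ∩ symmDiff T T').card : ℝ) := by
  have h1 : (nn T : ℝ) ≤ nn T' + ((tin T ∩ symmDiff T T').card : ℝ) := by
    have : nn T ≤ nn T' + (tin T ∩ symmDiff T T').card := by
      unfold nn
      have h2 : tin T ⊆ tin T' ∪ (tin T ∩ symmDiff T T') := by
        intro e he
        rw [mem_union]
        by_cases hs : e ∈ symmDiff T T'
        · exact Or.inr (mem_inter.2 ⟨he, hs⟩)
        · left
          rw [j2029_mem_tin] at he ⊢
          refine ⟨?_, he.2⟩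
          by_contra hc
          apply hs
          rw [mem_symmDiff]
          exact Or.inl ⟨he.1, hc⟩
      exact (card_le_card h2).trans (card_union_le _ _)
    exact_mod_cast this
  have h2 : ∑ p ∈ runs T, psi l0 d (p.2 - p.1 + 1) ≤ ∑ p ∈ runs T', psi l0 d (p.2 - p.1 + 1) +
      ∑ p ∈ runs T, (if (∃ e ∈ symmDiff T T', p.1 ≤ e.1.val ∧ e.1.val ≤ p.2) then
        psi l0 d (p.2 - p.1 + 1) else 0) := by
    rw [← sum_filter_add_sum_filter_not (runs T)
      (fun p => ∃ e ∈ symmDiff T T', p.1 ≤ e.1.val ∧ e.1.val ≤ p.2), ← sum_filter, add_comm]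
    apply add_le_add _ le_rfl
    apply sum_le_sum_of_subset_of_nonneg
    · intro p hp
      rw [mem_filter, mem_runs] at hp
      rw [mem_runs]
      obtain ⟨⟨a1, a2, a3, a4, a5, a6⟩, hn⟩ := hp
      have hu : ∀ j, p.1 ≤ j → j ≤ p.2 → ∀ e ∈ symmDiff T T', e.1.val ≠ j := by
        intro j hj hj' e he hej
        apply hn
        exact ⟨e, he, by omega, by omega⟩
      refine ⟨a1, a2, ?_, ?_, ?_, ?_⟩
      · rw [← j2029_pres (hu p.1 le_rfl a1)]; exact a3
      · intro i hi hi'
        rw [← j2029_pres (hu i (by omega) hi')]; exact a4 i hi hi'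
      · intro i hi hi'
        rw [← j2029_spk (hu i hi (by omega))]; exact a5 i hi hi'
      · rw [← j2029_spk (hu p.2 a1 le_rfl)]; exact a6
    · intro p _ _
      exact psi_nonneg hd hd2 _
  unfold XX
  linarith

/-- the same with the tiny defects themselves -/
theorem nn_same {T T' : Finset (BE M r)} (hT : IsCode M r T)
    (hT' : IsCode M r T') (h : runs T' = runs T) :
    nn T ≤ nn T' + ((tin T).filter fun e => ({e, (e.1, 0)} : Finset (BE M r)) ⊆ symmDiff T T').card := by
  obtain ⟨κ', hκ', hT'e⟩ := hT'.exists_kappa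
  have hmem : ∀ e ∈ tin T, ∀ x : BE M r, x.1 = e.1 → x.2.val = κ' e.1.val → x ∈ T' := by
    intro e he x hx1 hx2
    rw [j2029_mem_tin] at he
    rw [hT'e, mem_enc]
    right
    rw [hx1, hx2]
    refine ⟨rfl, hκ' _, ?_⟩
    intro p hp hpe
    rw [h, mem_runs] at hp
    apply hp.2.2.1
    exact ⟨e, he.1, hpe.symm, he.2.2⟩
  have hcard : ((tin T).filter fun e => ¬ ({e, (e.1, 0)} : Finset (BE M r)) ⊆ symmDiff T T').card ≤
      (tin T').card := by
    apply card_le_card_of_injOn (fun e => (e.1, ⟨κ' e.1.val, by have := hκ' e.1.val; omega⟩))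
    · intro e he
      simp only [coe_filter, Set.mem_ofPred_eq] at he
      obtain ⟨he1, he2⟩ := he
      show _ ∈ tin T'
      rw [j2029_mem_tin]
      refine ⟨hmem e he1 _ rfl rfl, ?_, hκ' _⟩
      intro h0
      apply he2
      have h0' : κ' e.1.val = 0 := h0
      have hz : ((e.1, 0) : BE M r) ∈ T' := hmem e he1 _ rfl (by rw [h0']; rfl)
      have he1' := j2029_mem_tin.1 he1
      intro x hx
      rw [mem_insert, mem_singleton] at hx
      rw [mem_symmDiff]
      rcases hx with rfl | rfl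
      · left
        refine ⟨he1'.1, ?_⟩
        intro hc
        have := hT'.copy_unique hc hz rfl he1'.2.2 (Nat.zero_le _)
        apply he1'.2.1
        rw [this]; rfl
      · right
        refine ⟨hz, ?_⟩
        intro hc
        have := hT.copy_unique he1'.1 hc rfl he1'.2.2 (Nat.zero_le _)
        apply he1'.2.1
        rw [this]; rfl
    · intro e he f hf hef
      simp only [coe_filter, Set.mem_ofPred_eq] at he hf
      have he1 := j2029_mem_tin.1 he.1
      have hf1 := j2029_mem_tin.1 hf.1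
      have : e.1 = f.1 := (Prod.ext_iff.1 hef).1
      exact hT.copy_unique he1.1 hf1.1 this he1.2.2 hf1.2.2
  unfold nn
  have := card_filter_add_card_filter_not (s := tin T)
    (fun e => ({e, (e.1, 0)} : Finset (BE M r)) ⊆ symmDiff T T')
  omega

/-- if the intervals are the same, a tiny defect is lost only if copy `0` is added -/
theorem loss_same {l0 : ℕ} {d : ℝ} {T T' : Finset (BE M r)} (hT : IsCode M r T)
    (hT' : IsCode M r T') (h : runs T' = runs T) :
    XX l0 d T ≤ XX l0 d T' +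
      (((tin T).filter fun e => ({e, (e.1, 0)} : Finset (BE M r)) ⊆ symmDiff T T').card : ℝ) := by
  have h1 := nn_same hT hT' h
  have h2 : (nn T : ℝ) ≤ nn T' +
    (((tin T).filter fun e => ({e, (e.1, 0)} : Finset (BE M r)) ⊆ symmDiff T T').card : ℝ) := by
    exact_mod_cast h1
  unfold XX
  rw [h]
  linarith

theorem j2029_ne0 {T : Finset (BE M r)} {e : BE M r} (he : e ∈ tin T) : e ≠ (e.1, 0) := by
  intro h
  apply (j2029_mem_tin.1 he).2.1
  rw [h]; rfl

theorem j2029_notin {T : Finset (BE M r)} (hT : IsCode M r T) {e : BE M r} (he : e ∈ tin T) :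
    ((e.1, 0) : BE M r) ∉ T := by
  intro hc
  have he1 := j2029_mem_tin.1 he
  exact j2029_ne0 he (hT.copy_unique he1.1 hc rfl he1.2.2 (Nat.zero_le _))

theorem j2029_swap {T : Finset (BE M r)} (hT : IsCode M r T) {e : BE M r} (he : e ∈ tin T) :
    IsCode M r (insert ((e.1, 0) : BE M r) (T.erase e)) ∧
    runs (insert ((e.1, 0) : BE M r) (T.erase e)) = runs T ∧
    nn (insert ((e.1, 0) : BE M r) (T.erase e)) + 1 = nn T := by
  obtain ⟨κ, hκ, hTe⟩ := hT.exists_kappa
  have he1 := j2029_mem_tin.1 he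
  have heR : ∀ p ∈ runs T, p.1 ≠ e.1.val := by
    intro p hp hpe
    rw [mem_runs] at hp
    exact hp.2.2.1 ⟨e, he1.1, hpe.symm, he1.2.2⟩
  have heκ : e.2.val = κ e.1.val := by
    have := he1.1
    rw [hTe, mem_enc] at this
    rcases this with h | h
    · have := he1.2.2; omega
    · exact h.1
  have hκ2 : ∀ j, Function.update κ e.1.val 0 j ≤ r := by
    intro j
    by_cases hj : j = e.1.val
    · subst hj; simp
    · rw [Function.update_of_ne hj]; exact hκ j
  have hV := hT.valid
  have heq : insert ((e.1, 0) : BE M r) (T.erase e) =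
      enc M r (runs T) (Function.update κ e.1.val 0) := by
    ext x
    rw [mem_insert, mem_erase, mem_enc]
    have hxT : x ∈ T ↔ (x.2.val = r + 1 ∧ ∃ p ∈ runs T, p.2 = x.1.val) ∨
      (x.2.val = κ x.1.val ∧ x.2.val ≤ r ∧ ∀ p ∈ runs T, p.1 ≠ x.1.val) := by
      conv_lhs => rw [hTe]
      exact mem_enc
    rw [hxT]
    by_cases hx : x.1.val = e.1.val
    · have hx' : x.1 = e.1 := Fin.ext hx
      rw [hx, Function.update_self]
      constructor
      · rintro (h1 | ⟨h1, h2 | h2⟩)
        · right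
          rw [h1]
          exact ⟨rfl, Nat.zero_le _, heR⟩
        · exact Or.inl h2
        · exfalso
          apply h1
          exact Prod.ext hx' (Fin.ext (by rw [h2.1, heκ]))
      · rintro (h1 | h1)
        · right
          refine ⟨?_, Or.inl h1⟩
          rintro rfl
          have := he1.2.2
          omega
        · left
          exact Prod.ext hx' (Fin.ext h1.1)
    · rw [Function.update_of_ne hx]
      have hxe : x ≠ e := fun h => hx (by rw [h])
      have hx0 : x ≠ (e.1, 0) := fun h => hx (by rw [h])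
      simp only [hx0, hxe, ne_eq, not_false_eq_true, true_and, false_or]
  refine ⟨⟨runs T, _, hV, hκ2, heq⟩, ?_, ?_⟩
  · rw [heq, runs_enc hV hκ2]
  · have htin : tin (insert ((e.1, 0) : BE M r) (T.erase e)) = (tin T).erase e := by
      ext x
      rw [j2029_mem_tin, mem_insert, mem_erase, mem_erase, j2029_mem_tin]
      constructor
      · rintro ⟨h1 | h1, h2⟩
        · exfalso; apply h2.1; rw [h1]; rfl
        · exact ⟨h1.1, h1.2, h2⟩
      · rintro ⟨h1, h2, h3⟩
        exact ⟨Or.inr ⟨h1, h2⟩, h3⟩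
    unfold nn
    rw [htin, card_erase_of_mem he]
    have := card_pos.2 ⟨e, he⟩
    omega

/-- lower bound for the number of healing swaps -/
theorem heal_lower {m : ℝ} (hm : 1 ≤ m) {T : Finset (BE M r)} (hT : IsCode M r T) :
    (nn T : ℝ) * ((1 / m) ^ 2 * (1 - 1 / m) ^ (Fintype.card (BE M r) - 2)) ≤
      ∑ T' ∈ (Om M r).filter (fun T' => runs T' = runs T ∧ nn T' + 1 = nn T), qq m T T' := by
  have hinj : Set.InjOn (fun e : BE M r => insert ((e.1, 0) : BE M r) (T.erase e)) (tin T) := by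
    intro e he f hf hef
    by_contra hne
    have he' : e ∈ tin T := he
    have hf' : f ∈ tin T := hf
    have h1 : e ∈ insert ((f.1, 0) : BE M r) (T.erase f) := by
      rw [mem_insert, mem_erase]
      exact Or.inr ⟨hne, (j2029_mem_tin.1 he').1⟩
    have hef' : insert ((e.1, 0) : BE M r) (T.erase e) = insert ((f.1, 0) : BE M r) (T.erase f) := hef
    rw [← hef', mem_insert, mem_erase] at h1
    rcases h1 with h1 | h1
    · exact j2029_ne0 he' h1
    · exact h1.1 rfl
  calc (nn T : ℝ) * ((1 / m) ^ 2 * (1 - 1 / m) ^ (Fintype.card (BE M r) - 2))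
      = ∑ e ∈ tin T, qq m T (insert ((e.1, 0) : BE M r) (T.erase e)) := by
        have : ∀ e ∈ tin T, qq m T (insert ((e.1, 0) : BE M r) (T.erase e)) =
            (1 / m) ^ 2 * (1 - 1 / m) ^ (Fintype.card (BE M r) - 2) := by
          intro e he
          exact qq_swap_g (m := m) (j2029_mem_tin.1 he).1 (j2029_notin hT he)
        rw [sum_congr rfl this, sum_const, nsmul_eq_mul]
        rfl
    _ = ∑ T' ∈ (tin T).image (fun e : BE M r => insert ((e.1, 0) : BE M r) (T.erase e)),
          qq m T T' := by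
        rw [sum_image hinj]
    _ ≤ _ := by
        apply sum_le_sum_of_subset_of_nonneg
        · intro T' hT'
          rw [mem_image] at hT'
          obtain ⟨e, he, rfl⟩ := hT'
          obtain ⟨h1, h2, h3⟩ := j2029_swap hT he
          rw [mem_filter]
          refine ⟨?_, h2, h3⟩
          unfold Om
          rw [mem_filter]
          exact ⟨mem_univ _, h1⟩
        · intro T' _ _
          exact qq_nonneg hm _ _

theorem heal_upper {m : ℝ} (hm : 1 ≤ m) {T : Finset (BE M r)} (hT : IsCode M r T) :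
    ∑ T' ∈ (Om M r).filter (fun T' => runs T' = runs T ∧ nn T' < nn T), qq m T T' ≤
      (nn T : ℝ) / m ^ 2 := by
  have h := wub_g hm T (tin T) (fun e => ({e, (e.1, 0)} : Finset (BE M r))) (fun _ => (1 : ℝ))
    (fun _ _ => zero_le_one) (fun _ => (1 : ℝ))
    ((Om M r).filter (fun T' => runs T' = runs T ∧ nn T' < nn T)) (by
      intro T' hT'
      rw [mem_filter] at hT'
      obtain ⟨h1, h2, h3⟩ := hT'
      have hc : IsCode M r T' := by
        unfold Om at h1
        exact (mem_filter.1 h1).2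
      have h4 := nn_same hT hc h2
      have h5 : 0 < ((tin T).filter
        fun e => ({e, (e.1, 0)} : Finset (BE M r)) ⊆ symmDiff T T').card := by omega
      obtain ⟨e, he⟩ := card_pos.1 h5
      rw [mem_filter] at he
      refine le_trans ?_ (single_le_sum (fun i _ => ?_) he.1)
      · rw [if_pos he.2]
      · split_ifs <;> norm_num)
  simp only [mul_one, one_mul] at h
  refine h.trans (le_of_eq ?_)
  have h2 : ∀ e ∈ tin T, (1 / m) ^ (({e, (e.1, 0)} : Finset (BE M r)).card) = (1 / m) ^ 2 := by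
    intro e he
    rw [card_pair (j2029_ne0 he)]
  rw [sum_congr rfl h2, sum_const, nsmul_eq_mul]
  unfold nn
  rw [div_pow, one_pow]
  ring

theorem heal_two {m : ℝ} (hm : 1 ≤ m) {T : Finset (BE M r)} (hT : IsCode M r T) :
    ∑ T' ∈ (Om M r).filter (fun T' => runs T' = runs T ∧ nn T' + 2 ≤ nn T), qq m T T' ≤
      (nn T : ℝ) ^ 2 / m ^ 4 := by
  have hm0 : 0 < m := by linarith
  have h := wub_g hm T ((tin T).offDiag)
    (fun y => ({y.1, (y.1.1, 0)} ∪ {y.2, (y.2.1, 0)} : Finset (BE M r))) (fun _ => (1 : ℝ))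
    (fun _ _ => zero_le_one) (fun _ => (1 : ℝ))
    ((Om M r).filter (fun T' => runs T' = runs T ∧ nn T' + 2 ≤ nn T)) (by
      intro T' hT'
      rw [mem_filter] at hT'
      obtain ⟨h1, h2, h3⟩ := hT'
      have hc : IsCode M r T' := by
        unfold Om at h1
        exact (mem_filter.1 h1).2
      have h4 := nn_same hT hc h2
      have h5 : 1 < ((tin T).filter
        fun e => ({e, (e.1, 0)} : Finset (BE M r)) ⊆ symmDiff T T').card := by omega
      rw [one_lt_card] at h5
      obtain ⟨e, he, f, hf, hef⟩ := h5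
      rw [mem_filter] at he hf
      have hmem : (e, f) ∈ (tin T).offDiag := mem_offDiag.2 ⟨he.1, hf.1, hef⟩
      refine le_trans ?_ (single_le_sum (fun i _ => ?_) hmem)
      · rw [if_pos (union_subset he.2 hf.2)]
      · split_ifs <;> norm_num)
  simp only [mul_one, one_mul] at h
  refine h.trans ?_
  have h2 : ∀ y ∈ (tin T).offDiag,
      (1 / m) ^ (({y.1, (y.1.1, 0)} ∪ {y.2, (y.2.1, 0)} : Finset (BE M r)).card) = (1 / m) ^ 4 := by
    intro y hy
    rw [mem_offDiag] at hy
    obtain ⟨hy1, hy2, hy3⟩ := hy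
    have g1 := j2029_mem_tin.1 hy1
    have g2 := j2029_mem_tin.1 hy2
    have hne : y.1.1 ≠ y.2.1 := by
      intro h'
      exact hy3 (hT.copy_unique g1.1 g2.1 h' g1.2.2 g2.2.2)
    rw [card_union_of_disjoint, card_pair (j2029_ne0 hy1), card_pair (j2029_ne0 hy2)]
    rw [disjoint_left]
    intro x hx hx'
    rw [mem_insert, mem_singleton] at hx hx'
    apply hne
    have a1 : x.1 = y.1.1 := by rcases hx with rfl | rfl <;> rfl
    have a2 : x.1 = y.2.1 := by rcases hx' with rfl | rfl <;> rfl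
    rw [← a1, ← a2]
  rw [sum_congr rfl h2, sum_const, nsmul_eq_mul, offDiag_card]
  have h3 : (((tin T).card * (tin T).card - (tin T).card : ℕ) : ℝ) ≤ (nn T : ℝ) ^ 2 := by
    have : (tin T).card * (tin T).card - (tin T).card ≤ (nn T) ^ 2 := by
      unfold nn
      rw [pow_two]; exact Nat.sub_le _ _
    exact_mod_cast this
  calc _ ≤ (nn T : ℝ) ^ 2 * (1 / m) ^ 4 := mul_le_mul_of_nonneg_right h3 (by positivity)
    _ = _ := by rw [div_pow, one_pow]; ring

theorem nn_le {T : Finset (BE M r)} (hT : IsCode M r T) : nn T ≤ M := by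
  unfold nn
  have : (tin T).card ≤ (Finset.univ : Finset (Fin M)).card := by
    apply card_le_card_of_injOn (fun e => e.1) (fun _ _ => mem_coe.2 (mem_univ _))
    intro e he f hf hef
    have he1 := j2029_mem_tin.1 (mem_coe.1 he)
    have hf1 := j2029_mem_tin.1 (mem_coe.1 hf)
    exact hT.copy_unique he1.1 hf1.1 hef he1.2.2 hf1.2.2
  simpa using this

theorem runs_empty_iff (T : Finset (BE M r)) : JJ T = 0 ↔ runs T = ∅ := by
  unfold JJ
  rw [sum_eq_zero_iff]
  constructor
  · intro h
    rw [eq_empty_iff_forall_notMem]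
    intro p hp
    have := h p hp
    omega
  · intro h p hp
    rw [h] at hp
    exact absurd hp (notMem_empty _)

/-- own drift of a block without defect intervals -/
theorem own_clean {l0 : ℕ} {d H m : ℝ} (hH : 0 ≤ H) (hm : 1 ≤ m)
    (hm2 : (M : ℝ) ^ 2 * DD H 0 ≤ m ^ 2) {T : Finset (BE M r)} (hT : IsCode M r T)
    (hJ : JJ T = 0) : Own l0 d H m T ≤ 2 / m ^ 2 := by
  have hm0 : 0 < m := by linarith
  have hPhi : ∀ T' : Finset (BE M r), JJ T' = 0 → Phi l0 d H T' = DD H (nn T') := by
    intro T' h0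
    unfold Phi XX
    rw [(runs_empty_iff T').1 h0, h0]
    simp
  have hrT := (runs_empty_iff T).1 hJ
  have hDD0 : 0 ≤ DD H 0 := DD_nonneg hH le_rfl
  have hsame : ∑ T' ∈ (Om M r).filter (fun T' => Same T' T),
      qq m T T' * max 0 (Phi l0 d H T' - Phi l0 d H T) = 0 := by
    apply sum_eq_zero
    intro T' hT'
    rw [mem_filter] at hT'
    obtain ⟨_, h1, h2⟩ := hT'
    rw [hPhi T' (by rw [h1, hJ]), hPhi T hJ, h2]
    simp
  have hless : ∑ T' ∈ (Om M r).filter (fun T' => Less T' T),
      qq m T T' * (Phi l0 d H T' - Phi l0 d H T) =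
      ∑ T' ∈ (Om M r).filter (fun T' => runs T' = runs T ∧ nn T' < nn T),
        qq m T T' * (DD H (nn T') - DD H (nn T)) := by
    have hset : (Om M r).filter (fun T' => Less T' T) =
        (Om M r).filter (fun T' => runs T' = runs T ∧ nn T' < nn T) := by
      apply filter_congr
      intro T' _
      unfold Less
      rw [hJ]
      constructor
      · rintro (h | ⟨h1, h2⟩)
        · omega
        · exact ⟨by rw [hrT]; exact (runs_empty_iff T').1 h1, h2⟩
      · rintro ⟨h1, h2⟩
        exact Or.inr ⟨(runs_empty_iff T').2 (by rw [h1, hrT]), h2⟩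
    rw [hset]
    apply sum_congr rfl
    intro T' hT'
    rw [mem_filter] at hT'
    rw [hPhi T' ((runs_empty_iff T').2 (by rw [hT'.2.1, hrT])), hPhi T hJ]
  have hn0 : 0 ≤ (nn T : ℝ) := Nat.cast_nonneg _
  have hpt : ∀ T' ∈ (Om M r).filter (fun T' => runs T' = runs T ∧ nn T' < nn T),
      qq m T T' * (DD H (nn T') - DD H (nn T)) ≤
      (1 / (nn T : ℝ)) * qq m T T' + DD H 0 * (if nn T' + 2 ≤ nn T then qq m T T' else 0) := by
    intro T' hT'
    rw [mem_filter] at hT'
    have hq := qq_nonneg (m := m) hm T T'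
    have hlt := hT'.2.2
    have hnT : 1 ≤ (nn T : ℝ) := by
      have : 1 ≤ nn T := by omega
      exact_mod_cast this
    by_cases h2 : nn T' + 2 ≤ nn T
    · rw [if_pos h2]
      have h3 : DD H (nn T') ≤ DD H 0 := DD_anti hH le_rfl (Nat.cast_nonneg _)
      have h4 : 0 ≤ DD H (nn T) := DD_nonneg hH hn0
      have h5 : 0 ≤ (1 / (nn T : ℝ)) * qq m T T' := by positivity
      have h6 := mul_le_mul_of_nonneg_left (show DD H (nn T') - DD H (nn T) ≤ DD H 0 by linarith) hq
      linarith [mul_comm (qq m T T') (DD H 0)]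
    · rw [if_neg h2, mul_zero, add_zero]
      have h3 : (nn T' : ℝ) = (nn T : ℝ) - 1 := by
        have : nn T' + 1 = nn T := by omega
        have : (nn T' : ℝ) + 1 = nn T := by exact_mod_cast this
        linarith
      rw [h3, mul_comm]
      exact mul_le_mul_of_nonneg_right (DD_pred hH hnT) hq
  have hsum := sum_le_sum hpt
  rw [sum_add_distrib, ← mul_sum, ← mul_sum, ← sum_filter, filter_filter] at hsum
  have hu := heal_upper hm hT
  have ht := heal_two hm hT
  have hset2 : (Om M r).filter (fun T' => (runs T' = runs T ∧ nn T' < nn T) ∧ nn T' + 2 ≤ nn T) =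
      (Om M r).filter (fun T' => runs T' = runs T ∧ nn T' + 2 ≤ nn T) := by
    apply filter_congr
    intro T' _
    constructor
    · rintro ⟨⟨h1, h2⟩, h3⟩; exact ⟨h1, h3⟩
    · rintro ⟨h1, h3⟩; exact ⟨⟨h1, by omega⟩, h3⟩
  rw [hset2] at hsum
  have b1 : (1 / (nn T : ℝ)) * ∑ T' ∈ (Om M r).filter (fun T' => runs T' = runs T ∧ nn T' < nn T),
      qq m T T' ≤ 1 / m ^ 2 := by
    by_cases h0 : nn T = 0
    · rw [h0]; simp; positivity
    · have h0' : 0 < (nn T : ℝ) := by
        have : 0 < nn T := Nat.pos_of_ne_zero h0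
        exact_mod_cast this
      calc _ ≤ (1 / (nn T : ℝ)) * ((nn T : ℝ) / m ^ 2) :=
            mul_le_mul_of_nonneg_left hu (by positivity)
        _ = 1 / m ^ 2 := by field_simp
  have b2 : DD H 0 * ∑ T' ∈ (Om M r).filter (fun T' => runs T' = runs T ∧ nn T' + 2 ≤ nn T),
      qq m T T' ≤ 1 / m ^ 2 := by
    have hnM : (nn T : ℝ) ^ 2 ≤ (M : ℝ) ^ 2 := by
      have : (nn T : ℝ) ≤ M := by exact_mod_cast nn_le hT
      exact pow_le_pow_left₀ hn0 this 2
    calc _ ≤ DD H 0 * ((nn T : ℝ) ^ 2 / m ^ 4) := mul_le_mul_of_nonneg_left ht hDD0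
      _ ≤ DD H 0 * ((M : ℝ) ^ 2 / m ^ 4) := by
          apply mul_le_mul_of_nonneg_left _ hDD0
          exact div_le_div_of_nonneg_right hnM (by positivity)
      _ = ((M : ℝ) ^ 2 * DD H 0) / m ^ 4 := by ring
      _ ≤ m ^ 2 / m ^ 4 := div_le_div_of_nonneg_right hm2 (by positivity)
      _ = 1 / m ^ 2 := by field_simp
  unfold Own
  rw [hsame, hless, add_zero]
  have : (2 : ℝ) / m ^ 2 = 1 / m ^ 2 + 1 / m ^ 2 := by ring
  rw [this]
  linarith

end blk

end Pool.Agent.Helper120.Ea
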