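import Pool.Agent.Helper120.Ea.Idx

open Finset

namespace Pool.Agent.Helper120.Ea

open Classical in
lemma sum_Idx (r : ℕ) (p : ℕ × ℕ) (h : Option ℕ × Option ℕ × ℕ → ℝ) :
    ∑ σ ∈ Idx r p, h σ = ∑ k ∈ range (r + 1), h (none, none, k) +
      ∑ i ∈ Ioc p.1 p.2, ∑ k ∈ range (r + 1), h (none, some i, k) +
      ∑ c ∈ Ico p.1 p.2, h (some c, none, 0) +
      ∑ c ∈ Ico p.1 p.2, ∑ i ∈ Ioc c p.2, h (some c, some i, 0) := by
  unfold Idx
  rw [sum_union, sum_union, sum_union, sum_image, sum_image, sum_image, sum_image, sum_product]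
  · congr 1
    rw [sum_sigma']
    refine sum_bij' (fun y _ => ⟨y.1, y.2⟩) (fun y _ => (y.1, y.2)) ?_ ?_ ?_ ?_ ?_
    · rintro ⟨c, i⟩ hy
      simp only [mem_filter, mem_product, mem_Ico, mem_Ioc, mem_sigma] at hy ⊢
      omega
    · rintro ⟨c, i⟩ hy
      simp only [mem_filter, mem_product, mem_Ico, mem_Ioc, mem_sigma] at hy ⊢
      omega
    · intros; rfl
    · intros; rfl
    · intros; rfl
  · rintro ⟨a, b⟩ _ ⟨c, d⟩ _ hh
    simpa using hh
  · intro a _ b _ hh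
    simpa using hh
  · rintro ⟨a, b⟩ _ ⟨c, d⟩ _ hh
    simpa using hh
  · intro a _ b _ hh
    simpa using hh
  · rw [disjoint_left]
    intro x hx hy
    simp only [mem_image] at hx hy
    obtain ⟨_, _, rfl⟩ := hx
    obtain ⟨_, _, hh⟩ := hy
    simp at hh
  · rw [disjoint_left]
    intro x hx hy
    simp only [mem_union, mem_image] at hx hy
    obtain ⟨_, _, rfl⟩ := hy
    rcases hx with ⟨_, _, hh⟩ | ⟨_, _, hh⟩ <;> simp at hh
  · rw [disjoint_left]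
    intro x hx hy
    simp only [mem_union, mem_image] at hx hy
    obtain ⟨_, _, rfl⟩ := hy
    rcases hx with (⟨_, _, hh⟩ | ⟨_, _, hh⟩) | ⟨_, _, hh⟩ <;> simp at hh

lemma sum_Ioc_shift (f : ℕ → ℝ) (c N : ℕ) :
    ∑ i ∈ Ioc c (c + N), f i = ∑ e ∈ range N, f (c + 1 + e) := by
  have : Ioc c (c + N) = (range N).image (fun e => c + 1 + e) := by
    ext x
    simp only [mem_Ioc, mem_image, mem_range]
    constructor
    · intro h; exact ⟨x - (c + 1), by omega, by omega⟩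
    · rintro ⟨e, he, rfl⟩; omega
  rw [this, sum_image]
  intro a _ b _ h
  simpa using h

lemma sum_Ico_shift (f : ℕ → ℝ) (c N : ℕ) :
    ∑ i ∈ Ico c (c + N), f i = ∑ e ∈ range N, f (c + e) := by
  rw [sum_Ico_eq_sum_range, Nat.add_sub_cancel_left]

lemma sum_reflect' (g : ℕ → ℝ) (m : ℕ) :
    ∑ j ∈ range m, g (m - j) = ∑ j ∈ range m, g (j + 1) := by
  rw [← sum_range_reflect]
  refine sum_congr rfl fun j hj => ?_
  rw [mem_range] at hj
  congr 1; omega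

theorem card_Idx (r : ℕ) (p : ℕ × ℕ) (hp : p.1 ≤ p.2) :
    ((Idx r p).card : ℝ) = NN r (p.2 - p.1 + 1) := by
  obtain ⟨a, b⟩ := p
  simp only at hp
  obtain ⟨m, rfl⟩ := Nat.exists_eq_add_of_le hp
  have h1 : ((Idx r (a, a + m)).card : ℝ) = ∑ σ ∈ Idx r (a, a + m), (1 : ℝ) := by simp
  rw [h1, sum_Idx]
  simp only [sum_Ico_shift, sum_const, card_range, nsmul_eq_mul, mul_one, Nat.card_Ioc, Nat.card_Ico]
  have h2 : ∑ e ∈ range m, ((a + m - (a + e) : ℕ) : ℝ) = m * (m + 1) / 2 := by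
    have h3 : ∀ e, a + m - (a + e) = m - e := by intro e; omega
    simp only [h3]
    rw [sum_reflect' (fun n => (n : ℝ))]
    clear h1 h3 hp
    induction m with
    | zero => simp
    | succ k ih => rw [sum_range_succ, ih]; push_cast; ring
  rw [h2]
  simp only [NN, Nat.add_sub_cancel_left]
  push_cast
  ring

theorem sum_dJ (r : ℕ) (p : ℕ × ℕ) (hp : p.1 ≤ p.2) :
    NN r (p.2 - p.1 + 1) * ((p.2 - p.1 + 1 : ℕ) : ℝ) / 3 ≤ ∑ σ ∈ Idx r p, (dJ p σ : ℝ) := by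
  obtain ⟨a, b⟩ := p
  simp only at hp
  obtain ⟨m, rfl⟩ := Nat.exists_eq_add_of_le hp
  rw [sum_Idx]
  simp only [sum_Ioc_shift, sum_Ico_shift]
  have t1 : ∀ k, (dJ (a, a + m) (none, none, k) : ℝ) = 2 * m + 1 := by
    intro k
    have : dJ (a, a + m) (none, none, k) = 2 * m + 1 := by simp [dJ]
    rw [this]; push_cast; ring
  have t2 : ∀ e ∈ range m, ∀ k, (dJ (a, a + m) (none, some (a + 1 + e), k) : ℝ) = 2 * (e + 1) := by
    intro e he k
    rw [mem_range] at he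
    have : dJ (a, a + m) (none, some (a + 1 + e), k) = 2 * (e + 1) := by
      simp only [dJ, Option.elim_none, Option.elim_some]; omega
    rw [this]; push_cast; ring
  have t3 : ∀ e ∈ range m, (dJ (a, a + m) (some (a + e), none, 0) : ℝ) = ((2 * (m - e) : ℕ) : ℝ) := by
    intro e he
    rw [mem_range] at he
    have : dJ (a, a + m) (some (a + e), none, 0) = 2 * (m - e) := by
      simp only [dJ, Option.elim_none, Option.elim_some]; omega
    rw [this]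
  have t4 : ∀ e ∈ range m, ∑ i ∈ Ioc (a + e) (a + m), (dJ (a, a + m) (some (a + e), some i, 0) : ℝ) =
      ((m - e : ℕ) : ℝ) ^ 2 := by
    intro e he
    rw [mem_range] at he
    have h1 : a + m = (a + e) + (m - e) := by omega
    have h2 : ∑ i ∈ Ioc (a + e) (a + m), (dJ (a, a + m) (some (a + e), some i, 0) : ℝ) =
      ∑ f ∈ range (m - e), (dJ (a, a + m) (some (a + e), some (a + e + 1 + f), 0) : ℝ) := by
      conv_lhs => rw [h1]
      rw [sum_Ioc_shift, ← h1]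
    rw [h2]
    have h3 : ∀ f ∈ range (m - e), (dJ (a, a + m) (some (a + e), some (a + e + 1 + f), 0) : ℝ) = 2 * f + 1 := by
      intro f hf
      rw [mem_range] at hf
      have : dJ (a, a + m) (some (a + e), some (a + e + 1 + f), 0) = 2 * f + 1 := by
        simp only [dJ, Option.elim_some]; omega
      rw [this]; push_cast; ring
    rw [sum_congr rfl h3]
    generalize m - e = N
    clear h1 h2 h3 t1 t2 t3
    induction N with
    | zero => simp
    | succ k ih => rw [sum_range_succ, ih]; push_cast; ring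
  rw [sum_congr rfl (fun k _ => t1 k), sum_congr rfl (fun e he => sum_congr rfl (fun k _ => t2 e he k)),
    sum_congr rfl t3, sum_congr rfl t4]
  simp only [sum_const, card_range, nsmul_eq_mul]
  rw [sum_reflect' (fun n => ((2 * n : ℕ) : ℝ)), sum_reflect' (fun n => (n : ℝ) ^ 2)]
  have s1 : ∑ x ∈ range m, ((r + 1 : ℕ) : ℝ) * (2 * ((x : ℝ) + 1)) = (r + 1) * (m * (m + 1)) := by
    clear t1 t2 t3 t4 hp
    induction m with
    | zero => simp
    | succ k ih => rw [sum_range_succ, ih]; push_cast; ring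
  have s2 : ∑ x ∈ range m, ((2 * (x + 1) : ℕ) : ℝ) = m * (m + 1) := by
    clear t1 t2 t3 t4 hp s1
    induction m with
    | zero => simp
    | succ k ih => rw [sum_range_succ, ih]; push_cast; ring
  have s3 : ∑ x ∈ range m, (((x + 1 : ℕ) : ℝ)) ^ 2 = m * (m + 1) * (2 * m + 1) / 6 := by
    clear t1 t2 t3 t4 hp s1 s2
    induction m with
    | zero => simp
    | succ k ih => rw [sum_range_succ, ih]; push_cast; ring
  rw [s1, s2, s3]
  simp only [NN, Nat.add_sub_cancel_left]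
  push_cast
  have hm : (0 : ℝ) ≤ m := Nat.cast_nonneg m
  have hr : (0 : ℝ) ≤ r := Nat.cast_nonneg r
  have k1 : 0 ≤ (r : ℝ) * m := by positivity
  have k2 : 0 ≤ (r : ℝ) * m ^ 2 := by positivity
  have k3 : 0 ≤ (m : ℝ) ^ 2 := by positivity
  have k4 : 0 ≤ (m : ℝ) ^ 3 := by positivity
  nlinarith

lemma mem_Idx_cases (r : ℕ) (p : ℕ × ℕ) (σ : Option ℕ × Option ℕ × ℕ) (hσ : σ ∈ Idx r p) :
    (∃ k, σ = (none, none, k)) ∨ (∃ i k, p.1 < i ∧ i ≤ p.2 ∧ σ = (none, some i, k)) ∨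
    (∃ c, p.1 ≤ c ∧ c < p.2 ∧ σ = (some c, none, 0)) ∨
    (∃ c i, p.1 ≤ c ∧ c < i ∧ i ≤ p.2 ∧ σ = (some c, some i, 0)) := by
  unfold Idx at hσ
  simp only [mem_union, mem_image, mem_filter, mem_product, mem_Ico, mem_Ioc, mem_range] at hσ
  rcases hσ with ((⟨k, _, rfl⟩ | ⟨y, ⟨⟨h1, h2⟩, _⟩, rfl⟩) | ⟨c, ⟨h1, h2⟩, rfl⟩) | ⟨y, ⟨⟨⟨h1, h2⟩, h3, h4⟩, h5⟩, rfl⟩
  · exact Or.inl ⟨k, rfl⟩
  · exact Or.inr (Or.inl ⟨_, _, h1, h2, rfl⟩)
  · exact Or.inr (Or.inr (Or.inl ⟨_, h1, h2, rfl⟩))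
  · exact Or.inr (Or.inr (Or.inr ⟨_, _, h1, h5, h4, rfl⟩))

theorem dJ_pos (r : ℕ) (p : ℕ × ℕ) (hp : p.1 ≤ p.2) (σ : Option ℕ × Option ℕ × ℕ)
    (hσ : σ ∈ Idx r p) : 1 ≤ dJ p σ := by
  rcases mem_Idx_cases r p σ hσ with ⟨k, rfl⟩ | ⟨i, k, h1, h2, rfl⟩ | ⟨c, h1, h2, rfl⟩ | ⟨c, i, h1, h2, h3, rfl⟩ <;>
    simp only [dJ, Option.elim_none, Option.elim_some] <;> omega

/-- the pieces have total length the old length minus `dJ` -/
theorem dJ_eq (r : ℕ) (p : ℕ × ℕ) (hp : p.1 ≤ p.2) (σ : Option ℕ × Option ℕ × ℕ)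
    (hσ : σ ∈ Idx r p) : dJ p σ + (σ.1.elim 0 fun c => 2 * (c - p.1) + 1) +
      (σ.2.1.elim 0 fun i => 2 * (p.2 - i) + 1) = 2 * (p.2 - p.1) + 1 := by
  rcases mem_Idx_cases r p σ hσ with ⟨k, rfl⟩ | ⟨i, k, h1, h2, rfl⟩ | ⟨c, h1, h2, rfl⟩ | ⟨c, i, h1, h2, h3, rfl⟩ <;>
    simp only [dJ, Option.elim_none, Option.elim_some] <;> omega

end Pool.Agent.Helper120.Ea
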