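import Pool.Agent.Helper120.Ea.Final

open Finset MeasureTheory ProbabilityTheory
open scoped ENNReal

namespace Pool.Agent.Helper120.Ea

open Pool.Agent.Helper120.EaModel

section mainpart
open Classical

variable {P L M r : ℕ}

theorem card_Ex (P L M r : ℕ) :
    Fintype.card (Ex P L M r) = P + (L + L * (M * r)) + L * (M * (r + 2)) := by
  simp [Ex, Dep, BE, Fintype.card_sum, Fintype.card_prod]

theorem start_value {m : ℝ} {l0 : ℕ} {d H : ℝ} {α β g : ℕ → ℝ} {G0 : ℝ} (hL : 2 ≤ L) (hr : 1 ≤ r)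
    (hM : 0 < M) :
    VV m (Phi l0 d H) α β g G0 (xstart P L M r) =
      m ^ 2 / 2 * (g M + ((L : ℝ) - 1) * max 0 (G0 - (α M * DD H 0 + β M))) := by
  unfold VV
  rw [if_pos ⟨xstart_tree hr, xstart_frozen⟩]
  obtain ⟨i, hi⟩ : ∃ i : Fin L, i.val = 0 := ⟨⟨0, by omega⟩, rfl⟩
  have hb0 : blk (xstart P L M r) i = enc M r ∅ (fun _ => 1) := by
    rw [xstart_blk, if_pos hi]
  have hJ : JJ (blk (xstart P L M r) i) = 0 := by rw [hb0]; exact (isCode_start hr).2.1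
  have hn : nn (blk (xstart P L M r) i) = M := by rw [hb0]; exact (isCode_start hr).2.2
  have hfirst : IsFirst JJ nn (blk (xstart P L M r)) i := by
    refine ⟨Or.inr (by rw [hn]; omega), ?_⟩
    intro b hb
    have : b.val < i.val := hb
    omega
  rw [pd_first JJ nn _ α β g G0 _ i hfirst]
  unfold wI
  rw [if_neg (by rw [hJ]; simp), hn]
  have hnx : (nxtB i).val = 1 := by
    unfold nxtB
    rw [dif_pos (by omega)]
    show i.val + 1 = 1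
    omega
  have hb1 : blk (xstart P L M r) (nxtB i) = enc M r ∅ (fun _ => 0) := by
    rw [xstart_blk, if_neg (by omega)]
  have hPhi : Phi l0 d H (blk (xstart P L M r) (nxtB i)) = DD H 0 := by
    rw [hb1, Phi_clean ((runs_empty_iff _).1 isCode_opt.2.1), isCode_opt.2.2]
    simp
  rw [hPhi, hi]
  simp

theorem main_growth (C : ℝ) (N : ℕ) :
    ∃ (V E : Type) (_ : Fintype V) (_ : Fintype E) (_ : DecidableEq E) (G : WGraph V E)
      (x0 : Finset E), (G.subgraph Finset.univ).Connected ∧ G.IsSpanningTree x0 ∧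
      2 ≤ Fintype.card E ∧ N ≤ Fintype.card E ∧
      ENNReal.ofReal (C * (Fintype.card E : ℝ) ^ 2 * Real.log (Fintype.card E)) <
        G.expectedRuntime x0 := by
  obtain ⟨L, hLdef⟩ : ∃ L : ℕ, L = ⌈126 * C⌉₊ + 5 := ⟨_, rfl⟩
  have hL5 : 5 ≤ L := by omega
  have hLC : 126 * C + 1 < L := by
    have h1 := Nat.le_ceil (126 * C)
    have h2 : (L : ℝ) = (⌈126 * C⌉₊ : ℝ) + 5 := by rw [hLdef]; push_cast; ring
    linarith
  obtain ⟨u, huN, hbig⟩ := exists_big L N hL5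
  obtain ⟨k0, hk0⟩ : ∃ k0, k0 = 1000 * L + 3 := ⟨_, rfl⟩
  rw [← hk0] at hbig
  have hcardle := par_card hbig
  obtain ⟨P, hP⟩ : ∃ P, P + (L + L * (u ^ (10 * k0 + 5) * u ^ 4)) +
      L * (u ^ (10 * k0 + 5) * (u ^ 4 + 2)) = u ^ (10 * k0 + 19) :=
    ⟨u ^ (10 * k0 + 19) - (L + L * (u ^ (10 * k0 + 5) * u ^ 4) +
      L * (u ^ (10 * k0 + 5) * (u ^ 4 + 2))), by omega⟩
  have hcard : Fintype.card (Ex P L (u ^ (10 * k0 + 5)) (u ^ 4)) = u ^ (10 * k0 + 19) := by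
    rw [card_Ex]; exact hP
  have hcardR : (u : ℝ) ^ (10 * k0 + 19) =
      (Fintype.card (Ex P L (u ^ (10 * k0 + 5)) (u ^ 4)) : ℝ) := by
    rw [hcard]; push_cast; ring
  obtain ⟨hr1, hl03, hd0, hd4, hH1, hm2, hM2, hbg, hratio⟩ := par_easy hbig
  have hDD := DD_le hbig
  have hH0 : (0 : ℝ) ≤ (u : ℝ) ^ (k0 - 2) / 2 := by linarith
  have hu1 : 1 ≤ u := by have := hbig.hu; omega
  have hM0 : 0 < u ^ (10 * k0 + 5) := by positivity
  have hm0 : (0 : ℝ) < (u : ℝ) ^ (10 * k0 + 19) := by linarith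
  have hB := blk_hyp (M := u ^ (10 * k0 + 5)) (r := u ^ 4) (l0 := u ^ 5)
    (d := 1 / (u : ℝ) ^ 2) (H := (u : ℝ) ^ (k0 - 2) / 2) (m := (u : ℝ) ^ (10 * k0 + 19))
    hr1 hl03 hd0 hd4 hH0 hm2 hM2 hbg (par_m3 hbig) (par_C1 hbig) (par_C2 hbig)
    (fun l hl => par_psi hbig l hl) (par_MD hbig)
  have hn3 := n3_le hbig
  have hlogM := (logM_le hbig).1
  have hp : (0 : ℝ) < 1 / (u : ℝ) ^ 28 := by
    have : (1 : ℝ) ≤ u := by exact_mod_cast hu1
    positivity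
  have hp1 : 1 / (u : ℝ) ^ 28 ≤ 1 := by
    have h1 : (1 : ℝ) ≤ u := by exact_mod_cast hu1
    rw [div_le_one (by positivity)]
    exact one_le_pow₀ h1
  obtain ⟨α, β, hF, hαβ⟩ := fn_hyp (M := u ^ (10 * k0 + 5)) (L := L) (n3 := n3 u k0)
    (m := (u : ℝ) ^ (10 * k0 + 19)) (H := (u : ℝ) ^ (k0 - 2) / 2) (p := 1 / (u : ℝ) ^ 28)
    (R := ((((u ^ 4 : ℕ) : ℝ) + 1) / (24 * Real.log (2 * ((u ^ (10 * k0 + 5) : ℕ) : ℝ)))) /
      ((u : ℝ) ^ (10 * k0 + 19)) ^ 2)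
    (by linarith) hH1 hp hp1 (by positivity) hn3.1 hn3.2.2.1 (par_h1 hbig) (par_h2 hbig)
    (par_h3 hbig) (par_h4 hbig) (par_h5 hbig) (par_h6 hbig) (par_h7 hbig) (par_h8 hbig)
    (par_h9 hbig)
  rw [hratio] at hB
  have hlow := lower (P := P) (L := L) hcardR hM0 hm2 hr1 hB hF
  rw [start_value (by omega) hr1 hM0] at hlow
  refine ⟨Vx P L (u ^ (10 * k0 + 5)) (u ^ 4), Ex P L (u ^ (10 * k0 + 5)) (u ^ 4), inferInstance,
    inferInstance, inferInstance, theG P L (u ^ (10 * k0 + 5)) (u ^ 4),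
    xstart P L (u ^ (10 * k0 + 5)) (u ^ 4), gr_univ_connected hM0, xstart_tree hr1, ?_, ?_, ?_⟩
  · have : (2 : ℝ) ≤ (Fintype.card (Ex P L (u ^ (10 * k0 + 5)) (u ^ 4)) : ℝ) := by
      rw [← hcardR]; exact hm2
    exact_mod_cast this
  · rw [hcard]
    exact huN.trans (Nat.le_self_pow (by omega) u)
  · refine lt_of_lt_of_le ?_ hlow
    rw [← hcardR]
    have hfin := par_final hbig hLC
    have hαn := hF.α_nonneg (u ^ (10 * k0 + 5))
    have hg0 : (0 : ℝ) ≤ Real.log (1 + ((u ^ (10 * k0 + 5) : ℕ) : ℝ)) :=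
      Real.log_nonneg (by
        have : (0 : ℝ) ≤ ((u ^ (10 * k0 + 5) : ℕ) : ℝ) := Nat.cast_nonneg _
        linarith)
    have hL1 : (0 : ℝ) ≤ (L : ℝ) - 1 := by
      have : (5 : ℝ) ≤ L := by exact_mod_cast hL5
      linarith
    have h1 : Real.log ((u : ℝ) ^ (k0 - 2) / 2) / 4 - (217 + 8 * Real.log (n3 u k0)) ≤
        max 0 (Real.log ((u : ℝ) ^ (k0 - 2) / 2) / 4 -
          (α (u ^ (10 * k0 + 5)) * DD ((u : ℝ) ^ (k0 - 2) / 2) 0 + β (u ^ (10 * k0 + 5)))) := by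
      refine le_trans ?_ (le_max_right _ _)
      nlinarith
    have h2 : C * ((u : ℝ) ^ (10 * k0 + 19)) ^ 2 * Real.log ((u : ℝ) ^ (10 * k0 + 19)) <
        ((u : ℝ) ^ (10 * k0 + 19)) ^ 2 / 2 *
          (Real.log (1 + ((u ^ (10 * k0 + 5) : ℕ) : ℝ)) + ((L : ℝ) - 1) *
          max 0 (Real.log ((u : ℝ) ^ (k0 - 2) / 2) / 4 -
          (α (u ^ (10 * k0 + 5)) * DD ((u : ℝ) ^ (k0 - 2) / 2) 0 + β (u ^ (10 * k0 + 5))))) := by
      refine lt_of_lt_of_le hfin ?_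
      apply mul_le_mul_of_nonneg_left _ (by positivity)
      have := mul_le_mul_of_nonneg_left h1 hL1
      linarith
    rcases le_or_gt (C * ((u : ℝ) ^ (10 * k0 + 19)) ^ 2 * Real.log ((u : ℝ) ^ (10 * k0 + 19))) 0
      with h3 | h3
    · rw [ENNReal.ofReal_of_nonpos h3]
      rw [ENNReal.ofReal_pos]
      have h4 : (0 : ℝ) < Real.log (1 + ((u ^ (10 * k0 + 5) : ℕ) : ℝ)) := by
        apply Real.log_pos
        have : (0 : ℝ) < ((u ^ (10 * k0 + 5) : ℕ) : ℝ) := by exact_mod_cast hM0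
        linarith
      have h5 := mul_nonneg hL1 (le_max_left 0 (Real.log ((u : ℝ) ^ (k0 - 2) / 2) / 4 -
          (α (u ^ (10 * k0 + 5)) * DD ((u : ℝ) ^ (k0 - 2) / 2) 0 + β (u ^ (10 * k0 + 5)))))
      have h6 : 0 < ((u : ℝ) ^ (10 * k0 + 19)) ^ 2 / 2 := by positivity
      exact mul_pos h6 (by linarith)
    · exact (ENNReal.ofReal_lt_ofReal_iff_of_nonneg h3.le).2 h2

end mainpart

end Pool.Agent.Helper120.Ea
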