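import Mathlib

open MeasureTheory ProbabilityTheory
open scoped ENNReal

namespace Pool.Agent.Helper120.EaModel

/-- A graph on the vertex set `V` without loops and without parallel edges, whose edges are
labelled by the elements of `E`, with a positive integer weight on every edge. -/
structure WGraph (V E : Type) where
  /-- the two endpoints of an edge -/
  ends : E → Sym2 V
  ends_injective : Function.Injective ends
  no_loop : ∀ e, ¬ (ends e).IsDiag
  weight : E → ℕ
  weight_pos : ∀ e, 0 < weight e

/-- The flip probability `1 / m`, where `m` is the number of edges (as a number of the interval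
`[0, 1]`). -/
noncomputable def flipRate (E : Type) [Fintype E] : unitInterval :=
  ⟨1 / (Fintype.card E : ℝ), Set.mem_Icc.2 ⟨by positivity, by
    rcases Nat.eq_zero_or_pos (Fintype.card E) with h | h
    · rw [h]; norm_num
    · exact (div_le_one (by exact_mod_cast h)).2 (by exact_mod_cast h)⟩⟩

/-- The bit `z (t, e)` tells whether the bit of the edge `e` is flipped in round `t`. All bits
`z (t, e)` are independent and each of them is `true` with probability `1 / m`. -/
noncomputable def flipMeasure (E : Type) [Fintype E] : Measure (ℕ × E → Bool) :=
  Measure.infinitePi fun _ : ℕ × E => bernoulliMeasure true false (flipRate E)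

namespace WGraph

variable {V E : Type} (G : WGraph V E)

/-- the spanning subgraph encoded by a bit string; `x` is the set of edges whose bit is one -/
def subgraph (x : Finset E) : SimpleGraph V := SimpleGraph.fromEdgeSet (G.ends '' (x : Set E))

/-- `x` encodes a spanning tree -/
def IsSpanningTree (x : Finset E) : Prop := (G.subgraph x).IsTree

/-- the weight of the bit string `x` -/
def totalWeight (x : Finset E) : ℕ := ∑ e ∈ x, G.weight e

/-- the weight of a minimum spanning tree -/
noncomputable def optWeight : ℕ := sInf {w | ∃ x, G.IsSpanningTree x ∧ G.totalWeight x = w}

open Classical in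
/-- selection: the mutant `y` replaces `x` if it is a spanning tree that is not heavier than `x` -/
noncomputable def select (x y : Finset E) : Finset E :=
  if G.IsSpanningTree y ∧ G.totalWeight y ≤ G.totalWeight x then y else x

variable [Fintype E] [DecidableEq E]

/-- the string `x` after the flips of round `t` -/
def mutant (z : ℕ × E → Bool) (t : ℕ) (x : Finset E) : Finset E :=
  symmDiff x (Finset.univ.filter fun e => z (t, e) = true)

/-- the (1+1) evolutionary algorithm started at `x0`: its string after `t` rounds -/
noncomputable def run (x0 : Finset E) (z : ℕ × E → Bool) : ℕ → Finset E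
  | 0 => x0
  | t + 1 => G.select (run x0 z t) (mutant z t (run x0 z t))

/-- the first time at which the string has minimum weight (infinite if there is none) -/
noncomputable def runtime (x0 : Finset E) (z : ℕ × E → Bool) : ℝ≥0∞ :=
  ⨅ (t : ℕ) (_ : G.totalWeight (G.run x0 z t) = G.optWeight), (t : ℝ≥0∞)

/-- the expected runtime -/
noncomputable def expectedRuntime (x0 : Finset E) : ℝ≥0∞ := ∫⁻ z, G.runtime x0 z ∂(flipMeasure E)

end WGraph

end Pool.Agent.Helper120.EaModel
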