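import Pool.Agent.Helper120.Ea.All2
import Pool.Agent.Helper120.Ea.Model

open Finset

namespace Pool.Agent.Helper120.Ea

open Pool.Agent.Helper120.EaModel

section net
open Classical

variable {P L M r : ℕ}

/-- base of the digits -/
def Qd (M : ℕ) : ℕ := 2 * M + 2

/-- weight of a positive copy in block `b` -/
def muw (L M : ℕ) (b : Fin L) : ℕ := Qd M ^ (2 * (L - 1 - b.val))

/-- weight unit of the levels of block `b` -/
def Bww (L M : ℕ) (b : Fin L) : ℕ := Qd M ^ (2 * (L - 1 - b.val) + 1)

/-- sum of all small parts -/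
def Wsum (L M r : ℕ) : ℕ := ∑ be : Fin L × BE M r, sm (Bww L M be.1) (muw L M be.1) be.2

/-- part of the weight above one -/
def extra (P L M r : ℕ) : Ex P L M r → ℕ :=
  Sum.elim (fun _ => 0) (fun be => (Wsum L M r + 1) + sm (Bww L M be.1) (muw L M be.1) be.2)

/-- the instance -/
def theG (P L M r : ℕ) : WGraph (Vx P L M r) (Ex P L M r) where
  ends := ends
  ends_injective := ends_inj
  no_loop := ends_not_diag
  weight := fun e => 1 + extra P L M r e
  weight_pos := fun e => by omega

/-- the digits of a product state -/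
noncomputable def digT (T : Fin L → Finset (BE M r)) (b : Fin L) : ℕ :=
  Qd M * JJ (T b) + nn (T b)

theorem sub_eq (x : Finset (Ex P L M r)) : (theG P L M r).subgraph x = gr x := rfl

theorem tree_iff (x : Finset (Ex P L M r)) :
    (theG P L M r).IsSpanningTree x ↔ (gr x).IsTree := Iff.rfl

theorem sum_split (w : Ex P L M r → ℕ) (x : Finset (Ex P L M r)) (hF : ∀ d, Sum.inl d ∈ x) :
    ∑ e ∈ x, w e = ∑ d, w (Sum.inl d) + ∑ b, ∑ e ∈ blk x b, w (Sum.inr (b, e)) := by
  have h1 : ∑ e ∈ x, w e = ∑ e : Ex P L M r, if e ∈ x then w e else 0 := by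
    rw [Finset.sum_ite_mem, Finset.univ_inter]
  rw [h1, Fintype.sum_sum_type, Fintype.sum_prod_type]
  congr 1
  · exact Finset.sum_congr rfl fun d _ => by rw [if_pos (hF d)]
  · refine Finset.sum_congr rfl fun b _ => ?_
    have h2 : ∀ e : BE M r, (if (Sum.inr (b, e) : Ex P L M r) ∈ x then w (Sum.inr (b, e)) else 0) =
        if e ∈ blk x b then w (Sum.inr (b, e)) else 0 := by
      intro e
      by_cases h : e ∈ blk x b
      · rw [if_pos h, if_pos ((mem_blk_aux x b e).1 h)]
      · rw [if_neg h, if_neg (fun h' => h ((mem_blk_aux x b e).2 h'))]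
    rw [Finset.sum_congr rfl fun e _ => h2 e, Finset.sum_ite_mem, Finset.univ_inter]

/-- the constant part of the weight of a tree containing all frozen edges -/
def cst (P L M r : ℕ) : ℕ :=
  Fintype.card (Dep P L M r) + ∑ b : Fin L, (M * (Wsum L M r + 2) + Bww L M b * ∑ j ∈ range M, 2 * j)

theorem cost_eq (x : Finset (Ex P L M r)) (hF : ∀ d, Sum.inl d ∈ x)
    (hb : ∀ b, IsCode M r (blk x b)) :
    (theG P L M r).totalWeight x = cst P L M r + baseVal (Qd M ^ 2) (digT (blk x)) := by
  unfold WGraph.totalWeight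
  rw [sum_split _ x hF]
  have h1 : ∑ d : Dep P L M r, (theG P L M r).weight (Sum.inl d) = Fintype.card (Dep P L M r) := by
    simp [theG, extra]
  have h2 : ∀ b : Fin L, ∑ e ∈ blk x b, (theG P L M r).weight (Sum.inr (b, e)) =
      (M * (Wsum L M r + 2) + Bww L M b * ∑ j ∈ range M, 2 * j) +
        (Qd M ^ 2) ^ (L - 1 - b.val) * digT (blk x) b := by
    intro b
    have h3 : ∀ e ∈ blk x b, (theG P L M r).weight (Sum.inr (b, e)) =
        (Wsum L M r + 2) + sm (Bww L M b) (muw L M b) e := by
      intro e _
      simp only [theG, extra, Sum.elim_inr]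
      ring
    rw [Finset.sum_congr rfl h3, Finset.sum_add_distrib, Finset.sum_const, smul_eq_mul,
      card_code (hb b), sum_sm _ _ (hb b)]
    unfold digT Bww muw
    rw [pow_succ, ← pow_mul]
    ring
  rw [h1, Finset.sum_congr rfl fun b _ => h2 b, Finset.sum_add_distrib]
  unfold cst baseVal
  ring

theorem weight_eq (z : Finset (Ex P L M r)) :
    (theG P L M r).totalWeight z = z.card + ∑ e ∈ z, extra P L M r e := by
  unfold WGraph.totalWeight
  have : ∀ e ∈ z, (theG P L M r).weight e = 1 + extra P L M r e := fun e _ => rfl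
  rw [Finset.sum_congr rfl this, Finset.sum_add_distrib]
  simp

/-- number of active edges -/
def actN (z : Finset (Ex P L M r)) : ℕ := z.toRight.card

theorem card_eq_act (z : Finset (Ex P L M r)) : z.card = z.toLeft.card + actN z := by
  unfold actN
  exact (Finset.card_toLeft_add_card_toRight).symm

theorem extra_sum (z : Finset (Ex P L M r)) :
    ∑ e ∈ z, extra P L M r e = (Wsum L M r + 1) * actN z +
      ∑ be ∈ z.toRight, sm (Bww L M be.1) (muw L M be.1) be.2 := by
  have h : z = z.toLeft.disjSum z.toRight := (Finset.toLeft_disjSum_toRight).symm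
  conv_lhs => rw [h]
  rw [Finset.sum_disjSum]
  simp only [extra, Sum.elim_inl, Sum.elim_inr, Finset.sum_const_zero, zero_add]
  rw [Finset.sum_add_distrib, Finset.sum_const, smul_eq_mul]
  unfold actN
  ring

/-- a tree that is not heavier than a tree with all frozen edges contains all frozen edges -/
theorem frozen_of_le {x y : Finset (Ex P L M r)} (hx : (gr x).IsTree) (hy : (gr y).IsTree)
    (hF : ∀ d, Sum.inl d ∈ x)
    (h : (theG P L M r).totalWeight y ≤ (theG P L M r).totalWeight x) : ∀ d, Sum.inl d ∈ y := by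
  have hc : x.card = y.card := by rw [card_of_isTree x hx, card_of_isTree y hy]
  rw [weight_eq, weight_eq, extra_sum, extra_sum] at h
  have h1 : ∑ be ∈ x.toRight, sm (Bww L M be.1) (muw L M be.1) be.2 ≤ Wsum L M r := by
    unfold Wsum
    exact Finset.sum_le_sum_of_subset (Finset.subset_univ _)
  have h2 : actN y ≤ actN x := by
    by_contra hlt
    have h3 : actN x + 1 ≤ actN y := by omega
    have h4 : (Wsum L M r + 1) * (actN x + 1) ≤ (Wsum L M r + 1) * actN y :=
      Nat.mul_le_mul_left _ h3
    rw [mul_add, mul_one] at h4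
    omega
  have h5 := card_eq_act x
  have h6 := card_eq_act y
  have h7 : x.toLeft = Finset.univ := by
    ext d
    simp [hF d]
  have h8 : Fintype.card (Dep P L M r) ≤ y.toLeft.card := by
    have : x.toLeft.card = Fintype.card (Dep P L M r) := by rw [h7, Finset.card_univ]
    omega
  have h9 : y.toLeft = Finset.univ := Finset.eq_univ_of_card _ (le_antisymm (Finset.card_le_univ _) h8)
  intro d
  have : d ∈ y.toLeft := by rw [h9]; exact Finset.mem_univ _
  exact Finset.mem_toLeft.1 this

end net

end Pool.Agent.Helper120.Ea
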