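import Pool.Agent.Helper120.Ea.Defs3
import Pool.Agent.Helper120.Ea.CutSum
import Pool.Agent.Helper120.Ea.IdxL
import Pool.Agent.Helper120.Ea.Block
import Pool.Agent.Helper120.Ea.Eff
import Pool.Agent.Helper120.Ea.Cuts
import Pool.Agent.Helper120.Ea.Heal


open Finset

namespace Pool.Agent.Helper120.Ea

section blk
open Classical

variable {M r : ℕ}

/-- the single cuts: exact drift -/
theorem own_cuts {l0 : ℕ} {d H m : ℝ} (hr : 1 ≤ r) (hl0 : 3 ≤ l0) (hd : 0 < d)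
    (hd2 : d ≤ 1 / 4) (hH : 0 ≤ H) (hm : 2 ≤ m) (hM : 0 < M) {R : Finset (ℕ × ℕ)} {κ : ℕ → ℕ}
    (hV : Valid M R) (hκ : ∀ j, κ j ≤ r) (hR : R.Nonempty) :
    ∑ T' ∈ (Om M r).filter (fun T' => ∃ p ∈ R, ∃ σ ∈ Idx r p, T' = swp hM κ (enc M r R κ) p σ),
      qq m (enc M r R κ) T' * (Phi l0 d H T' - Phi l0 d H (enc M r R κ)) ≤
    (1 / m) ^ 2 * (1 - 1 / m) ^ (Fintype.card (BE M r) - 2) *
      (DD H 0 / XX l0 d (enc M r R κ) * (∑ p ∈ R, if p.2 - p.1 + 1 ≤ l0 then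
        1 + (1 + d * ((p.2 - p.1 + 1 : ℕ) : ℝ)) * (((Ioc p.1 p.2).filter fun i => κ i ≠ 0).card : ℝ)
      else (r + 2) * ((p.2 - p.1 + 1 : ℕ) : ℝ) * (psi l0 d (p.2 - p.1 + 1) + 1)
        + 4 * d * ((p.2 - p.1 + 1 : ℕ) : ℝ) * (((p.2 - p.1 + 1 : ℕ) : ℝ) - 1) / 2) -
      (∑ p ∈ R, NN r (p.2 - p.1 + 1) * ((p.2 - p.1 + 1 : ℕ) : ℝ)) /
        (3 * Real.log (2 * M) * (1 + JJ (enc M r R κ)))) := by
  obtain ⟨T, hT⟩ : ∃ T, T = enc M r R κ := ⟨_, rfl⟩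
  have hruns : runs T = R := by rw [hT]; exact runs_enc hV hκ
  obtain ⟨a, ha⟩ : ∃ a, a = (1 / m) ^ 2 * (1 - 1 / m) ^ (Fintype.card (BE M r) - 2) := ⟨_, rfl⟩
  have ha0 : 0 ≤ a := by
    rw [ha]
    have h1 : (0:ℝ) ≤ 1 - 1 / m := by
      rw [sub_nonneg, div_le_one (by linarith)]; linarith
    positivity
  have hM1 : (1 : ℝ) ≤ M := by exact_mod_cast hM
  have hlog : 0 < Real.log (2 * M) := Real.log_pos (by linarith)
  rw [← hT, ← ha]
  have hset : (Om M r).filter (fun T' => ∃ p ∈ R, ∃ σ ∈ Idx r p, T' = swp hM κ T p σ) =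
      (R.sigma (fun p => Idx r p)).image (fun x => swp hM κ T x.1 x.2) := by
    ext T'
    rw [mem_filter, mem_image]
    constructor
    · rintro ⟨-, p, hp, σ, hσ, rfl⟩
      exact ⟨⟨p, σ⟩, mem_sigma.mpr ⟨hp, hσ⟩, rfl⟩
    · rintro ⟨⟨p, σ⟩, hx, rfl⟩
      rw [mem_sigma] at hx
      obtain ⟨hp, hσ⟩ := hx
      simp only at hp hσ ⊢
      refine ⟨?_, p, hp, σ, hσ, rfl⟩
      unfold Om
      rw [mem_filter]
      refine ⟨mem_univ _, ?_⟩
      obtain ⟨hA, hk⟩ := Adm_of_Idx (r := r) (hV.le p hp) hσ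
      refine ⟨newR R p σ.1 σ.2.1, newκ κ p σ.1 σ.2.2, newR_valid hV hp hA, newκ_le hκ hk, ?_⟩
      rw [hT]
      exact (swp_eq hM hV hκ hp hσ).2.2.1
  rw [hset, sum_image, sum_sigma]
  swap
  · rintro ⟨p, σ⟩ hx ⟨p', σ'⟩ hx' heq
    rw [mem_coe, mem_sigma] at hx hx'
    simp only at hx hx' heq
    rw [hT] at heq
    obtain ⟨h1, h2⟩ := swp_inj hM hV hκ hx.1 hx'.1 hx.2 hx'.2 heq
    subst h1 h2
    rfl
  obtain ⟨X, hX⟩ : ∃ X, X = XX l0 d T := ⟨_, rfl⟩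
  obtain ⟨J, hJ⟩ : ∃ J : ℝ, J = (JJ T : ℝ) := ⟨_, rfl⟩
  have hJ0 : 0 ≤ J := by rw [hJ]; positivity
  have hterm : ∀ p ∈ R, ∀ σ ∈ Idx r p,
      qq m T (swp hM κ T p σ) * (Phi l0 d H (swp hM κ T p σ) - Phi l0 d H T) ≤
      a * ((DD H (X + dX l0 d κ p σ) - DD H X) -
        (dJ p σ : ℝ) * (1 / (Real.log (2 * M) * (1 + J)))) := by
    intro p hp σ hσ
    have hs := swp_eq hM hV hκ hp hσ
    have h1 : qq m T (swp hM κ T p σ) = a := by
      have k1 : fE hM κ p σ ∈ T := by rw [hT]; exact hs.1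
      have k2 : gE hM p σ ∉ T := by rw [hT]; exact hs.2.1
      have h2 := qq_swap_g (m := m) k1 k2
      rw [ha, ← h2]
      rfl
    rw [h1]
    apply mul_le_mul_of_nonneg_left _ ha0
    have hXs : XX l0 d (swp hM κ T p σ) = X + dX l0 d κ p σ := by
      rw [hX, hT, hs.2.2.1, XX_swap hV hκ hp hσ]
    have hJs : (JJ (swp hM κ T p σ) : ℝ) + dJ p σ = J := by
      rw [hJ, hT, hs.2.2.1, ← JJ_swap hV hκ hp hσ]
      push_cast
      ring
    have hJs0 : (0 : ℝ) ≤ (JJ (swp hM κ T p σ) : ℝ) := by positivity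
    unfold Phi
    rw [hXs, ← hX, ← hJ]
    have h2 : Real.log (1 + (JJ (swp hM κ T p σ) : ℝ)) - Real.log (1 + J) ≤
        - (dJ p σ : ℝ) / (1 + J) := by
      rw [← Real.log_div (by positivity) (by positivity)]
      have h3 := Real.log_le_sub_one_of_pos
        (show 0 < (1 + (JJ (swp hM κ T p σ) : ℝ)) / (1 + J) by positivity)
      refine h3.trans (le_of_eq ?_)
      rw [← hJs]
      have : (1 + ((JJ (swp hM κ T p σ) : ℝ) + (dJ p σ : ℝ))) ≠ 0 := by positivity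
      field_simp
      ring
    have h4 : (Real.log (1 + (JJ (swp hM κ T p σ) : ℝ)) - Real.log (1 + J)) / Real.log (2 * M) ≤
        - ((dJ p σ : ℝ) * (1 / (Real.log (2 * M) * (1 + J)))) := by
      rw [div_le_iff₀ hlog]
      refine h2.trans (le_of_eq ?_)
      field_simp
    have h5 : (Real.log (1 + (JJ (swp hM κ T p σ) : ℝ)) - Real.log (1 + J)) / Real.log (2 * M) =
        Real.log (1 + (JJ (swp hM κ T p σ) : ℝ)) / Real.log (2 * M) -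
          Real.log (1 + J) / Real.log (2 * M) := by rw [sub_div]
    linarith
  have hpsi0 : ∀ l, 0 ≤ psi l0 d l := by
    intro l
    have := psi_ge (l0 := l0) hd.le l
    linarith
  have hXp : ∀ p ∈ R, psi l0 d (p.2 - p.1 + 1) +
      (((Ioc p.1 p.2).filter fun i => κ i ≠ 0).card : ℝ) ≤ X := by
    intro p hp
    have h1 : psi l0 d (p.2 - p.1 + 1) ≤ ∑ p ∈ R, psi l0 d (p.2 - p.1 + 1) :=
      single_le_sum (f := fun p : ℕ × ℕ => psi l0 d (p.2 - p.1 + 1)) (fun q _ => hpsi0 _) hp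
    have h2 : ((Ioc p.1 p.2).filter fun i => κ i ≠ 0).card ≤ nn T := by
      rw [hT]
      exact (single_le_sum (f := fun p : ℕ × ℕ => ((Ioc p.1 p.2).filter fun i => κ i ≠ 0).card)
        (fun q _ => Nat.zero_le _) hp).trans (nn_ge hV hκ)
    have h2' : (((Ioc p.1 p.2).filter fun i => κ i ≠ 0).card : ℝ) ≤ nn T := by exact_mod_cast h2
    rw [hX, XX, hruns]
    linarith
  obtain ⟨c, hc⟩ : ∃ c : ℝ, c = 1 / (Real.log (2 * M) * (1 + J)) := ⟨_, rfl⟩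
  have hc0 : 0 ≤ c := by rw [hc]; positivity
  calc ∑ p ∈ R, ∑ σ ∈ Idx r p, qq m T (swp hM κ T p σ) * (Phi l0 d H (swp hM κ T p σ) - Phi l0 d H T)
      ≤ ∑ p ∈ R, a * (DD H 0 / X * (if p.2 - p.1 + 1 ≤ l0 then
        1 + (1 + d * ((p.2 - p.1 + 1 : ℕ) : ℝ)) * (((Ioc p.1 p.2).filter fun i => κ i ≠ 0).card : ℝ)
      else (r + 2) * ((p.2 - p.1 + 1 : ℕ) : ℝ) * (psi l0 d (p.2 - p.1 + 1) + 1)
        + 4 * d * ((p.2 - p.1 + 1 : ℕ) : ℝ) * (((p.2 - p.1 + 1 : ℕ) : ℝ) - 1) / 2) -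
        (NN r (p.2 - p.1 + 1) * ((p.2 - p.1 + 1 : ℕ) : ℝ) / 3) * c) := by
        apply sum_le_sum
        intro p hp
        have h1 : ∑ σ ∈ Idx r p, qq m T (swp hM κ T p σ) *
            (Phi l0 d H (swp hM κ T p σ) - Phi l0 d H T) ≤
            ∑ σ ∈ Idx r p, a * ((DD H (X + dX l0 d κ p σ) - DD H X) - (dJ p σ : ℝ) * c) := by
          apply sum_le_sum
          intro σ hσ
          rw [hc]
          exact hterm p hp σ hσ
        refine h1.trans ?_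
        rw [← mul_sum, sum_sub_distrib, ← sum_mul]
        apply mul_le_mul_of_nonneg_left _ ha0
        have h2 := cut_sum (κ := κ) (H := H) (hV.le p hp) hr hl0 hd hd2 hH (hXp p hp)
        have h3 := mul_le_mul_of_nonneg_right (sum_dJ r p (hV.le p hp)) hc0
        linarith
    _ = a * (DD H 0 / X * (∑ p ∈ R, if p.2 - p.1 + 1 ≤ l0 then
        1 + (1 + d * ((p.2 - p.1 + 1 : ℕ) : ℝ)) * (((Ioc p.1 p.2).filter fun i => κ i ≠ 0).card : ℝ)
      else (r + 2) * ((p.2 - p.1 + 1 : ℕ) : ℝ) * (psi l0 d (p.2 - p.1 + 1) + 1)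
        + 4 * d * ((p.2 - p.1 + 1 : ℕ) : ℝ) * (((p.2 - p.1 + 1 : ℕ) : ℝ) - 1) / 2) -
      (∑ p ∈ R, NN r (p.2 - p.1 + 1) * ((p.2 - p.1 + 1 : ℕ) : ℝ)) /
        (3 * Real.log (2 * M) * (1 + JJ T))) := by
        rw [← mul_sum, sum_sub_distrib, ← mul_sum, ← sum_mul, ← sum_div, ← hJ, hc]
        congr 2
        have : 1 + J ≠ 0 := by positivity
        field_simp
    _ = _ := by rw [hX]

end blk

end Pool.Agent.Helper120.Ea
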