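import Pool.Agent.Helper120.Ea.OwnRest

open Finset

namespace Pool.Agent.Helper120.Ea

section blk
open Classical

variable {M r : ℕ}

theorem log_two_M_pos (hM : 0 < M) : 0 < Real.log (2 * M) := by
  apply Real.log_pos
  have : (1 : ℝ) ≤ M := by exact_mod_cast hM
  linarith

theorem JJ_term_le {T T' : Finset (BE M r)} (hM : 0 < M) (h : JJ T' ≤ JJ T) :
    Real.log (1 + JJ T') / Real.log (2 * M) ≤ Real.log (1 + JJ T) / Real.log (2 * M) := by
  apply div_le_div_of_nonneg_right _ (log_two_M_pos hM).le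
  apply Real.log_le_log (by positivity)
  have : (JJ T' : ℝ) ≤ JJ T := by exact_mod_cast h
  linarith

/-- Bernoulli-type lower bound for the factor `(1-1/m)^c` -/
theorem fac_ge {m : ℝ} (hm : 2 ≤ m) (c : ℕ) (hc : 2 * (c : ℝ) ≤ m) : 1 / 2 ≤ (1 - 1 / m) ^ c := by
  have hm0 : 0 < m := by linarith
  have h1 : 1 + (c : ℝ) * (-(1 / m)) ≤ (1 + (-(1 / m))) ^ c := by
    apply one_add_mul_le_pow
    have : 1 / m ≤ 1 := by rw [div_le_one hm0]; linarith
    linarith
  have h2 : (c : ℝ) * (1 / m) ≤ 1 / 2 := by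
    rw [mul_one_div, div_le_div_iff₀ hm0 (by norm_num)]
    linarith
  have h3 : (1 + (-(1 / m))) = 1 - 1 / m := by ring
  rw [h3] at h1
  linarith

theorem own_dirty {l0 : ℕ} {d H m : ℝ} (hr : 1 ≤ r) (hl0 : 3 ≤ l0) (hd : 0 < d)
    (hd2 : d ≤ 1 / 4) (hH : 0 ≤ H) (hm : 2 ≤ m) (hM : 0 < M)
    (hm2 : 2 * (((r : ℝ) + 2) * M) ≤ m)
    (hC1 : DD H 0 * (12 * (r + 2) / l0 + 8 * d + 6 * (r + 2) * M / m) ≤
      1 / (48 * Real.log (2 * M)))
    (hC2 : DD H 0 * (4 + d * l0) ≤ (r + 1) / (48 * Real.log (2 * M)))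
    {T : Finset (BE M r)} (hT : IsCode M r T) (hJ : 0 < JJ T) :
    Own l0 d H m T ≤ - (((r + 1) / (24 * Real.log (2 * M))) / m ^ 2) := by
  obtain ⟨κ, hκ, hTe⟩ := hT.exists_kappa
  have hV := hT.valid
  have hne : (runs T).Nonempty := by
    rw [nonempty_iff_ne_empty]
    intro h
    rw [← runs_empty_iff] at h
    omega
  obtain ⟨R, hR⟩ : ∃ R, R = runs T := ⟨_, rfl⟩
  rw [← hR] at hTe hV hne
  have hm0 : 0 < m := by linarith
  have hlM := log_two_M_pos hM
  have h0 : 0 ≤ DD H 0 := DD_nonneg hH le_rfl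
  have hcuts := own_cuts (M := M) (r := r) (H := H) (m := m) hr hl0 hd hd2 hH hm hM hV hκ hne
  have hrest := own_rest (M := M) (r := r) (H := H) (m := m) hr hl0 hd hd2 hH hm hM hV hκ hne
  have hblock := block_ineq R hne (fun p => p.2 - p.1 + 1)
    (fun p => (((Ioc p.1 p.2).filter fun i => κ i ≠ 0).card : ℝ))
    (r := r) (l0 := l0) (M := M) (d := d) (h0 := DD H 0) (lM := Real.log (2 * M)) (m := m)
    (n := nn T) (X := XX l0 d T) (J := JJ T)
    (fun p _ => by show 1 ≤ p.2 - p.1 + 1; omega) (fun p _ => Nat.cast_nonneg _) (by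
      have h1 := card_cov_le (M := M) hV
      have h2 : ∑ p ∈ R, (p.2 - p.1 + 1) ≤ M := by
        have h3 : 2 * ∑ p ∈ R, (p.2 - p.1 + 1) ≤ 2 * M - 1 + R.card := by
          have : 2 * ∑ p ∈ R, (p.2 - p.1 + 1) = ∑ p ∈ R, (2 * (p.2 - p.1) + 1) + R.card := by
            rw [card_eq_sum_ones, mul_sum, ← sum_add_distrib]
            exact sum_congr rfl fun p _ => by ring
          omega
        have h4 : ∑ p ∈ R, (p.2 - p.1 + 1) ≤ M := by
          have h5 : (R.biUnion fun p => Icc p.1 p.2) ⊆ range M := by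
            intro t ht
            simp only [mem_biUnion, mem_Icc] at ht
            obtain ⟨p, hp, h6, h7⟩ := ht
            have := hV.lt p hp
            rw [mem_range]; omega
          have h6 := card_le_card h5
          rw [card_range, card_biUnion] at h6
          · refine le_trans (le_of_eq ?_) h6
            refine sum_congr rfl fun p hp => ?_
            have := hV.le p hp
            rw [Nat.card_Icc]; omega
          · intro p hp q hq hne
            change Disjoint (Icc p.1 p.2) (Icc q.1 q.2)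
            rw [disjoint_left]
            intro t h1 h2
            rw [mem_Icc] at h1 h2
            rcases hV.disj p hp q hq hne with h | h <;> omega
        exact h4
      exact_mod_cast h2) hl0 hd hd2 h0 hlM hm0 (by
      have := nn_ge (M := M) (r := r) hV hκ
      rw [← hTe] at this
      exact_mod_cast this) (by
      unfold XX; rw [← hR]) (Nat.cast_nonneg _) (by
      have h1 : JJ T + 1 ≤ 2 * ∑ p ∈ R, (p.2 - p.1 + 1) := by
        have h2 : 2 * ∑ p ∈ R, (p.2 - p.1 + 1) = ∑ p ∈ R, (2 * (p.2 - p.1) + 1) + R.card := by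
          rw [card_eq_sum_ones, mul_sum, ← sum_add_distrib]
          exact sum_congr rfl fun p _ => by ring
        have h3 : 1 ≤ R.card := card_pos.2 hne
        unfold JJ
        rw [← hR]
        omega
      exact_mod_cast h1) hC1 hC2
  rw [← hTe] at hcuts hrest
  have ha1 : (1 / m) ^ 2 * (1 - 1 / m) ^ (Fintype.card (BE M r) - 2) ≤ (1 / m) ^ 2 := by
    apply mul_le_of_le_one_right (by positivity)
    apply pow_le_one₀
    · have : 1 / m ≤ 1 := by rw [div_le_one hm0]; linarith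
      linarith
    · have : 0 < 1 / m := by positivity
      linarith
  have ha2 : (1 / m) ^ 2 * (1 / 2) ≤ (1 / m) ^ 2 * (1 - 1 / m) ^ (Fintype.card (BE M r) - 2) := by
    apply mul_le_mul_of_nonneg_left _ (by positivity)
    apply fac_ge hm
    have h1 : Fintype.card (BE M r) = M * (r + 2) := by
      simp [BE, Fintype.card_prod]
    have h2 : ((Fintype.card (BE M r) - 2 : ℕ) : ℝ) ≤ ((M * (r + 2) : ℕ) : ℝ) := by
      rw [h1]; exact_mod_cast Nat.sub_le _ _
    push_cast at h2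
    nlinarith
  obtain ⟨a, ha⟩ : ∃ a, a = (1 / m) ^ 2 * (1 - 1 / m) ^ (Fintype.card (BE M r) - 2) := ⟨_, rfl⟩
  rw [← ha] at ha1 ha2 hcuts
  -- split the own drift
  have hcut_less : ∀ T' : Finset (BE M r), (∃ p ∈ R, ∃ σ ∈ Idx r p, T' = swp hM κ T p σ) →
      JJ T' < JJ T := by
    rintro T' ⟨p, hp, σ, hσ, rfl⟩
    have h1 := (swp_eq hM hV hκ hp hσ).2.2.1
    rw [← hTe] at h1
    rw [h1]
    have h2 := JJ_swap (M := M) (r := r) hV hκ hp hσ
    rw [← hTe] at h2
    have h3 := dJ_pos r p (hV.le p hp) σ hσ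
    omega
  have hphi : ∀ T' : Finset (BE M r), JJ T' ≤ JJ T →
      Phi l0 d H T' - Phi l0 d H T ≤ max 0 (DD H (XX l0 d T') - DD H (XX l0 d T)) := by
    intro T' h
    have h1 := JJ_term_le hM h
    unfold Phi
    refine le_trans ?_ (le_max_right _ _)
    linarith
  have hq : ∀ T', 0 ≤ qq m T T' := fun T' => qq_nonneg (by linarith) T T'
  have hown : Own l0 d H m T ≤
      ∑ T' ∈ (Om M r).filter (fun T' => ∃ p ∈ R, ∃ σ ∈ Idx r p, T' = swp hM κ T p σ),
        qq m T T' * (Phi l0 d H T' - Phi l0 d H T) +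
      ∑ T' ∈ (Om M r).filter (fun T' => JJ T' ≤ JJ T ∧
        ¬ ∃ p ∈ R, ∃ σ ∈ Idx r p, T' = swp hM κ T p σ),
        qq m T T' * max 0 (DD H (XX l0 d T') - DD H (XX l0 d T)) := by
    unfold Own
    rw [sum_filter, sum_filter, sum_filter, sum_filter, ← sum_add_distrib, ← sum_add_distrib]
    refine sum_le_sum fun T' _ => ?_
    by_cases hc : ∃ p ∈ R, ∃ σ ∈ Idx r p, T' = swp hM κ T p σ
    · have hlt := hcut_less T' hc
      have hL : Less T' T := Or.inl hlt
      have hS : ¬ Same T' T := fun h => by have := h.1; omega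
      have hn : ¬ (JJ T' ≤ JJ T ∧ ¬ ∃ p ∈ R, ∃ σ ∈ Idx r p, T' = swp hM κ T p σ) :=
        fun h => h.2 hc
      rw [if_pos hL, if_neg hS, if_pos hc, if_neg hn]
    · rw [if_neg hc, zero_add]
      by_cases hJ' : JJ T' ≤ JJ T
      · have hc' : JJ T' ≤ JJ T ∧ ¬ ∃ p ∈ R, ∃ σ ∈ Idx r p, T' = swp hM κ T p σ := ⟨hJ', hc⟩
        rw [if_pos hc']
        have h1 := hphi T' hJ'
        by_cases hL : Less T' T
        · have hS : ¬ Same T' T := by
            intro h
            rcases hL with h2 | h2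
            · have := h.1; omega
            · have := h.2; omega
          rw [if_pos hL, if_neg hS, add_zero]
          exact mul_le_mul_of_nonneg_left h1 (hq T')
        · rw [if_neg hL, zero_add]
          by_cases hS : Same T' T
          · rw [if_pos hS]
            exact mul_le_mul_of_nonneg_left (max_le (le_max_left _ _) h1) (hq T')
          · rw [if_neg hS]
            exact mul_nonneg (hq T') (le_max_left _ _)
      · have hL : ¬ Less T' T := by
          rintro (h | h)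
          · omega
          · omega
        have hS : ¬ Same T' T := fun h => by have := h.1; omega
        rw [if_neg hL, if_neg hS, add_zero]
        split_ifs with h
        · exact absurd h.1 hJ'
        · exact le_rfl
  refine hown.trans ((add_le_add hcuts hrest).trans ?_)
  have hX : 0 < XX l0 d T := by
    unfold XX
    rw [← hR]
    have : 0 < ∑ p ∈ R, psi l0 d (p.2 - p.1 + 1) := by
      apply sum_pos _ hne
      intro p _
      have := psi_ge (l0 := l0) hd.le (p.2 - p.1 + 1)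
      linarith
    positivity
  obtain ⟨S1, hS1⟩ : ∃ S1 : ℝ, S1 = ∑ p ∈ R, if p.2 - p.1 + 1 ≤ l0 then
        1 + (1 + d * ((p.2 - p.1 + 1 : ℕ) : ℝ)) * (((Ioc p.1 p.2).filter fun i => κ i ≠ 0).card : ℝ)
      else (r + 2) * ((p.2 - p.1 + 1 : ℕ) : ℝ) * (psi l0 d (p.2 - p.1 + 1) + 1)
        + 4 * d * ((p.2 - p.1 + 1 : ℕ) : ℝ) * (((p.2 - p.1 + 1 : ℕ) : ℝ) - 1) / 2 := ⟨_, rfl⟩
  obtain ⟨S2, hS2⟩ : ∃ S2 : ℝ, S2 = ∑ p ∈ R, NN r (p.2 - p.1 + 1) * ((p.2 - p.1 + 1 : ℕ) : ℝ) :=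
    ⟨_, rfl⟩
  obtain ⟨S3, hS3⟩ : ∃ S3 : ℝ, S3 = ((∑ p ∈ R, NN r (p.2 - p.1 + 1)) * ((r + 2) *
        (∑ p ∈ R, psi l0 d (p.2 - p.1 + 1) * ((p.2 - p.1 + 1 : ℕ) : ℝ)) + nn T)
        + (r + 2) * M * ∑ p ∈ R, NN r (p.2 - p.1 + 1) * (psi l0 d (p.2 - p.1 + 1) + 1)) :=
    ⟨_, rfl⟩
  rw [← hS1, ← hS2, ← hS3]
  have hblock' : DD H 0 / XX l0 d T * S1 + DD H 0 + DD H 0 / XX l0 d T * (1 / m) * S3 ≤
      S2 / (6 * Real.log (2 * M) * (1 + JJ T)) - (r + 1) / (24 * Real.log (2 * M)) := by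
    rw [hS1, hS2, hS3]; exact hblock
  have hS1n : 0 ≤ S1 := by
    rw [hS1]
    apply sum_nonneg
    intro p _
    have h1 := psi_ge (l0 := l0) hd.le (p.2 - p.1 + 1)
    have h2 : (1 : ℝ) ≤ ((p.2 - p.1 + 1 : ℕ) : ℝ) := by exact_mod_cast Nat.le_add_left 1 _
    have h3 : 0 ≤ ((p.2 - p.1 + 1 : ℕ) : ℝ) - 1 := by linarith
    have h4 : 0 ≤ psi l0 d (p.2 - p.1 + 1) + 1 := by linarith
    have h5 : (0 : ℝ) ≤ (((Ioc p.1 p.2).filter fun i => κ i ≠ 0).card : ℝ) := Nat.cast_nonneg _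
    generalize (((Ioc p.1 p.2).filter fun i => κ i ≠ 0).card : ℝ) = c at *
    split_ifs
    · generalize ((p.2 - p.1 + 1 : ℕ) : ℝ) = x at *
      have : 0 ≤ x := by linarith
      positivity
    · generalize ((p.2 - p.1 + 1 : ℕ) : ℝ) = x at *
      have : 0 ≤ x := by linarith
      positivity
  have hS2n : 0 ≤ S2 := by
    rw [hS2]
    apply sum_nonneg
    intro p _
    apply mul_nonneg _ (Nat.cast_nonneg _)
    unfold NN
    have h2 : (1 : ℝ) ≤ ((p.2 - p.1 + 1 : ℕ) : ℝ) := by exact_mod_cast Nat.le_add_left 1 _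
    have h3 : 0 ≤ ((p.2 - p.1 + 1 : ℕ) : ℝ) - 1 := by linarith
    positivity
  have hJ1 : (0 : ℝ) < 1 + JJ T := by positivity
  have e1 : a * (DD H 0 / XX l0 d T * S1 - S2 / (3 * Real.log (2 * M) * (1 + JJ T))) ≤
      (1 / m) ^ 2 * (DD H 0 / XX l0 d T * S1) -
        (1 / m) ^ 2 * (S2 / (6 * Real.log (2 * M) * (1 + JJ T))) := by
    have h1 : a * (DD H 0 / XX l0 d T * S1) ≤ (1 / m) ^ 2 * (DD H 0 / XX l0 d T * S1) :=
      mul_le_mul_of_nonneg_right ha1 (by positivity)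
    have h2 : (1 / m) ^ 2 * (1 / 2) * (S2 / (3 * Real.log (2 * M) * (1 + JJ T))) ≤
        a * (S2 / (3 * Real.log (2 * M) * (1 + JJ T))) :=
      mul_le_mul_of_nonneg_right ha2 (by positivity)
    have h3 : (1 / m) ^ 2 * (1 / 2) * (S2 / (3 * Real.log (2 * M) * (1 + JJ T))) =
        (1 / m) ^ 2 * (S2 / (6 * Real.log (2 * M) * (1 + JJ T))) := by
      field_simp
      ring
    rw [mul_sub]
    linarith
  have e2 : (1 / m) ^ 2 * (DD H 0 / XX l0 d T * S1 + DD H 0 +
      DD H 0 / XX l0 d T * (1 / m) * S3) ≤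
      (1 / m) ^ 2 * (S2 / (6 * Real.log (2 * M) * (1 + JJ T)) -
        (r + 1) / (24 * Real.log (2 * M))) :=
    mul_le_mul_of_nonneg_left hblock' (by positivity)
  have e3 : (1 / m) ^ 2 * ((r + 1) / (24 * Real.log (2 * M))) =
      ((r + 1) / (24 * Real.log (2 * M))) / m ^ 2 := by
    rw [div_pow, one_pow]; ring
  rw [← e3]
  nlinarith [e1, e2]

end blk

end Pool.Agent.Helper120.Ea
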