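import Pool.Agent.Helper120.Ea.OwnCuts


open Finset

namespace Pool.Agent.Helper120.Ea

section blk
open Classical

variable {M r : ℕ}

lemma wub_BE {ι : Type} {m : ℝ} (hm : 1 ≤ m) (T : Finset (BE M r)) (I : Finset ι)
    (S : ι → Finset (BE M r)) (c : ι → ℝ) (hc : ∀ i ∈ I, 0 ≤ c i) (f : Finset (BE M r) → ℝ)
    (A : Finset (Finset (BE M r)))
    (h : ∀ T' ∈ A, f T' ≤ ∑ i ∈ I, if S i ⊆ symmDiff T T' then c i else 0) :
    ∑ T' ∈ A, qq m T T' * f T' ≤ ∑ i ∈ I, c i * (1 / m) ^ (S i).card := by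
  exact wub_g hm T I S c hc f A h

lemma third_BE {T T' : Finset (BE M r)} {f g : BE M r} (hf : f ∈ T) (hg : g ∉ T)
    (hne : T' ≠ insert g (T.erase f)) (hf' : f ∉ T')
    (hg' : g ∈ T') : ∃ e ∈ symmDiff T T', e ≠ f ∧ e ≠ g := by
  exact exists_third_g hf hg hne hf' hg'

lemma psi_nonnegR {l0 : ℕ} {d : ℝ} (hd : 0 < d) (hd2 : d ≤ 1 / 4) (l : ℕ) :
    3 / 4 ≤ psi l0 d l := by
  have := psi_ge (l0 := l0) hd.le l
  linarith

lemma XX_nonnegR {l0 : ℕ} {d : ℝ} (hd : 0 < d) (hd2 : d ≤ 1 / 4) (T : Finset (BE M r)) :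
    0 ≤ XX l0 d T := by
  unfold XX
  have : 0 ≤ ∑ p ∈ runs T, psi l0 d (p.2 - p.1 + 1) :=
    Finset.sum_nonneg (fun p _ => by linarith [psi_nonnegR (l0 := l0) hd hd2 (p.2 - p.1 + 1)])
  positivity

lemma card_pos_BE (p : ℕ × ℕ) (hp : p.1 ≤ p.2) :
    (((univ : Finset (BE M r)).filter (fun e => p.1 ≤ e.1.val ∧ e.1.val ≤ p.2)).card : ℝ) ≤
      (r + 2) * ((p.2 - p.1 + 1 : ℕ) : ℝ) := by
  have h : ((univ : Finset (BE M r)).filter (fun e => p.1 ≤ e.1.val ∧ e.1.val ≤ p.2)).card ≤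
      (Icc p.1 p.2 ×ˢ (univ : Finset (Fin (r + 2)))).card := by
    apply Finset.card_le_card_of_injOn (fun e => (e.1.val, e.2))
    · intro e he
      simp only [coe_filter, mem_univ, true_and, Set.mem_ofPred_eq] at he
      simp only [coe_product, coe_Icc, coe_univ, Set.mem_prod, Set.mem_Icc, Set.mem_univ, and_true]
      exact he
    · intro e _ e' _ hee
      simp only [Prod.mk.injEq] at hee
      exact Prod.ext (Fin.ext hee.1) hee.2
  rw [card_product, Nat.card_Icc, card_univ, Fintype.card_fin] at h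
  have e : p.2 + 1 - p.1 = p.2 - p.1 + 1 := by omega
  rw [e] at h
  have h' : (((univ : Finset (BE M r)).filter (fun e => p.1 ≤ e.1.val ∧ e.1.val ≤ p.2)).card : ℝ) ≤
      (((p.2 - p.1 + 1) * (r + 2) : ℕ) : ℝ) := by exact_mod_cast h
  refine h'.trans (le_of_eq ?_)
  push_cast
  ring

lemma f_leR {l0 : ℕ} {d H : ℝ} (hd : 0 < d) (hd2 : d ≤ 1 / 4) (hH : 0 ≤ H) (T T' : Finset (BE M r))
    (hX : 0 < XX l0 d T) {L : ℝ} (hL0 : 0 ≤ L) (hL : XX l0 d T - XX l0 d T' ≤ L) :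
    max 0 (DD H (XX l0 d T') - DD H (XX l0 d T)) ≤ DD H 0 / XX l0 d T * L := by
  have hX' := XX_nonnegR (l0 := l0) hd hd2 T'
  have hD0 := DD_nonneg (X := 0) hH le_rfl
  have hnn : 0 ≤ DD H 0 / XX l0 d T * L := by positivity
  apply max_le hnn
  rcases le_total (XX l0 d T) (XX l0 d T') with h | h
  · have := DD_anti hH hX.le h
    linarith
  · have := DD_chord hH hX (l := XX l0 d T - XX l0 d T') (by linarith) (by linarith)
    rw [sub_sub_cancel] at this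
    have h2 : (XX l0 d T - XX l0 d T') / XX l0 d T * DD H 0 ≤ DD H 0 / XX l0 d T * L := by
      have e : (XX l0 d T - XX l0 d T') / XX l0 d T * DD H 0 =
        DD H 0 / XX l0 d T * (XX l0 d T - XX l0 d T') := by ring
      rw [e]
      gcongr
    linarith

/-- the weights of the reasons -/
noncomputable def wgt (l0 : ℕ) (d : ℝ) (R : Finset (ℕ × ℕ)) (T : Finset (BE M r)) (p : ℕ × ℕ)
    (e : BE M r) : ℝ :=
  (∑ p' ∈ R, if p'.1 ≤ e.1.val ∧ e.1.val ≤ p'.2 then psi l0 d (p'.2 - p'.1 + 1) else 0) +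
    (if e ∈ tin T then 1 else 0) + (psi l0 d (p.2 - p.1 + 1) + 1)

lemma wgt_nonneg {l0 : ℕ} {d : ℝ} (hd : 0 < d) (hd2 : d ≤ 1 / 4) (R : Finset (ℕ × ℕ))
    (T : Finset (BE M r)) (p : ℕ × ℕ) (e : BE M r) : 0 ≤ wgt l0 d R T p e := by
  unfold wgt
  have h1 : 0 ≤ ∑ p' ∈ R, (if p'.1 ≤ e.1.val ∧ e.1.val ≤ p'.2 then
      psi l0 d (p'.2 - p'.1 + 1) else 0) := by
    apply Finset.sum_nonneg
    intro p' _
    split_ifs
    · linarith [psi_nonnegR (l0 := l0) hd hd2 (p'.2 - p'.1 + 1)]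
    · exact le_rfl
  have h2 := psi_nonnegR (l0 := l0) hd hd2 (p.2 - p.1 + 1)
  split_ifs <;> linarith

lemma wgt_sum {l0 : ℕ} {d : ℝ} (hd : 0 < d) (hd2 : d ≤ 1 / 4) {R : Finset (ℕ × ℕ)}
    (hV : Valid M R) (T : Finset (BE M r)) (p : ℕ × ℕ) :
    ∑ e : BE M r, wgt l0 d R T p e ≤
      (r + 2) * (∑ p ∈ R, psi l0 d (p.2 - p.1 + 1) * ((p.2 - p.1 + 1 : ℕ) : ℝ)) + nn T +
        (r + 2) * M * (psi l0 d (p.2 - p.1 + 1) + 1) := by
  unfold wgt
  rw [Finset.sum_add_distrib, Finset.sum_add_distrib, Finset.sum_comm]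
  have h1 : ∑ p' ∈ R, ∑ e : BE M r, (if p'.1 ≤ e.1.val ∧ e.1.val ≤ p'.2 then
      psi l0 d (p'.2 - p'.1 + 1) else 0) ≤
      (r + 2) * (∑ p ∈ R, psi l0 d (p.2 - p.1 + 1) * ((p.2 - p.1 + 1 : ℕ) : ℝ)) := by
    rw [Finset.mul_sum]
    apply Finset.sum_le_sum
    intro p' hp'
    rw [← Finset.sum_filter, Finset.sum_const, nsmul_eq_mul]
    have h2 := psi_nonnegR (l0 := l0) hd hd2 (p'.2 - p'.1 + 1)
    have h3 := card_pos_BE (M := M) (r := r) p' (hV.le p' hp')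
    calc _ ≤ ((r + 2) * ((p'.2 - p'.1 + 1 : ℕ) : ℝ)) * psi l0 d (p'.2 - p'.1 + 1) :=
          mul_le_mul_of_nonneg_right h3 (by linarith)
      _ = _ := by ring
  have h2 : ∑ e : BE M r, (if e ∈ tin T then (1 : ℝ) else 0) = nn T := by
    rw [Finset.sum_ite_mem, Finset.univ_inter]
    simp [nn]
  have h3 : ∑ _e : BE M r, (psi l0 d (p.2 - p.1 + 1) + 1) =
      (r + 2) * M * (psi l0 d (p.2 - p.1 + 1) + 1) := by
    rw [Finset.sum_const, nsmul_eq_mul, card_univ, Fintype.card_prod, Fintype.card_fin,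
      Fintype.card_fin]
    push_cast; ring
  rw [h2, h3]
  linarith

/-- the loss is paid by the reasons belonging to one cut -/
lemma loss_paid {l0 : ℕ} {d : ℝ} (hd : 0 < d) (hd2 : d ≤ 1 / 4) {R : Finset (ℕ × ℕ)}
    (hV : Valid M R) {T T' : Finset (BE M r)} (hT : runs T = R) {p : ℕ × ℕ} (hp : p ∈ R)
    {f g : BE M r} (hf : f ∈ T) (hf' : f ∉ T') (hg : g ∉ T) (hg' : g ∈ T')
    (hfp : p.1 ≤ f.1.val ∧ f.1.val ≤ p.2) (hgp : p.1 ≤ g.1.val ∧ g.1.val ≤ p.2)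
    (h3 : ∃ e ∈ symmDiff T T', e ≠ f ∧ e ≠ g) :
    XX l0 d T - XX l0 d T' ≤ ∑ e ∈ (univ : Finset (BE M r)).filter (fun e => e ≠ f ∧ e ≠ g),
      if ({f, g, e} : Finset (BE M r)) ⊆ symmDiff T T' then wgt l0 d R T p e else 0 := by
  have lb := loss_bound (l0 := l0) hd.le hd2 T T'
  rw [hT] at lb
  have fsd : f ∈ symmDiff T T' := mem_symmDiff.mpr (Or.inl ⟨hf, hf'⟩)
  have gsd : g ∈ symmDiff T T' := mem_symmDiff.mpr (Or.inr ⟨hg', hg⟩)
  obtain ⟨W, hW⟩ : ∃ W, W = (symmDiff T T').filter (fun e => e ≠ f ∧ e ≠ g) := ⟨_, rfl⟩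
  have e1 : ∑ e ∈ (univ : Finset (BE M r)).filter (fun e => e ≠ f ∧ e ≠ g),
      (if ({f, g, e} : Finset (BE M r)) ⊆ symmDiff T T' then wgt l0 d R T p e else 0) =
      ∑ e ∈ W, wgt l0 d R T p e := by
    rw [← Finset.sum_filter]
    apply Finset.sum_congr _ (fun _ _ => rfl)
    rw [hW]
    ext e
    simp only [mem_filter, mem_univ, true_and, insert_subset_iff, singleton_subset_iff]
    constructor
    · rintro ⟨h1, _, _, h2⟩
      exact ⟨h2, h1⟩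
    · rintro ⟨h2, h1⟩
      exact ⟨h1, fsd, gsd, h2⟩
  rw [e1]
  obtain ⟨e3, he3, h3f, h3g⟩ := h3
  have e3W : e3 ∈ W := by rw [hW]; exact mem_filter.mpr ⟨he3, h3f, h3g⟩
  have cardW : (1 : ℝ) ≤ W.card := by
    have : 0 < W.card := card_pos.mpr ⟨e3, e3W⟩
    exact_mod_cast this
  have psiP := fun l => psi_nonnegR (l0 := l0) hd hd2 l
  have e2 : ∑ e ∈ W, wgt l0 d R T p e =
      (∑ p' ∈ R, ∑ e ∈ W, if p'.1 ≤ e.1.val ∧ e.1.val ≤ p'.2 then
        psi l0 d (p'.2 - p'.1 + 1) else 0) + (((tin T) ∩ W).card : ℝ) +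
        W.card * (psi l0 d (p.2 - p.1 + 1) + 1) := by
    unfold wgt
    rw [Finset.sum_add_distrib, Finset.sum_add_distrib, Finset.sum_comm]
    congr 1
    · congr 1
      rw [Finset.sum_ite_mem, Finset.inter_comm]
      simp
    · rw [Finset.sum_const, nsmul_eq_mul]
  rw [e2]
  -- touched intervals
  have t1 : (∑ p' ∈ R, if (∃ e ∈ symmDiff T T', p'.1 ≤ e.1.val ∧ e.1.val ≤ p'.2) then
        psi l0 d (p'.2 - p'.1 + 1) else 0) ≤
      (∑ p' ∈ R, ∑ e ∈ W, if p'.1 ≤ e.1.val ∧ e.1.val ≤ p'.2 then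
        psi l0 d (p'.2 - p'.1 + 1) else 0) + psi l0 d (p.2 - p.1 + 1) := by
    have hsum : psi l0 d (p.2 - p.1 + 1) = ∑ p' ∈ R, if p' = p then
        psi l0 d (p.2 - p.1 + 1) else 0 := by
      rw [Finset.sum_ite_eq' R p, if_pos hp]
    rw [hsum, ← Finset.sum_add_distrib]
    apply Finset.sum_le_sum
    intro p' hp'
    have nn1 : 0 ≤ ∑ e ∈ W, (if p'.1 ≤ e.1.val ∧ e.1.val ≤ p'.2 then
        psi l0 d (p'.2 - p'.1 + 1) else 0) := by
      apply Finset.sum_nonneg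
      intro e _
      split_ifs
      · linarith [psiP (p'.2 - p'.1 + 1)]
      · exact le_rfl
    by_cases hpp : p' = p
    · subst hpp
      rw [if_pos rfl]
      split_ifs
      · linarith
      · linarith [psiP (p'.2 - p'.1 + 1)]
    · rw [if_neg hpp, add_zero]
      split_ifs with hc
      · obtain ⟨e, he, hep⟩ := hc
        have hef : e ≠ f := by
          rintro rfl
          exact hpp (hV.eq_of_overlap hp' hp (by omega) (by omega))
        have heg : e ≠ g := by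
          rintro rfl
          exact hpp (hV.eq_of_overlap hp' hp (by omega) (by omega))
        have heW : e ∈ W := by rw [hW]; exact mem_filter.mpr ⟨he, hef, heg⟩
        calc psi l0 d (p'.2 - p'.1 + 1) = if p'.1 ≤ e.1.val ∧ e.1.val ≤ p'.2 then
              psi l0 d (p'.2 - p'.1 + 1) else 0 := by rw [if_pos hep]
          _ ≤ _ := by
            apply Finset.single_le_sum (f := fun e : BE M r =>
              if p'.1 ≤ e.1.val ∧ e.1.val ≤ p'.2 then psi l0 d (p'.2 - p'.1 + 1) else 0) _ heW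
            intro e _
            show 0 ≤ if p'.1 ≤ e.1.val ∧ e.1.val ≤ p'.2 then psi l0 d (p'.2 - p'.1 + 1) else 0
            split_ifs
            · linarith [psiP (p'.2 - p'.1 + 1)]
            · exact le_rfl
      · exact nn1
  have t2 : ((tin T ∩ symmDiff T T').card : ℝ) ≤ (((tin T) ∩ W).card : ℝ) + 1 := by
    have : (tin T ∩ symmDiff T T') ⊆ insert f (tin T ∩ W) := by
      intro e he
      rw [mem_inter] at he
      rw [mem_insert, mem_inter]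
      by_cases hef : e = f
      · exact Or.inl hef
      · right
        refine ⟨he.1, ?_⟩
        rw [hW]
        refine mem_filter.mpr ⟨he.2, hef, ?_⟩
        rintro rfl
        exact hg (mem_of_mem_filter _ he.1)
    have h := (card_le_card this).trans (card_insert_le _ _)
    exact_mod_cast h
  have t3 : psi l0 d (p.2 - p.1 + 1) + 1 ≤ W.card * (psi l0 d (p.2 - p.1 + 1) + 1) := by
    have := psiP (p.2 - p.1 + 1)
    nlinarith
  linarith

lemma XX_posR {l0 : ℕ} {d : ℝ} (hd : 0 < d) (hd2 : d ≤ 1 / 4) {R : Finset (ℕ × ℕ)}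
    {T : Finset (BE M r)} (hruns : runs T = R) (hR : R.Nonempty) :
    0 < XX l0 d T ∧ (nn T : ℝ) ≤ XX l0 d T := by
  have psiP := fun l => psi_nonnegR (l0 := l0) hd hd2 l
  constructor
  · rw [XX, hruns]
    obtain ⟨p, hp⟩ := hR
    have h1 : psi l0 d (p.2 - p.1 + 1) ≤ ∑ p ∈ R, psi l0 d (p.2 - p.1 + 1) :=
      Finset.single_le_sum (f := fun p : ℕ × ℕ => psi l0 d (p.2 - p.1 + 1))
        (fun q _ => by show 0 ≤ psi l0 d (q.2 - q.1 + 1); linarith [psiP (q.2 - q.1 + 1)]) hp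
    have h2 := psiP (p.2 - p.1 + 1)
    have h3 : (0 : ℝ) ≤ nn T := Nat.cast_nonneg _
    linarith
  · rw [XX]
    have : 0 ≤ ∑ p ∈ runs T, psi l0 d (p.2 - p.1 + 1) :=
      Finset.sum_nonneg (fun p _ => by linarith [psiP (p.2 - p.1 + 1)])
    linarith

lemma part1R {l0 : ℕ} {d H m : ℝ} (hd : 0 < d)
    (hd2 : d ≤ 1 / 4) (hH : 0 ≤ H) (hm1 : 1 ≤ m) {R : Finset (ℕ × ℕ)} {T : Finset (BE M r)}
    (hcode : IsCode M r T) (hruns : runs T = R) (hR : R.Nonempty)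
    (A : Finset (Finset (BE M r))) (hA : ∀ T' ∈ A, IsCode M r T' ∧ runs T' = R) :
    ∑ T' ∈ A, qq m T T' * max 0 (DD H (XX l0 d T') - DD H (XX l0 d T)) ≤
      (1 / m) ^ 2 * DD H 0 := by
  obtain ⟨X0, nnX⟩ := XX_posR (l0 := l0) hd hd2 hruns hR
  have hm0 : 0 < m := by linarith
  have hD0 := DD_nonneg (X := 0) hH le_rfl
  obtain ⟨X, hX⟩ : ∃ X, X = XX l0 d T := ⟨_, rfl⟩
  rw [← hX] at X0 nnX
  have hc0 : 0 ≤ DD H 0 / X := by positivity
  have := wub_BE hm1 T (tin T) (fun e => {e, (e.1, 0)}) (fun _ => DD H 0 / X)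
      (fun _ _ => hc0) (fun T' => max 0 (DD H (XX l0 d T') - DD H (XX l0 d T))) A (by
        intro T' hT'
        obtain ⟨hc', hr'⟩ := hA T' hT'
        have ls := loss_same (l0 := l0) (d := d) hcode hc' (by rw [hr', hruns])
        have fl := f_leR (l0 := l0) hd hd2 hH T T' (by rw [← hX]; exact X0)
          (L := (((tin T).filter fun e => ({e, (e.1, 0)} : Finset (BE M r)) ⊆
            symmDiff T T').card : ℝ)) (Nat.cast_nonneg _) (by linarith)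
        refine fl.trans (le_of_eq ?_)
        rw [← Finset.sum_filter, Finset.sum_const, nsmul_eq_mul, ← hX]
        ring)
  refine this.trans ?_
  have cd : ∀ e ∈ tin T, DD H 0 / X * (1 / m) ^ ({e, (e.1, 0)} : Finset (BE M r)).card =
      DD H 0 / X * (1 / m) ^ 2 := by
    intro e he
    have : e ≠ (e.1, 0) := by
      intro h
      have h1 : e.2 = 0 := congrArg Prod.snd h
      have h2 := (mem_filter.mp he).2.1
      rw [h1] at h2
      exact h2 rfl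
    rw [card_pair this]
  rw [Finset.sum_congr rfl cd, Finset.sum_const, nsmul_eq_mul]
  have e4 : ((tin T).card : ℝ) = nn T := rfl
  rw [e4]
  calc (nn T : ℝ) * (DD H 0 / X * (1 / m) ^ 2) ≤ X * (DD H 0 / X * (1 / m) ^ 2) := by gcongr
    _ = (1 / m) ^ 2 * DD H 0 := by field_simp

lemma part2R {l0 : ℕ} {d H m : ℝ} (hd : 0 < d)
    (hd2 : d ≤ 1 / 4) (hH : 0 ≤ H) (hm1 : 1 ≤ m) {R : Finset (ℕ × ℕ)} (hV : Valid M R)
    {T : Finset (BE M r)} (hruns : runs T = R) (hR : R.Nonempty)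
    (fe ge : ℕ × ℕ → Option ℕ × Option ℕ × ℕ → BE M r)
    (swe : ∀ p ∈ R, ∀ σ ∈ Idx r p, fe p σ ∈ T ∧ ge p σ ∉ T ∧
      (p.1 ≤ (fe p σ).1.val ∧ (fe p σ).1.val ≤ p.2) ∧ p.1 ≤ (ge p σ).1.val ∧
        (ge p σ).1.val ≤ p.2)
    (A : Finset (Finset (BE M r)))
    (hA : ∀ T' ∈ A, ∃ p ∈ R, ∃ σ ∈ Idx r p, fe p σ ∈ T ∧ fe p σ ∉ T' ∧ ge p σ ∉ T ∧
      ge p σ ∈ T' ∧ T' ≠ insert (ge p σ) (T.erase (fe p σ))) :
    ∑ T' ∈ A, qq m T T' * max 0 (DD H (XX l0 d T') - DD H (XX l0 d T)) ≤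
      (1 / m) ^ 3 * (DD H 0 / XX l0 d T) * ((∑ p ∈ R, NN r (p.2 - p.1 + 1)) * ((r + 2) *
        (∑ p ∈ R, psi l0 d (p.2 - p.1 + 1) * ((p.2 - p.1 + 1 : ℕ) : ℝ)) + nn T)
        + (r + 2) * M * ∑ p ∈ R, NN r (p.2 - p.1 + 1) * (psi l0 d (p.2 - p.1 + 1) + 1)) := by
  obtain ⟨X0, nnX⟩ := XX_posR (l0 := l0) hd hd2 hruns hR
  have hm0 : 0 < m := by linarith
  have hD0 := DD_nonneg (X := 0) hH le_rfl
  obtain ⟨X, hX⟩ : ∃ X, X = XX l0 d T := ⟨_, rfl⟩
  rw [← hX] at X0 nnX ⊢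
  have hc0 : 0 ≤ DD H 0 / X := by positivity
  obtain ⟨I, hI⟩ : ∃ I : Finset ((_ : (_ : ℕ × ℕ) × (Option ℕ × Option ℕ × ℕ)) × BE M r),
    I = (R.sigma (fun p => Idx r p)).sigma (fun x => (univ : Finset (BE M r)).filter
      (fun e => e ≠ fe x.1 x.2 ∧ e ≠ ge x.1 x.2)) := ⟨_, rfl⟩
  have H1 : ∀ T' ∈ A, max 0 (DD H (XX l0 d T') - DD H (XX l0 d T)) ≤
      ∑ x ∈ I, if ({fe x.1.1 x.1.2, ge x.1.1 x.1.2, x.2} : Finset (BE M r)) ⊆ symmDiff T T' then
        DD H 0 / X * wgt l0 d R T x.1.1 x.2 else 0 := by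
    intro T' hT'
    obtain ⟨p, hp, σ, hσ, hf, hf', hg, hg', hne⟩ := hA T' hT'
    obtain ⟨_, _, q34, q12⟩ := swe p hp σ hσ
    have h3 := third_BE hf hg hne hf' hg'
    have lp := loss_paid (l0 := l0) hd hd2 hV hruns hp hf hf' hg hg' q34 q12 h3
    have nn0 : 0 ≤ ∑ e ∈ (univ : Finset (BE M r)).filter (fun e => e ≠ fe p σ ∧
        e ≠ ge p σ), (if ({fe p σ, ge p σ, e} : Finset (BE M r)) ⊆
        symmDiff T T' then wgt l0 d R T p e else 0) := by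
      apply Finset.sum_nonneg
      intro e _
      split_ifs
      · exact wgt_nonneg hd hd2 _ _ _ _
      · exact le_rfl
    have fl := f_leR (l0 := l0) hd hd2 hH T T' (by rw [← hX]; exact X0) nn0 lp
    refine fl.trans ?_
    rw [← hX, hI, Finset.sum_sigma, Finset.mul_sum]
    dsimp only
    have e5 : ∀ e : BE M r, DD H 0 / X * (if ({fe p σ, ge p σ, e} : Finset (BE M r)) ⊆
        symmDiff T T' then wgt l0 d R T p e else 0) =
        if ({fe p σ, ge p σ, e} : Finset (BE M r)) ⊆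
        symmDiff T T' then DD H 0 / X * wgt l0 d R T p e else 0 := by
      intro e
      split_ifs
      · rfl
      · rw [mul_zero]
    rw [Finset.sum_congr rfl (fun e _ => e5 e)]
    have mem : (⟨p, σ⟩ : (_ : ℕ × ℕ) × (Option ℕ × Option ℕ × ℕ)) ∈
        R.sigma (fun p => Idx r p) := Finset.mem_sigma.mpr ⟨hp, hσ⟩
    have nn1 : ∀ x ∈ R.sigma (fun p => Idx r p), 0 ≤
        ∑ e ∈ (univ : Finset (BE M r)).filter (fun e => e ≠ fe x.1 x.2 ∧
        e ≠ ge x.1 x.2), if ({fe x.1 x.2, ge x.1 x.2, e} : Finset (BE M r)) ⊆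
        symmDiff T T' then DD H 0 / X * wgt l0 d R T x.1 e else 0 := by
      intro x _
      apply Finset.sum_nonneg
      intro e _
      split_ifs
      · exact mul_nonneg hc0 (wgt_nonneg hd hd2 _ _ _ _)
      · exact le_rfl
    have fin := Finset.single_le_sum (f := fun x : (_ : ℕ × ℕ) × (Option ℕ × Option ℕ × ℕ) =>
      ∑ e ∈ (univ : Finset (BE M r)).filter (fun e => e ≠ fe x.1 x.2 ∧
        e ≠ ge x.1 x.2), if ({fe x.1 x.2, ge x.1 x.2, e} : Finset (BE M r)) ⊆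
        symmDiff T T' then DD H 0 / X * wgt l0 d R T x.1 e else 0) nn1 mem
    dsimp only at fin
    exact fin
  have H2 := wub_BE hm1 T I (fun x => {fe x.1.1 x.1.2, ge x.1.1 x.1.2, x.2})
    (fun x => DD H 0 / X * wgt l0 d R T x.1.1 x.2)
    (fun x _ => mul_nonneg hc0 (wgt_nonneg hd hd2 _ _ _ _))
    (fun T' => max 0 (DD H (XX l0 d T') - DD H (XX l0 d T))) A H1
  rw [← hX] at H2
  refine H2.trans ?_
  rw [hI, Finset.sum_sigma, Finset.sum_sigma]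
  dsimp only
  have inner : ∀ p ∈ R, ∀ σ ∈ Idx r p,
      ∑ e ∈ (univ : Finset (BE M r)).filter (fun e => e ≠ fe p σ ∧ e ≠ ge p σ),
        DD H 0 / X * wgt l0 d R T p e *
          (1 / m) ^ ({fe p σ, ge p σ, e} : Finset (BE M r)).card ≤
      (1 / m) ^ 3 * (DD H 0 / X) * ((r + 2) *
        (∑ p ∈ R, psi l0 d (p.2 - p.1 + 1) * ((p.2 - p.1 + 1 : ℕ) : ℝ)) + nn T +
        (r + 2) * M * (psi l0 d (p.2 - p.1 + 1) + 1)) := by
    intro p hp σ hσ
    obtain ⟨hf, hg, _⟩ := swe p hp σ hσ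
    have fg : fe p σ ≠ ge p σ := fun h => hg (h ▸ hf)
    have c0 : 0 ≤ (1 / m) ^ 3 * (DD H 0 / X) := by positivity
    calc _ = ∑ e ∈ (univ : Finset (BE M r)).filter (fun e => e ≠ fe p σ ∧
          e ≠ ge p σ), (1 / m) ^ 3 * (DD H 0 / X) * wgt l0 d R T p e := by
          apply Finset.sum_congr rfl
          intro e he
          obtain ⟨_, h1, h2⟩ := mem_filter.mp he
          have c3 : ({fe p σ, ge p σ, e} : Finset (BE M r)).card = 3 :=
            card_eq_three.mpr ⟨_, _, _, fg, h1.symm, h2.symm, rfl⟩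
          rw [c3]; ring
      _ ≤ ∑ e : BE M r, (1 / m) ^ 3 * (DD H 0 / X) * wgt l0 d R T p e := by
          apply Finset.sum_le_sum_of_subset_of_nonneg (filter_subset _ _)
          intro e _ _
          exact mul_nonneg c0 (wgt_nonneg hd hd2 _ _ _ _)
      _ = (1 / m) ^ 3 * (DD H 0 / X) * ∑ e : BE M r, wgt l0 d R T p e := by
          rw [Finset.mul_sum]
      _ ≤ _ := mul_le_mul_of_nonneg_left (wgt_sum (l0 := l0) hd hd2 hV T p) c0
  calc _ ≤ ∑ p ∈ R, ∑ σ ∈ Idx r p, (1 / m) ^ 3 * (DD H 0 / X) * ((r + 2) *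
        (∑ p ∈ R, psi l0 d (p.2 - p.1 + 1) * ((p.2 - p.1 + 1 : ℕ) : ℝ)) + nn T +
        (r + 2) * M * (psi l0 d (p.2 - p.1 + 1) + 1)) :=
        Finset.sum_le_sum (fun p hp => Finset.sum_le_sum (fun σ hσ => inner p hp σ hσ))
    _ = ∑ p ∈ R, (1 / m) ^ 3 * (DD H 0 / X) * (NN r (p.2 - p.1 + 1) * ((r + 2) *
        (∑ p ∈ R, psi l0 d (p.2 - p.1 + 1) * ((p.2 - p.1 + 1 : ℕ) : ℝ)) + nn T) +
        (r + 2) * M * (NN r (p.2 - p.1 + 1) * (psi l0 d (p.2 - p.1 + 1) + 1))) := by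
        apply Finset.sum_congr rfl
        intro p hp
        rw [Finset.sum_const, nsmul_eq_mul, card_Idx r p (hV.le p hp)]
        ring
    _ = _ := by
        rw [← Finset.mul_sum, Finset.sum_add_distrib, ← Finset.sum_mul, ← Finset.mul_sum]

/-- all other transitions that do not increase the total length -/
theorem own_rest {l0 : ℕ} {d H m : ℝ} (hr : 1 ≤ r) (hl0 : 3 ≤ l0) (hd : 0 < d)
    (hd2 : d ≤ 1 / 4) (hH : 0 ≤ H) (hm : 2 ≤ m) (hM : 0 < M) {R : Finset (ℕ × ℕ)} {κ : ℕ → ℕ}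
    (hV : Valid M R) (hκ : ∀ j, κ j ≤ r) (hR : R.Nonempty) :
    ∑ T' ∈ (Om M r).filter (fun T' => JJ T' ≤ JJ (enc M r R κ) ∧
        ¬ ∃ p ∈ R, ∃ σ ∈ Idx r p, T' = swp hM κ (enc M r R κ) p σ),
      qq m (enc M r R κ) T' * max 0 (DD H (XX l0 d T') - DD H (XX l0 d (enc M r R κ))) ≤
    (1 / m) ^ 2 * (DD H 0 + DD H 0 / XX l0 d (enc M r R κ) * (1 / m) *
      ((∑ p ∈ R, NN r (p.2 - p.1 + 1)) * ((r + 2) *
        (∑ p ∈ R, psi l0 d (p.2 - p.1 + 1) * ((p.2 - p.1 + 1 : ℕ) : ℝ)) + nn (enc M r R κ))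
        + (r + 2) * M * ∑ p ∈ R, NN r (p.2 - p.1 + 1) * (psi l0 d (p.2 - p.1 + 1) + 1))) := by
  have hruns : runs (enc M r R κ) = R := runs_enc hV hκ
  have hcode : IsCode M r (enc M r R κ) := ⟨R, κ, hV, hκ, rfl⟩
  have hm1 : 1 ≤ m := by linarith
  rw [← Finset.sum_filter_add_sum_filter_not _ (fun T' => runs T' = R)]
  have P1 := part1R (l0 := l0) hd hd2 hH hm1 hcode hruns hR (((Om M r).filter (fun T' =>
      JJ T' ≤ JJ (enc M r R κ) ∧
        ¬ ∃ p ∈ R, ∃ σ ∈ Idx r p, T' = swp hM κ (enc M r R κ) p σ)).filter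
        (fun T' => runs T' = R)) (by
    intro T' hT'
    obtain ⟨h1, h2⟩ := mem_filter.mp hT'
    exact ⟨(mem_filter.mp (mem_filter.mp h1).1).2, h2⟩)
  have P2 := part2R (l0 := l0) hd hd2 hH hm1 hV hruns hR (fun p σ => fE hM κ p σ)
    (fun p σ => gE hM p σ) (by
      intro p hp σ hσ
      obtain ⟨a, b, _, q1, q2, q3, q4⟩ := swp_eq (r := r) hM hV hκ hp hσ
      exact ⟨a, b, ⟨q3, q4⟩, q1, q2⟩)
    (((Om M r).filter (fun T' =>
      JJ T' ≤ JJ (enc M r R κ) ∧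
        ¬ ∃ p ∈ R, ∃ σ ∈ Idx r p, T' = swp hM κ (enc M r R κ) p σ)).filter
        (fun T' => ¬ runs T' = R)) (by
    intro T' hT'
    obtain ⟨h1, h2⟩ := mem_filter.mp hT'
    obtain ⟨h3, h4, h5⟩ := mem_filter.mp h1
    obtain ⟨R', κ', hV', hκ', rfl⟩ := (mem_filter.mp h3).2
    rw [runs_enc hV' hκ'] at h2
    obtain ⟨p, hp, σ, hσ, hf, hf', hg, hg'⟩ := exists_cut (r := r) hM hV hV' hκ hκ' h2 h4
    exact ⟨p, hp, σ, hσ, hf, hf', hg, hg', fun h => h5 ⟨p, hp, σ, hσ, h⟩⟩)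
  refine (add_le_add P1 P2).trans (le_of_eq ?_)
  ring

end blk

end Pool.Agent.Helper120.Ea
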