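import Pool.Agent.Helper120.Ea.Idx

open Finset

namespace Pool.Agent.Helper120.Ea

/-- `u` is large -/
structure Big (u k0 L : ℕ) : Prop where
  hu : 100 ≤ u
  hLu : L ≤ u
  hk : k0 = 1000 * L + 3
  hL : 5 ≤ L
  hA : 10 ^ 8 * (k0 : ℝ) ^ 3 * (1 + Real.log u) ^ 3 ≤ u

theorem Big.U100 {u k0 L : ℕ} (h : Big u k0 L) : (100 : ℝ) ≤ u := by exact_mod_cast h.hu

theorem Big.k5 {u k0 L : ℕ} (h : Big u k0 L) : 5003 ≤ k0 := by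
  have := h.hk; have := h.hL; omega

theorem Big.k5R {u k0 L : ℕ} (h : Big u k0 L) : (5003 : ℝ) ≤ k0 := by exact_mod_cast h.k5

theorem Big.log1 {u k0 L : ℕ} (h : Big u k0 L) : 1 ≤ Real.log u := by
  rw [Real.le_log_iff_exp_le (by linarith [h.U100])]
  linarith [Real.exp_one_lt_d9, h.U100]

theorem Big.f1 {u k0 L : ℕ} (h : Big u k0 L) :
    10 ^ 8 * ((k0 : ℝ) * Real.log u) ^ 2 ≤ u := by
  refine le_trans ?_ h.hA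
  have h1 := h.log1
  have h2 := h.k5R
  have h3 : (k0 : ℝ) ^ 2 ≤ (k0 : ℝ) ^ 3 := pow_le_pow_right₀ (by linarith) (by norm_num)
  have h4 : Real.log u ^ 2 ≤ (1 + Real.log u) ^ 3 := by
    calc Real.log u ^ 2 ≤ (1 + Real.log u) ^ 2 := pow_le_pow_left₀ (by linarith) (by linarith) 2
      _ ≤ (1 + Real.log u) ^ 3 := pow_le_pow_right₀ (by linarith) (by norm_num)
  rw [mul_pow, mul_assoc]
  have h5 : (k0 : ℝ) ^ 2 * Real.log u ^ 2 ≤ (k0 : ℝ) ^ 3 * (1 + Real.log u) ^ 3 :=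
    mul_le_mul h3 h4 (by positivity) (by positivity)
  linarith

theorem Big.kl {u k0 L : ℕ} (h : Big u k0 L) : 1 ≤ (k0 : ℝ) * Real.log u := by
  nlinarith [h.log1, h.k5R]

theorem Big.f2 {u k0 L : ℕ} (h : Big u k0 L) :
    10 ^ 8 * ((k0 : ℝ) * Real.log u) ≤ u := by
  have h1 := h.f1
  have h2 := h.kl
  nlinarith

theorem exists_big (L N : ℕ) (hL : 5 ≤ L) : ∃ u : ℕ, N ≤ u ∧ Big u (1000 * L + 3) L := by
  have h1 : (fun x : ℝ => Real.log x ^ 3) =o[Filter.atTop] (id : ℝ → ℝ) :=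
    Real.isLittleO_pow_log_id_atTop
  set c : ℝ := 1 / (8 * (10 ^ 8 * ((1000 * L + 3 : ℕ) : ℝ) ^ 3)) with hc
  have hc0 : 0 < c := by positivity
  have h2 := (h1.def hc0)
  have h3 : ∀ᶠ n : ℕ in Filter.atTop, ‖Real.log (n : ℝ) ^ 3‖ ≤ c * ‖(id (n : ℝ))‖ :=
    tendsto_natCast_atTop_atTop.eventually h2
  obtain ⟨u, hu, hu2⟩ := (h3.and (Filter.eventually_ge_atTop (100 + L + N))).exists
  have hu100 : 100 ≤ u := by omega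
  refine ⟨u, by omega, hu100, by omega, rfl, hL, ?_⟩
  have hU : (100 : ℝ) ≤ u := by exact_mod_cast hu100
  have hlog : 1 ≤ Real.log u := by
    rw [Real.le_log_iff_exp_le (by linarith)]
    linarith [Real.exp_one_lt_d9]
  rw [Real.norm_of_nonneg (by positivity), id, Real.norm_of_nonneg (by positivity)] at hu
  have h4 : (1 + Real.log u) ^ 3 ≤ 8 * Real.log u ^ 3 := by
    calc (1 + Real.log u) ^ 3 ≤ (2 * Real.log u) ^ 3 :=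
          pow_le_pow_left₀ (by linarith) (by linarith) 3
      _ = 8 * Real.log u ^ 3 := by ring
  have hK : (0 : ℝ) < ((1000 * L + 3 : ℕ) : ℝ) := by positivity
  calc (10 : ℝ) ^ 8 * ((1000 * L + 3 : ℕ) : ℝ) ^ 3 * (1 + Real.log u) ^ 3
      ≤ 10 ^ 8 * ((1000 * L + 3 : ℕ) : ℝ) ^ 3 * (8 * (c * (u : ℝ))) := by
        refine mul_le_mul_of_nonneg_left ?_ (by positivity)
        linarith
    _ = (u : ℝ) := by
        rw [hc]; field_simp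

theorem DD_le {u k0 L : ℕ} (h : Big u k0 L) :
    0 ≤ DD ((u : ℝ) ^ (k0 - 2) / 2) 0 ∧ DD ((u : ℝ) ^ (k0 - 2) / 2) 0 ≤ k0 * Real.log u := by
  have hU := h.U100
  have hk := h.k5
  have hX : (1:ℝ) ≤ (u : ℝ) ^ (k0 - 2) := one_le_pow₀ (by linarith)
  have hk2 : (u : ℝ) ^ k0 = (u : ℝ) ^ (k0 - 2) * (u : ℝ) ^ 2 := by
    rw [← pow_add]; congr 1; omega
  unfold DD
  rw [add_zero, div_one]
  constructor
  · exact Real.log_nonneg (by linarith)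
  · rw [← Real.log_pow]
    refine Real.log_le_log (by linarith) ?_
    rw [hk2]
    have h2 : (100:ℝ) ^ 2 ≤ (u:ℝ) ^ 2 := pow_le_pow_left₀ (by norm_num) hU 2
    calc 1 + (u:ℝ) ^ (k0 - 2) / 2 ≤ (u:ℝ) ^ (k0 - 2) * 100 ^ 2 := by linarith
      _ ≤ _ := mul_le_mul_of_nonneg_left h2 (by linarith)

theorem logM_le {u k0 L : ℕ} (h : Big u k0 L) :
    0 < Real.log (2 * ((u ^ (10 * k0 + 5) : ℕ) : ℝ)) ∧
      Real.log (2 * ((u ^ (10 * k0 + 5) : ℕ) : ℝ)) ≤ 11 * k0 * Real.log u := by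
  have hU := h.U100
  have hk := h.k5R
  have hl := h.log1
  push_cast
  have hX : (1:ℝ) ≤ (u : ℝ) ^ (10 * k0 + 5) := one_le_pow₀ (by linarith)
  constructor
  · exact Real.log_pos (by linarith)
  · have h1 : Real.log (2 * (u : ℝ) ^ (10 * k0 + 5)) ≤ Real.log ((u : ℝ) ^ (10 * k0 + 6)) := by
      refine Real.log_le_log (by linarith) ?_
      have e : (u:ℝ) ^ (10 * k0 + 6) = (u:ℝ) * (u:ℝ) ^ (10 * k0 + 5) := by ring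
      rw [e]
      exact mul_le_mul_of_nonneg_right (by linarith) (by linarith)
    refine h1.trans ?_
    rw [Real.log_pow]
    push_cast
    nlinarith

theorem par_card {u k0 L : ℕ} (h : Big u k0 L) :
    L + L * (u ^ (10 * k0 + 5) * u ^ 4) + L * (u ^ (10 * k0 + 5) * (u ^ 4 + 2)) ≤ u ^ (10 * k0 + 19) := by
  have hu := h.hu
  have hL := h.hLu
  have hM : 1 ≤ u ^ (10 * k0 + 5) := Nat.one_le_pow _ _ (by omega)
  have h4 : 1 ≤ u ^ 4 := Nat.one_le_pow _ _ (by omega)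
  have h5 : 2 * u ^ 4 + 3 ≤ u ^ 5 := by
    have : u ^ 5 = u ^ 4 * u := by ring
    rw [this]; nlinarith
  calc L + L * (u ^ (10 * k0 + 5) * u ^ 4) + L * (u ^ (10 * k0 + 5) * (u ^ 4 + 2))
      = L * (1 + u ^ (10 * k0 + 5) * (2 * u ^ 4 + 2)) := by ring
    _ ≤ u * (u ^ (10 * k0 + 5) * (2 * u ^ 4 + 3)) := by
        refine Nat.mul_le_mul hL ?_
        nlinarith
    _ ≤ u * (u ^ (10 * k0 + 5) * u ^ 5) := by gcongr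
    _ = u ^ (10 * k0 + 11) := by ring
    _ ≤ u ^ (10 * k0 + 19) := Nat.pow_le_pow_right (by omega) (by omega)

theorem ratio_eq {U : ℝ} (hU : 0 < U) (k : ℕ) :
    U ^ (10 * k + 5) / U ^ (10 * k + 19) = 1 / U ^ 14 := by
  rw [show 10 * k + 19 = (10 * k + 5) + 14 by omega, pow_add _ (10 * k + 5) 14]
  field_simp

theorem ratio2_eq {U : ℝ} (hU : 0 < U) (k : ℕ) :
    (U ^ (10 * k + 5)) ^ 2 / (U ^ (10 * k + 19)) ^ 2 = 1 / U ^ 28 := by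
  rw [← div_pow, ratio_eq hU]
  field_simp

theorem par_easy {u k0 L : ℕ} (h : Big u k0 L) :
    1 ≤ u ^ 4 ∧ 3 ≤ u ^ 5 ∧ (0 : ℝ) < 1 / (u : ℝ) ^ 2 ∧ 1 / (u : ℝ) ^ 2 ≤ 1 / 4 ∧
    (1 : ℝ) ≤ (u : ℝ) ^ (k0 - 2) / 2 ∧ (2 : ℝ) ≤ (u : ℝ) ^ (10 * k0 + 19) ∧
    2 * (u ^ 4 + 2) ≤ u ^ (10 * k0 + 5) ∧
    2 * ((((u ^ 4 : ℕ) : ℝ) + 2) * ((u ^ (10 * k0 + 5) : ℕ) : ℝ)) ≤ (u : ℝ) ^ (10 * k0 + 19) ∧
    ((u ^ (10 * k0 + 5) : ℕ) : ℝ) ^ 2 / ((u : ℝ) ^ (10 * k0 + 19)) ^ 2 = 1 / (u : ℝ) ^ 28 := by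
  have hu := h.hu
  have hU := h.U100
  have hk := h.k5
  have h4 : 1 ≤ u ^ 4 := Nat.one_le_pow _ _ (by omega)
  have h5 : 2 * (u ^ 4 + 2) ≤ u ^ 5 := by
    have : u ^ 5 = u ^ 4 * u := by ring
    rw [this]; nlinarith
  have h5R : 2 * ((u:ℝ) ^ 4 + 2) ≤ (u:ℝ) ^ 5 := by exact_mod_cast h5
  refine ⟨h4, ?_, by positivity, ?_, ?_, ?_, ?_, ?_, ?_⟩
  · omega
  · exact one_div_le_one_div_of_le (by norm_num) (by nlinarith)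
  · have : (u:ℝ) ^ 1 ≤ (u : ℝ) ^ (k0 - 2) := pow_le_pow_right₀ (by linarith) (by omega)
    rw [pow_one] at this
    linarith
  · have : (u:ℝ) ^ 1 ≤ (u : ℝ) ^ (10 * k0 + 19) := pow_le_pow_right₀ (by linarith) (by omega)
    rw [pow_one] at this
    linarith
  · exact h5.trans (Nat.pow_le_pow_right (by omega) (by omega))
  · push_cast
    have h6 : (0:ℝ) < (u:ℝ) ^ (10 * k0 + 5) := by positivity
    calc 2 * (((u:ℝ) ^ 4 + 2) * (u:ℝ) ^ (10 * k0 + 5))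
        = 2 * ((u:ℝ) ^ 4 + 2) * (u:ℝ) ^ (10 * k0 + 5) := by ring
      _ ≤ (u:ℝ) ^ 5 * (u:ℝ) ^ (10 * k0 + 5) := mul_le_mul_of_nonneg_right h5R h6.le
      _ = (u:ℝ) ^ (10 * k0 + 10) := by ring
      _ ≤ (u:ℝ) ^ (10 * k0 + 19) := pow_le_pow_right₀ (by linarith) (by omega)
  · push_cast
    exact ratio2_eq (by linarith) k0

theorem par_m3 {u k0 L : ℕ} (h : Big u k0 L) :
    ((((u ^ 4 : ℕ) : ℝ) + 2) * ((u ^ (10 * k0 + 5) : ℕ) : ℝ) / (u : ℝ) ^ (10 * k0 + 19)) ^ 3 *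
      (DD ((u : ℝ) ^ (k0 - 2) / 2) 0 + 1) ≤
      ((u ^ (10 * k0 + 5) : ℕ) : ℝ) ^ 2 / ((u : ℝ) ^ (10 * k0 + 19)) ^ 2 := by
  have hU := h.U100
  have hU0 : (0:ℝ) < u := by linarith
  obtain ⟨hD0, hD1⟩ := DD_le h
  have hf := h.f2
  have hkl := h.kl
  push_cast
  rw [ratio2_eq hU0, mul_div_assoc, ratio_eq hU0]
  have h1 : ((u:ℝ) ^ 4 + 2) * (1 / (u:ℝ) ^ 14) ≤ 2 / (u:ℝ) ^ 10 := by
    rw [mul_one_div, div_le_div_iff₀ (by positivity) (by positivity)]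
    have h2 : (1:ℝ) ≤ (u:ℝ) ^ 4 := one_le_pow₀ (by linarith)
    have h3 : (0:ℝ) < (u:ℝ) ^ 10 := by positivity
    calc ((u:ℝ) ^ 4 + 2) * (u:ℝ) ^ 10 ≤ (2 * (u:ℝ) ^ 4) * (u:ℝ) ^ 10 := by
          refine mul_le_mul_of_nonneg_right ?_ h3.le
          have h5 : (100:ℝ) ^ 4 ≤ (u:ℝ) ^ 4 := pow_le_pow_left₀ (by norm_num) hU 4
          linarith
      _ = 2 * (u:ℝ) ^ 14 := by ring
  have h2 : (((u:ℝ) ^ 4 + 2) * (1 / (u:ℝ) ^ 14)) ^ 3 ≤ (2 / (u:ℝ) ^ 10) ^ 3 :=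
    pow_le_pow_left₀ (by positivity) h1 3
  calc (((u:ℝ) ^ 4 + 2) * (1 / (u:ℝ) ^ 14)) ^ 3 * (DD ((u : ℝ) ^ (k0 - 2) / 2) 0 + 1)
      ≤ (2 / (u:ℝ) ^ 10) ^ 3 * ((u:ℝ) / 8) := by
        refine mul_le_mul h2 (by linarith) (by linarith) (by positivity)
    _ = 1 / (u:ℝ) ^ 29 := by field_simp; norm_num
    _ ≤ 1 / (u:ℝ) ^ 28 := by
        refine one_div_le_one_div_of_le (by positivity) ?_
        exact pow_le_pow_right₀ (by linarith) (by norm_num)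

theorem par_C1 {u k0 L : ℕ} (h : Big u k0 L) :
    DD ((u : ℝ) ^ (k0 - 2) / 2) 0 * (12 * (((u ^ 4 : ℕ) : ℝ) + 2) / ((u ^ 5 : ℕ) : ℝ) +
      8 * (1 / (u : ℝ) ^ 2) +
      6 * (((u ^ 4 : ℕ) : ℝ) + 2) * ((u ^ (10 * k0 + 5) : ℕ) : ℝ) / (u : ℝ) ^ (10 * k0 + 19)) ≤
      1 / (48 * Real.log (2 * ((u ^ (10 * k0 + 5) : ℕ) : ℝ))) := by
  have hU := h.U100
  have hU0 : (0:ℝ) < u := by linarith
  obtain ⟨hD0, hD1⟩ := DD_le h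
  obtain ⟨hM0, hM1⟩ := logM_le h
  have hf := h.f1
  have hkl := h.kl
  rw [le_div_iff₀ (by positivity)]
  set lM := Real.log (2 * ((u ^ (10 * k0 + 5) : ℕ) : ℝ)) with hlM
  set D := DD ((u : ℝ) ^ (k0 - 2) / 2) 0 with hD
  push_cast
  rw [mul_div_assoc _ ((u:ℝ) ^ (10 * k0 + 5)), ratio_eq hU0]
  have e1 : (12:ℝ) * ((u:ℝ) ^ 4 + 2) / (u:ℝ) ^ 5 ≤ 24 / u := by
    rw [div_le_div_iff₀ (by positivity) (by positivity)]
    have h5 : (100:ℝ) ^ 4 ≤ (u:ℝ) ^ 4 := pow_le_pow_left₀ (by norm_num) hU 4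
    have h6 : (u:ℝ) ^ 5 = (u:ℝ) ^ 4 * u := by ring
    rw [h6]
    nlinarith
  have e2 : 8 * (1 / (u : ℝ) ^ 2) ≤ 8 / u := by
    rw [mul_one_div, div_le_div_iff₀ (by positivity) (by positivity)]
    nlinarith
  have e3 : 6 * ((u:ℝ) ^ 4 + 2) * (1 / (u:ℝ) ^ 14) ≤ 12 / u := by
    rw [mul_one_div, div_le_div_iff₀ (by positivity) (by positivity)]
    have h5 : (100:ℝ) ^ 4 ≤ (u:ℝ) ^ 4 := pow_le_pow_left₀ (by norm_num) hU 4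
    have h6 : (u:ℝ) ^ 5 ≤ (u:ℝ) ^ 14 := pow_le_pow_right₀ (by linarith) (by norm_num)
    have h7 : (u:ℝ) ^ 5 = (u:ℝ) ^ 4 * u := by ring
    rw [h7] at h6
    nlinarith
  have e4 : 12 * ((u:ℝ) ^ 4 + 2) / (u:ℝ) ^ 5 + 8 * (1 / (u : ℝ) ^ 2) +
      6 * ((u:ℝ) ^ 4 + 2) * (1 / (u:ℝ) ^ 14) ≤ 44 / u := by
    have : (44:ℝ) / u = 24 / u + 8 / u + 12 / u := by ring
    rw [this]; linarith
  have e5 : 48 * lM ≤ 528 * (k0 * Real.log u) := by linarith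
  calc D * (12 * ((u:ℝ) ^ 4 + 2) / (u:ℝ) ^ 5 + 8 * (1 / (u : ℝ) ^ 2) +
      6 * ((u:ℝ) ^ 4 + 2) * (1 / (u:ℝ) ^ 14)) * (48 * lM)
      ≤ (k0 * Real.log u) * (44 / u) * (528 * (k0 * Real.log u)) := by
        refine mul_le_mul (mul_le_mul hD1 e4 (by positivity) (by linarith)) e5 (by positivity) ?_
        positivity
    _ = 23232 * (k0 * Real.log u) ^ 2 / u := by ring
    _ ≤ 1 := by
        rw [div_le_one hU0]
        nlinarith [sq_nonneg ((k0:ℝ) * Real.log u)]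

theorem par_C2 {u k0 L : ℕ} (h : Big u k0 L) :
    DD ((u : ℝ) ^ (k0 - 2) / 2) 0 * (4 + 1 / (u : ℝ) ^ 2 * ((u ^ 5 : ℕ) : ℝ)) ≤
      (((u ^ 4 : ℕ) : ℝ) + 1) / (48 * Real.log (2 * ((u ^ (10 * k0 + 5) : ℕ) : ℝ))) := by
  have hU := h.U100
  have hU0 : (0:ℝ) < u := by linarith
  obtain ⟨hD0, hD1⟩ := DD_le h
  obtain ⟨hM0, hM1⟩ := logM_le h
  have hf := h.f1
  have hkl := h.kl
  rw [le_div_iff₀ (by positivity)]
  set lM := Real.log (2 * ((u ^ (10 * k0 + 5) : ℕ) : ℝ)) with hlM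
  set D := DD ((u : ℝ) ^ (k0 - 2) / 2) 0 with hD
  push_cast
  have e0 : 4 + 1 / (u : ℝ) ^ 2 * (u:ℝ) ^ 5 = 4 + (u:ℝ) ^ 3 := by field_simp
  rw [e0]
  have e1 : 4 + (u:ℝ) ^ 3 ≤ 2 * (u:ℝ) ^ 3 := by
    have h5 : (100:ℝ) ^ 3 ≤ (u:ℝ) ^ 3 := pow_le_pow_left₀ (by norm_num) hU 3
    linarith
  have e5 : 48 * lM ≤ 528 * (k0 * Real.log u) := by linarith
  calc D * (4 + (u:ℝ) ^ 3) * (48 * lM)
      ≤ (k0 * Real.log u) * (2 * (u:ℝ) ^ 3) * (528 * (k0 * Real.log u)) := by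
        refine mul_le_mul (mul_le_mul hD1 e1 (by positivity) (by linarith)) e5 (by positivity) ?_
        positivity
    _ = (1056 * (k0 * Real.log u) ^ 2) * (u:ℝ) ^ 3 := by ring
    _ ≤ u * (u:ℝ) ^ 3 := by
        refine mul_le_mul_of_nonneg_right ?_ (by positivity)
        nlinarith [sq_nonneg ((k0:ℝ) * Real.log u)]
    _ ≤ (u:ℝ) ^ 4 + 1 := by nlinarith

theorem par_psi {u k0 L : ℕ} (h : Big u k0 L) (l : ℕ) (hl : u ^ (10 * k0 + 5) ≤ 2 * l) :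
    (u : ℝ) ^ (k0 - 2) / 2 ≤ psi (u ^ 5) (1 / (u : ℝ) ^ 2) l := by
  have hU := h.U100
  have hU0 : (0:ℝ) < u := by linarith
  have hk := h.k5
  have hlR : (u:ℝ) ^ (10 * k0 + 5) ≤ 2 * l := by exact_mod_cast hl
  have h1 : (u:ℝ) ^ (10 * k0) / 2 ≤ (l:ℝ) / ((u ^ 5 : ℕ) : ℝ) := by
    push_cast
    rw [div_le_div_iff₀ (by norm_num) (by positivity), ← pow_add]
    linarith
  have h2 : (3 / 4 * (u:ℝ) ^ k0) ≤ ((l:ℝ) / ((u ^ 5 : ℕ) : ℝ)) ^ (1 / 10 : ℝ) := by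
    have h3 : (3 / 4 * (u:ℝ) ^ k0) ^ 10 ≤ (l:ℝ) / ((u ^ 5 : ℕ) : ℝ) := by
      refine le_trans ?_ h1
      rw [mul_pow, ← pow_mul, mul_comm k0 10]
      have h4 : (0:ℝ) < (u:ℝ) ^ (10 * k0) := by positivity
      have h5 : ((3:ℝ) / 4) ^ 10 ≤ 1 / 2 := by norm_num
      nlinarith
    have h6 : (3 / 4 * (u:ℝ) ^ k0) = ((3 / 4 * (u:ℝ) ^ k0) ^ 10) ^ (1 / 10 : ℝ) := by
      have := Real.pow_rpow_inv_natCast (x := 3 / 4 * (u:ℝ) ^ k0) (n := 10) (by positivity)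
        (by norm_num)
      rw [show (1 / 10 : ℝ) = ((10 : ℕ) : ℝ)⁻¹ by norm_num]
      exact this.symm
    rw [h6]
    exact Real.rpow_le_rpow (by positivity) h3 (by norm_num)
  unfold psi
  have h7 : 3 / 4 * (u:ℝ) ^ k0 - 1 ≤ max 0 (((l:ℝ) / ((u ^ 5 : ℕ) : ℝ)) ^ (1 / 10 : ℝ) - 1) :=
    le_trans (by linarith) (le_max_right _ _)
  have hk2 : (u : ℝ) ^ k0 = (u : ℝ) ^ (k0 - 2) * (u : ℝ) ^ 2 := by
    rw [← pow_add]; congr 1; omega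
  have h8 : (1 / (u:ℝ) ^ 2) * (3 / 4 * (u:ℝ) ^ k0 - 1) ≤
      (1 / (u:ℝ) ^ 2) * max 0 (((l:ℝ) / ((u ^ 5 : ℕ) : ℝ)) ^ (1 / 10 : ℝ) - 1) :=
    mul_le_mul_of_nonneg_left h7 (by positivity)
  have h9 : (1 / (u:ℝ) ^ 2) * (3 / 4 * (u:ℝ) ^ k0 - 1) =
      3 / 4 * (u:ℝ) ^ (k0 - 2) - 1 / (u:ℝ) ^ 2 := by
    rw [hk2]; field_simp
  have h10 : 1 / (u:ℝ) ^ 2 ≤ 1 / 2 := by
    refine one_div_le_one_div_of_le (by norm_num) ?_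
    nlinarith
  have h11 : 0 < (u:ℝ) ^ (k0 - 2) := by positivity
  rw [h9] at h8
  linarith

theorem par_MD {u k0 L : ℕ} (h : Big u k0 L) :
    ((u ^ (10 * k0 + 5) : ℕ) : ℝ) ^ 2 * DD ((u : ℝ) ^ (k0 - 2) / 2) 0 ≤
      ((u : ℝ) ^ (10 * k0 + 19)) ^ 2 := by
  have hU := h.U100
  have hU0 : (0:ℝ) < u := by linarith
  obtain ⟨hD0, hD1⟩ := DD_le h
  have hf := h.f2
  have hkl := h.kl
  push_cast
  calc ((u:ℝ) ^ (10 * k0 + 5)) ^ 2 * DD ((u : ℝ) ^ (k0 - 2) / 2) 0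
      ≤ ((u:ℝ) ^ (10 * k0 + 5)) ^ 2 * u := by
        refine mul_le_mul_of_nonneg_left (by linarith) (by positivity)
    _ = (u:ℝ) ^ (20 * k0 + 11) := by ring
    _ ≤ (u:ℝ) ^ (20 * k0 + 38) := pow_le_pow_right₀ (by linarith) (by omega)
    _ = ((u : ℝ) ^ (10 * k0 + 19)) ^ 2 := by ring

end Pool.Agent.Helper120.Ea
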