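import Pool.Agent.Helper120.Ea.Net

open Finset

namespace Pool.Agent.Helper120.Ea

open Pool.Agent.Helper120.EaModel

section step
open Classical

variable {P L M r : ℕ}

theorem dig_lt {T : Fin L → Finset (BE M r)} (hT : ∀ b, IsCode M r (T b)) (hM : 0 < M)
    (b : Fin L) : digT T b < Qd M ^ 2 := by
  have h1 := JJ_le (hT b)
  have h2 := nn_le (hT b)
  unfold digT Qd
  have h3 : JJ (T b) + 1 ≤ 2 * M := by omega
  have h4 : (2 * M + 2) * (JJ (T b) + 1) ≤ (2 * M + 2) * (2 * M) := Nat.mul_le_mul_left _ h3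
  nlinarith

theorem dig_zero {T : Fin L → Finset (BE M r)} (b : Fin L) :
    digT T b = 0 ↔ ¬ PBad JJ nn (T b) := by
  unfold digT PBad Qd
  constructor
  · intro h
    have h1 : (2 * M + 2) * JJ (T b) = 0 := by omega
    have h2 : nn (T b) = 0 := by omega
    rcases Nat.mul_eq_zero.1 h1 with h3 | h3
    · omega
    · push Not
      exact ⟨h3, h2⟩
  · intro h
    push Not at h
    rw [h.1, h.2]; rfl

theorem nn_lt_Qd {T : Finset (BE M r)} (hT : IsCode M r T) : nn T < Qd M := by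
  have := nn_le hT
  unfold Qd; omega

/-- acceptance of the mutant in terms of the blocks -/
def Acc (T T' : Fin L → Finset (BE M r)) : Prop :=
  baseVal (Qd M ^ 2) (digT T') ≤ baseVal (Qd M ^ 2) (digT T)

/-- the optimal string -/
noncomputable def xopt (P L M r : ℕ) : Finset (Ex P L M r) :=
  unblk (fun _ => enc M r ∅ (fun _ => 0))

theorem xopt_frozen (d : Dep P L M r) : (Sum.inl d : Ex P L M r) ∈ xopt P L M r :=
  inl_mem_unblk _ d

theorem xopt_blk (b : Fin L) : blk (xopt P L M r) b = enc M r ∅ (fun _ => 0) := by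
  unfold xopt
  rw [blk_unblk]

theorem xopt_tree : (gr (xopt P L M r)).IsTree := by
  apply isTree_of_code _ xopt_frozen
  intro b
  rw [xopt_blk]
  exact isCode_opt.1

theorem xopt_cost : (theG P L M r).totalWeight (xopt P L M r) = cst P L M r := by
  have h1 : ∀ b, IsCode M r (blk (xopt P L M r) b) := by
    intro b
    rw [xopt_blk]
    exact isCode_opt.1
  rw [cost_eq _ xopt_frozen h1]
  have h2 : ∀ b, digT (blk (xopt P L M r)) b = 0 := by
    intro b
    unfold digT
    rw [xopt_blk, isCode_opt.2.1, isCode_opt.2.2]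
    rfl
  unfold baseVal
  simp [h2]

theorem optWeight_eq : (theG P L M r).optWeight = cst P L M r := by
  apply le_antisymm
  · exact Nat.sInf_le ⟨xopt P L M r, xopt_tree, xopt_cost⟩
  · apply le_csInf
    · exact ⟨_, xopt P L M r, xopt_tree, rfl⟩
    · rintro w ⟨y, hy, rfl⟩
      by_cases h : (theG P L M r).totalWeight y ≤ (theG P L M r).totalWeight (xopt P L M r)
      · have hF := frozen_of_le xopt_tree hy xopt_frozen h
        rw [cost_eq y hF (fun b => code_of_isTree y hF hy b)]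
        exact Nat.le_add_right _ _
      · rw [xopt_cost] at h
        omega

theorem cost_opt_iff {x : Finset (Ex P L M r)} (hx : (gr x).IsTree) (hF : ∀ d, Sum.inl d ∈ x) :
    (theG P L M r).totalWeight x = (theG P L M r).optWeight ↔ ∀ b, ¬ PBad JJ nn (blk x b) := by
  rw [optWeight_eq, cost_eq x hF (fun b => code_of_isTree x hF hx b)]
  have h1 : cst P L M r + baseVal (Qd M ^ 2) (digT (blk x)) = cst P L M r ↔
      baseVal (Qd M ^ 2) (digT (blk x)) = 0 := by omega
  rw [h1]
  unfold baseVal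
  rw [Finset.sum_eq_zero_iff]
  have hQ : 0 < Qd M := by unfold Qd; omega
  constructor
  · intro h b
    have h2 := h b (Finset.mem_univ b)
    rcases Nat.mul_eq_zero.1 h2 with h3 | h3
    · have : 0 < (Qd M ^ 2) ^ (L - 1 - b.val) := by positivity
      omega
    · exact (dig_zero b).1 h3
  · intro h b _
    rw [(dig_zero b).2 (h b), mul_zero]

/-- the potential of a string -/
noncomputable def VV (m : ℝ) (Φ : Finset (BE M r) → ℝ) (α β g : ℕ → ℝ) (G0 : ℝ)
    (x : Finset (Ex P L M r)) : ℝ :=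
  if (gr x).IsTree ∧ (∀ d, Sum.inl d ∈ x) then
    m ^ 2 / 2 * WW JJ nn Φ α β g G0 (blk x) else 0

theorem exists_first {T : Fin L → Finset (BE M r)} (h : ∃ b, PBad JJ nn (T b)) :
    ∃ i, IsFirst JJ nn T i := by
  obtain ⟨i, hi, hmin⟩ := WellFounded.has_min (wellFounded_lt (α := Fin L)) {b | PBad JJ nn (T b)} h
  exact ⟨i, hi, fun b hb hbad => hmin b hbad hb⟩

theorem acc_one {T T' : Fin L → Finset (BE M r)} (hM : 0 < M) (hT : ∀ b, IsCode M r (T b))
    (hT' : ∀ b, IsCode M r (T' b)) {i : Fin L} (hi : IsFirst JJ nn T i) (h : Acc T T') :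
    (∀ b < i, ¬ PBad JJ nn (T' b)) ∧
      (PLess JJ nn (T' i) (T i) ∨ (PSame JJ nn (T' i) (T i) ∧
        (nxtB i ≠ i → PLess JJ nn (T' (nxtB i)) (T (nxtB i)) ∨
          PSame JJ nn (T' (nxtB i)) (T (nxtB i))))) := by
  have h0 : ∀ b < i, digT T b = 0 := fun b hb => (dig_zero b).2 (hi.2 b hb)
  obtain ⟨h1, h2⟩ := baseVal_first (digT T) (digT T') (dig_lt hT hM) h i h0
  refine ⟨fun b hb => (dig_zero b).1 (h1 b hb), ?_⟩
  have h3 := (digit_cmp (Q := Qd M) (J := JJ (T i)) (J' := JJ (T' i)) (nn_lt_Qd (hT i))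
    (nn_lt_Qd (hT' i))).1.1 h2
  rcases h3 with h3 | h3
  · exact Or.inl h3
  · refine Or.inr ⟨h3, fun hne => ?_⟩
    have hj : (nxtB i).val = i.val + 1 := by
      unfold nxtB at hne ⊢
      split_ifs at hne ⊢ with hlt
      · rfl
      · exact absurd rfl hne
    have he : digT T' i = digT T i := by
      unfold digT
      rw [h3.1, h3.2]
    have h4 := baseVal_second (digT T) (digT T') (dig_lt hT hM) h i (nxtB i) hj h0 he
    exact (digit_cmp (Q := Qd M) (J := JJ (T (nxtB i))) (J' := JJ (T' (nxtB i)))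
      (nn_lt_Qd (hT _)) (nn_lt_Qd (hT' _))).1.1 h4

theorem acc_two {T T' : Fin L → Finset (BE M r)} (hM : 0 < M) (hT : ∀ b, IsCode M r (T b))
    (hT' : ∀ b, IsCode M r (T' b)) {i : Fin L} (hi : ∀ b < i, ¬ PBad JJ nn (T b))
    (h1 : ∀ b < i, ¬ PBad JJ nn (T' b)) (h2 : PLess JJ nn (T' i) (T i)) : Acc T T' := by
  unfold Acc
  apply baseVal_lt (digT T) (digT T') (dig_lt hT' hM) i
  · intro b hb
    rw [(dig_zero b).2 (hi b hb), (dig_zero b).2 (h1 b hb)]
  · exact (digit_cmp (Q := Qd M) (J := JJ (T i)) (J' := JJ (T' i)) (nn_lt_Qd (hT i))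
      (nn_lt_Qd (hT' i))).2.1.2 h2

theorem acc_three {T T' : Fin L → Finset (BE M r)} (hM : 0 < M) (hT : ∀ b, IsCode M r (T b))
    (hT' : ∀ b, IsCode M r (T' b)) {i : Fin L} (hi : ∀ b < i, ¬ PBad JJ nn (T b))
    (h1 : ∀ b < i, ¬ PBad JJ nn (T' b)) (h2 : PSame JJ nn (T' i) (T i)) (hne : nxtB i ≠ i)
    (h3 : PLess JJ nn (T' (nxtB i)) (T (nxtB i))) : Acc T T' := by
  have hj : (nxtB i).val = i.val + 1 := by
    unfold nxtB at hne ⊢
    split_ifs at hne ⊢ with hlt
    · rfl
    · exact absurd rfl hne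
  unfold Acc
  apply baseVal_lt (digT T) (digT T') (dig_lt hT' hM) (nxtB i)
  · intro b hb
    have hb' : b.val < i.val + 1 := by rw [← hj]; exact hb
    rcases Nat.lt_or_ge b.val i.val with h4 | h4
    · rw [(dig_zero b).2 (hi b h4), (dig_zero b).2 (h1 b h4)]
    · have : b = i := Fin.ext (by omega)
      subst this
      unfold digT
      rw [h2.1, h2.2]
  · exact (digit_cmp (Q := Qd M) (J := JJ (T (nxtB i))) (J' := JJ (T' (nxtB i)))
      (nn_lt_Qd (hT _)) (nn_lt_Qd (hT' _))).2.1.2 h3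

theorem symmDiff_bij (x : Finset (Ex P L M r)) :
    Function.Bijective (fun F : Finset (Ex P L M r) => symmDiff x F) := by
  apply Function.Involutive.bijective
  intro F
  simp

theorem flip_sum (x : Finset (Ex P L M r)) (h : Finset (Ex P L M r) → ℝ) :
    ∑ F : Finset (Ex P L M r), EaJ4.flipProb F * h (symmDiff x F) =
      ∑ y : Finset (Ex P L M r), mu (Fintype.card (Ex P L M r) : ℝ) (symmDiff x y) * h y := by
  apply Fintype.sum_bijective (fun F : Finset (Ex P L M r) => symmDiff x F) (symmDiff_bij x)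
  intro F
  have : symmDiff x (symmDiff x F) = F := by simp
  rw [this]
  rfl

theorem mu_sum_one (m : ℝ) (x : Finset (Ex P L M r)) :
    ∑ y : Finset (Ex P L M r), mu m (symmDiff x y) = 1 := by
  rw [← sum_qq_univ m x]
  refine Finset.sum_congr rfl fun y _ => ?_
  rw [qq_eq_g]

theorem main_drift {m : ℝ} (hm : m = (Fintype.card (Ex P L M r) : ℝ)) (hM : 0 < M)
    {Φ : Finset (BE M r) → ℝ} {Dn : ℕ → ℝ} {Pm R K cp C0p : ℝ} {α β g : ℕ → ℝ} {G0 : ℝ}
    (hB : BlkHyp (Om M r) M m JJ nn Φ (qq m) Dn Pm R K cp C0p)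
    (hF : FnHyp M L m Dn Pm R K cp C0p α β g G0)
    {x : Finset (Ex P L M r)} (hx : (gr x).IsTree) (hfr : ∀ d, Sum.inl d ∈ x)
    (hno : (theG P L M r).totalWeight x ≠ (theG P L M r).optWeight) :
    VV m Φ α β g G0 x - 1 ≤ ∑ F : Finset (Ex P L M r), EaJ4.flipProb F *
      VV m Φ α β g G0 ((theG P L M r).select x (symmDiff x F)) := by
  have hm1 : 1 ≤ m := hF.m_pos
  have hm0 : 0 < m := by linarith
  rw [flip_sum x (fun y => VV m Φ α β g G0 ((theG P L M r).select x y)), ← hm]
  have hcode : ∀ b, IsCode M r (blk x b) := fun b => code_of_isTree x hfr hx b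
  have hbad : ∃ b, PBad JJ nn (blk x b) := by
    by_contra h
    push Not at h
    exact hno ((cost_opt_iff hx hfr).2 h)
  obtain ⟨i, hi⟩ := exists_first hbad
  have hpd := prod_drift (Om M r) M L m JJ nn Φ (qq m) Dn Pm R K cp C0p α β g G0 hB hF (blk x)
    (fun b => mem_Om.2 (hcode b)) i hi (Acc (blk x))
    (fun T' hT' h => acc_one hM hcode (fun b => mem_Om.1 (hT' b)) hi h)
    (fun T' hT' h1 h2 => acc_two hM hcode (fun b => mem_Om.1 (hT' b)) hi.2 h1 h2)
    (fun T' hT' h1 h2 hne h3 => acc_three hM hcode (fun b => mem_Om.1 (hT' b)) hi.2 h1 h2 hne h3)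
  -- the accepted strings
  have hA : ∀ y : Finset (Ex P L M r), ((theG P L M r).IsSpanningTree y ∧
      (theG P L M r).totalWeight y ≤ (theG P L M r).totalWeight x) ↔
      ((∀ d, Sum.inl d ∈ y) ∧
        blk y ∈ (Fintype.piFinset (fun _ : Fin L => Om M r)).filter (Acc (blk x))) := by
    intro y
    rw [mem_filter, Fintype.mem_piFinset]
    constructor
    · rintro ⟨h1, h2⟩
      have h3 := frozen_of_le hx h1 hfr h2
      have h4 : ∀ b, IsCode M r (blk y b) := fun b => code_of_isTree y h3 h1 b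
      refine ⟨h3, fun b => mem_Om.2 (h4 b), ?_⟩
      rw [cost_eq x hfr hcode, cost_eq y h3 h4] at h2
      unfold Acc
      omega
    · rintro ⟨h3, h4, h5⟩
      have h4' : ∀ b, IsCode M r (blk y b) := fun b => mem_Om.1 (h4 b)
      refine ⟨isTree_of_code y h3 h4', ?_⟩
      rw [cost_eq x hfr hcode, cost_eq y h3 h4']
      unfold Acc at h5
      omega
  have hone := mu_sum_one m x
  have hVx : VV m Φ α β g G0 x = m ^ 2 / 2 * WW JJ nn Φ α β g G0 (blk x) := by
    unfold VV
    rw [if_pos ⟨hx, hfr⟩]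
  have hdiff : ∑ y : Finset (Ex P L M r), mu m (symmDiff x y) *
      VV m Φ α β g G0 ((theG P L M r).select x y) - VV m Φ α β g G0 x =
      ∑ y ∈ (Finset.univ : Finset (Finset (Ex P L M r))).filter
        (fun y => (∀ d, Sum.inl d ∈ y) ∧
          blk y ∈ (Fintype.piFinset (fun _ : Fin L => Om M r)).filter (Acc (blk x))),
        mu m (symmDiff x y) * (m ^ 2 / 2 * (WW JJ nn Φ α β g G0 (blk y) -
          WW JJ nn Φ α β g G0 (blk x))) := by
    have h1 : VV m Φ α β g G0 x = ∑ y : Finset (Ex P L M r), mu m (symmDiff x y) *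
        VV m Φ α β g G0 x := by
      rw [← Finset.sum_mul, hone, one_mul]
    rw [Finset.sum_filter]
    rw [h1, ← Finset.sum_sub_distrib]
    refine Finset.sum_congr rfl fun y _ => ?_
    by_cases hy : (theG P L M r).IsSpanningTree y ∧
        (theG P L M r).totalWeight y ≤ (theG P L M r).totalWeight x
    · rw [if_pos ((hA y).1 hy)]
      have h2 : (theG P L M r).select x y = y := by
        unfold WGraph.select
        rw [if_pos hy]
      have h3 : VV m Φ α β g G0 y = m ^ 2 / 2 * WW JJ nn Φ α β g G0 (blk y) := by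
        unfold VV
        rw [if_pos ⟨hy.1, ((hA y).1 hy).1⟩]
      rw [h2, h3, hVx]
      ring
    · rw [if_neg (fun h => hy ((hA y).2 h))]
      have h2 : (theG P L M r).select x y = x := by
        unfold WGraph.select
        rw [if_neg hy]
      rw [h2]
      ring
  have hsum := ea_sum (m := m) x hfr
    ((Fintype.piFinset (fun _ : Fin L => Om M r)).filter (Acc (blk x)))
    (fun T' => m ^ 2 / 2 * (WW JJ nn Φ α β g G0 T' - WW JJ nn Φ α β g G0 (blk x)))
  rw [hsum] at hdiff
  have h5 : ∑ T' ∈ (Fintype.piFinset (fun _ : Fin L => Om M r)).filter (Acc (blk x)),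
      (∏ b, qq m (blk x b) (T' b)) *
        (m ^ 2 / 2 * (WW JJ nn Φ α β g G0 T' - WW JJ nn Φ α β g G0 (blk x))) =
      m ^ 2 / 2 * ∑ T' ∈ (Fintype.piFinset (fun _ : Fin L => Om M r)).filter (Acc (blk x)),
      (∏ b, qq m (blk x b) (T' b)) *
        (WW JJ nn Φ α β g G0 T' - WW JJ nn Φ α β g G0 (blk x)) := by
    rw [Finset.mul_sum]
    exact Finset.sum_congr rfl fun T' _ => by ring
  rw [h5] at hdiff
  have h6 : -1 ≤ m ^ 2 / 2 * ∑ T' ∈ (Fintype.piFinset (fun _ : Fin L => Om M r)).filter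
      (Acc (blk x)), (∏ b, qq m (blk x b) (T' b)) *
        (WW JJ nn Φ α β g G0 T' - WW JJ nn Φ α β g G0 (blk x)) := by
    have h7 : m ^ 2 / 2 * (-(2 / m ^ 2)) = -1 := by field_simp
    rw [← h7]
    exact mul_le_mul_of_nonneg_left hpd (by positivity)
  have h8 : 0 ≤ (1 - 1 / m) ^ (Fintype.card (Dep P L M r)) ∧
      (1 - 1 / m) ^ (Fintype.card (Dep P L M r)) ≤ 1 := by
    have h9 : 1 / m ≤ 1 := by rw [div_le_one hm0]; exact hm1
    have h10 : 0 < 1 / m := by positivity
    constructor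
    · apply pow_nonneg; linarith
    · apply pow_le_one₀ <;> linarith
  nlinarith [h8.1, h8.2, h6, hdiff]

end step

end Pool.Agent.Helper120.Ea
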