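import Mathlib

open Finset

namespace Pool.Agent.Helper120.Ea

section pisum
open Classical

variable {Ω : Type}

theorem sum_pi_one {L : ℕ} (i : Fin L) (O : Finset Ω) (f : Fin L → Ω → ℝ) (h : Ω → ℝ) :
    ∑ T' ∈ Fintype.piFinset (fun _ : Fin L => O), (∏ b, f b (T' b)) * h (T' i) =
      (∏ b ∈ univ.erase i, ∑ t ∈ O, f b t) * ∑ s ∈ O, f i s * h s := by
  have h1 : ∀ T' : Fin L → Ω, (∏ b, f b (T' b)) * h (T' i) =
      ∏ b, (if b = i then f b (T' b) * h (T' b) else f b (T' b)) := by
    intro T'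
    rw [← Finset.mul_prod_erase univ (fun b => if b = i then f b (T' b) * h (T' b) else f b (T' b)) (mem_univ i),
      ← Finset.mul_prod_erase univ (fun b => f b (T' b)) (mem_univ i)]
    have h2 : ∏ b ∈ univ.erase i, (if b = i then f b (T' b) * h (T' b) else f b (T' b)) =
        ∏ b ∈ univ.erase i, f b (T' b) := by
      apply Finset.prod_congr rfl
      intro b hb
      rw [if_neg (Finset.ne_of_mem_erase hb)]
    rw [h2]
    simp only [if_true]
    ring
  simp_rw [h1]
  have h3 := Finset.prod_univ_sum (fun _ : Fin L => O) (fun b s => if b = i then f b s * h s else f b s)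
  rw [← h3, ← Finset.mul_prod_erase univ _ (mem_univ i)]
  simp only [if_true]
  rw [mul_comm]
  congr 1
  apply Finset.prod_congr rfl
  intro b hb
  simp [Finset.ne_of_mem_erase hb]

theorem sum_pi_two {L : ℕ} (i j : Fin L) (hij : i ≠ j) (O : Finset Ω) (f : Fin L → Ω → ℝ)
    (h : Ω → Ω → ℝ) :
    ∑ T' ∈ Fintype.piFinset (fun _ : Fin L => O), (∏ b, f b (T' b)) * h (T' i) (T' j) =
      (∏ b ∈ (univ.erase i).erase j, ∑ t ∈ O, f b t) *
        ∑ s ∈ O, ∑ t ∈ O, f i s * f j t * h s t := by
  have h1 : ∀ T' ∈ Fintype.piFinset (fun _ : Fin L => O), (∏ b, f b (T' b)) * h (T' i) (T' j) =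
      ∑ s ∈ O, (∏ b, (f b (T' b) * (if b = i then (if T' b = s then 1 else 0) else 1))) * h s (T' j) := by
    intro T' hT
    have hTi : T' i ∈ O := Fintype.mem_piFinset.1 hT i
    have h2 : ∀ s, (∏ b, (f b (T' b) * (if b = i then (if T' b = s then (1:ℝ) else 0) else 1))) =
        (∏ b, f b (T' b)) * (if T' i = s then 1 else 0) := by
      intro s
      rw [Finset.prod_mul_distrib]
      congr 1
      rw [Finset.prod_ite_eq' univ i (fun b => if T' b = s then (1:ℝ) else 0)]
      simp
    simp_rw [h2]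
    rw [Finset.sum_eq_single (T' i)]
    · simp
    · intro s _ hs
      simp [hs.symm]
    · intro h; exact absurd hTi h
  rw [Finset.sum_congr rfl h1, Finset.sum_comm]
  rw [Finset.mul_sum]
  apply Finset.sum_congr rfl
  intro s hs
  have h4 := sum_pi_one j O (fun b t => f b t * (if b = i then (if t = s then 1 else 0) else 1)) (fun t => h s t)
  rw [h4]
  have hi : i ∈ univ.erase j := Finset.mem_erase.2 ⟨hij, mem_univ i⟩
  rw [← Finset.mul_prod_erase _ _ hi, Finset.erase_right_comm]
  simp only [if_true]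
  have h5 : ∑ t ∈ O, f i t * (if t = s then (1:ℝ) else 0) = f i s := by
    simp [hs]
  have h6 : ∏ b ∈ (univ.erase i).erase j, ∑ t ∈ O, f b t * (if b = i then (if t = s then (1:ℝ) else 0) else 1) =
      ∏ b ∈ (univ.erase i).erase j, ∑ t ∈ O, f b t := by
    apply Finset.prod_congr rfl
    intro b hb
    have hbi : b ≠ i := Finset.ne_of_mem_erase (Finset.mem_of_mem_erase hb)
    simp [hbi]
  rw [h5, h6]
  have h7 : ∑ t ∈ O, f j t * (if j = i then (if t = s then (1:ℝ) else 0) else 1) * h s t = ∑ t ∈ O, f j t * h s t := by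
    simp [hij.symm]
  rw [h7]
  have h8 : ∑ t ∈ O, f i s * f j t * h s t = f i s * ∑ t ∈ O, f j t * h s t := by
    rw [Finset.mul_sum]
    apply Finset.sum_congr rfl
    intro t _
    ring
  rw [h8]
  ring

end pisum

end Pool.Agent.Helper120.Ea
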