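import Pool.Agent.Helper120.Ea.Base

open Finset

namespace Pool.Agent.Helper120.Ea

section blk
open Classical

variable {M r : ℕ}

lemma be_eq_iff {e g : BE M r} : e = g ↔ e.1.val = g.1.val ∧ e.2.val = g.2.val := by
  constructor
  · rintro rfl; exact ⟨rfl, rfl⟩
  · rintro ⟨h1, h2⟩; exact Prod.ext (Fin.ext h1) (Fin.ext h2)

lemma Valid.ends_erase {R : Finset (ℕ × ℕ)} (hV : Valid M R) {p : ℕ × ℕ} (hp : p ∈ R) (j : ℕ) :
    (∃ q ∈ R.erase p, q.2 = j) ↔ (∃ q ∈ R, q.2 = j) ∧ j ≠ p.2 := by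
  constructor
  · rintro ⟨q, hq, rfl⟩
    rw [mem_erase] at hq
    exact ⟨⟨q, hq.2, rfl⟩, fun h => hq.1 (hV.eq_of_snd hq.2 hp h)⟩
  · rintro ⟨⟨q, hq, rfl⟩, h⟩
    exact ⟨q, mem_erase.mpr ⟨fun h' => h (by rw [h']), hq⟩, rfl⟩

lemma Valid.starts_erase {R : Finset (ℕ × ℕ)} (hV : Valid M R) {p : ℕ × ℕ} (hp : p ∈ R) (j : ℕ) :
    (∀ q ∈ R.erase p, q.1 ≠ j) ↔ (∀ q ∈ R, q.1 ≠ j) ∨ j = p.1 := by
  constructor
  · intro h
    by_cases hj : j = p.1
    · exact Or.inr hj
    · left
      intro q hq hqj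
      exact h q (mem_erase.mpr ⟨fun h' => hj (by rw [← hqj, h']), hq⟩) hqj
  · rintro (h | h) q hq hqj
    · exact h q (mem_of_mem_erase hq) hqj
    · rw [mem_erase] at hq
      exact hq.1 (hV.eq_of_fst hq.2 hp (by omega))

lemma Valid.no_start_inside {R : Finset (ℕ × ℕ)} (hV : Valid M R) {p : ℕ × ℕ} (hp : p ∈ R) {j : ℕ}
    (h1 : p.1 < j) (h2 : j ≤ p.2) : ∀ q ∈ R, q.1 ≠ j := by
  intro q hq hqj
  have := hV.le q hq
  have := hV.eq_of_overlap hp hq (by omega) (by omega)
  subst this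
  omega

lemma Valid.no_end_inside {R : Finset (ℕ × ℕ)} (hV : Valid M R) {p : ℕ × ℕ} (hp : p ∈ R) {j : ℕ}
    (h1 : p.1 ≤ j) (h2 : j < p.2) : ¬ ∃ q ∈ R, q.2 = j := by
  rintro ⟨q, hq, hqj⟩
  have := hV.le q hq
  have := hV.eq_of_overlap hp hq (by omega) (by omega)
  subst this
  omega

/-- the modified family: `c = some c` leaves a left piece `[p.1,c]`, `i = some i` leaves a right
piece `[i,p.2]` -/
def newR (R : Finset (ℕ × ℕ)) (p : ℕ × ℕ) (c i : Option ℕ) : Finset (ℕ × ℕ) :=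
  (R.erase p) ∪ (c.elim ∅ fun c => {(p.1, c)}) ∪ (i.elim ∅ fun i => {(i, p.2)})

/-- admissible pair of cuts -/
def Adm (p : ℕ × ℕ) (c i : Option ℕ) : Prop :=
  (∀ x, c = some x → p.1 ≤ x ∧ x < p.2) ∧ (∀ y, i = some y → p.1 < y ∧ y ≤ p.2) ∧
    (∀ x y, c = some x → i = some y → x < y)

lemma mem_newR {R : Finset (ℕ × ℕ)} {p q : ℕ × ℕ} {c i : Option ℕ} :
    q ∈ newR R p c i ↔ (q ≠ p ∧ q ∈ R) ∨ (∃ x, c = some x ∧ q = (p.1, x)) ∨
      (∃ y, i = some y ∧ q = (y, p.2)) := by
  unfold newR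
  rcases c with _ | c <;> rcases i with _ | i <;> simp <;> tauto

lemma newR_valid {R : Finset (ℕ × ℕ)} (hV : Valid M R) {p : ℕ × ℕ} (hp : p ∈ R)
    {c i : Option ℕ} (hA : Adm p c i) : Valid M (newR R p c i) := by
  obtain ⟨h1, h2, h3⟩ := hA
  have hple := hV.le p hp
  have hplt := hV.lt p hp
  refine ⟨?_, ?_, ?_⟩
  · intro q hq
    rw [mem_newR] at hq
    rcases hq with ⟨_, hq⟩ | ⟨x, hx, rfl⟩ | ⟨y, hy, rfl⟩
    · exact hV.le q hq
    · exact (h1 x hx).1
    · exact (h2 y hy).2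
  · intro q hq
    rw [mem_newR] at hq
    rcases hq with ⟨_, hq⟩ | ⟨x, hx, rfl⟩ | ⟨y, hy, rfl⟩
    · exact hV.lt q hq
    · have := (h1 x hx).2
      simp only; omega
    · exact hplt
  · intro q hq q' hq' hne
    rw [mem_newR] at hq hq'
    rcases hq with ⟨hqp, hq⟩ | ⟨x, hx, rfl⟩ | ⟨y, hy, rfl⟩ <;>
    rcases hq' with ⟨hqp', hq'⟩ | ⟨x', hx', rfl⟩ | ⟨y', hy', rfl⟩
    · exact hV.disj q hq q' hq' hne
    · have := h1 x' hx'
      rcases hV.disj q hq p hp hqp with h | h
      · left; simpa using h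
      · right; simp only; omega
    · have := h2 y' hy'
      rcases hV.disj q hq p hp hqp with h | h
      · left; simp only; omega
      · right; simpa using h
    · have := h1 x hx
      rcases hV.disj q' hq' p hp hqp' with h | h
      · right; simpa using h
      · left; simp only; omega
    · exfalso
      rw [hx] at hx'
      simp only [Option.some.injEq] at hx'
      subst hx'
      exact hne rfl
    · left
      exact h3 x y' hx hy'
    · have := h2 y hy
      rcases hV.disj q' hq' p hp hqp' with h | h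
      · right; simp only; omega
      · left; simpa using h
    · right
      exact h3 x' y hx' hy
    · exfalso
      rw [hy] at hy'
      simp only [Option.some.injEq] at hy'
      subst hy'
      exact hne rfl

lemma ends_newR {R : Finset (ℕ × ℕ)} (hV : Valid M R) {p : ℕ × ℕ} (hp : p ∈ R)
    {c i : Option ℕ} (j : ℕ) : (∃ q ∈ newR R p c i, q.2 = j) ↔
      ((∃ q ∈ R, q.2 = j) ∧ j ≠ p.2) ∨ c = some j ∨ (i ≠ none ∧ j = p.2) := by
  rw [← hV.ends_erase hp]
  constructor
  · rintro ⟨q, hq, rfl⟩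
    rw [mem_newR] at hq
    rcases hq with ⟨hqp, hq⟩ | ⟨x, hx, rfl⟩ | ⟨y, hy, rfl⟩
    · exact Or.inl ⟨q, mem_erase.mpr ⟨hqp, hq⟩, rfl⟩
    · exact Or.inr (Or.inl hx)
    · exact Or.inr (Or.inr ⟨by simp [hy], rfl⟩)
  · rintro (⟨q, hq, rfl⟩ | h | ⟨h, rfl⟩)
    · exact ⟨q, mem_newR.mpr (Or.inl (mem_erase.mp hq)), rfl⟩
    · exact ⟨(p.1, j), mem_newR.mpr (Or.inr (Or.inl ⟨j, h, rfl⟩)), rfl⟩
    · obtain ⟨y, hy⟩ := Option.ne_none_iff_exists'.mp h
      exact ⟨(y, p.2), mem_newR.mpr (Or.inr (Or.inr ⟨y, hy, rfl⟩)), rfl⟩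

lemma starts_newR {R : Finset (ℕ × ℕ)} (hV : Valid M R) {p : ℕ × ℕ} (hp : p ∈ R)
    {c i : Option ℕ} (j : ℕ) : (∀ q ∈ newR R p c i, q.1 ≠ j) ↔
      ((∀ q ∈ R, q.1 ≠ j) ∨ j = p.1) ∧ ¬ (c ≠ none ∧ j = p.1) ∧ i ≠ some j := by
  rw [← hV.starts_erase hp]
  constructor
  · intro h
    refine ⟨?_, ?_, ?_⟩
    · intro q hq
      exact h q (mem_newR.mpr (Or.inl (mem_erase.mp hq)))
    · rintro ⟨h1, h2⟩
      obtain ⟨x, hx⟩ := Option.ne_none_iff_exists'.mp h1
      exact h (p.1, x) (mem_newR.mpr (Or.inr (Or.inl ⟨x, hx, rfl⟩))) h2.symm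
    · intro h1
      exact h (j, p.2) (mem_newR.mpr (Or.inr (Or.inr ⟨j, h1, rfl⟩))) rfl
  · rintro ⟨h1, h2, h3⟩ q hq hqj
    rw [mem_newR] at hq
    rcases hq with ⟨hqp, hq⟩ | ⟨x, hx, rfl⟩ | ⟨y, hy, rfl⟩
    · exact h1 q (mem_erase.mpr ⟨hqp, hq⟩) hqj
    · exact h2 ⟨by simp [hx], hqj.symm⟩
    · exact h3 (by rw [hy]; simpa using hqj)

/-- removed edge of an improving swap -/
def rmE (κ : ℕ → ℕ) (p : ℕ × ℕ) (i : Option ℕ) (r : ℕ) : ℕ × ℕ :=
  i.elim (p.2, r + 1) fun i => (i, κ i)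

/-- added edge of an improving swap -/
def adE (p : ℕ × ℕ) (c : Option ℕ) (k r : ℕ) : ℕ × ℕ :=
  c.elim (p.1, k) fun c => (c, r + 1)

def newκ (κ : ℕ → ℕ) (p : ℕ × ℕ) (c : Option ℕ) (k : ℕ) : ℕ → ℕ :=
  c.elim (Function.update κ p.1 k) fun _ => κ

lemma newκ_le {κ : ℕ → ℕ} {p : ℕ × ℕ} {c : Option ℕ} {k : ℕ} (hκ : ∀ j, κ j ≤ r) (hk : k ≤ r) (j : ℕ) :
    newκ κ p c k j ≤ r := by
  unfold newκ
  rcases c with _ | c
  · simp only [Option.elim_none]
    by_cases h : j = p.1
    · subst h; simpa using hk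
    · rw [Function.update_of_ne h]; exact hκ j
  · exact hκ j

lemma swap_enc {R : Finset (ℕ × ℕ)} (hV : Valid M R) {κ : ℕ → ℕ} (hκ : ∀ j, κ j ≤ r) {p : ℕ × ℕ}
    (hp : p ∈ R) {c i : Option ℕ} (hA : Adm p c i) {k : ℕ} (hk : k ≤ r) {f g : BE M r}
    (hf : (f.1.val, f.2.val) = rmE κ p i r) (hg : (g.1.val, g.2.val) = adE p c k r) :
    insert g ((enc M r R κ).erase f) = enc M r (newR R p c i) (newκ κ p c k) := by
  obtain ⟨h1, h2, h3⟩ := hA
  ext e
  rw [mem_insert, mem_erase, mem_enc, mem_enc, ends_newR hV hp, starts_newR hV hp, be_eq_iff,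
    Ne, be_eq_iff]
  unfold rmE at hf
  unfold adE at hg
  unfold newκ
  have hple := hV.le p hp
  have hpe : ∃ q ∈ R, q.2 = p.2 := ⟨p, hp, rfl⟩
  have hps : ¬ ∀ q ∈ R, q.1 ≠ p.1 := fun h => h p hp rfl
  have hκe := hκ e.1.val
  rcases c with _ | c <;> rcases i with _ | i <;>
    simp only [Option.elim_none, Option.elim_some, Prod.mk.injEq] at hf hg ⊢ <;>
    obtain ⟨hf1, hf2⟩ := hf <;> obtain ⟨hg1, hg2⟩ := hg <;> rw [hf1, hf2, hg1, hg2]
  · -- heal
    by_cases he : e.1.val = p.1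
    · rw [he]
      simp only [Function.update_self, true_and, reduceCtorEq, false_or, ne_eq,
        not_true_eq_false, false_and, and_false, not_false_eq_true, or_true, and_true]
      have : p.1 = e.1.val := he.symm
      by_cases hes : e.2.val = r + 1
      · rw [hes]
        have h4 : ¬ (r + 1 = k) := by omega
        have h5 : ¬ (r + 1 ≤ r) := by omega
        simp only [h4, h5, false_and, and_false, or_false, true_and]
        tauto
      · simp only [hes, false_and, and_false, not_false_eq_true, true_and, false_or]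
        constructor
        · rintro (h | h)
          · exact ⟨h, by omega⟩
          · exact absurd h.2.2 (by simpa using hps)
        · rintro ⟨h, _⟩
          exact Or.inl h
    · rw [Function.update_of_ne he]
      simp only [he, false_and, reduceCtorEq, false_or, ne_eq, not_true_eq_false, and_false,
        not_false_eq_true, or_false, and_true]
      constructor
      · rintro ⟨h4, h5 | h5⟩
        · exact Or.inl ⟨h5.1, h5.2, fun h => h4 ⟨h, h5.1⟩⟩
        · exact Or.inr h5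
      · rintro (h4 | h4)
        · exact ⟨fun h => h4.2.2 h.1, Or.inl ⟨h4.1, h4.2.1⟩⟩
        · exact ⟨fun h => by omega, Or.inr h4⟩
  · -- shift
    have h2i := h2 i rfl
    by_cases he : e.1.val = p.1
    · rw [he]
      have hne : ¬ (p.1 = i) := by omega
      have hne' : ¬ (i = p.1) := by omega
      simp only [Function.update_self, true_and, reduceCtorEq, false_or, ne_eq, hne, false_and,
        not_true_eq_false, false_and, and_false, not_false_eq_true, or_true, and_true, hne',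
        Option.some.injEq]
      by_cases hes : e.2.val = r + 1
      · rw [hes]
        have h4 : ¬ (r + 1 = k) := by omega
        have h5 : ¬ (r + 1 ≤ r) := by omega
        simp only [h4, h5, false_and, and_false, or_false, true_and, false_or]
        constructor
        · intro h
          by_cases h6 : p.1 = p.2
          · exact Or.inr h6
          · exact Or.inl ⟨h, h6⟩
        · rintro (h | h)
          · exact h.1
          · rw [h]; exact hpe
      · simp only [hes, false_and, and_false, not_false_eq_true, true_and, false_or]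
        constructor
        · rintro (h | h)
          · exact ⟨h, by omega⟩
          · exact absurd h.2.2 (by simpa using hps)
        · rintro ⟨h, _⟩
          exact Or.inl h
    · rw [Function.update_of_ne he]
      simp only [he, false_and, reduceCtorEq, false_or, ne_eq, not_true_eq_false, and_false,
        not_false_eq_true, or_false, and_true, true_and, Option.some.injEq]
      constructor
      · rintro ⟨h4, h5 | h5⟩
        · left
          refine ⟨h5.1, ?_⟩
          by_cases h6 : e.1.val = p.2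
          · exact Or.inr h6
          · exact Or.inl ⟨h5.2, h6⟩
        · right
          refine ⟨h5.1, h5.2.1, h5.2.2, ?_⟩
          intro h; apply h4
          exact ⟨h.symm, by rw [h5.1, h]⟩
      · rintro (h4 | h4)
        · refine ⟨fun h => by have := hκ i; omega, Or.inl ⟨h4.1, ?_⟩⟩
          rcases h4.2 with h | h
          · exact h.1
          · rw [h]; exact hpe
        · exact ⟨fun h => h4.2.2.2 h.1.symm, Or.inr ⟨h4.1, h4.2.1, h4.2.2.1⟩⟩
  · -- move
    have h1c := h1 c rfl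
    simp only [reduceCtorEq, ne_eq, not_true_eq_false, false_and, or_false, not_false_eq_true,
      true_and, and_true, Option.some.injEq]
    have hend : ¬ ∃ q ∈ R, q.2 = c := hV.no_end_inside hp h1c.1 h1c.2
    constructor
    · rintro (h4 | ⟨h4, h5 | h5⟩)
      · exact Or.inl ⟨h4.2, Or.inr h4.1.symm⟩
      · exact Or.inl ⟨h5.1, Or.inl ⟨h5.2, fun h => h4 ⟨h, h5.1⟩⟩⟩
      · exact Or.inr ⟨h5.1, h5.2.1, Or.inl h5.2.2, fun h => h5.2.2 p hp h.symm⟩
    · rintro (h4 | h4)
      · rcases h4.2 with h | h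
        · exact Or.inr ⟨fun h6 => h.2 h6.1, Or.inl ⟨h4.1, h.1⟩⟩
        · exact Or.inl ⟨h.symm, h4.1⟩
      · right
        refine ⟨fun h => by omega, Or.inr ⟨h4.1, h4.2.1, ?_⟩⟩
        rcases h4.2.2.1 with h | h
        · exact h
        · exact absurd h h4.2.2.2
  · -- split
    have h1c := h1 c rfl
    have h2i := h2 i rfl
    simp only [reduceCtorEq, ne_eq, false_and, not_false_eq_true,
      true_and, and_true, Option.some.injEq]
    constructor
    · rintro (h4 | ⟨h4, h5 | h5⟩)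
      · exact Or.inl ⟨h4.2, Or.inr (Or.inl h4.1.symm)⟩
      · left
        refine ⟨h5.1, ?_⟩
        by_cases h6 : e.1.val = p.2
        · exact Or.inr (Or.inr h6)
        · exact Or.inl ⟨h5.2, h6⟩
      · right
        refine ⟨h5.1, h5.2.1, Or.inl h5.2.2, fun h => h5.2.2 p hp h.symm, fun h => h4 ⟨h.symm, by rw [h5.1, h]⟩⟩
    · rintro (h4 | h4)
      · rcases h4.2 with h | h | h
        · exact Or.inr ⟨fun h6 => by have := hκ i; omega, Or.inl ⟨h4.1, h.1⟩⟩
        · exact Or.inl ⟨h.symm, h4.1⟩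
        · exact Or.inr ⟨fun h6 => by have := hκ i; omega, Or.inl ⟨h4.1, by rw [h]; exact hpe⟩⟩
      · right
        refine ⟨fun h => h4.2.2.2.2 h.1.symm, Or.inr ⟨h4.1, h4.2.1, ?_⟩⟩
        rcases h4.2.2.1 with h | h
        · exact h
        · exact absurd h h4.2.2.2.1

end blk

end Pool.Agent.Helper120.Ea
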